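import Mathlib
import Pool.Agent.H52.AD.Defs
import Pool.Agent.H52.AD.RedB
import Pool.Agent.H52.AD.RedIso

/-!
# Dimensions prime to six: definitions (H52 CS Defs)

Continues `Pool.Agent.H52.AD`.  `W` is a stable space of rational functions on `X`.

* `Gr hst`: the group of the operators `f ↦ f ∘ π⁻¹` on `W` (same number of elements as `Gm 𝒢 W`: `rediso_card`);
* `Pr c Y`: the types orthogonal to `Y`;
* `Ys 𝒢 W p`: the reductions modulo `p` of the images of the nonzero equivariant maps `W → (X → ℚ)`;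
* `EndP 𝒢 p W`: the endomorphisms of `red p W` that commute with `𝒢`, an algebra over `ZMod p`;
* `Triv 𝒢 W π`: `π ∈ 𝒢` acts trivially on `W`.
-/

namespace Pool.Agent.H52.CS

open Module Pool.Agent.H52.AD

variable {X : Type} {c : Equiv.Perm X} {𝒢 : Subgroup (Equiv.Perm X)} {W : Submodule ℚ (X → ℚ)}

/-- The group of the operators `f ↦ f ∘ π⁻¹` on `W`. -/
noncomputable def Gr (hst : Stb 𝒢 W) : Subgroup (W ≃ₗ[ℚ] W) := (rediso_op hst).range

lemma mem_Gr (hst : Stb 𝒢 W) (γ : W ≃ₗ[ℚ] W) :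
    γ ∈ Gr hst ↔ ∃ π ∈ 𝒢, ∀ (f : W) (x : X), (γ f : X → ℚ) x = (f : X → ℚ) (π⁻¹ x) := by
  constructor
  · rintro ⟨π, rfl⟩
    exact ⟨π, π.2, fun f x => rfl⟩
  · rintro ⟨π, hπ, h⟩
    refine ⟨⟨π, hπ⟩, ?_⟩
    ext f x
    rw [h]
    rfl

lemma card_Gr (hst : Stb 𝒢 W) : Nat.card (Gr hst) = Nat.card (Gm 𝒢 W) := rediso_card hst

open Classical in
/-- The types orthogonal to `Y`. -/
def Pr {F : Type*} [Field F] [Fintype X] (c : Equiv.Perm X) (Y : Submodule F (X → F)) :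
    Set (Set X) :=
  {Φ | (∀ x, c x ∈ Φ ↔ x ∉ Φ) ∧ ∀ f ∈ Y, ∑ x, (if x ∈ Φ then f x else 0) = 0}

/-- The reductions modulo `p` of the images of the nonzero equivariant maps. -/
def Ys (𝒢 : Subgroup (Equiv.Perm X)) (W : Submodule ℚ (X → ℚ)) (p : ℕ) :
    Set (Submodule (ZMod p) (X → ZMod p)) :=
  {Y | ∃ φ : W →ₗ[ℚ] (X → ℚ), φ ≠ 0 ∧ Eqv 𝒢 φ ∧ Y = red p (LinearMap.range φ)}

/-- The endomorphisms of `red p W` that commute with `𝒢`. -/
def EndP (𝒢 : Subgroup (Equiv.Perm X)) (p : ℕ) [Fact p.Prime] (W : Submodule ℚ (X → ℚ)) :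
    Subalgebra (ZMod p) (Module.End (ZMod p) (red p W)) where
  carrier := {φ | ∀ π ∈ 𝒢, ∀ f f' : red p W,
    (∀ x, (f' : X → ZMod p) x = (f : X → ZMod p) (π x)) →
    ∀ x, (φ f' : X → ZMod p) x = (φ f : X → ZMod p) (π x)}
  mul_mem' := by
    intro a b ha hb π hπ f f' h x
    exact ha π hπ (b f) (b f') (hb π hπ f f' h) x
  add_mem' := by
    intro a b ha hb π hπ f f' h x
    change (a f' : X → ZMod p) x + (b f' : X → ZMod p) x =
      (a f : X → ZMod p) (π x) + (b f : X → ZMod p) (π x)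
    rw [ha π hπ f f' h x, hb π hπ f f' h x]
  algebraMap_mem' := by
    intro r π hπ f f' h x
    change r * (f' : X → ZMod p) x = r * (f : X → ZMod p) (π x)
    rw [h x]

lemma mem_EndP (p : ℕ) [Fact p.Prime] (φ : Module.End (ZMod p) (red p W)) :
    φ ∈ EndP 𝒢 p W ↔ ∀ π ∈ 𝒢, ∀ f f' : red p W,
      (∀ x, (f' : X → ZMod p) x = (f : X → ZMod p) (π x)) →
      ∀ x, (φ f' : X → ZMod p) x = (φ f : X → ZMod p) (π x) := Iff.rfl

/-- `π ∈ 𝒢` acts trivially on `W`. -/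
def Triv (𝒢 : Subgroup (Equiv.Perm X)) (W : Submodule ℚ (X → ℚ)) (π : Equiv.Perm X) : Prop :=
  π ∈ 𝒢 ∧ ∀ f ∈ W, ∀ x, f (π x) = f x

end Pool.Agent.H52.CS
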