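import Mathlib
import Pool.Agent.H52.AD.GenX
import Pool.Agent.H52.AD.Final
import Pool.Agent.H52.AD.Schur
import Pool.Agent.H52.AD.Dims
import Pool.Agent.H52.CS.Defs

/-!
# Simple spaces of an abelian subfield (module H52 CS GalAb)

`K` a CM field, `F` a subfield that is Galois over `ℚ` with commutative group, `W` simple with `W ≤ VF F`: then
`dim Endo = dim W`.

PROOF.  (1) The operators commute: for `σ, τ ∈ autGrp K` and `f ∈ VF F`, `f (σ (τ x)) = f (τ (σ x))` for all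
embeddings `x`: `σ` and `τ` are composition with automorphisms `s`, `t` of `ℂ` (definition of `autGrp`), and
the embeddings `s ∘ t ∘ x` and `t ∘ s ∘ x` agree on `F`: as `F` is normal over `ℚ`, `y ∘ x|F` has the same
image as `x|F` for every automorphism `y` of `ℂ`, so `y (x a) = x (y' a)` for `a ∈ F` with an automorphism `y'` of
`F` (`AlgHom.restrictNormal`, `AlgEquiv.restrictNormal`; see the proof of `gal_of_VF` in `AD/GenX.lean`), and
`s t (x a) = x (s' t' a)` (because `t (x a) = x (t' a)` and `t' a ∈ F`), `t s (x a) = x (t' s' a)`, and `s' t' = t' s'`.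
(2) So for `σ ∈ autGrp K` the operator `T_σ f = f ∘ σ` on `W` is in `Endo (autGrp K) W`.  Let `w ∈ W`, `w ≠ 0`.
The evaluation `Endo → W`, `φ ↦ φ w`, is linear; it is injective (`schur_endo`: a nonzero `φ` is bijective) and
its image contains all `w ∘ σ`, which span a nonzero stable subspace of `W`, so all of `W` (`Smp`); so it is
bijective and the dimensions are equal.
-/

open NumberField Module

namespace Pool.Agent.H52.CS

open Pool.Agent.H52.MF Pool.Agent.H52.AD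

variable {K : Type} [Field K] [NumberField K]

/-- A shortcut instance. -/
@[reducible] private noncomputable def galabGroup (W : Submodule ℚ ((K →+* ℂ) → ℚ)) :
    AddCommGroup (W →ₗ[ℚ] W) := LinearMap.addCommGroup

/-- automorphisms of `ℂ` act on the image of a normal subfield through automorphisms of it -/
theorem galab_aut (F : IntermediateField ℚ K) (hF : Normal ℚ F) (x : K →+* ℂ) (t : ℂ ≃+* ℂ)
    (halg : Algebra.IsAlgebraic ℚ F) :
    ∃ t' : F ≃ₐ[ℚ] F, ∀ a : F, x ((t' a : F) : K) = t (x (a : K)) := by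
  obtain ⟨y, hy⟩ : ∃ y : F →ₐ[ℚ] ℂ, ∀ a : F, y a = t (x (a : K)) :=
    ⟨((t : ℂ →+* ℂ).comp (x.comp (algebraMap F K))).toRatAlgHom, fun _ => rfl⟩
  letI : Algebra F ℂ := (x.comp (algebraMap F K)).toAlgebra
  have ht : IsScalarTower ℚ F ℂ := IsScalarTower.of_algebraMap_eq (fun r => by
    rw [eq_ratCast, eq_ratCast, map_ratCast])
  refine ⟨AlgEquiv.ofBijective (y.restrictNormal F)
    (AlgHom.normal_bijective ℚ F F (y.restrictNormal F)), fun a => ?_⟩
  have h := y.restrictNormal_commutes F a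
  rw [← hy]
  exact h

/-- the operators commute on functions that depend on the restriction to `F` only -/
theorem galab_comm (F : IntermediateField ℚ K) (hF : IsGalois ℚ F)
    (hab : ∀ σ τ : F ≃ₐ[ℚ] F, σ * τ = τ * σ) (f : (K →+* ℂ) → ℚ) (hf : f ∈ VF F)
    (σ : Equiv.Perm (K →+* ℂ)) (hσ : σ ∈ autGrp K) (τ : Equiv.Perm (K →+* ℂ))
    (hτ : τ ∈ autGrp K) (x : K →+* ℂ) : f (σ (τ x)) = f (τ (σ x)) := by
  obtain ⟨s, rfl⟩ := hσ
  obtain ⟨t, rfl⟩ := hτ
  apply hf
  intro a ha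
  have hn : Normal ℚ F := hF.to_normal
  obtain ⟨s', hs'⟩ := galab_aut F hn x s inferInstance
  obtain ⟨t', ht'⟩ := galab_aut F hn x t inferInstance
  show s (t (x a)) = t (s (x a))
  have h1 : t (x a) = x ((t' ⟨a, ha⟩ : F) : K) := (ht' ⟨a, ha⟩).symm
  have h2 : s (x a) = x ((s' ⟨a, ha⟩ : F) : K) := (hs' ⟨a, ha⟩).symm
  rw [h1, h2, ← hs', ← ht']
  have h3 := hab s' t'
  have h4 : s' (t' ⟨a, ha⟩) = t' (s' ⟨a, ha⟩) := by
    have h5 := DFunLike.congr_fun h3 ⟨a, ha⟩
    exact h5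
  rw [h4]

theorem gal_ab (c : Equiv.Perm (K →+* ℂ)) (W : Submodule ℚ ((K →+* ℂ) → ℚ))
    (hW : Smp c (autGrp K) W) (F : IntermediateField ℚ K) (hF : IsGalois ℚ F)
    (hab : ∀ σ τ : F ≃ₐ[ℚ] F, σ * τ = τ * σ) (hWF : W ≤ VF F) :
    finrank ℚ (Endo (autGrp K) W) = finrank ℚ W := by
  have hst := hW.2.2.1
  letI := galabGroup W
  obtain ⟨w, hw, hw0⟩ := (Submodule.ne_bot_iff W).1 hW.1
  let ev : Endo (autGrp K) W →ₗ[ℚ] W :=
    { toFun := fun φ => (φ : W →ₗ[ℚ] W) ⟨w, hw⟩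
      map_add' := fun _ _ => rfl
      map_smul' := fun _ _ => rfl }
  have hev : ∀ φ, ev φ = (φ : W →ₗ[ℚ] W) ⟨w, hw⟩ := fun _ => rfl
  have hinj : Function.Injective ev := by
    rw [injective_iff_map_eq_zero]
    intro φ hφ
    by_contra hne
    have h1 : (φ : W →ₗ[ℚ] W) ≠ 0 := by
      intro h
      apply hne
      apply Subtype.ext
      rw [h]
      rfl
    have h2 := (schur_endo hW φ φ.2 h1).1.1
    have h3 : (⟨w, hw⟩ : W) = 0 := by
      apply h2
      rw [map_zero, ← hev, hφ]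
    exact hw0 (congrArg Subtype.val h3)
  have hT : ∀ σ ∈ autGrp K, ∃ T ∈ Endo (autGrp K) W, ∀ (f : W) (x : K →+* ℂ),
      (T f : (K →+* ℂ) → ℚ) x = (f : (K →+* ℂ) → ℚ) (σ x) := by
    intro σ hσ
    refine ⟨{ toFun := fun f => ⟨fun x => (f : (K →+* ℂ) → ℚ) (σ x), hst σ hσ f f.2⟩
              map_add' := fun _ _ => rfl
              map_smul' := fun _ _ => rfl }, ?_, fun _ _ => rfl⟩
    intro π hπ f f' h x
    change (f' : (K →+* ℂ) → ℚ) (σ x) = (f : (K →+* ℂ) → ℚ) (σ (π x))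
    rw [h]
    exact galab_comm F hF hab f (hWF f.2) π hπ σ hσ x
  have hsurj : Function.Surjective ev := by
    have hR : Stb (autGrp K) ((LinearMap.range ev).map W.subtype) := by
      intro π hπ f hf
      obtain ⟨v, ⟨φ, rfl⟩, rfl⟩ := (Submodule.mem_map).1 hf
      obtain ⟨T, hTE, hTf⟩ := hT π hπ
      refine (Submodule.mem_map).2 ⟨ev ⟨T ∘ₗ (φ : W →ₗ[ℚ] W), endo_comp _ _ hTE φ.2⟩,
        ⟨_, rfl⟩, ?_⟩
      funext x
      rw [hev]
      exact hTf _ x
    rcases hW.2.2.2 _ (Submodule.map_subtype_le W _) hR with h | h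
    · exfalso
      have h1 : w ∈ (LinearMap.range ev).map W.subtype :=
        (Submodule.mem_map).2 ⟨ev ⟨LinearMap.id, endo_id⟩, ⟨_, rfl⟩, rfl⟩
      rw [h] at h1
      exact hw0 ((Submodule.mem_bot ℚ).1 h1)
    · intro v
      have h1 : (v : (K →+* ℂ) → ℚ) ∈ (LinearMap.range ev).map W.subtype := by
        rw [h]
        exact v.2
      obtain ⟨v', ⟨φ, hφ⟩, hv'⟩ := (Submodule.mem_map).1 h1
      exact ⟨φ, hφ.trans (Subtype.ext hv')⟩
  exact (LinearEquiv.ofBijective ev ⟨hinj, hsurj⟩).finrank_eq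

end Pool.Agent.H52.CS
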