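import Mathlib
import Pool.Agent.H52.AD.Schur
import Pool.Agent.H52.AD.PrM
import Pool.Agent.H52.MF.Lin
import Pool.Agent.H52.CS.Defs

/-!
# Traces are integers of absolute value at most the dimension (module H52 CS TrBd)

`W` a stable space of rational functions on the finite set `X`, `γ` an operator `f ↦ f ∘ π⁻¹` on `W`, `π ∈ 𝒢`.
Then `trace γ` is an integer `m` with `|m| ≤ dim W`.

PROOF.  (Integer) `γ` maps the lattice `redB_L W = {w : X → ℤ | w ∈ W}` to itself; a `ℤ`-basis of it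
(`Module.Free.chooseBasis ℤ (redB_L W)`) gives a `ℚ`-basis of `W` (independent: see `red_finrank` in
`AD/RedB.lean`; spanning: every `f ∈ W` has a nonzero integer multiple in the lattice, `rediso_mult`), and in
this basis the matrix of `γ` has integer entries.  Or: the trace is a rational number and a sum of roots of
unity (`γ` has finite order), so integral over `ℤ`; or: apply `LinearMap.trace` to the base change of the
restriction to the lattice.
(Bound) Let `P` be the matrix of the orthogonal projection onto `W` (`exists_isPr`, see `AD/PrM.lean`, and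
`AD/EAvg.lean` for its use).  The trace of `γ` on `W` is the trace of the operator `γ ∘ P` on `X → ℚ`, that is
`∑ x, P (π⁻¹ x) x`.  As `P` is symmetric and `P * P = P`, `P x y = ∑ z, P x z P y z`, so
`|P x y| ≤ (P x x + P y y) / 2`, and `|trace γ| ≤ ∑ x, (P (π⁻¹ x) (π⁻¹ x) + P x x) / 2 = trace P = dim W`.
-/

namespace Pool.Agent.H52.CS

open Module Pool.Agent.H52.AD

variable {X : Type} [Fintype X] {c : Equiv.Perm X} {𝒢 : Subgroup (Equiv.Perm X)} {g : ℕ}
  {W : Submodule ℚ (X → ℚ)}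

/-- an integral basis of the lattice of the integer valued functions is a basis of the space -/
theorem TrBd_basis (W : Submodule ℚ (X → ℚ)) : ∃ (ι : Type) (_ : Fintype ι) (b : ι → X → ℤ),
    (∀ i, b i ∈ redB_L W) ∧ (∀ w ∈ redB_L W, ∃ a : ι → ℤ, w = ∑ i, a i • b i) ∧
    LinearIndependent ℚ (fun i => fun x => ((b i x : ℤ) : ℚ)) ∧
    Submodule.span ℚ (Set.range fun i => fun x => ((b i x : ℤ) : ℚ)) = W := by
  classical
  obtain ⟨ι, hι, b, hb⟩ : ∃ (ι : Type) (_ : Fintype ι) (b : ι → X → ℤ),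
      (∀ i, b i ∈ redB_L W) ∧ (LinearIndependent ℤ b ∧
        ∀ w ∈ redB_L W, ∃ a : ι → ℤ, w = ∑ i, a i • b i) := by
    let B := Module.Free.chooseBasis ℤ (redB_L W)
    refine ⟨Module.Free.ChooseBasisIndex ℤ (redB_L W), inferInstance, fun i => (B i : X → ℤ),
      fun i => (B i).2, ?_, ?_⟩
    · exact B.linearIndependent.map' (redB_L W).subtype (Submodule.ker_subtype _)
    · intro w hw
      refine ⟨fun i => B.repr ⟨w, hw⟩ i, ?_⟩
      have h := congrArg (fun v : redB_L W => (v : X → ℤ)) (B.sum_repr ⟨w, hw⟩)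
      simp only [Submodule.coe_sum, Submodule.coe_smul] at h
      exact h.symm
  obtain ⟨hbL, hind, hspan⟩ := hb
  refine ⟨ι, hι, b, hbL, hspan, ?_, ?_⟩
  · rw [← LinearIndependent.iff_fractionRing ℤ ℚ, Fintype.linearIndependent_iff]
    intro a ha i
    rw [Fintype.linearIndependent_iff] at hind
    refine hind a ?_ i
    funext x
    have h1 := congrFun ha x
    rw [Finset.sum_apply] at h1
    have h2 : ∀ i, (a i • fun x => ((b i x : ℤ) : ℚ)) x = ((a i * b i x : ℤ) : ℚ) := by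
      intro i
      rw [Pi.smul_apply, zsmul_eq_mul]
      push_cast
      rfl
    rw [Finset.sum_congr rfl fun i _ => h2 i, ← Int.cast_sum, Pi.zero_apply] at h1
    simp only [Finset.sum_apply, Pi.smul_apply, Pi.zero_apply, smul_eq_mul]
    exact_mod_cast h1
  · apply le_antisymm
    · rw [Submodule.span_le]
      rintro _ ⟨i, rfl⟩
      exact hbL i
    · intro f hf
      obtain ⟨D, z, hD, hz⟩ := Pool.Agent.H52.MF.int_multiples f
      have hD' : (D : ℚ) ≠ 0 := by exact_mod_cast hD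
      have hzW : z ∈ redB_L W := by
        rw [redB_mem]
        have h1 : (fun x => (z x : ℚ)) = (D : ℚ) • f := by
          funext x
          rw [Pi.smul_apply, smul_eq_mul, hz]
        rw [h1]
        exact W.smul_mem _ hf
      obtain ⟨a, ha⟩ := hspan z hzW
      have h2 : f = ∑ i, ((a i : ℚ) / D) • (fun x => ((b i x : ℤ) : ℚ)) := by
        funext x
        have h3 := congrFun ha x
        simp only [Finset.sum_apply, Pi.smul_apply, smul_eq_mul] at h3
        have h4 : (z x : ℚ) = ∑ i, (a i : ℚ) * (b i x : ℚ) := by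
          rw [h3]
          push_cast
          rfl
        rw [hz] at h4
        simp only [Finset.sum_apply, Pi.smul_apply, smul_eq_mul]
        have h5 : f x = (∑ i, (a i : ℚ) * (b i x : ℚ)) / D := by
          rw [← h4]
          field_simp
        rw [h5, Finset.sum_div]
        refine Finset.sum_congr rfl fun i _ => ?_
        ring
      rw [h2]
      refine Submodule.sum_mem _ fun i _ => Submodule.smul_mem _ _ (Submodule.subset_span ⟨i, rfl⟩)

/-- the trace is an integer -/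
theorem TrBd_int (hst : Stb 𝒢 W) (γ : W ≃ₗ[ℚ] W) (hγ : γ ∈ Gr hst) :
    ∃ m : ℤ, LinearMap.trace ℚ W (γ : W →ₗ[ℚ] W) = m := by
  classical
  obtain ⟨π, hπ, hγ'⟩ := (mem_Gr hst γ).mp hγ
  obtain ⟨ι, hι, b, hbL, hspan, hindQ, hspanQ⟩ := TrBd_basis W
  let v : ι → W := fun i => ⟨fun x => ((b i x : ℤ) : ℚ), hbL i⟩
  have hv : LinearIndependent ℚ v := by
    have h1 : (fun i => fun x => ((b i x : ℤ) : ℚ)) = W.subtype ∘ v := rfl
    rw [h1] at hindQ
    exact hindQ.of_comp _
  have hs : ⊤ ≤ Submodule.span ℚ (Set.range v) := by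
    rintro ⟨f, hf⟩ -
    have h2 : W.subtype '' Set.range v = Set.range fun i => fun x => ((b i x : ℤ) : ℚ) := by
      rw [← Set.range_comp]
      rfl
    have h3 : f ∈ (Submodule.span ℚ (Set.range v)).map W.subtype := by
      rw [Submodule.map_span, h2, hspanQ]
      exact hf
    obtain ⟨y, hy, hyf⟩ := h3
    have h4 : y = ⟨f, hf⟩ := Subtype.ext hyf
    rw [← h4]
    exact hy
  let B : Basis ι ℚ W := Basis.mk hv hs
  have hB : ∀ i, B i = v i := fun i => by rw [Basis.mk_apply]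
  have hc : ∀ i, ∃ a : ι → ℤ, γ (B i) = ∑ j, (a j : ℚ) • B j := by
    intro i
    have h3 : (fun x => b i (π⁻¹ x)) ∈ redB_L W := by
      rw [redB_mem]
      exact hst _ (𝒢.inv_mem hπ) _ (hbL i)
    obtain ⟨a, ha⟩ := hspan _ h3
    refine ⟨a, ?_⟩
    apply Subtype.ext
    funext x
    rw [hγ', hB]
    have h4 := congrFun ha x
    simp only [Finset.sum_apply, Pi.smul_apply, smul_eq_mul] at h4
    change ((b i (π⁻¹ x) : ℤ) : ℚ) = _
    rw [h4, Submodule.coe_sum, Finset.sum_apply]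
    push_cast
    refine Finset.sum_congr rfl fun j _ => ?_
    rw [hB]
    rfl
  choose a ha using hc
  refine ⟨∑ i, a i i, ?_⟩
  rw [LinearMap.trace_eq_matrix_trace ℚ B, Matrix.trace, Int.cast_sum]
  refine Finset.sum_congr rfl fun i _ => ?_
  rw [Matrix.diag_apply, LinearMap.toMatrix_apply, LinearEquiv.coe_coe, ha i, map_sum,
    Finsupp.finsetSum_apply, Finset.sum_eq_single i]
  · rw [map_smul, Basis.repr_self, Finsupp.smul_apply, Finsupp.single_eq_same, smul_eq_mul, mul_one]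
  · intro j _ hj
    rw [map_smul, Basis.repr_self, Finsupp.smul_apply, Finsupp.single_eq_of_ne (Ne.symm hj),
      smul_zero]
  · intro h
    exact absurd (Finset.mem_univ _) h

/-- the trace is at most the dimension -/
theorem TrBd_bd (hst : Stb 𝒢 W) (γ : W ≃ₗ[ℚ] W) (hγ : γ ∈ Gr hst) :
    |LinearMap.trace ℚ W (γ : W →ₗ[ℚ] W)| ≤ (finrank ℚ W : ℚ) := by
  classical
  obtain ⟨π, hπ, hγ'⟩ := (mem_Gr hst γ).mp hγ
  obtain ⟨P, hP⟩ := exists_pr W
  have hA : P * (pm ℚ π⁻¹ * P) = pm ℚ π⁻¹ * P := by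
    rw [← Matrix.mul_assoc, hP.comm hst π⁻¹ (𝒢.inv_mem hπ), Matrix.mul_assoc, hP.idem]
  have h1 := trace_restrict hP (pm ℚ π⁻¹ * P) hA (γ : W →ₗ[ℚ] W) (by
    intro w
    rw [← Matrix.mulVec_mulVec, hP.2.2 _ w.2, pm_mulVec]
    funext x
    exact (hγ' w x).symm)
  have h2 : (pm ℚ π⁻¹ * P).trace = ∑ x, P (π⁻¹ x) x := by
    rw [Matrix.trace]
    refine Finset.sum_congr rfl fun x _ => ?_
    rw [Matrix.diag_apply, Matrix.mul_apply, Finset.sum_eq_single (π⁻¹ x)]
    · unfold pm
      rw [if_pos rfl, one_mul]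
    · intro y _ hy
      unfold pm
      rw [if_neg (Ne.symm hy), zero_mul]
    · intro h
      exact absurd (Finset.mem_univ _) h
  have h3 : ∀ x y, P x y = ∑ z, P x z * P y z := by
    intro x y
    have h4 : P = P * P.transpose := by rw [hP.1, hP.idem]
    conv_lhs => rw [h4]
    rw [Matrix.mul_apply]
    rfl
  have h5 : ∀ x y, |P x y| ≤ (P x x + P y y) / 2 := by
    intro x y
    rw [h3 x y, h3 x x, h3 y y, ← Finset.sum_add_distrib, Finset.sum_div]
    refine (Finset.abs_sum_le_sum_abs _ _).trans (Finset.sum_le_sum fun z _ => ?_)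
    rw [abs_le]
    constructor
    · nlinarith [sq_nonneg (P x z + P y z)]
    · nlinarith [sq_nonneg (P x z - P y z)]
  have h6 : ∑ x, P (π⁻¹ x) (π⁻¹ x) = ∑ x, P x x := Equiv.sum_comp π⁻¹ fun x => P x x
  rw [← h1, h2]
  calc |∑ x, P (π⁻¹ x) x| ≤ ∑ x, |P (π⁻¹ x) x| := Finset.abs_sum_le_sum_abs _ _
    _ ≤ ∑ x, (P (π⁻¹ x) (π⁻¹ x) + P x x) / 2 := Finset.sum_le_sum fun x _ => h5 _ _
    _ = ∑ x, P x x := by
        rw [← Finset.sum_div, Finset.sum_add_distrib, h6]
        ring
    _ = (finrank ℚ W : ℚ) := by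
        rw [← hP.trace_eq]
        rfl

theorem tr_int_bd (hst : Stb 𝒢 W) (γ : W ≃ₗ[ℚ] W) (hγ : γ ∈ Gr hst) :
    ∃ m : ℤ, LinearMap.trace ℚ W (γ : W →ₗ[ℚ] W) = m ∧ |m| ≤ finrank ℚ W := by
  obtain ⟨m, hm⟩ := TrBd_int hst γ hγ
  refine ⟨m, hm, ?_⟩
  have h := TrBd_bd hst γ hγ
  rw [hm, ← Int.cast_abs] at h
  exact_mod_cast h

end Pool.Agent.H52.CS
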