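import Mathlib
import Pool.Agent.H52.AD.Base
import Pool.Agent.H52.AD.Dims
import Pool.Agent.H52.CS.Defs
import Pool.Agent.H52.CS.TrBd

/-!
# Simple spaces of dimension two that are not of Galois type (module H52 CS RootTwo)

`W` simple of dimension two, not `Gal`.  (1) If `w x = w y` for all `w ∈ W` then `y = π x` for some `π` that acts
trivially on `W`.  (2) The number of the different functionals `w ↦ w x` on `W`, `x ∈ X`, is `4` or `6`.

PROOF.  The form `⟨u, v⟩ = ∑ x, u x * v x` is positive definite on `W` and invariant under `Γ = Gr`.  Let `r_x ∈ W`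
be the vector with `⟨r_x, w⟩ = w x` for all `w ∈ W`.  If `γ ∈ Γ` is `f ↦ f ∘ π⁻¹` then `γ r_x = r_(π x)`
(`⟨γ r_x, w⟩ = ⟨r_x, γ⁻¹ w⟩ = (w ∘ π) x`), so all `r_x` have the same length `⟨r_x, r_x⟩ = ρ`
(transitivity), `ρ > 0` since otherwise `W = ⊥`.
Fix `x`.  Let `H_x` be the stabiliser of `x` in `𝒢`.  It fixes `r_x`.  As `W` is not of Galois type,
`ν = dim (Fix 𝒢 x W)` is not `2` (`fix_eq_dim`), and it is positive (`fix_pos`), so it is `1`, and
`Fix 𝒢 x W = ℚ r_x`.  Let `a_x ∈ W` be a nonzero vector orthogonal to `r_x`.  An orthogonal operator that fixes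
`r_x` sends `a_x` to `± a_x`; so it is `1` or the reflection `s_x` (`r_x ↦ r_x`, `a_x ↦ - a_x`).  Some element
of `H_x` acts as `s_x` (otherwise `H_x` acts trivially on `W`).
(1) If `r_x = r_y`, `y = π x`, then the operator of `π` fixes `r_x` (`γ r_x = r_(π x) = r_x`), so it is `1` or
`s_x`, the operator of some `h ∈ H_x`; in the second case replace `π` by `π h⁻¹`, which maps `x` to `y` and acts
trivially.
(2) For `x, y ∈ X` let `t = 2 ⟨r_x, r_y⟩ / ρ`, a rational number, `|t| ≤ 2`.  The trace of `s_x s_y` is `t² - 2`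
(product of two reflections of the plane: in the orthogonal basis `r_x, a_x`, or from
`s_y w = 2 (⟨r_y, w⟩/ρ) r_y - w`), and it is an integer (`tr_int_bd`), so `t²` is an integer and `t` is an integer:
`t ∈ {0, ± 1, ± 2}`.  Let `R` be the set of the vectors `r_x`; `|R|` is the number of the functionals.  Fix
`r ∈ R` and `a` orthogonal to `r`; a vector of `R` is `u r + v a` with `u = t/2 ∈ {0, ± 1/2, ± 1}` and
`v² ⟨a, a⟩ = (1 - u²) ρ`.  So for `u = ± 1` there is at most one vector (`± r`), and for each of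
`u = 0, 1/2, -1/2` there are at most two.  If there are a vector with `u = 0`, `v a`, and a vector with
`u' = ± 1/2`, `u' r + v' a`, then `τ = ⟨v a, u' r + v' a⟩/ρ = v v' ⟨a, a⟩/ρ` has `τ² = 1 · 3/4`, but `2 τ` is an integer:
impossible, since `(2 τ)² = 3`.  So `|R| ≤ 4` (only `u = 0, ± 1`) or `|R| ≤ 6` (only `u = ± 1/2, ± 1`).
`R` is closed under `-1` (`r_(c x) = - r_x`, odd functions) and spans `W` (it is stable), so it contains
a vector that is not a multiple of `r` and `|R| ≥ 4`.  `|R|` is even (`r ↦ -r`), so it is `4` or `6`.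
(In the second case, more directly: if some vector has `u = ± 1/2`, then the vectors `± (u r + v a)` and
`± (u r - v a)` (the image under `s_x`) are in `R`, and `|R| = 6`; in the first case `R = {± r, ± v a}`.)
-/

namespace Pool.Agent.H52.CS

open Module Pool.Agent.H52.AD

variable {X : Type} [Fintype X] {c : Equiv.Perm X} {𝒢 : Subgroup (Equiv.Perm X)} {g : ℕ}
  {W : Submodule ℚ (X → ℚ)}

open Matrix

omit [Fintype X] in
/-- The operator `f ↦ f ∘ π⁻¹`. -/
private def rt_T (π : Equiv.Perm X) (f : X → ℚ) : X → ℚ := fun z => f (π⁻¹ z)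

omit [Fintype X] in
private theorem RootTwo_T_mem (hst : Stb 𝒢 W) {π : Equiv.Perm X} (hπ : π ∈ 𝒢) {f : X → ℚ}
    (hf : f ∈ W) : rt_T π f ∈ W := hst _ (𝒢.inv_mem hπ) f hf

omit [Fintype X] in
private theorem RootTwo_T_mul (π σ : Equiv.Perm X) (f : X → ℚ) :
    rt_T (π * σ) f = rt_T π (rt_T σ f) := by
  funext z
  show f ((π * σ)⁻¹ z) = f (σ⁻¹ (π⁻¹ z))
  rw [_root_.mul_inv_rev, Equiv.Perm.mul_apply]

omit [Fintype X] in
private theorem RootTwo_T_one (f : X → ℚ) : rt_T (1 : Equiv.Perm X) f = f := by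
  funext z
  show f ((1 : Equiv.Perm X)⁻¹ z) = f z
  rw [inv_one, Equiv.Perm.one_apply]

omit [Fintype X] in
private theorem RootTwo_T_lin (π : Equiv.Perm X) (s t : ℚ) (f f' : X → ℚ) :
    rt_T π (s • f + t • f') = s • rt_T π f + t • rt_T π f' := by
  funext z
  rfl

private theorem RootTwo_T_dot (π : Equiv.Perm X) (f f' : X → ℚ) :
    rt_T π f ⬝ᵥ rt_T π f' = f ⬝ᵥ f' := by
  unfold rt_T dotProduct
  exact Equiv.sum_comp π⁻¹ (fun z => f z * f' z)

private theorem RootTwo_T_dot' (π : Equiv.Perm X) (f f' : X → ℚ) :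
    rt_T π⁻¹ f ⬝ᵥ f' = f ⬝ᵥ rt_T π f' := by
  rw [← RootTwo_T_dot π, ← RootTwo_T_mul, mul_inv_cancel, RootTwo_T_one]

omit [Fintype X] in
private theorem RootTwo_triv_iff {π : Equiv.Perm X} (hπ : π ∈ 𝒢) :
    (∀ f ∈ W, rt_T π f = f) → Triv 𝒢 W π := by
  intro h
  refine ⟨hπ, fun f hf x => ?_⟩
  have h1 := congrFun (h f hf) (π x)
  change f (π⁻¹ (π x)) = f (π x) at h1
  have h2 : π⁻¹ (π x) = x := by simp
  rw [h2] at h1
  exact h1.symm

/-- The representing vectors. -/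
private theorem RootTwo_rep (W : Submodule ℚ (X → ℚ)) :
    ∃ r : X → (X → ℚ), (∀ x, r x ∈ W) ∧ ∀ x, ∀ w ∈ W, w ⬝ᵥ r x = w x := by
  classical
  obtain ⟨P, hP⟩ := exists_pr W
  refine ⟨fun x => P *ᵥ Pi.single x 1, fun x => hP.2.1 _, fun x w hw => ?_⟩
  rw [Matrix.dotProduct_mulVec, ← Matrix.mulVec_transpose, hP.1, hP.2.2 _ hw,
    dotProduct_single, mul_one]

private theorem RootTwo_uniq {z z' : X → ℚ} (hz : z ∈ W) (hz' : z' ∈ W)
    (h : ∀ w ∈ W, w ⬝ᵥ z = w ⬝ᵥ z') : z = z' := by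
  have h1 := h (z - z') (W.sub_mem hz hz')
  have h2 : (z - z') ⬝ᵥ (z - z') = 0 := by
    rw [dotProduct_sub, h1, sub_self]
  exact sub_eq_zero.1 (dotProduct_self_eq_zero.1 h2)

private theorem RootTwo_rep_T {r : X → (X → ℚ)} (hr : ∀ x, r x ∈ W)
    (hr' : ∀ x, ∀ w ∈ W, w ⬝ᵥ r x = w x) (hst : Stb 𝒢 W) {π : Equiv.Perm X} (hπ : π ∈ 𝒢)
    (x : X) : rt_T π (r x) = r (π x) := by
  apply RootTwo_uniq (RootTwo_T_mem hst hπ (hr x)) (hr _)
  intro w hw
  rw [hr' _ w hw, ← RootTwo_T_dot', hr' x _ (RootTwo_T_mem hst (𝒢.inv_mem hπ) hw)]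
  show w ((π⁻¹)⁻¹ x) = w (π x)
  rw [inv_inv]

private theorem RootTwo_pos {f : X → ℚ} (hf : f ≠ 0) : 0 < f ⬝ᵥ f := by
  have h1 : 0 ≤ f ⬝ᵥ f := Finset.sum_nonneg fun i _ => mul_self_nonneg _
  rcases h1.lt_or_eq with h | h
  · exact h
  · exact absurd (dotProduct_self_eq_zero.1 h.symm) hf

/-- Orthogonal coordinates in the plane. -/
private theorem RootTwo_plane (hd : finrank ℚ W = 2) {r : X → ℚ} (hr : r ∈ W) (hr0 : r ≠ 0) :
    ∃ a ∈ W, a ≠ 0 ∧ a ⬝ᵥ r = 0 ∧
      ∀ w ∈ W, w = ((w ⬝ᵥ r) / (r ⬝ᵥ r)) • r + ((w ⬝ᵥ a) / (a ⬝ᵥ a)) • a := by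
  have hrr := RootTwo_pos hr0
  obtain ⟨w1, hw1, hw1'⟩ : ∃ w1 ∈ W, w1 ∉ Submodule.span ℚ {r} := by
    by_contra hcon
    push Not at hcon
    have h1 : W ≤ Submodule.span ℚ {r} := fun w hw => hcon w hw
    have h2 := Submodule.finrank_mono h1
    rw [finrank_span_singleton hr0, hd] at h2
    omega
  set a : X → ℚ := w1 - ((w1 ⬝ᵥ r) / (r ⬝ᵥ r)) • r with ha
  have haW : a ∈ W := W.sub_mem hw1 (W.smul_mem _ hr)
  have ha0 : a ≠ 0 := by
    intro h
    apply hw1'
    rw [Submodule.mem_span_singleton]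
    exact ⟨_, (sub_eq_zero.1 (ha ▸ h)).symm⟩
  have har : a ⬝ᵥ r = 0 := by
    rw [ha, sub_dotProduct, smul_dotProduct, smul_eq_mul, div_mul_cancel₀ _ hrr.ne', sub_self]
  have haa := RootTwo_pos ha0
  refine ⟨a, haW, ha0, har, ?_⟩
  have hli : LinearIndependent ℚ ![r, a] := by
    rw [LinearIndependent.pair_iff]
    intro s t hst
    have h1 : (s • r + t • a) ⬝ᵥ r = 0 := by rw [hst, zero_dotProduct]
    have h2 : (s • r + t • a) ⬝ᵥ a = 0 := by rw [hst, zero_dotProduct]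
    rw [add_dotProduct, smul_dotProduct, smul_dotProduct, har, smul_zero, add_zero,
      smul_eq_mul] at h1
    rw [add_dotProduct, smul_dotProduct, smul_dotProduct, dotProduct_comm r a, har, smul_zero,
      zero_add, smul_eq_mul] at h2
    exact ⟨(mul_eq_zero.1 h1).resolve_right hrr.ne', (mul_eq_zero.1 h2).resolve_right haa.ne'⟩
  have hspan : Submodule.span ℚ (Set.range ![r, a]) = W := by
    apply Submodule.eq_of_le_of_finrank_eq
    · rw [Submodule.span_le]
      rintro _ ⟨i, rfl⟩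
      fin_cases i
      · exact hr
      · exact haW
    · rw [finrank_span_eq_card hli, Fintype.card_fin, hd]
  intro w hw
  rw [← hspan] at hw
  have hset : Set.range ![r, a] = {r, a} := by
    rw [Matrix.range_cons, Matrix.range_cons, Matrix.range_empty, Set.union_empty]
    rfl
  rw [hset, Submodule.mem_span_pair] at hw
  obtain ⟨p, q, rfl⟩ := hw
  have h1 : (p • r + q • a) ⬝ᵥ r = p * (r ⬝ᵥ r) := by
    rw [add_dotProduct, smul_dotProduct, smul_dotProduct, har, smul_zero, add_zero, smul_eq_mul]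
  have h2 : (p • r + q • a) ⬝ᵥ a = q * (a ⬝ᵥ a) := by
    rw [add_dotProduct, smul_dotProduct, smul_dotProduct, dotProduct_comm r a, har, smul_zero,
      zero_add, smul_eq_mul]
  rw [h1, h2, mul_div_cancel_right₀ _ hrr.ne', mul_div_cancel_right₀ _ haa.ne']

/-- An operator that fixes `r` is the identity or changes the sign of `a`. -/
private theorem RootTwo_refl (hst : Stb 𝒢 W) {r a : X → ℚ} (ha : a ∈ W)
    (ha0 : a ≠ 0) (har : a ⬝ᵥ r = 0)
    (hsp : ∀ w ∈ W, w = ((w ⬝ᵥ r) / (r ⬝ᵥ r)) • r + ((w ⬝ᵥ a) / (a ⬝ᵥ a)) • a)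
    {π : Equiv.Perm X} (hπ : π ∈ 𝒢) (hfix : rt_T π r = r) (hne : ¬ ∀ f ∈ W, rt_T π f = f) :
    rt_T π a = - a := by
  have haa := RootTwo_pos ha0
  have h1 := hsp _ (RootTwo_T_mem hst hπ ha)
  have h2 : rt_T π a ⬝ᵥ r = 0 := by
    conv_lhs => rw [← hfix]
    rw [RootTwo_T_dot, har]
  rw [h2, zero_div, zero_smul, zero_add] at h1
  set l := (rt_T π a ⬝ᵥ a) / (a ⬝ᵥ a) with hl
  have h3 : l * l = 1 := by
    have h4 : rt_T π a ⬝ᵥ rt_T π a = a ⬝ᵥ a := RootTwo_T_dot _ _ _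
    rw [h1, smul_dotProduct, dotProduct_smul, smul_eq_mul, smul_eq_mul, ← mul_assoc] at h4
    exact mul_right_cancel₀ haa.ne' (h4.trans (one_mul _).symm)
  rcases mul_self_eq_one_iff.1 h3 with h | h
  · exfalso
    apply hne
    intro f hf
    have h5 := hsp f hf
    rw [h, one_smul] at h1
    rw [h5, RootTwo_T_lin, hfix, h1]
  · rw [h1, h, neg_smul, one_smul]

private theorem RootTwo_stab (hS : Sys c 𝒢 g) (hW : Smp c 𝒢 W) (hG : ¬ Gal 𝒢 W) (x : X) :
    ∃ h ∈ 𝒢, h x = x ∧ ¬ ∀ f ∈ W, rt_T h f = f := by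
  by_contra hcon
  push Not at hcon
  apply hG
  rw [← fix_eq_dim hS hW x]
  have hE : Fix 𝒢 x W = W := by
    apply le_antisymm (Fix_le 𝒢 x W)
    intro f hf
    rw [mem_Fix]
    refine ⟨hf, fun π hπ hx z => ?_⟩
    have h1 := congrFun (hcon π hπ hx f hf) (π z)
    change f (π⁻¹ (π z)) = f (π z) at h1
    have h2 : π⁻¹ (π z) = z := by simp
    rw [h2] at h1
    exact h1.symm
  rw [hE]

private theorem RootTwo_rep_ne (hS : Sys c 𝒢 g) (hW : Smp c 𝒢 W) {r : X → (X → ℚ)}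
    (hr : ∀ x, r x ∈ W) (hr' : ∀ x, ∀ w ∈ W, w ⬝ᵥ r x = w x) (x : X) : r x ≠ 0 := by
  intro h0
  apply hW.1
  rw [Submodule.eq_bot_iff]
  intro w hw
  funext y
  obtain ⟨π, hπ, hy⟩ := hS.trans x y
  have h1 : r y = 0 := by
    rw [← hy, ← RootTwo_rep_T hr hr' hW.2.2.1 hπ x, h0]
    funext z
    rfl
  rw [← hr' y w hw, h1, dotProduct_zero]
  rfl

theorem root_two_triv (hS : Sys c 𝒢 g) (hW : Smp c 𝒢 W) (hd : finrank ℚ W = 2)
    (hG : ¬ Gal 𝒢 W) (x y : X) (h : ∀ w ∈ W, w x = w y) : ∃ π, Triv 𝒢 W π ∧ π x = y := by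
  have hst := hW.2.2.1
  obtain ⟨r, hr, hr'⟩ := RootTwo_rep W
  have hr0 := RootTwo_rep_ne hS hW hr hr' x
  have hrr := RootTwo_pos hr0
  obtain ⟨a, ha, ha0, har, hsp⟩ := RootTwo_plane hd (hr x) hr0
  have hxy : r x = r y := by
    apply RootTwo_uniq (hr x) (hr y)
    intro w hw
    rw [hr' x w hw, hr' y w hw, h w hw]
  obtain ⟨π, hπ, hπx⟩ := hS.trans x y
  have hfix : rt_T π (r x) = r x := by
    rw [RootTwo_rep_T hr hr' hst hπ, hπx, hxy]
  by_cases htr : ∀ f ∈ W, rt_T π f = f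
  · exact ⟨π, RootTwo_triv_iff hπ htr, hπx⟩
  · obtain ⟨k, hk, hkx, hkn⟩ := RootTwo_stab hS hW hG x
    have hkfix : rt_T k (r x) = r x := by
      rw [RootTwo_rep_T hr hr' hst hk, hkx]
    have h1 := RootTwo_refl hst ha ha0 har hsp hπ hfix htr
    have h2 := RootTwo_refl hst ha ha0 har hsp hk hkfix hkn
    refine ⟨π * k⁻¹, RootTwo_triv_iff (𝒢.mul_mem hπ (𝒢.inv_mem hk)) ?_, ?_⟩
    · intro f hf
      have h3 : rt_T k⁻¹ (r x) = r x := by
        conv_lhs => rw [← hkfix]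
        rw [← RootTwo_T_mul, inv_mul_cancel, RootTwo_T_one]
      have h4 : rt_T k⁻¹ a = - a := by
        have h5 : rt_T k⁻¹ (rt_T k a) = a := by
          rw [← RootTwo_T_mul, inv_mul_cancel, RootTwo_T_one]
        rw [h2] at h5
        have h6 : rt_T k⁻¹ (-a) = - rt_T k⁻¹ a := rfl
        rw [h6] at h5
        exact neg_eq_iff_eq_neg.1 h5
      have h5 := hsp f hf
      rw [h5, RootTwo_T_mul, RootTwo_T_lin, RootTwo_T_lin, h3, hfix, h4]
      have h6 : rt_T π (-a) = - rt_T π a := rfl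
      rw [h6, h1, neg_neg]
    · rw [Equiv.Perm.mul_apply]
      have : k⁻¹ x = x := by
        rw [Equiv.Perm.inv_eq_iff_eq]
        exact hkx.symm
      rw [this, hπx]

/-- The trace in the basis `r, a`. -/
private theorem RootTwo_trace (hd : finrank ℚ W = 2) {r a : X → ℚ} (hr : r ∈ W) (ha : a ∈ W)
    (hrr : 0 < r ⬝ᵥ r) (haa : 0 < a ⬝ᵥ a) (har : a ⬝ᵥ r = 0) (γ : W →ₗ[ℚ] W)
    (p q p' q' : ℚ) (h1 : (γ ⟨r, hr⟩ : X → ℚ) = p • r + q • a)
    (h2 : (γ ⟨a, ha⟩ : X → ℚ) = p' • r + q' • a) : LinearMap.trace ℚ W γ = p + q' := by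
  have hli : LinearIndependent ℚ ![(⟨r, hr⟩ : W), ⟨a, ha⟩] := by
    rw [LinearIndependent.pair_iff]
    intro s t hst
    have hst' : s • r + t • a = 0 := by
      have := congrArg (Subtype.val) hst
      simpa using this
    have h1 : (s • r + t • a) ⬝ᵥ r = 0 := by rw [hst', zero_dotProduct]
    have h2 : (s • r + t • a) ⬝ᵥ a = 0 := by rw [hst', zero_dotProduct]
    rw [add_dotProduct, smul_dotProduct, smul_dotProduct, har, smul_zero, add_zero,
      smul_eq_mul] at h1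
    rw [add_dotProduct, smul_dotProduct, smul_dotProduct, dotProduct_comm r a, har, smul_zero,
      zero_add, smul_eq_mul] at h2
    exact ⟨(mul_eq_zero.1 h1).resolve_right hrr.ne', (mul_eq_zero.1 h2).resolve_right haa.ne'⟩
  let b := basisOfLinearIndependentOfCardEqFinrank hli (by rw [Fintype.card_fin, hd])
  have hb0 : b 0 = ⟨r, hr⟩ := by
    simp [b]
  have hb1 : b 1 = ⟨a, ha⟩ := by
    simp [b]
  have h1' : γ (b 0) = p • b 0 + q • b 1 := by
    rw [hb0, hb1]
    exact Subtype.ext h1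
  have h2' : γ (b 1) = p' • b 0 + q' • b 1 := by
    rw [hb0, hb1]
    exact Subtype.ext h2
  rw [LinearMap.trace_eq_matrix_trace ℚ b, Matrix.trace_fin_two, LinearMap.toMatrix_apply,
    LinearMap.toMatrix_apply, h1', h2']
  simp

private theorem RootTwo_int {q : ℚ} {m : ℤ} (h : q ^ 2 = m) : ∃ k : ℤ, q = k := by
  have h1 : (q ^ 2).den = 1 := by rw [h]; exact Rat.den_intCast m
  rw [Rat.den_pow] at h1
  have h2 : q.den = 1 := by
    rcases Nat.pow_eq_one.1 h1 with h3 | h3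
    · exact h3
    · exact absurd h3 (by norm_num)
  exact ⟨q.num, (Rat.den_eq_one_iff q).1 h2 |>.symm⟩

/-- The coordinates of the representing vectors. -/
private theorem RootTwo_coord (hS : Sys c 𝒢 g) (hW : Smp c 𝒢 W) (hd : finrank ℚ W = 2)
    (hG : ¬ Gal 𝒢 W) {r : X → (X → ℚ)} (hr : ∀ x, r x ∈ W)
    (hr' : ∀ x, ∀ w ∈ W, w ⬝ᵥ r x = w x) (x y : X) :
    ∃ k : ℤ, 2 * ((r y ⬝ᵥ r x) / (r x ⬝ᵥ r x)) = k ∧ |k| ≤ 2 := by
  have hst := hW.2.2.1
  have hr0 := RootTwo_rep_ne hS hW hr hr' x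
  have hrr := RootTwo_pos hr0
  obtain ⟨a, ha, ha0, har, hsp⟩ := RootTwo_plane hd (hr x) hr0
  have haa := RootTwo_pos ha0
  obtain ⟨k, hk, hkx, hkn⟩ := RootTwo_stab hS hW hG x
  have hkfix : rt_T k (r x) = r x := by
    rw [RootTwo_rep_T hr hr' hst hk, hkx]
  have hka := RootTwo_refl hst ha ha0 har hsp hk hkfix hkn
  obtain ⟨σ, hσ, hσx⟩ := hS.trans x y
  have hσr : rt_T σ (r x) = r y := by rw [RootTwo_rep_T hr hr' hst hσ, hσx]
  set R := r x ⬝ᵥ r x with hR
  set u := (r y ⬝ᵥ r x) / R with hu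
  set v := (r y ⬝ᵥ a) / (a ⬝ᵥ a) with hv
  have hry : r y = u • r x + v • a := hsp _ (hr y)
  have hlen : r y ⬝ᵥ r y = R := by
    rw [← hσr, RootTwo_T_dot]
  have huv : u ^ 2 * R + v ^ 2 * (a ⬝ᵥ a) = R := by
    have h1 : (u • r x + v • a) ⬝ᵥ (u • r x + v • a) = R := by rw [← hry]; exact hlen
    rw [add_dotProduct, dotProduct_add, dotProduct_add, smul_dotProduct, smul_dotProduct,
      smul_dotProduct, smul_dotProduct, dotProduct_smul, dotProduct_smul, dotProduct_smul,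
      dotProduct_smul, har, dotProduct_comm (r x) a, har, ← hR] at h1
    simp only [smul_eq_mul, mul_zero, add_zero, zero_add] at h1
    linarith
  -- the reflection at y
  have hk2 : ∀ w ∈ W, rt_T k w = (2 * ((w ⬝ᵥ r x) / R)) • r x + (-1 : ℚ) • w := by
    intro w hw
    have h1 := hsp w hw
    have h2 : rt_T k w = ((w ⬝ᵥ r x) / R) • r x - ((w ⬝ᵥ a) / (a ⬝ᵥ a)) • a := by
      conv_lhs => rw [h1]
      rw [RootTwo_T_lin, hkfix, hka, smul_neg, sub_eq_add_neg]
    have key : ∀ p q : ℚ, w = p • r x + q • a →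
        p • r x - q • a = (2 * p) • r x + (-1 : ℚ) • w := by
      intro p q h
      rw [h]
      module
    rw [h2]
    exact key _ _ h1
  have hk3 : ∀ w ∈ W, rt_T (σ * k * σ⁻¹) w = (2 * ((w ⬝ᵥ r y) / R)) • r y + (-1 : ℚ) • w := by
    intro w hw
    rw [RootTwo_T_mul, RootTwo_T_mul, hk2 _ (RootTwo_T_mem hst (𝒢.inv_mem hσ) hw), RootTwo_T_lin,
      hσr, RootTwo_T_dot', hσr, ← RootTwo_T_mul, mul_inv_cancel, RootTwo_T_one]
  have hmem : k * (σ * k * σ⁻¹) ∈ 𝒢 :=
    𝒢.mul_mem hk (𝒢.mul_mem (𝒢.mul_mem hσ hk) (𝒢.inv_mem hσ))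
  have hval : ∀ w (hw : w ∈ W), ((rediso_op hst ⟨_, hmem⟩ ⟨w, hw⟩ : W) : X → ℚ) =
      rt_T k (rt_T (σ * k * σ⁻¹) w) := by
    intro w hw
    rw [← RootTwo_T_mul]
    rfl
  have hra : r x ⬝ᵥ a = 0 := by rw [dotProduct_comm]; exact har
  have hyx : r x ⬝ᵥ r y = u * R := by
    rw [dotProduct_comm, hu, div_mul_cancel₀ _ hrr.ne']
  have hya : a ⬝ᵥ r y = v * (a ⬝ᵥ a) := by
    rw [dotProduct_comm, hv, div_mul_cancel₀ _ haa.ne']
  have hkry : rt_T k (r y) = u • r x + (-v) • a := by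
    rw [hry, RootTwo_T_lin, hkfix, hka, smul_neg, neg_smul]
  have e1 : ((rediso_op hst ⟨_, hmem⟩ ⟨r x, hr x⟩ : W) : X → ℚ) =
      (2 * u ^ 2 - 1) • r x + (-2 * u * v) • a := by
    rw [hval, hk3 _ (hr x), RootTwo_T_lin, hkry, hkfix, hyx, mul_div_cancel_right₀ _ hrr.ne']
    module
  have e2 : ((rediso_op hst ⟨_, hmem⟩ ⟨a, ha⟩ : W) : X → ℚ) =
      (2 * v * u * ((a ⬝ᵥ a) / R)) • r x + (1 - 2 * v ^ 2 * ((a ⬝ᵥ a) / R)) • a := by
    rw [hval, hk3 _ ha, RootTwo_T_lin, hkry, hka, hya]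
    have h3 : v * (a ⬝ᵥ a) / R = v * ((a ⬝ᵥ a) / R) := by ring
    rw [h3]
    module
  have htr := RootTwo_trace hd (hr x) ha hrr haa har
    ((rediso_op hst ⟨_, hmem⟩ : W ≃ₗ[ℚ] W) : W →ₗ[ℚ] W) _ _ _ _ e1 e2
  obtain ⟨m, hm, -⟩ := tr_int_bd hst (rediso_op hst ⟨_, hmem⟩) ⟨_, rfl⟩
  rw [htr] at hm
  have hva : v ^ 2 * ((a ⬝ᵥ a) / R) = 1 - u ^ 2 := by
    rw [← mul_div_assoc, div_eq_iff hrr.ne']
    linarith
  have hsq : (2 * u) ^ 2 = ((m + 2 : ℤ) : ℚ) := by
    push_cast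
    rw [← hm]
    linarith
  obtain ⟨t, ht⟩ := RootTwo_int hsq
  refine ⟨t, ht, ?_⟩
  have hu1 : u ^ 2 ≤ 1 := by
    have h4 : 0 ≤ v ^ 2 * ((a ⬝ᵥ a) / R) := by positivity
    linarith
  have h5 : ((t ^ 2 : ℤ) : ℚ) ≤ ((4 : ℤ) : ℚ) := by
    push_cast
    rw [← ht]
    nlinarith
  have h6 : t ^ 2 ≤ 4 := by exact_mod_cast h5
  exact abs_le_of_sq_le_sq (by linarith) (by norm_num)

omit [Fintype X] in
private theorem RootTwo_card_congr {α β : Type} (F : X → α) (F' : X → β)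
    (h : ∀ x y, F x = F y ↔ F' x = F' y) :
    Nat.card (Set.range F) = Nat.card (Set.range F') := by
  have h1 : Setoid.ker F = Setoid.ker F' := by
    ext x y
    rw [Setoid.ker_def, Setoid.ker_def]
    exact h x y
  rw [← Nat.card_congr (Setoid.quotientKerEquivRange F),
    ← Nat.card_congr (Setoid.quotientKerEquivRange F'), h1]

theorem root_two_card (hS : Sys c 𝒢 g) (hW : Smp c 𝒢 W) (hd : finrank ℚ W = 2)
    (hG : ¬ Gal 𝒢 W) :
    Nat.card (Set.range (fun x : X => fun w : W => (w : X → ℚ) x)) = 4 ∨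
    Nat.card (Set.range (fun x : X => fun w : W => (w : X → ℚ) x)) = 6 := by
  classical
  have hst := hW.2.2.1
  have hcard := hS.card
  have hpos := hS.pos
  have hne : Nonempty X := by
    rw [← Fintype.card_pos_iff]
    omega
  obtain ⟨x⟩ := hne
  obtain ⟨r, hr, hr'⟩ := RootTwo_rep W
  have hr0 := RootTwo_rep_ne hS hW hr hr' x
  have hrr := RootTwo_pos hr0
  obtain ⟨a, ha, ha0, har, hsp⟩ := RootTwo_plane hd (hr x) hr0
  have haa := RootTwo_pos ha0
  obtain ⟨k, hk, hkx, hkn⟩ := RootTwo_stab hS hW hG x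
  have hkfix : rt_T k (r x) = r x := by
    rw [RootTwo_rep_T hr hr' hst hk, hkx]
  have hka := RootTwo_refl hst ha ha0 har hsp hk hkfix hkn
  set R := r x ⬝ᵥ r x with hR
  set A := a ⬝ᵥ a with hA
  have hra : r x ⬝ᵥ a = 0 := by rw [dotProduct_comm]; exact har
  -- coordinates
  set U : X → ℚ := fun y => (r y ⬝ᵥ r x) / R with hU
  set V : X → ℚ := fun y => (r y ⬝ᵥ a) / A with hV
  have hry : ∀ y, r y = U y • r x + V y • a := fun y => hsp _ (hr y)
  have hinj : ∀ p q p' q' : ℚ, p • r x + q • a = p' • r x + q' • a → p = p' ∧ q = q' := by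
    intro p q p' q' h
    have h1 : (p • r x + q • a) ⬝ᵥ r x = (p' • r x + q' • a) ⬝ᵥ r x := by rw [h]
    have h2 : (p • r x + q • a) ⬝ᵥ a = (p' • r x + q' • a) ⬝ᵥ a := by rw [h]
    simp only [add_dotProduct, smul_dotProduct, har, hra, smul_eq_mul, mul_zero, add_zero,
      zero_add, ← hR, ← hA] at h1 h2
    exact ⟨mul_right_cancel₀ hrr.ne' h1, mul_right_cancel₀ haa.ne' h2⟩
  have hUV : ∀ p q : ℚ, ∀ y, r y = p • r x + q • a → U y = p ∧ V y = q := by
    intro p q y h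
    exact hinj _ _ _ _ ((hry y).symm.trans h)
  have hdotr : ∀ y z, r y ⬝ᵥ r z = U y * U z * R + V y * V z * A := by
    intro y z
    rw [hry y, hry z]
    simp only [add_dotProduct, smul_dotProduct, dotProduct_add, dotProduct_smul, har, hra,
      smul_eq_mul, mul_zero, add_zero, zero_add, ← hR, ← hA]
    ring
  have hlen : ∀ y, r y ⬝ᵥ r y = R := by
    intro y
    obtain ⟨σ, hσ, hσx⟩ := hS.trans x y
    rw [← hσx, ← RootTwo_rep_T hr hr' hst hσ, RootTwo_T_dot]
  have hsum : ∀ y, V y ^ 2 * (A / R) = 1 - U y ^ 2 := by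
    intro y
    have h1 := hlen y
    rw [hdotr] at h1
    rw [← mul_div_assoc, div_eq_iff hrr.ne']
    linarith
  have hint : ∀ y z, ∃ t : ℤ, 2 * (U y * U z + V y * V z * (A / R)) = t ∧ |t| ≤ 2 := by
    intro y z
    obtain ⟨t, ht, ht'⟩ := RootTwo_coord hS hW hd hG hr hr' z y
    refine ⟨t, ?_, ht'⟩
    rw [← ht, hlen z, hdotr, add_div, mul_div_cancel_right₀ _ hrr.ne', mul_div_assoc]
  have hUx : U x = 1 ∧ V x = 0 := hUV 1 0 x (by rw [one_smul, zero_smul, add_zero])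
  have hAR : 0 < A / R := div_pos haa hrr
  -- the values of U
  have hUval : ∀ y, U y = 1 ∨ U y = -1 ∨ U y = 0 ∨ U y = 1 / 2 ∨ U y = -(1 / 2) := by
    intro y
    obtain ⟨t, ht, ht'⟩ := hint y x
    rw [hUx.1, hUx.2, mul_one, mul_zero, zero_mul, add_zero] at ht
    rw [abs_le] at ht'
    have h1 : U y = t / 2 := by linarith
    obtain ⟨h2, h3⟩ := ht'
    interval_cases t
    · right; left; rw [h1]; norm_num
    · right; right; right; right; rw [h1]; norm_num
    · right; right; left; rw [h1]; norm_num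
    · right; right; right; left; rw [h1]; norm_num
    · left; rw [h1]; norm_num
  -- the negative
  have hneg : ∀ y, U (c y) = - U y ∧ V (c y) = - V y := by
    intro y
    apply hUV
    have h1 : r (c y) = - r y := by
      apply RootTwo_uniq (hr _) (W.neg_mem (hr y))
      intro w hw
      rw [dotProduct_neg, hr' _ w hw, hr' _ w hw, hW.2.1 w hw]
    rw [h1, hry y, neg_add, neg_smul, neg_smul]
  have hrefl : ∀ y, U (k y) = U y ∧ V (k y) = - V y := by
    intro y
    apply hUV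
    rw [← RootTwo_rep_T hr hr' hst hk, hry y, RootTwo_T_lin, hkfix, hka, smul_neg, neg_smul]
  have hne1 : ∃ y, U y ≠ 1 ∧ U y ≠ -1 := by
    by_contra hcon
    push Not at hcon
    apply ha0
    have h1 : ∀ y, V y = 0 := by
      intro y
      have h2 : U y ^ 2 = 1 := by
        by_cases h3 : U y = 1
        · rw [h3]; norm_num
        · rw [hcon y h3]; norm_num
      have h4 := hsum y
      rw [h2, sub_self] at h4
      have h5 := (mul_eq_zero.1 h4).resolve_right hAR.ne'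
      exact pow_eq_zero_iff (by norm_num) |>.1 h5
    funext y
    rw [← hr' y a ha, hry y, h1 y, zero_smul, add_zero, dotProduct_smul, har, smul_zero]
    rfl
  have hcong : Nat.card (Set.range (fun x : X => fun w : W => (w : X → ℚ) x)) =
      Nat.card (Set.range (fun y : X => (U y, V y))) := by
    apply RootTwo_card_congr
    intro y z
    constructor
    · intro h
      have h1 : r y = r z := by
        apply RootTwo_uniq (hr y) (hr z)
        intro w hw
        rw [hr' y w hw, hr' z w hw]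
        exact congrFun h ⟨w, hw⟩
      have h2 := hUV _ _ y (h1.trans (hry z))
      rw [Prod.mk.injEq]
      exact h2
    · intro h
      rw [Prod.mk.injEq] at h
      have h1 : r y = r z := by rw [hry y, hry z, h.1, h.2]
      funext w
      rw [← hr' y w w.2, ← hr' z w w.2, h1]
  rw [hcong]
  obtain ⟨y₀, hy1, hy2⟩ := hne1
  have hVsq : ∀ y z, U y ^ 2 = U z ^ 2 → V y = V z ∨ V y = - V z := by
    intro y z h
    have h1 := hsum y
    have h2 := hsum z
    rw [h] at h1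
    have h3 : V y ^ 2 = V z ^ 2 := mul_right_cancel₀ hAR.ne' (h1.trans h2.symm)
    exact sq_eq_sq_iff_eq_or_eq_neg.1 h3
  have hV0 : ∀ y, U y ^ 2 = 1 → V y = 0 := by
    intro y h
    have h1 := hsum y
    rw [h, sub_self] at h1
    exact (pow_eq_zero_iff (by norm_num)).1 ((mul_eq_zero.1 h1).resolve_right hAR.ne')
  have hmix : ∀ y z, U y = 0 → U z ^ 2 = 1 / 4 → False := by
    intro y z h1 h2
    obtain ⟨t, ht, -⟩ := hint y z
    rw [h1, zero_mul, zero_add] at ht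
    have h3 := hsum y
    have h4 := hsum z
    rw [h1] at h3
    rw [h2] at h4
    have h5 : (t : ℚ) ^ 2 = 3 := by
      rw [← ht]
      have : (2 * (V y * V z * (A / R))) ^ 2 = 4 * (V y ^ 2 * (A / R)) * (V z ^ 2 * (A / R)) := by
        ring
      rw [this, h3, h4]
      norm_num
    have h6 : t ^ 2 = 3 := by exact_mod_cast h5
    have h7 : |t| ≤ 1 := by
      by_contra h8
      push Not at h8
      have h9 : 2 ≤ |t| := h8
      have h10 : 4 ≤ |t| ^ 2 := by nlinarith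
      rw [sq_abs, h6] at h10
      omega
    have h11 : |t| ^ 2 ≤ 1 := by
      have := abs_nonneg t
      nlinarith
    rw [sq_abs, h6] at h11
    omega
  rcases hUval y₀ with h | h | h | h | h
  · exact absurd h hy1
  · exact absurd h hy2
  · -- case of four
    left
    have hv0 : V y₀ ≠ 0 := by
      intro h0
      have h1 := hsum y₀
      rw [h, h0] at h1
      norm_num at h1
    have hset : Set.range (fun y : X => (U y, V y)) =
        (({(1, 0), (-1, 0), (0, V y₀), (0, - V y₀)} : Finset (ℚ × ℚ)) : Set (ℚ × ℚ)) := by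
      ext ⟨p, q⟩
      simp only [Set.mem_range, Finset.coe_insert, Finset.coe_singleton, Set.mem_insert_iff,
        Set.mem_singleton_iff, Prod.mk.injEq]
      constructor
      · rintro ⟨y, rfl, rfl⟩
        rcases hUval y with h1 | h1 | h1 | h1 | h1
        · left
          exact ⟨h1, hV0 y (by rw [h1]; norm_num)⟩
        · right; left
          exact ⟨h1, hV0 y (by rw [h1]; norm_num)⟩
        · right; right
          rcases hVsq y y₀ (by rw [h1, h]) with h2 | h2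
          · left; exact ⟨h1, h2⟩
          · right; exact ⟨h1, h2⟩
        · exact (hmix y₀ y h (by rw [h1]; norm_num)).elim
        · exact (hmix y₀ y h (by rw [h1]; norm_num)).elim
      · rintro (⟨rfl, rfl⟩ | ⟨rfl, rfl⟩ | ⟨rfl, rfl⟩ | ⟨rfl, rfl⟩)
        · exact ⟨x, hUx⟩
        · exact ⟨c x, by rw [(hneg x).1, hUx.1], by rw [(hneg x).2, hUx.2, neg_zero]⟩
        · exact ⟨y₀, h, rfl⟩
        · exact ⟨c y₀, by rw [(hneg y₀).1, h, neg_zero], (hneg y₀).2⟩
    rw [hset, Nat.card_coe_set_eq, Set.ncard_coe_finset]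
    have hv1 : V y₀ ≠ - V y₀ := fun h1 => hv0 (by linarith)
    rw [Finset.card_insert_of_notMem, Finset.card_insert_of_notMem, Finset.card_insert_of_notMem,
      Finset.card_singleton]
    · simp only [Finset.mem_singleton, Prod.mk.injEq, not_and]
      intro _
      exact hv1
    · simp only [Finset.mem_insert, Finset.mem_singleton, Prod.mk.injEq]
      rintro (⟨h1, -⟩ | ⟨h1, -⟩) <;> norm_num at h1
    · simp only [Finset.mem_insert, Finset.mem_singleton, Prod.mk.injEq]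
      rintro (⟨h1, -⟩ | ⟨h1, -⟩ | ⟨h1, -⟩) <;> norm_num at h1
  all_goals
    right
    have hsq : U y₀ ^ 2 = 1 / 4 := by rw [h]; norm_num
    obtain ⟨z, hz⟩ : ∃ z, U z = 1 / 2 := by
      first
      | exact ⟨y₀, h⟩
      | exact ⟨c y₀, by rw [(hneg y₀).1, h, neg_neg]⟩
    have hv0 : V z ≠ 0 := by
      intro h0
      have h1 := hsum z
      rw [hz, h0] at h1
      norm_num at h1
    have hset : Set.range (fun y : X => (U y, V y)) =
        (({(1, 0), (-1, 0), (1 / 2, V z), (1 / 2, - V z), (-(1 / 2), V z), (-(1 / 2), - V z)} :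
          Finset (ℚ × ℚ)) : Set (ℚ × ℚ)) := by
      ext ⟨p, q⟩
      simp only [Set.mem_range, Finset.coe_insert, Finset.coe_singleton, Set.mem_insert_iff,
        Set.mem_singleton_iff, Prod.mk.injEq]
      constructor
      · rintro ⟨y, rfl, rfl⟩
        rcases hUval y with h1 | h1 | h1 | h1 | h1
        · left
          exact ⟨h1, hV0 y (by rw [h1]; norm_num)⟩
        · right; left
          exact ⟨h1, hV0 y (by rw [h1]; norm_num)⟩
        · exact (hmix y y₀ h1 hsq).elim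
        · right; right
          rcases hVsq y z (by rw [h1, hz]) with h2 | h2
          · left; exact ⟨h1, h2⟩
          · right; left; exact ⟨h1, h2⟩
        · right; right; right; right
          rcases hVsq y z (by rw [h1, hz]; norm_num) with h2 | h2
          · left; exact ⟨h1, h2⟩
          · right; exact ⟨h1, h2⟩
      · rintro (⟨rfl, rfl⟩ | ⟨rfl, rfl⟩ | ⟨rfl, rfl⟩ | ⟨rfl, rfl⟩ | ⟨rfl, rfl⟩ | ⟨rfl, rfl⟩)
        · exact ⟨x, hUx⟩
        · exact ⟨c x, by rw [(hneg x).1, hUx.1], by rw [(hneg x).2, hUx.2, neg_zero]⟩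
        · exact ⟨z, hz, rfl⟩
        · exact ⟨k z, by rw [(hrefl z).1, hz], (hrefl z).2⟩
        · exact ⟨c (k z), by rw [(hneg _).1, (hrefl z).1, hz],
            by rw [(hneg _).2, (hrefl z).2, neg_neg]⟩
        · exact ⟨c z, by rw [(hneg z).1, hz], (hneg z).2⟩
    rw [hset, Nat.card_coe_set_eq, Set.ncard_coe_finset]
    have hv1 : V z ≠ - V z := fun h1 => hv0 (by linarith)
    rw [Finset.card_insert_of_notMem, Finset.card_insert_of_notMem, Finset.card_insert_of_notMem,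
      Finset.card_insert_of_notMem, Finset.card_insert_of_notMem, Finset.card_singleton]
    · simp only [Finset.mem_singleton, Prod.mk.injEq, not_and]
      intro _
      exact hv1
    · simp only [Finset.mem_insert, Finset.mem_singleton, Prod.mk.injEq]
      rintro (⟨h1, -⟩ | ⟨h1, -⟩) <;> norm_num at h1
    · simp only [Finset.mem_insert, Finset.mem_singleton, Prod.mk.injEq]
      rintro (⟨-, h1⟩ | ⟨h1, -⟩ | ⟨h1, -⟩)
      · exact hv1 h1
      all_goals norm_num at h1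
    · simp only [Finset.mem_insert, Finset.mem_singleton, Prod.mk.injEq]
      rintro (⟨h1, -⟩ | ⟨h1, -⟩ | ⟨h1, -⟩ | ⟨h1, -⟩) <;> norm_num at h1
    · simp only [Finset.mem_insert, Finset.mem_singleton, Prod.mk.injEq]
      rintro (⟨h1, -⟩ | ⟨h1, -⟩ | ⟨h1, -⟩ | ⟨h1, -⟩ | ⟨h1, -⟩) <;> norm_num at h1

end Pool.Agent.H52.CS
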