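import Mathlib
import Pool.Agent.H52.AD.GenX
import Pool.Agent.H52.AD.Final
import Pool.Agent.H52.CS.Defs
import Pool.Agent.H52.CS.RootTwo

/-!
# The subfield of a simple space of dimension two (module H52 CS GenTwo)

`K` a CM field of degree `2 g`, `W` simple of dimension two, not of Galois type, for `autGrp K`: there is a
CM subfield `F` of degree `4` or `6`, not Galois over `ℚ`, with `W ≤ VF F`.

PROOF.  As `gen_small2` in `AD/GenX.lean`: let `N` be the group of the `σ ∈ autGrp K` that act trivially on `W`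
(`Triv (autGrp K) W σ`), a normal subgroup, and `F` the field of `exists_subfield`:
`(∀ a ∈ F, x a = x' a) ↔ ∃ σ ∈ N, σ x = x'`.  It is a CM field (`F_cm`, `genw_conj`) and `W ≤ VF F`.  It is not
Galois over `ℚ` by `gal_of_VF`, since `W` is not `Gal`.  Its degree is the number of the embeddings `F → ℂ`
(`Embeddings.card`); every embedding of `F` is the restriction of one of `K` (`ℂ` is algebraically closed;
see `AD/SubF.lean`, or `IntermediateField`/`IsAlgClosed.lift`), and two embeddings `x, x'` of `K` have the same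
restriction to `F` iff `x' = σ x` for some `σ ∈ N`, iff `w x = w x'` for all `w ∈ W` (`root_two_triv`; the other
direction is the definition of `N`).  So `[F : ℚ]` is the number of the classes of the embeddings `x` of `K` for
the relation `∀ w ∈ W, w x = w x'`, that is the number of the functionals `w ↦ w x`, which is `4` or `6` by
`root_two_card` (`sys_cm` in `AD/Final.lean` gives `Sys (cjp K) (autGrp K) g`).
-/

open NumberField Module

namespace Pool.Agent.H52.CS

open Pool.Agent.H52.MF Pool.Agent.H52.AD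

variable {K : Type} [Field K] [NumberField K] [IsCMField K]

/-- A simple space `W` such that two embeddings with the same values of all functions in `W` are in the same
orbit of the group that acts trivially on `W`: the degree of its subfield is the number of functionals. -/
theorem gen_deg (g : ℕ) (hg : finrank ℚ K = 2 * g) (W : Submodule ℚ ((K →+* ℂ) → ℚ))
    (hW : Smp (cjp K) (autGrp K) W)
    (htr : ∀ x y : K →+* ℂ, (∀ w ∈ W, w x = w y) → ∃ π, Triv (autGrp K) W π ∧ π x = y) :
    ∃ F : IntermediateField ℚ K, IsCMField F ∧ W ≤ VF F ∧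
      finrank ℚ F = Nat.card (Set.range (fun x : K →+* ℂ => fun w : W =>
        (w : (K →+* ℂ) → ℚ) x)) := by
  classical
  have _hg := hg
  have hst := hW.2.2.1
  let N : Subgroup (Equiv.Perm (K →+* ℂ)) :=
    { carrier := {σ | σ ∈ autGrp K ∧ ∀ f ∈ W, ∀ x, f (σ x) = f x}
      one_mem' := ⟨(autGrp K).one_mem, fun _ _ _ => rfl⟩
      mul_mem' := by
        rintro σ σ' ⟨h1, h2⟩ ⟨h1', h2'⟩
        refine ⟨(autGrp K).mul_mem h1 h1', fun f hf x => ?_⟩
        rw [Equiv.Perm.mul_apply, h2 f hf, h2' f hf]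
      inv_mem' := by
        rintro σ ⟨h1, h2⟩
        refine ⟨(autGrp K).inv_mem h1, fun f hf x => ?_⟩
        rw [← h2 f hf (σ⁻¹ x), genw_ai] }
  have hN : N ≤ autGrp K := fun σ hσ => hσ.1
  have hNt : ∀ σ ∈ N, ∀ f ∈ W, ∀ x, f (σ x) = f x := fun σ hσ => hσ.2
  have hn : ∀ π ∈ autGrp K, ∀ σ ∈ N, π * σ * π⁻¹ ∈ N := by
    intro π hπ σ hσ
    refine ⟨(autGrp K).mul_mem ((autGrp K).mul_mem hπ hσ.1) ((autGrp K).inv_mem hπ), ?_⟩
    intro f hf x
    have h1 := hσ.2 _ (hst π hπ f hf) (π⁻¹ x)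
    rw [genw_ai] at h1
    exact h1
  obtain ⟨F, hF, -⟩ := exists_subfield N hN hn
  have hWF : W ≤ VF F := by
    intro f hf x x' hx
    obtain ⟨σ, hσ, rfl⟩ := (hF x x').1 hx
    exact (hNt σ hσ f hf x).symm
  refine ⟨F, F_cm N F hF (genw_conj (cjp K) cjp_apply W hW N hNt), hWF, ?_⟩
  -- every embedding of `F` extends to `K`
  have hext : ∀ y : F →+* ℂ, ∃ x : K →+* ℂ, ∀ a : F, x (a : K) = y a := by
    intro y
    let _ : Algebra F ℂ := y.toAlgebra
    have : Algebra.IsAlgebraic F K := Algebra.IsAlgebraic.tower_top (K := ℚ) F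
    obtain ⟨φ⟩ : Nonempty (K →ₐ[F] ℂ) := ⟨IsAlgClosed.lift⟩
    exact ⟨(φ : K →+* ℂ), fun a => φ.commutes a⟩
  choose e he using hext
  have hbij : Function.Bijective (fun y : F →+* ℂ =>
      (⟨fun w : W => (w : (K →+* ℂ) → ℚ) (e y), ⟨e y, rfl⟩⟩ :
        Set.range (fun x : K →+* ℂ => fun w : W => (w : (K →+* ℂ) → ℚ) x))) := by
    constructor
    · intro y y' h
      have h1 : (fun w : W => (w : (K →+* ℂ) → ℚ) (e y)) =
        (fun w : W => (w : (K →+* ℂ) → ℚ) (e y')) := congrArg Subtype.val h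
      obtain ⟨π, hπ, hπx⟩ := htr (e y) (e y') (fun w hw => congrFun h1 ⟨w, hw⟩)
      have h2 : ∀ a ∈ F, e y a = e y' a := (hF (e y) (e y')).2 ⟨π, hπ, hπx⟩
      ext a
      rw [← he y a, ← he y' a]
      exact h2 a a.2
    · rintro ⟨_, x, rfl⟩
      refine ⟨x.comp (algebraMap F K), ?_⟩
      apply Subtype.ext
      funext w
      refine hWF w.2 _ _ ?_
      intro a ha
      exact he (x.comp (algebraMap F K)) ⟨a, ha⟩
  rw [← Nat.card_eq_of_bijective _ hbij, Nat.card_eq_fintype_card, Embeddings.card]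

theorem gen_two (g : ℕ) (hg : finrank ℚ K = 2 * g) (W : Submodule ℚ ((K →+* ℂ) → ℚ))
    (hW : Smp (cjp K) (autGrp K) W) (hd : finrank ℚ W = 2) (hG : ¬ Gal (autGrp K) W) :
    ∃ F : IntermediateField ℚ K, IsCMField F ∧ ¬ IsGalois ℚ F ∧
      (finrank ℚ F = 4 ∨ finrank ℚ F = 6) ∧ W ≤ VF F := by
  have hS := sys_cm (K := K) g hg
  obtain ⟨F, hF1, hF2, hF3⟩ := gen_deg g hg W hW
    (fun x y h => root_two_triv hS hW hd hG x y h)
  refine ⟨F, hF1, fun hgal => hG (gal_of_VF W F hgal hF2), ?_, hF2⟩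
  rw [hF3]
  exact root_two_card hS hW hd hG

end Pool.Agent.H52.CS
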