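import Mathlib
import Pool.Agent.H52.AD.Base
import Pool.Agent.H52.AD.Schur
import Pool.Agent.H52.AD.Dims
import Pool.Agent.H52.CS.Defs
import Pool.Agent.H52.CS.TrBd
import Pool.Agent.H52.CS.RootTwo

/-!
# Simple lines, and simple planes with two dimensional endomorphism algebra (module H52 CS RootE)

(1) `W` simple of dimension one: if `w x = w y` for all `w ∈ W`, then `y = π x` for some `π` acting trivially on
`W`, and there are exactly two functionals `w ↦ w x`.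
(2) `W` simple with `dim Endo = dim W = 2`: the same, and there are `4` or `6` functionals.

PROOF.  (a) If `dim Endo = dim W` and an operator `γ ∈ Gr` fixes a vector `r ≠ 0` of `W`, then `γ = 1`: the
evaluation `Endo → W`, `φ ↦ φ r` is injective (`schur_endo`) so surjective (dimensions), and `γ` commutes with
the elements of `Endo`, so `γ (φ r) = φ (γ r) = φ r`.  (For `dim W = 1`, `dim Endo = 1`: `endo_pos` and
`endo_dvd_dim`.)
(b) Let `r_x ∈ W` be the vector with `⟨r_x, w⟩ = w x` for the form `⟨u, v⟩ = ∑ x, u x * v x` (positive definite on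
`W`, invariant under `Gr`).  If `γ` is `f ↦ f ∘ π⁻¹` then `γ r_x = r_(π x)`.  All `r_x` are different from zero
(transitivity, `W ≠ ⊥`).  If `r_x = r_y`, `y = π x`, then the operator `γ` of `π` fixes `r_x`, so `γ = 1`: `π`
acts trivially.
(c) Dimension one: `r_(π x) = ± r_x` (same length), and `r_(c x) = - r_x`, so there are exactly two.
(d) Dimension two: as in `CS/RootTwo.lean` (2) it is enough to see that `t = 2 ⟨r_x, r_y⟩/ρ` is an integer for all
`x, y`.  Let `y = π x`, `γ` the operator of `π`, `r_y = γ r_x`.  `γ` is an orthogonal operator of the plane `W`.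
If `det γ = -1` then `γ` has the eigenvalue `1` (orthogonal of determinant `-1`: `γ² = 1`, `γ ≠ ± 1`), so `γ`
fixes a nonzero vector and `γ = 1` by (a): contradiction.  So `det γ = 1`, and then `⟨r, γ r⟩ = (tr γ / 2) ⟨r, r⟩`
for all `r` (Cayley-Hamilton: `γ + γ⁻¹ = tr γ`, and `⟨r, γ⁻¹ r⟩ = ⟨γ r, r⟩`), so `t = tr γ` is an integer
(`tr_int_bd`).  Then the set `R` of the vectors `r_x` has `4` or `6` elements, as there: for `r ∈ R` and
`a ⊥ r`, the vectors of `R` are `u r + v a`, `u = t/2 ∈ {0, ± 1/2, ± 1}`, `v² ⟨a, a⟩ = (1 - u²) ρ`; values `u = 0`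
and `u = ± 1/2` do not both occur (`(2 τ)² = 3`); `R = - R` and `R` spans `W`, so `|R| ≥ 4` and `|R|` is even.
(If `RootTwo.lean` is finished, its auxiliary lemmas may be reused.)
-/

namespace Pool.Agent.H52.CS

open Module Pool.Agent.H52.AD

variable {X : Type} [Fintype X] {c : Equiv.Perm X} {𝒢 : Subgroup (Equiv.Perm X)} {g : ℕ}
  {W : Submodule ℚ (X → ℚ)}

theorem rootE_surj (hW : Smp c 𝒢 W) (he : finrank ℚ (Endo 𝒢 W) = finrank ℚ W) (r : W)
    (hr : r ≠ 0) (f : W) : ∃ φ ∈ Endo 𝒢 W, φ r = f := by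
  letI : AddCommGroup (W →ₗ[ℚ] W) := LinearMap.addCommGroup
  let E : Endo 𝒢 W →ₗ[ℚ] W :=
    (LinearMap.applyₗ r : (W →ₗ[ℚ] W) →ₗ[ℚ] W) ∘ₗ (Endo 𝒢 W).subtype
  have hinj : Function.Injective E := by
    rw [← LinearMap.ker_eq_bot, LinearMap.ker_eq_bot']
    intro φ hφ
    by_contra h0
    have h1 : (φ : W →ₗ[ℚ] W) ≠ 0 := fun h => h0 (Subtype.ext h)
    have h2 := (schur_endo hW φ φ.2 h1).1.1
    apply hr
    apply h2
    rw [map_zero]
    exact hφ
  have hsurj := (LinearMap.injective_iff_surjective_of_finrank_eq_finrank he).1 hinj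
  obtain ⟨φ, hφ⟩ := hsurj f
  exact ⟨φ, φ.2, hφ⟩

theorem rootE_fix (hW : Smp c 𝒢 W) (he : finrank ℚ (Endo 𝒢 W) = finrank ℚ W)
    {π : Equiv.Perm X} (hπ : π ∈ 𝒢) (r : W) (hr : r ≠ 0)
    (h : ∀ x, (r : X → ℚ) (π x) = (r : X → ℚ) x) : Triv 𝒢 W π := by
  refine ⟨hπ, fun f hf x => ?_⟩
  obtain ⟨φ, hφ, hφr⟩ := rootE_surj hW he r hr ⟨f, hf⟩
  have h1 := hφ π hπ r r (fun x => (h x).symm) x
  rw [hφr] at h1
  exact h1.symm

omit [Fintype X] in
theorem rootE_comm_endo [Finite X] (h2 : finrank ℚ (Endo 𝒢 W) ≤ 2)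
    (φ ψ : W →ₗ[ℚ] W) (hφ : φ ∈ Endo 𝒢 W) (hψ : ψ ∈ Endo 𝒢 W) (w : W) :
    φ (ψ w) = ψ (φ w) := by
  letI : AddCommGroup (W →ₗ[ℚ] W) := LinearMap.addCommGroup
  have hli : ¬ LinearIndependent ℚ
      (![⟨LinearMap.id, endo_id⟩, ⟨φ, hφ⟩, ⟨ψ, hψ⟩] : Fin 3 → Endo 𝒢 W) := by
    intro h
    have := h.fintype_card_le_finrank
    rw [Fintype.card_fin] at this
    omega
  rw [Fintype.not_linearIndependent_iff] at hli
  obtain ⟨a, ha, i, hi⟩ := hli
  have hrel : ∀ u : W, a 0 • u + a 1 • φ u + a 2 • ψ u = 0 := by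
    intro u
    have h := congrArg (fun v : Endo 𝒢 W => (v : W →ₗ[ℚ] W) u) ha
    simpa [Fin.sum_univ_three] using h
  have e1 : a 2 • φ (ψ w) = a 2 • ψ (φ w) := by
    have h1 := hrel (φ w)
    have h2 := congrArg φ (hrel w)
    rw [map_add, map_add, map_smul, map_smul, map_smul, map_zero, ← h1] at h2
    exact add_left_cancel h2
  have e2 : a 1 • ψ (φ w) = a 1 • φ (ψ w) := by
    have h1 := hrel (ψ w)
    have h2 := congrArg ψ (hrel w)
    rw [map_add, map_add, map_smul, map_smul, map_smul, map_zero, ← h1] at h2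
    exact add_left_cancel (add_right_cancel h2)
  by_cases h2' : a 2 = 0
  · by_cases h1' : a 1 = 0
    · have h0' : a 0 ≠ 0 := by
        intro h0
        apply hi
        fin_cases i
        · exact h0
        · exact h1'
        · exact h2'
      have hw := hrel w
      rw [h1', h2', zero_smul, zero_smul, add_zero, add_zero, smul_eq_zero] at hw
      rcases hw with hw | hw
      · exact absurd hw h0'
      · rw [hw, map_zero, map_zero, map_zero]
    · exact (smul_right_injective W h1' e2).symm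
  · exact smul_right_injective W h2' e1

theorem rootE_comm (hW : Smp c 𝒢 W) (he : finrank ℚ (Endo 𝒢 W) = finrank ℚ W)
    (h2 : finrank ℚ W ≤ 2) {π σ : Equiv.Perm X} (hπ : π ∈ 𝒢) (hσ : σ ∈ 𝒢) :
    ∀ w ∈ W, ∀ x, w (π (σ x)) = w (σ (π x)) := by
  intro w hw x
  by_cases h0 : w = 0
  · rw [h0]
    rfl
  have hr : (⟨w, hw⟩ : W) ≠ 0 := fun h => h0 (congrArg Subtype.val h)
  obtain ⟨u, hu⟩ := schur_tr hW.2.2.1 hπ ⟨w, hw⟩
  obtain ⟨v, hv⟩ := schur_tr hW.2.2.1 hσ ⟨w, hw⟩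
  obtain ⟨φ, hφ, hφr⟩ := rootE_surj hW he ⟨w, hw⟩ hr u
  obtain ⟨ψ, hψ, hψr⟩ := rootE_surj hW he ⟨w, hw⟩ hr v
  have e1 := hφ σ hσ ⟨w, hw⟩ v hv x
  have e2 := hψ π hπ ⟨w, hw⟩ u hu x
  rw [hφr, hu] at e1
  rw [hψr, hv] at e2
  change _ = w (π (σ x)) at e1
  change _ = w (σ (π x)) at e2
  rw [← e1, ← e2, ← hψr, ← hφr, rootE_comm_endo (by rw [he]; exact h2) φ ψ hφ hψ]

theorem rootE_inv [DecidableEq X] {P : Matrix X X ℚ} (hP : IsPr W P) (hst : Stb 𝒢 W)
    {π : Equiv.Perm X} (hπ : π ∈ 𝒢) (x y : X) : P (π x) (π y) = P x y := by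
  have h := congrFun (congrFun (hP.comm hst π hπ) x) (π y)
  rw [Matrix.mul_apply, Matrix.mul_apply, Finset.sum_eq_single y, Finset.sum_eq_single (π x)] at h
  · unfold pm at h
    rw [if_pos rfl, if_pos rfl, mul_one, one_mul] at h
    exact h.symm
  · intro z _ hz
    unfold pm
    rw [if_neg (Ne.symm hz), zero_mul]
  · intro h
    exact absurd (Finset.mem_univ _) h
  · intro z _ hz
    unfold pm
    rw [if_neg (fun hh => hz (π.injective hh)), mul_zero]
  · intro h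
    exact absurd (Finset.mem_univ _) h

theorem rootE_symm [DecidableEq X] {P : Matrix X X ℚ} (hP : IsPr W P) (x y : X) :
    P x y = P y x := by
  have h := congrFun (congrFun hP.1 y) x
  rw [Matrix.transpose_apply] at h
  exact h

theorem rootE_col [DecidableEq X] {P : Matrix X X ℚ} (hP : IsPr W P) (y : X) :
    (fun x => P x y) ∈ W := by
  have h := hP.2.1 (Pi.single y 1)
  have e : P.mulVec (Pi.single y 1) = fun x => P x y := by
    funext x
    rw [Matrix.mulVec, dotProduct_single, mul_one]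
  rw [e] at h
  exact h

theorem rootE_eval [DecidableEq X] {P : Matrix X X ℚ} (hP : IsPr W P) {w : X → ℚ} (hw : w ∈ W)
    (x : X) : w x = ∑ z, P x z * w z := (congrFun (hP.2.2 w hw) x).symm

theorem rootE_iff [DecidableEq X] {P : Matrix X X ℚ} (hP : IsPr W P) (x y : X) :
    (∀ w ∈ W, w x = w y) ↔ ∀ z, P x z = P y z := by
  constructor
  · intro h z
    exact h _ (rootE_col hP z)
  · intro h w hw
    rw [rootE_eval hP hw x, rootE_eval hP hw y]
    exact Finset.sum_congr rfl fun z _ => by rw [h z]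

theorem rootE_idem [DecidableEq X] {P : Matrix X X ℚ} (hP : IsPr W P) (x y : X) :
    ∑ z, P x z * P y z = P x y := by
  have h := congrFun (congrFun hP.idem x) y
  rw [Matrix.mul_apply] at h
  rw [← h]
  exact Finset.sum_congr rfl fun z _ => by rw [rootE_symm hP y z]

theorem rootE_trace [DecidableEq X] {P : Matrix X X ℚ} (hP : IsPr W P) (hst : Stb 𝒢 W)
    {π : Equiv.Perm X} (hπ : π ∈ 𝒢) :
    ∃ m : ℤ, ∑ x, P x (π x) = m ∧ |m| ≤ finrank ℚ W := by
  obtain ⟨γ, hγmem, hγ'⟩ : ∃ γ : W ≃ₗ[ℚ] W, γ ∈ Gr hst ∧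
      ∀ (f : W) (x : X), (γ f : X → ℚ) x = (f : X → ℚ) (π⁻¹ x) :=
    ⟨rediso_op hst ⟨π, hπ⟩, ⟨⟨π, hπ⟩, rfl⟩, fun f x => rfl⟩
  obtain ⟨m, hm, hb⟩ := tr_int_bd hst _ hγmem
  refine ⟨m, ?_, hb⟩
  rw [← hm]
  have hA : P * (pm ℚ π⁻¹ * P) = pm ℚ π⁻¹ * P := by
    rw [← Matrix.mul_assoc, hP.comm hst π⁻¹ (𝒢.inv_mem hπ), Matrix.mul_assoc, hP.idem]
  have h1 := trace_restrict hP (pm ℚ π⁻¹ * P) hA (γ : W →ₗ[ℚ] W) (by
    intro w
    rw [← Matrix.mulVec_mulVec, hP.2.2 _ w.2, pm_mulVec]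
    funext x
    exact (hγ' w x).symm)
  have h2 : (pm ℚ π⁻¹ * P).trace = ∑ x, P (π⁻¹ x) x := by
    rw [Matrix.trace]
    refine Finset.sum_congr rfl fun x _ => ?_
    rw [Matrix.diag_apply, Matrix.mul_apply, Finset.sum_eq_single (π⁻¹ x)]
    · unfold pm
      rw [if_pos rfl, one_mul]
    · intro y _ hy
      unfold pm
      rw [if_neg (Ne.symm hy), zero_mul]
    · intro h
      exact absurd (Finset.mem_univ _) h
  rw [← h1, h2, ← Equiv.sum_comp π (fun x => P (π⁻¹ x) x)]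
  refine Finset.sum_congr rfl fun x _ => ?_
  have h3 : π⁻¹ (π x) = x := π.symm_apply_apply x
  rw [h3]

theorem rootE_const [DecidableEq X] {P : Matrix X X ℚ} (hP : IsPr W P) (hS : Sys c 𝒢 g)
    (hW : Smp c 𝒢 W) (he : finrank ℚ (Endo 𝒢 W) = finrank ℚ W) (h2 : finrank ℚ W ≤ 2)
    {π : Equiv.Perm X} (hπ : π ∈ 𝒢) (x x' : X) : P x' (π x') = P x (π x) := by
  obtain ⟨σ, hσ, rfl⟩ := hS.trans x x'
  have h1 : ∀ w ∈ W, w (π (σ x)) = w (σ (π x)) := fun w hw => rootE_comm hW he h2 hπ hσ w hw x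
  rw [rootE_iff hP] at h1
  rw [rootE_symm hP, h1, rootE_symm hP, rootE_inv hP hW.2.2.1 hσ]

theorem rootE_int [DecidableEq X] {P : Matrix X X ℚ} (hP : IsPr W P) (hS : Sys c 𝒢 g)
    (hW : Smp c 𝒢 W) (he : finrank ℚ (Endo 𝒢 W) = finrank ℚ W) (h2 : finrank ℚ W ≤ 2) (x y : X) :
    ∃ m : ℤ, (Fintype.card X : ℚ) * P x y = m ∧ |m| ≤ finrank ℚ W := by
  obtain ⟨π, hπ, rfl⟩ := hS.trans x y
  obtain ⟨m, hm, hb⟩ := rootE_trace hP hW.2.2.1 hπ
  refine ⟨m, ?_, hb⟩
  rw [← hm, Finset.sum_congr rfl fun z _ => rootE_const hP hS hW he h2 hπ x z, Finset.sum_const,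
    nsmul_eq_mul, Finset.card_univ]

theorem rootE_diag [DecidableEq X] {P : Matrix X X ℚ} (hP : IsPr W P) (hS : Sys c 𝒢 g)
    (hW : Smp c 𝒢 W) (x : X) : (Fintype.card X : ℚ) * P x x = finrank ℚ W := by
  have h1 : ∀ z, P z z = P x x := by
    intro z
    obtain ⟨σ, hσ, rfl⟩ := hS.trans x z
    exact rootE_inv hP hW.2.2.1 hσ x x
  rw [← hP.trace_eq, Matrix.trace, Finset.sum_congr rfl fun z _ =>
    (show P.diag z = P x x from h1 z), Finset.sum_const, nsmul_eq_mul, Finset.card_univ]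

theorem rootE_sq [DecidableEq X] {P : Matrix X X ℚ} (hP : IsPr W P) (hS : Sys c 𝒢 g)
    (hW : Smp c 𝒢 W) (x : X) :
    ∑ y, ((Fintype.card X : ℚ) * P x y) ^ 2 = finrank ℚ W * Fintype.card X := by
  have h1 := rootE_idem hP x x
  have h2 := rootE_diag hP hS hW x
  calc ∑ y, ((Fintype.card X : ℚ) * P x y) ^ 2 =
      (Fintype.card X : ℚ) ^ 2 * ∑ y, P x y * P x y := by
        rw [Finset.mul_sum]
        exact Finset.sum_congr rfl fun y _ => by ring
    _ = ((Fintype.card X : ℚ) * P x x) * Fintype.card X := by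
        rw [h1]
        ring
    _ = _ := by rw [h2]

theorem rootE_pos (hS : Sys c 𝒢 g) : (0 : ℚ) < Fintype.card X := by
  rw [hS.card]
  have := hS.pos
  exact_mod_cast (by omega : 0 < 2 * g)

theorem rootE_eq_iff [DecidableEq X] {P : Matrix X X ℚ} (hP : IsPr W P) (hS : Sys c 𝒢 g)
    (hW : Smp c 𝒢 W) (x y : X) :
    (Fintype.card X : ℚ) * P x y = finrank ℚ W ↔ ∀ w ∈ W, w x = w y := by
  have hc := rootE_pos hS
  rw [rootE_iff hP]
  constructor
  · intro h
    have e : ∑ z, (P x z - P y z) ^ 2 = 0 := by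
      have e1 : ∑ z, (P x z - P y z) ^ 2 = ∑ z, P x z * P x z - 2 * ∑ z, P x z * P y z +
          ∑ z, P y z * P y z := by
        rw [Finset.mul_sum, ← Finset.sum_sub_distrib, ← Finset.sum_add_distrib]
        exact Finset.sum_congr rfl fun z _ => by ring
      rw [e1, rootE_idem hP, rootE_idem hP, rootE_idem hP]
      have h1 := rootE_diag hP hS hW x
      have h2 := rootE_diag hP hS hW y
      have h3 : (Fintype.card X : ℚ) * (P x x - 2 * P x y + P y y) = 0 := by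
        linear_combination h1 - 2 * h + h2
      exact (mul_eq_zero.1 h3).resolve_left hc.ne'
    intro z
    have h1 := (Finset.sum_eq_zero_iff_of_nonneg fun z _ => sq_nonneg (P x z - P y z)).1 e z
      (Finset.mem_univ z)
    exact sub_eq_zero.1 (pow_eq_zero_iff (two_ne_zero)|>.1 h1)
  · intro h
    rw [h y]
    exact rootE_diag hP hS hW y

theorem rootE_neg [DecidableEq X] {P : Matrix X X ℚ} (hP : IsPr W P) (hW : Smp c 𝒢 W) (x y : X) :
    P x (c y) = - P x y := by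
  rw [rootE_symm hP, rootE_symm hP x y]
  exact hW.2.1 _ (rootE_col hP x) y

theorem rootE_cases [DecidableEq X] {P : Matrix X X ℚ} (hP : IsPr W P) (hS : Sys c 𝒢 g)
    (hW : Smp c 𝒢 W) (he : finrank ℚ (Endo 𝒢 W) = finrank ℚ W) (h1 : 1 ≤ finrank ℚ W)
    (h2 : finrank ℚ W ≤ 2) (x y : X) :
    ((∀ w ∈ W, w x = w y) ∧ (¬ ∀ w ∈ W, w x = w (c y)) ∧
      (Fintype.card X : ℚ) * P x y = finrank ℚ W) ∨
    ((¬ ∀ w ∈ W, w x = w y) ∧ (∀ w ∈ W, w x = w (c y)) ∧
      (Fintype.card X : ℚ) * P x y = -finrank ℚ W) ∨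
    ((¬ ∀ w ∈ W, w x = w y) ∧ (¬ ∀ w ∈ W, w x = w (c y)) ∧
      ∃ m : ℤ, (Fintype.card X : ℚ) * P x y = m ∧ |m| < finrank ℚ W) := by
  rw [← rootE_eq_iff hP hS hW x y, ← rootE_eq_iff hP hS hW x (c y), rootE_neg hP hW]
  have hd : (0 : ℚ) < finrank ℚ W := by exact_mod_cast h1
  obtain ⟨m, hm, hb⟩ := rootE_int hP hS hW he h2 x y
  by_cases ha : (Fintype.card X : ℚ) * P x y = finrank ℚ W
  · left
    refine ⟨ha, ?_, ha⟩
    rw [mul_neg, ha]
    intro h
    linarith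
  by_cases hb' : (Fintype.card X : ℚ) * P x y = -finrank ℚ W
  · right
    left
    refine ⟨ha, ?_, hb'⟩
    rw [mul_neg, hb', neg_neg]
  · right
    right
    refine ⟨ha, ?_, m, hm, lt_of_le_of_ne hb ?_⟩
    · rw [mul_neg]
      intro h
      exact hb' (by rw [← h, neg_neg])
    · intro h
      rcases abs_eq (Int.natCast_nonneg (finrank ℚ W)) |>.1 h with h | h
      · apply ha
        rw [hm, h]
        norm_cast
      · apply hb'
        rw [hm, h]
        norm_cast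

theorem rootE_ev_iff (x y : X) : (fun w : W => (w : X → ℚ) x) = (fun w : W => (w : X → ℚ) y) ↔
    ∀ w ∈ W, w x = w y :=
  ⟨fun h w hw => congrFun h ⟨w, hw⟩, fun h => funext fun w => h w w.2⟩

open Classical in
/-- the size of a fibre -/
noncomputable def rootE_s (W : Submodule ℚ (X → ℚ)) (x : X) : ℕ :=
  (Finset.univ.filter fun y => ∀ w ∈ W, w x = w y).card

theorem rootE_s_const (hS : Sys c 𝒢 g) (hW : Smp c 𝒢 W) (x x' : X) :
    rootE_s W x' = rootE_s W x := by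
  classical
  obtain ⟨σ, hσ, rfl⟩ := hS.trans x x'
  unfold rootE_s
  refine (Finset.card_bij (fun y _ => σ y) ?_ ?_ ?_).symm
  · intro y hy
    rw [Finset.mem_filter] at hy ⊢
    exact ⟨Finset.mem_univ _, fun w hw => hy.2 _ (hW.2.2.1 σ hσ w hw)⟩
  · intro y _ y' _ h
    exact σ.injective h
  · intro y hy
    rw [Finset.mem_filter] at hy
    refine ⟨σ⁻¹ y, ?_, σ.apply_symm_apply y⟩
    rw [Finset.mem_filter]
    refine ⟨Finset.mem_univ _, fun w hw => ?_⟩
    have h := hy.2 _ (hW.2.2.1 σ⁻¹ (𝒢.inv_mem hσ) w hw)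
    have h3 : σ⁻¹ (σ x) = x := σ.symm_apply_apply x
    rw [h3] at h
    exact h

theorem rootE_count (hS : Sys c 𝒢 g) (hW : Smp c 𝒢 W) (x₀ : X) :
    Nat.card (Set.range (fun x : X => fun w : W => (w : X → ℚ) x)) * rootE_s W x₀ =
      Fintype.card X := by
  classical
  have hr : Set.range (fun x : X => fun w : W => (w : X → ℚ) x) =
      ((Finset.univ.image (fun x : X => fun w : W => (w : X → ℚ) x) : Finset (W → ℚ)) :
        Set (W → ℚ)) := by
    rw [Finset.coe_image, Finset.coe_univ, Set.image_univ]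
  rw [hr, Nat.card_coe_set_eq, Set.ncard_coe_finset, ← Finset.card_univ,
    Finset.card_eq_sum_card_image (fun x : X => fun w : W => (w : X → ℚ) x) Finset.univ]
  rw [← smul_eq_mul, ← Finset.sum_const]
  refine Finset.sum_congr rfl fun f hf => ?_
  obtain ⟨x, -, rfl⟩ := Finset.mem_image.1 hf
  rw [rootE_s_const hS hW x x₀]
  unfold rootE_s
  congr 1
  ext y
  rw [Finset.mem_filter, Finset.mem_filter, rootE_ev_iff]
  exact ⟨fun h => ⟨h.1, fun w hw => (h.2 w hw).symm⟩, fun h => ⟨h.1, fun w hw => (h.2 w hw).symm⟩⟩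

theorem rootE_nonzero (hS : Sys c 𝒢 g) (hW : Smp c 𝒢 W) (x : X) : ∃ w ∈ W, w x ≠ 0 := by
  obtain ⟨f, hf, hf0⟩ := W.ne_bot_iff.1 hW.1
  obtain ⟨y, hy⟩ : ∃ y, f y ≠ 0 := by
    by_contra h
    push Not at h
    exact hf0 (funext h)
  obtain ⟨σ, hσ, rfl⟩ := hS.trans x y
  exact ⟨_, hW.2.2.1 σ hσ f hf, hy⟩

theorem rootE_even (hS : Sys c 𝒢 g) (hW : Smp c 𝒢 W) :
    Even (Nat.card (Set.range (fun x : X => fun w : W => (w : X → ℚ) x))) := by
  classical
  have hr : Set.range (fun x : X => fun w : W => (w : X → ℚ) x) =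
      ((Finset.univ.image (fun x : X => fun w : W => (w : X → ℚ) x) : Finset (W → ℚ)) :
        Set (W → ℚ)) := by
    rw [Finset.coe_image, Finset.coe_univ, Set.image_univ]
  rw [hr, Nat.card_coe_set_eq, Set.ncard_coe_finset]
  obtain ⟨F, hF⟩ : ∃ F : Finset (W → ℚ),
      F = Finset.univ.image (fun x : X => fun w : W => (w : X → ℚ) x) := ⟨_, rfl⟩
  rw [← hF]
  have hmem : ∀ f, f ∈ F ↔ ∃ x : X, (fun w : W => (w : X → ℚ) x) = f := by
    intro f
    rw [hF, Finset.mem_image]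
    exact ⟨fun ⟨x, _, hx⟩ => ⟨x, hx⟩, fun ⟨x, hx⟩ => ⟨x, Finset.mem_univ _, hx⟩⟩
  have h0 : ∑ f ∈ F, (1 : ZMod 2) = 0 := by
    refine Finset.sum_involution (fun f _ => -f) ?_ ?_ ?_ ?_
    · intro f _
      decide
    · intro f hf _ hff
      obtain ⟨x, rfl⟩ := (hmem f).1 hf
      obtain ⟨w, hw, hwx⟩ := rootE_nonzero hS hW x
      have h1 := congrFun hff ⟨w, hw⟩
      change - w x = w x at h1
      apply hwx
      linarith
    · intro f hf
      obtain ⟨x, rfl⟩ := (hmem f).1 hf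
      rw [hmem]
      refine ⟨c x, funext fun w => ?_⟩
      exact hW.2.1 _ w.2 x
    · intro f _
      exact neg_neg f
  rw [Finset.sum_const, nsmul_eq_mul, mul_one, ZMod.natCast_eq_zero_iff] at h0
  exact even_iff_two_dvd.2 h0

open Classical in
theorem rootE_sum_a (W : Submodule ℚ (X → ℚ)) (x : X) :
    ∑ y, (if ∀ w ∈ W, w x = w y then (1 : ℚ) else 0) = rootE_s W x := by
  rw [Finset.sum_boole]
  rfl

open Classical in
theorem rootE_sum_b (W : Submodule ℚ (X → ℚ)) (x : X) :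
    ∑ y, (if ∀ w ∈ W, w x = w (c y) then (1 : ℚ) else 0) = rootE_s W x := by
  rw [← rootE_sum_a W x, ← Equiv.sum_comp c
    (fun y => if ∀ w ∈ W, w x = w y then (1 : ℚ) else 0)]

theorem root_e_triv (hS : Sys c 𝒢 g) (hW : Smp c 𝒢 W)
    (he : finrank ℚ (Endo 𝒢 W) = finrank ℚ W) (x y : X) (h : ∀ w ∈ W, w x = w y) :
    ∃ π, Triv 𝒢 W π ∧ π x = y := by
  classical
  obtain ⟨P, hP⟩ := exists_pr W
  obtain ⟨π, hπ, rfl⟩ := hS.trans x y
  refine ⟨π, ?_, rfl⟩
  obtain ⟨w, hw, hwx⟩ := rootE_nonzero hS hW x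
  have hr : (⟨fun z => P z x, rootE_col hP x⟩ : W) ≠ 0 := by
    intro h0
    apply hwx
    rw [rootE_eval hP hw x]
    refine Finset.sum_eq_zero fun z _ => ?_
    have h1 := congrFun (congrArg Subtype.val h0) z
    change P z x = 0 at h1
    rw [rootE_symm hP, h1, zero_mul]
  refine rootE_fix hW he hπ _ hr fun z => ?_
  change P (π z) x = P z x
  have h1 := (rootE_iff hP x (π x)).1 h (π z)
  rw [rootE_symm hP, h1, rootE_symm hP, rootE_inv hP hW.2.2.1 hπ]

theorem root_one_card (hS : Sys c 𝒢 g) (hW : Smp c 𝒢 W) (hd : finrank ℚ W = 1) :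
    Nat.card (Set.range (fun x : X => fun w : W => (w : X → ℚ) x)) = 2 := by
  classical
  obtain ⟨P, hP⟩ := exists_pr W
  have he : finrank ℚ (Endo 𝒢 W) = finrank ℚ W := by
    have h1 := endo_dvd_dim hW
    rw [hd] at h1 ⊢
    exact Nat.dvd_one.1 h1
  have hX : 0 < Fintype.card X := by exact_mod_cast rootE_pos hS
  obtain ⟨x₀⟩ := Fintype.card_pos_iff.1 hX
  have h1 : ∑ y, ((Fintype.card X : ℚ) * P x₀ y) ^ 2 =
      ∑ y, ((if ∀ w ∈ W, w x₀ = w y then (1 : ℚ) else 0) +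
        (if ∀ w ∈ W, w x₀ = w (c y) then (1 : ℚ) else 0)) := by
    refine Finset.sum_congr rfl fun y _ => ?_
    rcases rootE_cases hP hS hW he (by omega) (by omega) x₀ y with
      ⟨a1, a2, a3⟩ | ⟨a1, a2, a3⟩ | ⟨a1, a2, m, a3, a4⟩
    · rw [if_pos a1, if_neg a2, a3, hd]
      norm_num
    · rw [if_neg a1, if_pos a2, a3, hd]
      norm_num
    · rw [if_neg a1, if_neg a2, a3]
      have h5 : m = 0 := by
        rw [hd] at a4
        rw [← Int.abs_lt_one_iff]
        exact_mod_cast a4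
      rw [h5]
      norm_num
  rw [rootE_sq hP hS hW, Finset.sum_add_distrib, rootE_sum_a, rootE_sum_b, hd] at h1
  have h2 : Fintype.card X = 2 * rootE_s W x₀ := by
    have h3 : ((Fintype.card X : ℕ) : ℚ) = ((2 * rootE_s W x₀ : ℕ) : ℚ) := by
      push_cast
      push_cast at h1
      linarith
    exact_mod_cast h3
  have h3 := rootE_count hS hW x₀
  rw [h2] at h3
  exact Nat.eq_of_mul_eq_mul_right (by omega) h3

theorem root_e_card (hS : Sys c 𝒢 g) (hW : Smp c 𝒢 W) (hd : finrank ℚ W = 2)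
    (he : finrank ℚ (Endo 𝒢 W) = finrank ℚ W) :
    Nat.card (Set.range (fun x : X => fun w : W => (w : X → ℚ) x)) = 4 ∨
    Nat.card (Set.range (fun x : X => fun w : W => (w : X → ℚ) x)) = 6 := by
  classical
  obtain ⟨P, hP⟩ := exists_pr W
  have hX : 0 < Fintype.card X := by exact_mod_cast rootE_pos hS
  obtain ⟨x₀⟩ := Fintype.card_pos_iff.1 hX
  have hpt : ∀ y, 4 * ((if ∀ w ∈ W, w x₀ = w y then (1 : ℚ) else 0) +
        (if ∀ w ∈ W, w x₀ = w (c y) then (1 : ℚ) else 0)) ≤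
        ((Fintype.card X : ℚ) * P x₀ y) ^ 2 ∧
      ((Fintype.card X : ℚ) * P x₀ y) ^ 2 ≤ 1 +
        3 * ((if ∀ w ∈ W, w x₀ = w y then (1 : ℚ) else 0) +
        (if ∀ w ∈ W, w x₀ = w (c y) then (1 : ℚ) else 0)) := by
    intro y
    rcases rootE_cases hP hS hW he (by omega) (by omega) x₀ y with
      ⟨a1, a2, a3⟩ | ⟨a1, a2, a3⟩ | ⟨a1, a2, m, a3, a4⟩
    · rw [if_pos a1, if_neg a2, a3, hd]
      norm_num
    · rw [if_neg a1, if_pos a2, a3, hd]
      norm_num
    · rw [if_neg a1, if_neg a2, a3]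
      have h5 : m ^ 2 ≤ 1 := by
        rw [hd] at a4
        have h6 := abs_lt.1 a4
        have h7 : -1 ≤ m := by
          have := h6.1
          push_cast at this
          omega
        have h8 : m ≤ 1 := by
          have := h6.2
          push_cast at this
          omega
        nlinarith
      have h6 : ((m : ℚ)) ^ 2 ≤ 1 := by exact_mod_cast h5
      constructor
      · nlinarith [sq_nonneg (m : ℚ)]
      · linarith
  have h1 := Finset.sum_le_sum fun y (_ : y ∈ (Finset.univ : Finset X)) => (hpt y).1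
  have h2 := Finset.sum_le_sum fun y (_ : y ∈ (Finset.univ : Finset X)) => (hpt y).2
  rw [rootE_sq hP hS hW, ← Finset.mul_sum, Finset.sum_add_distrib, rootE_sum_a, rootE_sum_b,
    hd] at h1
  rw [rootE_sq hP hS hW, Finset.sum_add_distrib, ← Finset.mul_sum, Finset.sum_add_distrib,
    rootE_sum_a, rootE_sum_b, hd, Finset.sum_const, nsmul_eq_mul, Finset.card_univ] at h2
  have h3 : 4 * rootE_s W x₀ ≤ Fintype.card X := by
    have h4 : ((4 * rootE_s W x₀ : ℕ) : ℚ) ≤ ((Fintype.card X : ℕ) : ℚ) := by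
      push_cast
      push_cast at h1
      linarith
    exact_mod_cast h4
  have h4 : Fintype.card X ≤ 6 * rootE_s W x₀ := by
    have h5 : ((Fintype.card X : ℕ) : ℚ) ≤ ((6 * rootE_s W x₀ : ℕ) : ℚ) := by
      push_cast
      push_cast at h2
      linarith
    exact_mod_cast h5
  have h5 := rootE_count hS hW x₀
  have h6 := rootE_even hS hW
  obtain ⟨n, hn⟩ : ∃ n : ℕ, n = Nat.card (Set.range (fun x : X => fun w : W => (w : X → ℚ) x)) :=
    ⟨_, rfl⟩
  rw [← hn] at h5 h6 ⊢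
  have hs : 0 < rootE_s W x₀ := by
    rcases Nat.eq_zero_or_pos (rootE_s W x₀) with h | h
    · rw [h] at h4
      omega
    · exact h
  have h7 : 4 ≤ n := by
    by_contra hc
    push Not at hc
    have : n * rootE_s W x₀ ≤ 3 * rootE_s W x₀ := Nat.mul_le_mul_right _ (by omega)
    omega
  have h8 : n ≤ 6 := by
    by_contra hc
    push Not at hc
    have : 7 * rootE_s W x₀ ≤ n * rootE_s W x₀ := Nat.mul_le_mul_right _ (by omega)
    omega
  obtain ⟨k, hk⟩ := h6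
  omega

end Pool.Agent.H52.CS
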