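import Mathlib

/-!
# The choice of the prime (module H52 CS BndMNum)

For given `Y` and `ε > 0` and all large `g` there are a prime `q` and an integer `B` with the inequalities below.

PROOF.  Let `h = 3^(Y²)`, `L = log g`.  By Bertrand (`Nat.exists_prime_lt_and_le_two_mul`) there is a prime `q` with
`N < q ≤ 2 N`, `N = ⌈√g L²⌉`, and let `B = ⌈L^4⌉`.  For large `g`: `q ≥ √g L²` and `q ≤ 4 √g L²`; `h < q`,
`2 h Y² B < q`, `Y! (B + 1)^Y < q` (the left sides are `O(L^(4 Y + 4))`); `8 g ≤ ε q²` since `q² ≥ g L^4`;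
`g ≤ q²`; `2 Y ≤ q`; `k = ⌊g / h⌋ ≥ g/(2 h)` and `2 k B²/q² ≥ 2 (g/(2h)) L^8 / (16 g L^4) = L^4/(16 h) ≥
Y log q` since `log q ≤ log (4 √g L²) ≤ L` (for large `g`), so `q^Y exp(-2 k B²/q²) ≤ 1`; the last one:
`(2B+1)^h (6 √(2 Y)/√g)^3 ≤ (L^5)^h (6 √(2Y))^3 g^(-3/2) ≤ ε / (2 g)`, because a power of
`L` is `o(√g)` (`isLittleO_log_rpow_rpow_atTop` or `Real.isLittleO_pow_log_id_atTop`).  Every inequality may be
proved separately as an `∀ᶠ` statement.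
-/

namespace Pool.Agent.H52.CS

theorem bndMNum_poly (C : ℝ) (n : ℕ) :
    ∀ᶠ g : ℕ in Filter.atTop, C * (Real.log g) ^ n ≤ Real.sqrt g := by
  have hs : Filter.Tendsto (fun g : ℕ => Real.sqrt (g : ℝ)) Filter.atTop Filter.atTop :=
    Real.tendsto_sqrt_atTop.comp tendsto_natCast_atTop_atTop
  have h1 := (Real.isLittleO_pow_log_id_atTop (n := n)).comp_tendsto hs
  have hc : 0 < 1 / ((|C| + 1) * 2 ^ n) := by positivity
  have h2 := h1.bound hc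
  filter_upwards [h2, Filter.eventually_ge_atTop 1] with g hg hg1
  have hg0 : (0 : ℝ) < g := by exact_mod_cast hg1
  have hl : Real.log g = 2 * Real.log (Real.sqrt g) := by
    rw [Real.log_sqrt hg0.le]
    ring
  simp only [Function.comp_apply, id_eq, Real.norm_eq_abs] at hg
  rw [abs_of_nonneg (Real.sqrt_nonneg _)] at hg
  have h3 : C * (Real.log g) ^ n ≤ |C| * 2 ^ n * |Real.log (Real.sqrt g) ^ n| := by
    rw [hl, mul_pow]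
    calc C * (2 ^ n * Real.log (Real.sqrt g) ^ n)
        ≤ |C * (2 ^ n * Real.log (Real.sqrt g) ^ n)| := le_abs_self _
      _ = |C| * 2 ^ n * |Real.log (Real.sqrt g) ^ n| := by
          rw [abs_mul, abs_mul, abs_of_nonneg (by positivity : (0 : ℝ) ≤ 2 ^ n)]
          ring
  refine h3.trans ?_
  have h4 : |C| * 2 ^ n * |Real.log (Real.sqrt g) ^ n| ≤
      |C| * 2 ^ n * (1 / ((|C| + 1) * 2 ^ n) * Real.sqrt g) :=
    mul_le_mul_of_nonneg_left hg (by positivity)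
  refine h4.trans ?_
  have h5 : |C| * 2 ^ n * (1 / ((|C| + 1) * 2 ^ n) * Real.sqrt g) =
      (|C| / (|C| + 1)) * Real.sqrt g := by
    field_simp
  rw [h5]
  have h6 : |C| / (|C| + 1) ≤ 1 := by
    rw [div_le_one (by positivity)]
    linarith
  calc |C| / (|C| + 1) * Real.sqrt g ≤ 1 * Real.sqrt g :=
        mul_le_mul_of_nonneg_right h6 (Real.sqrt_nonneg _)
    _ = Real.sqrt g := one_mul _

theorem bndMNum_det (Y h g : ℕ) (ε : ℝ) (hε : 0 < ε) (hh : 1 ≤ h) (L s : ℝ)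
    (hL : L = Real.log g) (hs : s = Real.sqrt g) (hL1 : 1 ≤ L) (hg1 : 1 ≤ g)
    (a1 : (h : ℝ) ≤ s) (a2 : 4 * h * Y ^ 2 * L ^ 2 ≤ s)
    (a3 : Y.factorial * 3 ^ Y * L ^ (4 * Y) ≤ s) (a4 : 8 / ε ≤ L ^ 4)
    (a6 : 2 * (Y : ℝ) ≤ s) (a7 : 2 * h ≤ g) (a7' : 4 * L ^ 2 ≤ s)
    (a7'' : 16 * h * Y ≤ L ^ 3) (a9 : 6 * Real.sqrt (2 * Y) ≤ s)
    (a10 : (5 ^ h * 2 * (6 * Real.sqrt (2 * Y)) ^ 3 / ε) * L ^ (4 * h) ≤ s) :
    ∃ q B : ℕ, q.Prime ∧ h < q ∧ 2 * (h * Y ^ 2 * B) < q ∧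
      Y.factorial * (B + 1) ^ Y < q ∧ 8 * (g : ℝ) ≤ ε * (q : ℝ) ^ 2 ∧ g ≤ q ^ 2 ∧ 2 * Y ≤ q ∧
      (q : ℝ) ^ Y * Real.exp (-(2 * (g / h : ℕ) * B ^ 2 / (q : ℝ) ^ 2)) ≤ 1 ∧
      2 * Y ≤ g ∧ 6 * Real.sqrt (2 * Y) / Real.sqrt g ≤ 1 ∧
      (2 * (B : ℝ) + 1) ^ h * (6 * Real.sqrt (2 * Y) / Real.sqrt g) ^ 3 ≤
        ε / (2 * g) := by
  have hg0 : (0 : ℝ) < g := by exact_mod_cast hg1
  have hs0 : 0 < s := by rw [hs]; exact Real.sqrt_pos.2 hg0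
  have hss : s * s = g := by rw [hs]; exact Real.mul_self_sqrt hg0.le
  have hL2 : 1 ≤ L ^ 2 := one_le_pow₀ hL1
  have hL4 : 1 ≤ L ^ 4 := one_le_pow₀ hL1
  have hs1 : 1 ≤ s := by
    have : (1 : ℝ) ≤ h := by exact_mod_cast hh
    linarith
  have hsL : 1 ≤ s * L ^ 2 := by nlinarith
  have hN0 : ⌈s * L ^ 2⌉₊ ≠ 0 := by
    have := Nat.ceil_pos.2 (lt_of_lt_of_le one_pos hsL)
    omega
  obtain ⟨q, hq, hq1, hq2⟩ := Nat.exists_prime_lt_and_le_two_mul _ hN0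
  have hqa : s * L ^ 2 < q := by
    have h1 := Nat.le_ceil (s * L ^ 2)
    have h2 : ((⌈s * L ^ 2⌉₊ : ℕ) : ℝ) < q := by exact_mod_cast hq1
    linarith
  have hqb : (q : ℝ) ≤ 4 * (s * L ^ 2) := by
    have h1 := Nat.ceil_lt_add_one (by linarith : 0 ≤ s * L ^ 2)
    have h2 : (q : ℝ) ≤ 2 * ((⌈s * L ^ 2⌉₊ : ℕ) : ℝ) := by exact_mod_cast hq2
    linarith
  have hB1 : L ^ 4 ≤ ((⌈L ^ 4⌉₊ : ℕ) : ℝ) := Nat.le_ceil _
  have hB2 : ((⌈L ^ 4⌉₊ : ℕ) : ℝ) ≤ 2 * L ^ 4 := by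
    have h1 := Nat.ceil_lt_add_one (by linarith : 0 ≤ L ^ 4)
    linarith
  have hsq : s < q := by nlinarith
  have hq0 : (0 : ℝ) < q := by linarith
  have hqq : (g : ℝ) * L ^ 4 ≤ (q : ℝ) ^ 2 := by
    have h1 : (s * L ^ 2) ^ 2 ≤ (q : ℝ) ^ 2 := by
      apply pow_le_pow_left₀ (by positivity) hqa.le
    have h2 : (s * L ^ 2) ^ 2 = (g : ℝ) * L ^ 4 := by
      rw [← hss]
      ring
    linarith
  have hqq2 : (q : ℝ) ^ 2 ≤ 16 * (g * L ^ 4) := by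
    have h1 : (q : ℝ) ^ 2 ≤ (4 * (s * L ^ 2)) ^ 2 := pow_le_pow_left₀ hq0.le hqb 2
    have h2 : (4 * (s * L ^ 2)) ^ 2 = 16 * ((g : ℝ) * L ^ 4) := by
      rw [← hss]
      ring
    linarith
  refine ⟨q, ⌈L ^ 4⌉₊, hq, ?_, ?_, ?_, ?_, ?_, ?_, ?_, ?_, ?_, ?_⟩
  · have : (h : ℝ) < q := by linarith
    exact_mod_cast this
  · have h1 : (2 * (h * Y ^ 2 * ((⌈L ^ 4⌉₊ : ℕ) : ℝ))) < q := by
      have h2 : 2 * (h * (Y : ℝ) ^ 2 * ((⌈L ^ 4⌉₊ : ℕ) : ℝ)) ≤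
          2 * (h * (Y : ℝ) ^ 2 * (2 * L ^ 4)) := by
        have : (0 : ℝ) ≤ h * (Y : ℝ) ^ 2 := by positivity
        nlinarith [mul_le_mul_of_nonneg_left hB2 this]
      have h3 : 2 * (h * (Y : ℝ) ^ 2 * (2 * L ^ 4)) = (4 * h * Y ^ 2 * L ^ 2) * L ^ 2 := by ring
      have h4 : (4 * h * Y ^ 2 * L ^ 2) * L ^ 2 ≤ s * L ^ 2 :=
        mul_le_mul_of_nonneg_right a2 (by positivity)
      linarith
    exact_mod_cast h1
  · have h1 : (Y.factorial : ℝ) * ((((⌈L ^ 4⌉₊ : ℕ) : ℝ)) + 1) ^ Y < q := by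
      have h2 : ((((⌈L ^ 4⌉₊ : ℕ) : ℝ)) + 1) ^ Y ≤ (3 * L ^ 4) ^ Y :=
        pow_le_pow_left₀ (by positivity) (by linarith) Y
      have h3 : (3 * L ^ 4) ^ Y = 3 ^ Y * L ^ (4 * Y) := by rw [mul_pow, ← pow_mul]
      have h4 : (Y.factorial : ℝ) * ((((⌈L ^ 4⌉₊ : ℕ) : ℝ)) + 1) ^ Y ≤
          Y.factorial * (3 ^ Y * L ^ (4 * Y)) := by
        rw [← h3]
        exact mul_le_mul_of_nonneg_left h2 (by positivity)
      have h5 : (Y.factorial : ℝ) * (3 ^ Y * L ^ (4 * Y)) =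
          Y.factorial * 3 ^ Y * L ^ (4 * Y) := by ring
      linarith
    exact_mod_cast h1
  · have h1 : 8 ≤ ε * L ^ 4 := by
      rw [div_le_iff₀ hε] at a4
      linarith
    calc 8 * (g : ℝ) ≤ (ε * L ^ 4) * g := mul_le_mul_of_nonneg_right h1 hg0.le
      _ = ε * (g * L ^ 4) := by ring
      _ ≤ ε * (q : ℝ) ^ 2 := mul_le_mul_of_nonneg_left hqq hε.le
  · have h1 : (g : ℝ) ≤ (q : ℝ) ^ 2 := by nlinarith
    exact_mod_cast h1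
  · have h1 : 2 * (Y : ℝ) ≤ q := by linarith
    exact_mod_cast h1
  · have hk : (g : ℝ) / (2 * h) ≤ ((g / h : ℕ) : ℝ) := by
      have h1 : g < h * (g / h + 1) := by
        have := Nat.lt_mul_div_succ g (by omega : 0 < h)
        exact this
      have h2 : (g : ℝ) < h * (((g / h : ℕ) : ℝ) + 1) := by exact_mod_cast h1
      have h3 : (2 : ℝ) * h ≤ g := by exact_mod_cast a7
      have h0 : (0 : ℝ) < h := by exact_mod_cast (by omega : 0 < h)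
      rw [div_le_iff₀ (by positivity)]
      nlinarith
    have h0 : (0 : ℝ) < h := by exact_mod_cast (by omega : 0 < h)
    have hqg : (q : ℝ) ≤ g := by
      have h1 : 4 * (s * L ^ 2) ≤ s * s := by nlinarith
      linarith
    have hlog : Real.log q ≤ L := by
      rw [hL]
      exact Real.log_le_log hq0 hqg
    have hx : L ^ 4 / (16 * h) ≤
        2 * ((g / h : ℕ) : ℝ) * ((⌈L ^ 4⌉₊ : ℕ) : ℝ) ^ 2 / (q : ℝ) ^ 2 := by
      rw [div_le_div_iff₀ (by positivity) (by positivity)]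
      have h1 : (L ^ 4) ^ 2 ≤ ((⌈L ^ 4⌉₊ : ℕ) : ℝ) ^ 2 := pow_le_pow_left₀ (by positivity) hB1 2
      have h2 : (g : ℝ) ≤ ((g / h : ℕ) : ℝ) * (2 * h) := by
        rw [div_le_iff₀ (by positivity)] at hk
        exact hk
      calc L ^ 4 * (q : ℝ) ^ 2 ≤ L ^ 4 * (16 * (g * L ^ 4)) :=
            mul_le_mul_of_nonneg_left hqq2 (by positivity)
        _ = 16 * ((L ^ 4) ^ 2 * g) := by ring
        _ ≤ 16 * (((⌈L ^ 4⌉₊ : ℕ) : ℝ) ^ 2 * (((g / h : ℕ) : ℝ) * (2 * h))) := by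
            apply mul_le_mul_of_nonneg_left _ (by norm_num)
            exact mul_le_mul h1 h2 hg0.le (by positivity)
        _ = 2 * ((g / h : ℕ) : ℝ) * ((⌈L ^ 4⌉₊ : ℕ) : ℝ) ^ 2 * (16 * h) := by ring
    have hy : (Y : ℝ) * Real.log q ≤ L ^ 4 / (16 * h) := by
      rw [le_div_iff₀ (by positivity)]
      have h1 : (Y : ℝ) * Real.log q ≤ Y * L := mul_le_mul_of_nonneg_left hlog (by positivity)
      calc (Y : ℝ) * Real.log q * (16 * h) ≤ (Y * L) * (16 * h) :=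
            mul_le_mul_of_nonneg_right h1 (by positivity)
        _ = (16 * h * Y) * L := by ring
        _ ≤ L ^ 3 * L := mul_le_mul_of_nonneg_right a7'' (by linarith)
        _ = L ^ 4 := by ring
    have hqY : (q : ℝ) ^ Y = Real.exp ((Y : ℝ) * Real.log q) := by
      rw [mul_comm, Real.exp_mul, Real.exp_log hq0, Real.rpow_natCast]
    rw [hqY, ← Real.exp_add, Real.exp_le_one_iff]
    linarith
  · have h1 : 2 * (Y : ℝ) ≤ g := by nlinarith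
    exact_mod_cast h1
  · rw [← hs, div_le_one hs0]
    exact a9
  · rw [← hs]
    have h1 : (2 * (((⌈L ^ 4⌉₊ : ℕ) : ℝ)) + 1) ^ h ≤ (5 * L ^ 4) ^ h :=
      pow_le_pow_left₀ (by positivity) (by linarith) h
    have h2 : (5 * L ^ 4) ^ h = 5 ^ h * L ^ (4 * h) := by rw [mul_pow, ← pow_mul]
    have hC : 0 ≤ 6 * Real.sqrt (2 * Y) := by positivity
    rw [div_pow, ← hss]
    have h3 : (5 ^ h * L ^ (4 * h)) * (6 * Real.sqrt (2 * Y)) ^ 3 * 2 ≤ ε * s := by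
      have h4 := mul_le_mul_of_nonneg_left a10 hε.le
      have h5 : ε * ((5 ^ h * 2 * (6 * Real.sqrt (2 * Y)) ^ 3 / ε) * L ^ (4 * h)) =
          (5 ^ h * L ^ (4 * h)) * (6 * Real.sqrt (2 * Y)) ^ 3 * 2 := by
        field_simp
      linarith
    calc (2 * (((⌈L ^ 4⌉₊ : ℕ) : ℝ)) + 1) ^ h * ((6 * Real.sqrt (2 * Y)) ^ 3 / s ^ 3)
        ≤ (5 ^ h * L ^ (4 * h)) * ((6 * Real.sqrt (2 * Y)) ^ 3 / s ^ 3) := by
          rw [← h2]
          exact mul_le_mul_of_nonneg_right h1 (by positivity)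
      _ = ((5 ^ h * L ^ (4 * h)) * (6 * Real.sqrt (2 * Y)) ^ 3 * 2) / (2 * s ^ 3) := by
          field_simp
      _ ≤ (ε * s) / (2 * s ^ 3) := div_le_div_of_nonneg_right h3 (by positivity)
      _ = ε / (2 * (s * s)) := by
          field_simp

theorem bndm_num (Y : ℕ) (ε : ℝ) (hε : 0 < ε) : ∃ g₀ : ℕ, 1 ≤ g₀ ∧ ∀ g : ℕ, g₀ ≤ g →
    ∃ q B : ℕ, q.Prime ∧ 3 ^ (Y ^ 2) < q ∧ 2 * (3 ^ (Y ^ 2) * Y ^ 2 * B) < q ∧
      Y.factorial * (B + 1) ^ Y < q ∧ 8 * (g : ℝ) ≤ ε * (q : ℝ) ^ 2 ∧ g ≤ q ^ 2 ∧ 2 * Y ≤ q ∧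
      (q : ℝ) ^ Y * Real.exp (-(2 * (g / 3 ^ (Y ^ 2) : ℕ) * B ^ 2 / (q : ℝ) ^ 2)) ≤ 1 ∧
      2 * Y ≤ g ∧ 6 * Real.sqrt (2 * Y) / Real.sqrt g ≤ 1 ∧
      (2 * (B : ℝ) + 1) ^ (3 ^ (Y ^ 2)) * (6 * Real.sqrt (2 * Y) / Real.sqrt g) ^ 3 ≤
        ε / (2 * g) := by
  have hT : Filter.Tendsto (fun g : ℕ => Real.log (g : ℝ)) Filter.atTop Filter.atTop :=
    Real.tendsto_log_atTop.comp tendsto_natCast_atTop_atTop
  have key : ∀ᶠ g : ℕ in Filter.atTop, ∃ q B : ℕ, q.Prime ∧ 3 ^ (Y ^ 2) < q ∧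
      2 * (3 ^ (Y ^ 2) * Y ^ 2 * B) < q ∧
      Y.factorial * (B + 1) ^ Y < q ∧ 8 * (g : ℝ) ≤ ε * (q : ℝ) ^ 2 ∧ g ≤ q ^ 2 ∧ 2 * Y ≤ q ∧
      (q : ℝ) ^ Y * Real.exp (-(2 * (g / 3 ^ (Y ^ 2) : ℕ) * B ^ 2 / (q : ℝ) ^ 2)) ≤ 1 ∧
      2 * Y ≤ g ∧ 6 * Real.sqrt (2 * Y) / Real.sqrt g ≤ 1 ∧
      (2 * (B : ℝ) + 1) ^ (3 ^ (Y ^ 2)) * (6 * Real.sqrt (2 * Y) / Real.sqrt g) ^ 3 ≤
        ε / (2 * g) := by
    generalize hh : 3 ^ (Y ^ 2) = h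
    have hh1 : 1 ≤ h := by
      rw [← hh]
      exact Nat.one_le_pow _ _ (by norm_num)
    filter_upwards [hT.eventually_ge_atTop (8 / ε + 1), hT.eventually_ge_atTop (16 * h * Y + 1),
      Filter.eventually_ge_atTop (2 * h), bndMNum_poly h 0, bndMNum_poly (4 * h * Y ^ 2) 2,
      bndMNum_poly (Y.factorial * 3 ^ Y) (4 * Y), bndMNum_poly (2 * Y) 0, bndMNum_poly 4 2,
      bndMNum_poly (6 * Real.sqrt (2 * Y)) 0,
      bndMNum_poly (5 ^ h * 2 * (6 * Real.sqrt (2 * Y)) ^ 3 / ε) (4 * h)] with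
      g b1 b2 b3 b4 b5 b6 b7 b8 b9 b10
    have hL1 : 1 ≤ Real.log (g : ℝ) := by
      have : 0 < 8 / ε := by positivity
      linarith
    refine bndMNum_det Y h g ε hε hh1 (Real.log g) (Real.sqrt g) rfl rfl hL1 (by omega)
      ?_ b5 b6 ?_ ?_ b3 b8 ?_ ?_ b10
    · simpa using b4
    · have h1 : Real.log (g : ℝ) ≤ Real.log g ^ 4 := by
        calc Real.log (g : ℝ) = Real.log g ^ 1 := (pow_one _).symm
          _ ≤ Real.log g ^ 4 := pow_le_pow_right₀ hL1 (by norm_num)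
      linarith
    · simpa using b7
    · have h1 : Real.log (g : ℝ) ≤ Real.log g ^ 3 := by
        calc Real.log (g : ℝ) = Real.log g ^ 1 := (pow_one _).symm
          _ ≤ Real.log g ^ 3 := pow_le_pow_right₀ hL1 (by norm_num)
      linarith
    · simpa using b9
  obtain ⟨g₀, hg₀⟩ := Filter.eventually_atTop.1 key
  refine ⟨max 1 g₀, le_max_left _ _, ?_⟩
  intro g hg
  exact hg₀ g ((le_max_right _ _).trans hg)

end Pool.Agent.H52.CS
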