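import Mathlib
import Pool.Agent.H52.AD.Base
import Pool.Agent.H52.CS.Defs

/-!
# The orbits of the elements that act trivially (module H52 CS Block)

`W` stable.  (1) For `x ∈ X` the orbit `S` of `x` under the elements of `𝒢` that act trivially on `W` has at
least `2 g / |Gm 𝒢 W|` points.  (2) The functions in `Y ∈ Ys 𝒢 W p` are invariant under these elements.

PROOF.  (1) Choose for every `T ∈ Gm 𝒢 W` (a finite set, `gm_finite`) an element `π_T ∈ 𝒢` with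
`T f = f ∘ π_T`.  Every `y ∈ X` is `π x` with `π ∈ 𝒢` (transitivity); let `T` be the operator of `π` on `W`.  Then
`σ = π_T⁻¹ π` acts trivially on `W`: for `f ∈ W`, `f ∘ (π_T⁻¹ π) = (f ∘ π_T⁻¹) ∘ π = T (f ∘ π_T⁻¹) =
(f ∘ π_T⁻¹) ∘ π_T = f`.  So `y = π_T (σ x) ∈ π_T S`, and `X` is the union of `|Gm 𝒢 W|` sets of
`|S|` elements.
(2) Let `f ∈ Y = red p (range φ)`: `f` is the reduction of `w : X → ℤ` with `w = φ u` (as rational functions),
`u ∈ W`.  If `π` acts trivially, then `w (π x) = (φ u)(π x) = (φ u')(x)` with `u' = u ∘ π = u` (`Eqv`), so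
`w (π x) = w x`.
-/

namespace Pool.Agent.H52.CS

open Module Pool.Agent.H52.AD

variable {X : Type} [Fintype X] {c : Equiv.Perm X} {𝒢 : Subgroup (Equiv.Perm X)} {g : ℕ}
  {W : Submodule ℚ (X → ℚ)}

theorem block (hS : Sys c 𝒢 g) (hst : Stb 𝒢 W) (x : X) :
    ∃ S : Finset X, 2 * g ≤ Nat.card (Gm 𝒢 W) * S.card ∧ ∀ y ∈ S, ∃ π, Triv 𝒢 W π ∧ π x = y := by
  classical
  have hfin : Finite (Gm 𝒢 W) := (gm_finite hst).to_subtype
  have h : ∀ φ : Gm 𝒢 W, ∃ π : Equiv.Perm X, π ∈ 𝒢 ∧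
      ∀ f : W, ∀ x, ((φ : W →ₗ[ℚ] W) f : X → ℚ) x = (f : X → ℚ) (π x) := fun φ => φ.2
  choose F hF hF2 using h
  refine ⟨Finset.univ.filter fun y => ∃ π, Triv 𝒢 W π ∧ π x = y, ?_, ?_⟩
  · set S : Finset X := Finset.univ.filter fun y => ∃ π, Triv 𝒢 W π ∧ π x = y with hSdef
    have hsurj : Function.Surjective (fun q : Gm 𝒢 W × S => F q.1 (q.2 : X)) := by
      intro y
      obtain ⟨π, hπ, hπx⟩ := hS.trans x y
      obtain ⟨φ, hφ⟩ := Base_op hst π hπ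
      set T : Gm 𝒢 W := ⟨φ, π, hπ, hφ⟩ with hT
      have h1 : ∀ f ∈ W, ∀ z, f (π z) = f (F T z) := by
        intro f hf z
        have e1 := hφ ⟨f, hf⟩ z
        have e2 := hF2 T ⟨f, hf⟩ z
        exact e1.symm.trans e2
      have hσ : Triv 𝒢 W ((F T)⁻¹ * π) := by
        refine ⟨𝒢.mul_mem (𝒢.inv_mem (hF T)) hπ, ?_⟩
        intro f hf z
        have h2 := h1 (fun w => f ((F T)⁻¹ w)) (hst _ (𝒢.inv_mem (hF T)) f hf) z
        rw [Equiv.Perm.mul_apply]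
        simpa using h2
      refine ⟨(T, ⟨((F T)⁻¹ * π) x, ?_⟩), ?_⟩
      · rw [hSdef, Finset.mem_filter]
        exact ⟨Finset.mem_univ _, _, hσ, rfl⟩
      · change F T (((F T)⁻¹ * π) x) = y
        simp [Equiv.Perm.mul_apply, hπx]
    have h3 := Nat.card_le_card_of_surjective _ hsurj
    rw [Nat.card_prod, Nat.card_eq_fintype_card (α := X), hS.card, Nat.card_eq_fintype_card (α := S),
      Fintype.card_coe] at h3
    exact h3
  · intro y hy
    rw [Finset.mem_filter] at hy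
    exact hy.2

theorem ys_inv (p : ℕ) [Fact p.Prime] (Y : Submodule (ZMod p) (X → ZMod p))
    (hY : Y ∈ Ys 𝒢 W p) (f : X → ZMod p) (hf : f ∈ Y) (π : Equiv.Perm X) (hπ : Triv 𝒢 W π) (x : X) :
    f (π x) = f x := by
  obtain ⟨φ, hφ0, hφ, rfl⟩ := hY
  obtain ⟨w, ⟨u, hu⟩, rfl⟩ := hf
  have h1 := hφ π hπ.1 u u (fun z => (hπ.2 u u.2 z).symm) x
  rw [hu] at h1
  have h1a : ((w x : ℤ) : ℚ) = ((w (π x) : ℤ) : ℚ) := h1
  have h2 : w x = w (π x) := by exact_mod_cast h1a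
  change ((w (π x) : ℤ) : ZMod p) = ((w x : ℤ) : ZMod p)
  rw [h2]

end Pool.Agent.H52.CS
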