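import Mathlib
import Pool.Agent.H52.AD.CountR
import Pool.Agent.H52.AD.SEst
import Pool.Agent.H52.AD.CosEst
import Pool.Agent.H52.CS.Defs

/-!
# The Fourier bound for a space without small vectors (module H52 CS GoodY)

`q` an odd prime, `Y` a space of odd functions `X → ZMod q` of dimension `D` such that for every nonzero `f ∈ Y`
there are at least `2 k` points `x` at which the representative of `2 f x` in `(-q/2, q/2]` has absolute value at
least `B`.  Then the number of the types orthogonal to `Y`, times `q^D`, is at most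
`2^g (1 + q^D exp(-2 k B²/q²))`.

PROOF.  As `count_r` (see its proof in `AD/CountR.lean`; the names `exists_section`, `card_R`, `count_le_mod`,
`sum_type`, `type_inj`, `fN` are from `Pool.Agent.H52.MF`): let `R` be a section of the involution `c`, `|R| = g`,
and `w_1, ..., w_D` a basis of `Y`.  By `count_le_mod` the number of the types orthogonal to `Y`, times `q^D`, is
at most `∑_{a ∈ (ZMod q)^D} ∏_{x ∈ R} 2 fN (f_a x)`, `f_a = ∑ a_i w_i`, `fN q t = |cos (2 π t / q)| ≤ 1`.  The term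
`a = 0` is at most `2^g`.  For `a ≠ 0`, `f = f_a ≠ 0`: let `S` be as in the hypothesis; the points `x ∈ R` with
`x ∈ S` or `c x ∈ S` are at least `|S| / 2 ≥ k` in number (each point of `S` is in `R` or its image under `c` is,
and this map from `S` to `R` is at most two to one), and at each of them
`v = (2 f x).valMinAbs` satisfies `|v| ≥ B` (`f (c x) = - f x`, and `|valMinAbs|` of `t` and `-t` are equal:
`ZMod.valMinAbs_neg_of_ne_half` or `ZMod.natAbs_valMinAbs_neg`) and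
`fN q (f x) = |cos (π v / q)| ≤ 1 - 2 v²/q² ≤ exp (-2 B²/q²)` (`cosEst_dbl` in `AD/CosEst.lean`, periodicity
up to sign; `Real.cos_quadratic_upper_bound`, `|v| ≤ q/2`, where the cosine is nonnegative;
`Real.add_one_le_exp`).  So the term of `a` is at most `2^g exp(-2 k B²/q²)`, and there are at most `q^D` of them.
-/

namespace Pool.Agent.H52.CS

open Module Pool.Agent.H52.AD Pool.Agent.H52.MF

variable {X : Type} [Fintype X] {c : Equiv.Perm X} {𝒢 : Subgroup (Equiv.Perm X)} {g : ℕ}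
  {W : Submodule ℚ (X → ℚ)}

theorem goodY_pt (q : ℕ) [Fact q.Prime] [NeZero q] (t : ZMod q) (B : ℕ)
    (hB : (B : ℤ) ≤ |(2 * t : ZMod q).valMinAbs|) :
    fN q t ≤ Real.exp (-(2 * (B : ℝ) ^ 2 / (q : ℝ) ^ 2)) := by
  have hq0 : (0 : ℝ) < q := by exact_mod_cast (Fact.out : q.Prime).pos
  have hpi := Real.pi_pos
  rw [cosEst_dbl]
  have h2t : t + t = 2 * t := (two_mul t).symm
  rw [h2t]
  set v : ℤ := (2 * t : ZMod q).valMinAbs with hv
  have hcos : |Real.cos (Real.pi * ((2 * t : ZMod q).val : ℕ) / q)| =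
      |Real.cos (Real.pi * (v : ℝ) / q)| := by
    rw [ZMod.valMinAbs_def_pos] at hv
    split_ifs at hv with h
    · rw [hv]
      push_cast
      rfl
    · rw [hv]
      push_cast
      have h3 : Real.pi * (((2 * t : ZMod q).val : ℝ) - q) / q =
          Real.pi * ((2 * t : ZMod q).val : ℝ) / q - Real.pi := by
        field_simp
      rw [h3, Real.cos_sub_pi, abs_neg]
  rw [hcos]
  have hvle : |(v : ℝ)| ≤ q / 2 := by
    have h4 := ZMod.natAbs_valMinAbs_le (2 * t : ZMod q)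
    have h5 : ((v.natAbs : ℕ) : ℝ) ≤ ((q / 2 : ℕ) : ℝ) := by exact_mod_cast h4
    have h6 : ((q / 2 : ℕ) : ℝ) ≤ (q : ℝ) / 2 := Nat.cast_div_le
    have h7 : ((v.natAbs : ℕ) : ℝ) = |(v : ℝ)| := by
      rw [Nat.cast_natAbs]; push_cast; rfl
    rw [← h7]
    exact h5.trans h6
  have hx : |Real.pi * (v : ℝ) / q| ≤ Real.pi / 2 := by
    rw [abs_div, abs_mul, abs_of_pos hpi, abs_of_pos hq0, div_le_div_iff₀ hq0 (by norm_num)]
    nlinarith
  have hc0 : 0 ≤ Real.cos (Real.pi * (v : ℝ) / q) := by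
    apply Real.cos_nonneg_of_neg_pi_div_two_le_of_le
    · linarith [(abs_le.1 hx).1]
    · exact (abs_le.1 hx).2
  rw [abs_of_nonneg hc0]
  have h8 := Real.cos_le_one_sub_mul_cos_sq (x := Real.pi * (v : ℝ) / q) (by linarith)
  have h9 : 1 - 2 / Real.pi ^ 2 * (Real.pi * (v : ℝ) / q) ^ 2 = 1 - 2 * (v : ℝ) ^ 2 / (q : ℝ) ^ 2 := by
    field_simp
  rw [h9] at h8
  have h10 : (B : ℝ) ^ 2 ≤ (v : ℝ) ^ 2 := by
    have h11 : (B : ℝ) ≤ |(v : ℝ)| := by exact_mod_cast hB
    rw [← sq_abs (v : ℝ)]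
    exact pow_le_pow_left₀ (Nat.cast_nonneg _) h11 2
  have h12 : 2 * (B : ℝ) ^ 2 / (q : ℝ) ^ 2 ≤ 2 * (v : ℝ) ^ 2 / (q : ℝ) ^ 2 := by
    gcongr
  have h13 := Real.add_one_le_exp (-(2 * (B : ℝ) ^ 2 / (q : ℝ) ^ 2))
  linarith

theorem goodY_prod (hS : Sys c 𝒢 g) (q : ℕ) [Fact q.Prime] [NeZero q]
    (R : Finset X) (hR : ∀ x, c x ∈ R ↔ x ∉ R) (f : X → ZMod q) (hf : ∀ x, f (c x) = - f x)
    (k B : ℕ) (S : Finset X) (hk : 2 * k ≤ S.card)
    (hS2 : ∀ x ∈ S, (B : ℤ) ≤ |(2 * f x : ZMod q).valMinAbs|) :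
    ∏ x ∈ R, fN q (f x) ≤ Real.exp (-(2 * k * B ^ 2 / (q : ℝ) ^ 2)) := by
  classical
  set R' := R.filter (fun x => x ∈ S ∨ c x ∈ S) with hR'
  have hsub : S ⊆ R' ∪ R'.image c := by
    intro s hs
    rw [Finset.mem_union]
    by_cases h : s ∈ R
    · left
      rw [hR', Finset.mem_filter]
      exact ⟨h, Or.inl hs⟩
    · right
      rw [Finset.mem_image]
      refine ⟨c s, ?_, hS.cc s⟩
      rw [hR', Finset.mem_filter]
      exact ⟨(hR s).2 h, Or.inr (by rw [hS.cc]; exact hs)⟩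
  have hcard : k ≤ R'.card := by
    have h1 := Finset.card_le_card hsub
    have h2 := Finset.card_union_le R' (R'.image c)
    have h3 : (R'.image c).card ≤ R'.card := Finset.card_image_le
    omega
  set E := Real.exp (-(2 * (B : ℝ) ^ 2 / (q : ℝ) ^ 2)) with hE
  have hE0 : 0 ≤ E := (Real.exp_pos _).le
  have hE1 : E ≤ 1 := by
    rw [hE, Real.exp_le_one_iff]
    have : 0 ≤ 2 * (B : ℝ) ^ 2 / (q : ℝ) ^ 2 := by positivity
    linarith
  have h1 : ∏ x ∈ R, fN q (f x) ≤ ∏ x ∈ R', fN q (f x) := by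
    rw [← Finset.prod_sdiff (Finset.filter_subset _ R : R' ⊆ R)]
    have h2 : ∏ x ∈ R \ R', fN q (f x) ≤ 1 :=
      Finset.prod_le_one (fun x _ => fN_nonneg q _) (fun x _ => fN_le_one q _)
    have h3 : 0 ≤ ∏ x ∈ R', fN q (f x) := Finset.prod_nonneg fun x _ => fN_nonneg q _
    calc (∏ x ∈ R \ R', fN q (f x)) * ∏ x ∈ R', fN q (f x) ≤ 1 * ∏ x ∈ R', fN q (f x) :=
          mul_le_mul_of_nonneg_right h2 h3
      _ = _ := one_mul _
  have h4 : ∏ x ∈ R', fN q (f x) ≤ ∏ _x ∈ R', E := by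
    refine Finset.prod_le_prod (fun x _ => fN_nonneg q _) (fun x hx => ?_)
    rw [hR', Finset.mem_filter] at hx
    rcases hx.2 with h | h
    · exact goodY_pt q (f x) B (hS2 x h)
    · have h5 := goodY_pt q (f (c x)) B (hS2 _ h)
      rw [hf, fN_neg] at h5
      exact h5
  rw [Finset.prod_const] at h4
  have h5 : E ^ R'.card ≤ E ^ k := pow_le_pow_of_le_one hE0 hE1 hcard
  have h6 : E ^ k = Real.exp (-(2 * k * B ^ 2 / (q : ℝ) ^ 2)) := by
    rw [hE, ← Real.exp_nat_mul]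
    congr 1
    ring
  rw [← h6]
  exact h1.trans (h4.trans h5)

theorem good_y (hS : Sys c 𝒢 g) (q : ℕ) [Fact q.Prime] (hodd : Odd q)
    (Y : Submodule (ZMod q) (X → ZMod q)) (ho : Odd1 c Y) (k B : ℕ)
    (hbig : ∀ f ∈ Y, f ≠ 0 → ∃ S : Finset X, 2 * k ≤ S.card ∧
      ∀ x ∈ S, (B : ℤ) ≤ |(2 * f x : ZMod q).valMinAbs|) :
    (Nat.card (Pr c Y) : ℝ) * (q : ℝ) ^ finrank (ZMod q) Y ≤
      2 ^ g * (1 + (q : ℝ) ^ finrank (ZMod q) Y * Real.exp (-(2 * k * B ^ 2 / (q : ℝ) ^ 2))) := by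
  classical
  have : NeZero q := ⟨(Fact.out : q.Prime).ne_zero⟩
  obtain ⟨R, hR⟩ := exists_section c hS.cc hS.ne
  have hRc := card_R c hS.cc R hR g hS.card
  set d := finrank (ZMod q) Y with hd
  set b := Module.finBasis (ZMod q) Y with hb
  set w : X → Fin d → ZMod q := fun x i => (b i : X → ZMod q) x with hw
  have h1 := Pool.Agent.H52.LP.count_le_mod q R w
  set L : (Fin d → ZMod q) → X → ZMod q := fun a x => ∑ i, a i * w x i with hL
  have hLY : ∀ a, L a = ((∑ i, a i • b i : Y) : X → ZMod q) := by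
    intro a
    funext x
    rw [Submodule.coe_sum]
    simp only [hL, hw, Finset.sum_apply, Submodule.coe_smul, Pi.smul_apply, smul_eq_mul]
  have hLmem : ∀ a, L a ∈ Y := by
    intro a
    rw [hLY a]
    exact Submodule.coe_mem _
  have hLne : ∀ a, a ≠ 0 → L a ≠ 0 := by
    intro a ha h
    apply ha
    rw [hLY a] at h
    have h2 : (∑ i, a i • b i : Y) = 0 := Subtype.ext h
    have h3 := Fintype.linearIndependent_iff.1 b.linearIndependent a h2
    funext i
    exact h3 i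
  set E := Real.exp (-(2 * k * B ^ 2 / (q : ℝ) ^ 2)) with hE
  have hE0 : 0 ≤ E := (Real.exp_pos _).le
  have hterm : ∀ a : Fin d → ZMod q, a ≠ 0 → ∏ x ∈ R, fN q (L a x) ≤ E := by
    intro a ha
    obtain ⟨S, hS1, hS2⟩ := hbig (L a) (hLmem a) (hLne a ha)
    exact goodY_prod hS q R hR (L a) (ho _ (hLmem a)) k B S hS1 hS2
  have hzero : ∏ x ∈ R, fN q (L 0 x) ≤ 1 :=
    Finset.prod_le_one (fun x _ => fN_nonneg q _) (fun x _ => fN_le_one q _)
  have hsum : ∑ a : Fin d → ZMod q, ∏ x ∈ R, fN q (L a x) ≤ 1 + (q : ℝ) ^ d * E := by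
    rw [← Finset.add_sum_erase _ _ (Finset.mem_univ (0 : Fin d → ZMod q))]
    refine add_le_add hzero ?_
    refine (Finset.sum_le_card_nsmul _ _ E ?_).trans ?_
    · intro a ha
      exact hterm a (Finset.ne_of_mem_erase ha)
    · rw [nsmul_eq_mul]
      refine mul_le_mul_of_nonneg_right ?_ hE0
      have h4 : ((Finset.univ : Finset (Fin d → ZMod q)).erase 0).card ≤ q ^ d := by
        refine (Finset.card_erase_le).trans (le_of_eq ?_)
        rw [Finset.card_univ, Fintype.card_fun, ZMod.card, Fintype.card_fin]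
      exact_mod_cast h4
  have h6 : ∑ a : Fin d → ZMod q, ∏ x ∈ R, (2 * fN q (L a x)) =
      2 ^ g * ∑ a : Fin d → ZMod q, ∏ x ∈ R, fN q (L a x) := by
    rw [Finset.mul_sum]
    refine Finset.sum_congr rfl fun a _ => ?_
    rw [Finset.prod_mul_distrib, Finset.prod_const, hRc]
  have h7 : ((R.powerset.filter fun S => ∀ i, ∑ x ∈ S, w x i = ∑ x ∈ R \ S, w x i).card : ℝ) *
      (q : ℝ) ^ d ≤ 2 ^ g * (1 + (q : ℝ) ^ d * E) := by
    refine h1.trans ?_
    rw [h6]
    exact mul_le_mul_of_nonneg_left hsum (by positivity)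
  refine le_trans ?_ h7
  refine mul_le_mul_of_nonneg_right ?_ (by positivity)
  rw [Nat.card_eq_fintype_card]
  have h8 : Fintype.card (Pr c Y) ≤
      Fintype.card {S : Finset X // S ∈ R.powerset.filter fun S => ∀ i, ∑ x ∈ S, w x i =
        ∑ x ∈ R \ S, w x i} := by
    refine Fintype.card_le_of_injective (fun Φ => ⟨R.filter (fun x => x ∈ Φ.1), ?_⟩) ?_
    · rw [Finset.mem_filter]
      refine ⟨Finset.mem_powerset.2 (Finset.filter_subset _ _), fun i => ?_⟩
      have h9 := Φ.2.2 _ (b i).2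
      rw [sum_type c hS.cc R hR _ (ho _ (b i).2) Φ.1 Φ.2.1, sub_eq_zero] at h9
      exact h9
    · intro Φ Φ' h
      apply Subtype.ext
      refine type_inj c R hR _ _ Φ.2.1 Φ'.2.1 fun x hx => ?_
      have h9 := congrArg (fun S : {S : Finset X // S ∈ R.powerset.filter fun S =>
        ∀ i, ∑ x ∈ S, w x i = ∑ x ∈ R \ S, w x i} => x ∈ S.1) h
      simpa [hx] using h9
  rw [Fintype.card_coe] at h8
  exact_mod_cast h8

end Pool.Agent.H52.CS
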