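import Mathlib
import Pool.Agent.H52.AD.RedB
import Pool.Agent.H52.CS.Defs

/-!
# The endomorphisms of the reduction (module H52 CS EndRed)

`dim Endo 𝒢 W ≤ dim EndP 𝒢 p W`: the algebra of the endomorphisms of `red p W` that commute with `𝒢` is at least
as large.

PROOF.  Let `L = redB_L W = {w : X → ℤ | w ∈ W}`, `d = dim W`, `b_1, ..., b_d` a `ℤ`-basis of `L`; it is a
`ℚ`-basis of `W`, and its reduction is a basis of `red p W` (see the proof of `red_finrank` in `AD/RedB.lean`;
`red_finrank` gives the dimension).  For `π ∈ 𝒢` let `T_π` be the integer matrix of `w ↦ w ∘ π` in this basis;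
its reduction is the matrix of `z ↦ z ∘ π` on `red p W`.  Let `E ≤ (Fin d × Fin d → ℚ)` be the space of the
(functions that are) matrices `M` with `M T_π = T_π M` for all `π ∈ 𝒢`; `dim E = dim Endo 𝒢 W`.  By `red_finrank`
for the finite set `Fin d × Fin d`, `red p E` has the same dimension over `ZMod p`, and its elements are
reductions of integer matrices commuting with all `T_π`, so they commute with the reductions of the `T_π`, that
is, they are matrices of elements of `EndP 𝒢 p W`.
Or directly: `𝒪 = {φ ∈ Endo 𝒢 W | φ L ⊆ L}` is a free `ℤ`-module of rank `dim Endo 𝒢 W`, and if the reduction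
of `φ ∈ 𝒪` modulo `p` is zero then `φ / p ∈ 𝒪`, so `𝒪 / p 𝒪` embeds in `EndP 𝒢 p W`.
-/

namespace Pool.Agent.H52.CS

open Module Pool.Agent.H52.AD

variable {X : Type} [Fintype X] {c : Equiv.Perm X} {𝒢 : Subgroup (Equiv.Perm X)} {g : ℕ}
  {W : Submodule ℚ (X → ℚ)}

theorem endred_basis (p : ℕ) [Fact p.Prime] (W : Submodule ℚ (X → ℚ)) :
    ∃ (ι : Type) (_ : Fintype ι) (b : ι → X → ℤ), (∀ i, b i ∈ redB_L W) ∧
      (∀ w ∈ redB_L W, ∃ a : ι → ℤ, w = ∑ i, a i • b i) ∧
      LinearIndependent ℚ (fun i => fun x => ((b i x : ℤ) : ℚ)) ∧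
      Submodule.span ℚ (Set.range fun i => fun x => ((b i x : ℤ) : ℚ)) = W ∧
      LinearIndependent (ZMod p) (fun i => fun x => ((b i x : ℤ) : ZMod p)) ∧
      Submodule.span (ZMod p) (Set.range fun i => fun x => ((b i x : ℤ) : ZMod p)) = red p W := by
  classical
  have hp : p.Prime := Fact.out
  obtain ⟨ι, hι, b, hb⟩ : ∃ (ι : Type) (_ : Fintype ι) (b : ι → X → ℤ),
      (∀ i, b i ∈ redB_L W) ∧ (LinearIndependent ℤ b ∧
        ∀ w ∈ redB_L W, ∃ a : ι → ℤ, w = ∑ i, a i • b i) := by
    let B := Module.Free.chooseBasis ℤ (redB_L W)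
    refine ⟨Module.Free.ChooseBasisIndex ℤ (redB_L W), inferInstance, fun i => (B i : X → ℤ),
      fun i => (B i).2, ?_, ?_⟩
    · exact B.linearIndependent.map' (redB_L W).subtype (Submodule.ker_subtype _)
    · intro w hw
      refine ⟨fun i => B.repr ⟨w, hw⟩ i, ?_⟩
      have h := congrArg (fun v : redB_L W => (v : X → ℤ)) (B.sum_repr ⟨w, hw⟩)
      simp only [Submodule.coe_sum, Submodule.coe_smul] at h
      exact h.symm
  obtain ⟨hbL, hind, hspan⟩ := hb
  -- over the rational numbers
  have hindQ : LinearIndependent ℚ (fun i => fun x => ((b i x : ℤ) : ℚ)) := by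
    rw [← LinearIndependent.iff_fractionRing ℤ ℚ, Fintype.linearIndependent_iff]
    intro a ha i
    rw [Fintype.linearIndependent_iff] at hind
    refine hind a ?_ i
    funext x
    have h1 := congrFun ha x
    rw [Finset.sum_apply] at h1
    have h2 : ∀ i, (a i • fun x => ((b i x : ℤ) : ℚ)) x = ((a i * b i x : ℤ) : ℚ) := by
      intro i
      rw [Pi.smul_apply, zsmul_eq_mul]
      push_cast
      rfl
    rw [Finset.sum_congr rfl fun i _ => h2 i, ← Int.cast_sum, Pi.zero_apply] at h1
    simp only [Finset.sum_apply, Pi.smul_apply, Pi.zero_apply, smul_eq_mul]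
    exact_mod_cast h1
  have hspanQ : Submodule.span ℚ (Set.range fun i => fun x => ((b i x : ℤ) : ℚ)) = W := by
    apply le_antisymm
    · rw [Submodule.span_le]
      rintro _ ⟨i, rfl⟩
      exact hbL i
    · intro f hf
      obtain ⟨D, z, hD, hz⟩ := Pool.Agent.H52.MF.int_multiples f
      have hD' : (D : ℚ) ≠ 0 := by exact_mod_cast hD
      have hzW : z ∈ redB_L W := by
        rw [redB_mem]
        have h1 : (fun x => (z x : ℚ)) = (D : ℚ) • f := by
          funext x
          rw [Pi.smul_apply, smul_eq_mul, hz]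
        rw [h1]
        exact W.smul_mem _ hf
      obtain ⟨a, ha⟩ := hspan z hzW
      have h2 : f = ∑ i, ((a i : ℚ) / D) • (fun x => ((b i x : ℤ) : ℚ)) := by
        funext x
        have h3 := congrFun ha x
        simp only [Finset.sum_apply, Pi.smul_apply, smul_eq_mul] at h3
        have h4 : (z x : ℚ) = ∑ i, (a i : ℚ) * (b i x : ℚ) := by
          rw [h3]
          push_cast
          rfl
        rw [hz] at h4
        simp only [Finset.sum_apply, Pi.smul_apply, smul_eq_mul]
        have h5 : f x = (∑ i, (a i : ℚ) * (b i x : ℚ)) / D := by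
          rw [← h4]
          field_simp
        rw [h5, Finset.sum_div]
        refine Finset.sum_congr rfl fun i _ => ?_
        ring
      rw [h2]
      refine Submodule.sum_mem _ fun i _ => Submodule.smul_mem _ _ (Submodule.subset_span ⟨i, rfl⟩)
  -- modulo p
  have hindP : LinearIndependent (ZMod p) (fun i => fun x => ((b i x : ℤ) : ZMod p)) := by
    rw [Fintype.linearIndependent_iff]
    intro a ha i
    choose z hz using fun i => ZMod.intCast_surjective (a i)
    have h1 : ∀ x, (p : ℤ) ∣ ∑ i, z i * b i x := by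
      intro x
      have h2 := congrFun ha x
      simp only [Finset.sum_apply, Pi.smul_apply, Pi.zero_apply, smul_eq_mul] at h2
      rw [← ZMod.intCast_zmod_eq_zero_iff_dvd]
      push_cast
      simp only [hz]
      exact h2
    choose w hw using h1
    have hwW : w ∈ redB_L W := by
      rw [redB_mem]
      have h3 : (fun x => (w x : ℚ)) = (p : ℚ)⁻¹ • ∑ i, (z i : ℚ) • fun x => ((b i x : ℤ) : ℚ) := by
        funext x
        have hp0 : (p : ℚ) ≠ 0 := by exact_mod_cast hp.ne_zero
        simp only [Pi.smul_apply, Finset.sum_apply, smul_eq_mul]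
        have h4 : ((∑ i, z i * b i x : ℤ) : ℚ) = (p : ℚ) * (w x : ℚ) := by
          rw [hw x]
          push_cast
          rfl
        push_cast at h4
        rw [h4]
        field_simp
      rw [h3]
      exact W.smul_mem _ (W.sum_mem fun i _ => W.smul_mem _ (hbL i))
    obtain ⟨y, hy⟩ := hspan w hwW
    have h5 : ∀ i, z i - p * y i = 0 := by
      rw [Fintype.linearIndependent_iff] at hind
      apply hind
      funext x
      have h6 := hw x
      rw [hy] at h6
      simp only [Finset.sum_apply, Pi.smul_apply, smul_eq_mul] at h6 ⊢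
      rw [Pi.zero_apply]
      have h7 : ∑ i, (z i - p * y i) * b i x = ∑ i, z i * b i x - p * ∑ i, y i * b i x := by
        rw [Finset.mul_sum, ← Finset.sum_sub_distrib]
        refine Finset.sum_congr rfl fun i _ => ?_
        ring
      rw [h7, h6, sub_self]
    have h8 : z i = p * y i := by
      have := h5 i
      omega
    rw [← hz i, h8]
    push_cast
    rw [CharP.cast_eq_zero, zero_mul]
  have hspanP : Submodule.span (ZMod p) (Set.range fun i => fun x => ((b i x : ℤ) : ZMod p)) =
      red p W := by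
    apply le_antisymm
    · rw [Submodule.span_le]
      rintro _ ⟨i, rfl⟩
      exact ⟨b i, hbL i, rfl⟩
    · rintro _ ⟨w, hw, rfl⟩
      obtain ⟨a, ha⟩ := hspan w hw
      have h2 : (fun x => ((w x : ℤ) : ZMod p)) =
          ∑ i, ((a i : ℤ) : ZMod p) • (fun x => ((b i x : ℤ) : ZMod p)) := by
        funext x
        have h3 := congrFun ha x
        simp only [Finset.sum_apply, Pi.smul_apply, smul_eq_mul] at h3 ⊢
        rw [h3]
        push_cast
        rfl
      rw [h2]
      refine Submodule.sum_mem _ fun i _ => Submodule.smul_mem _ _ (Submodule.subset_span ⟨i, rfl⟩)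
  exact ⟨ι, hι, b, hbL, hspan, hindQ, hspanQ, hindP, hspanP⟩

theorem end_red (hst : Stb 𝒢 W) (p : ℕ) [Fact p.Prime] :
    finrank ℚ (Endo 𝒢 W) ≤ finrank (ZMod p) (EndP 𝒢 p W) := by
  classical
  obtain ⟨ι, hι, b, hbL, hspan, hindQ, hspanQ, hindP, hspanP⟩ := endred_basis p W
  -- the elements of the bases
  let bW : ι → W := fun i => ⟨fun x => ((b i x : ℤ) : ℚ), hbL i⟩
  have hbW : ∀ i x, (bW i : X → ℚ) x = (b i x : ℚ) := fun i x => rfl
  have hbP0 : ∀ i, (fun x => ((b i x : ℤ) : ZMod p)) ∈ red p W := fun i => ⟨b i, hbL i, rfl⟩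
  have hsumW : ∀ (v : X → ℤ) (hv : v ∈ redB_L W) (a : ι → ℤ), v = ∑ i, a i • b i →
      (⟨fun x => (v x : ℚ), hv⟩ : W) = ∑ i, (a i : ℚ) • bW i := by
    intro v hv a ha
    apply Subtype.ext
    rw [Submodule.coe_sum]
    funext x
    rw [Finset.sum_apply]
    show (v x : ℚ) = _
    rw [ha, Finset.sum_apply]
    push_cast
    refine Finset.sum_congr rfl fun i _ => ?_
    rw [Pi.smul_apply, smul_eq_mul]
    push_cast
    rfl
  -- the linear map to functions on `ι × X`
  let J : (W →ₗ[ℚ] W) →ₗ[ℚ] (ι × X → ℚ) :=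
    { toFun := fun φ q => (φ (bW q.1) : X → ℚ) q.2
      map_add' := fun φ ψ => by funext q; simp
      map_smul' := fun a φ => by funext q; simp }
  have hJ : ∀ (φ : W →ₗ[ℚ] W) (i : ι) (x : X), J φ (i, x) = (φ (bW i) : X → ℚ) x :=
    fun φ i x => rfl
  have hspanbW : ∀ f : W, f ∈ Submodule.span ℚ (Set.range bW) := by
    have h1 : (Submodule.span ℚ (Set.range bW)).map W.subtype = W := by
      rw [Submodule.map_span, ← Set.range_comp]
      exact hspanQ
    intro f
    have h2 : (f : X → ℚ) ∈ (Submodule.span ℚ (Set.range bW)).map W.subtype := by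
      rw [h1]; exact f.2
    obtain ⟨f', hf', he⟩ := h2
    have : f' = f := Subtype.ext he
    rw [← this]
    exact hf'
  have hJinj : Function.Injective J := by
    intro φ ψ h
    have h1 : Set.EqOn φ ψ (Set.range bW) := by
      rintro _ ⟨i, rfl⟩
      apply Subtype.ext
      funext x
      exact congrFun h (i, x)
    have h2 := LinearMap.eqOn_span h1
    ext1 f
    exact h2 (hspanbW f)
  set E : Submodule ℚ (ι × X → ℚ) := (Endo 𝒢 W).map J with hE
  have hEdim : finrank ℚ E = finrank ℚ (Endo 𝒢 W) :=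
    (Submodule.equivMapOfInjective J hJinj (Endo 𝒢 W)).finrank_eq.symm
  have hEred : finrank (ZMod p) (red p E) = finrank ℚ E := red_finrank p E
  -- the basis of the reduction
  let bP : ι → red p W := fun i => ⟨fun x => ((b i x : ℤ) : ZMod p), hbP0 i⟩
  have hbPind : LinearIndependent (ZMod p) bP := by
    apply LinearIndependent.of_comp (red p W).subtype
    exact hindP
  have hbPspan : ⊤ ≤ Submodule.span (ZMod p) (Set.range bP) := by
    have h1 : (Submodule.span (ZMod p) (Set.range bP)).map (red p W).subtype = red p W := by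
      rw [Submodule.map_span, ← Set.range_comp]
      exact hspanP
    intro f _
    have h2 : (f : X → ZMod p) ∈
        (Submodule.span (ZMod p) (Set.range bP)).map (red p W).subtype := by
      rw [h1]; exact f.2
    obtain ⟨f', hf', he⟩ := h2
    have : f' = f := Subtype.ext he
    rw [← this]
    exact hf'
  let B : Basis ι (ZMod p) (red p W) := Basis.mk hbPind hbPspan
  have hB : ∀ i, B i = bP i := fun i => Basis.mk_apply _ _ i
  let T : (ι × X → ZMod p) ≃ₗ[ZMod p] (red p W →ₗ[ZMod p] (X → ZMod p)) :=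
    (LinearEquiv.curry (ZMod p) (ZMod p) ι X).trans (B.constr (ZMod p))
  have hT : ∀ (F : ι × X → ZMod p) (i : ι) (x : X), T F (bP i) x = F (i, x) := by
    intro F i x
    show B.constr (ZMod p) (LinearEquiv.curry (ZMod p) (ZMod p) ι X F) (bP i) x = F (i, x)
    rw [← hB, Basis.constr_basis]
    rfl
  have hsumP : ∀ (v : X → ℤ) (hv : v ∈ redB_L W) (a : ι → ℤ), v = ∑ i, a i • b i →
      (⟨fun x => (v x : ZMod p), ⟨v, hv, rfl⟩⟩ : red p W) = ∑ i, (a i : ZMod p) • bP i := by
    intro v hv a ha
    apply Subtype.ext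
    rw [Submodule.coe_sum]
    funext x
    rw [Finset.sum_apply]
    show (v x : ZMod p) = _
    rw [ha, Finset.sum_apply]
    push_cast
    refine Finset.sum_congr rfl fun i _ => ?_
    rw [Pi.smul_apply, smul_eq_mul]
    push_cast
    rfl
  -- the key computation
  have key : ∀ (F : ι × X → ZMod p) (w : ι × X → ℤ) (φ : W →ₗ[ℚ] W),
      (∀ q, F q = (w q : ZMod p)) → (∀ i x, (φ (bW i) : X → ℚ) x = (w (i, x) : ℚ)) →
      ∀ (v : X → ℤ) (hv : v ∈ redB_L W), ∃ u : X → ℤ,
        (∀ x, (φ ⟨fun x => (v x : ℚ), hv⟩ : X → ℚ) x = (u x : ℚ)) ∧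
        ∀ x, T F ⟨fun x => (v x : ZMod p), ⟨v, hv, rfl⟩⟩ x = (u x : ZMod p) := by
    intro F w φ hF hφ v hv
    obtain ⟨a, ha⟩ := hspan v hv
    refine ⟨fun x => ∑ i, a i * w (i, x), fun x => ?_, fun x => ?_⟩
    · rw [hsumW v hv a ha, map_sum, Submodule.coe_sum, Finset.sum_apply]
      push_cast
      refine Finset.sum_congr rfl fun i _ => ?_
      rw [map_smul, Submodule.coe_smul, Pi.smul_apply, smul_eq_mul, hφ]
    · rw [hsumP v hv a ha, map_sum, Finset.sum_apply]
      push_cast
      refine Finset.sum_congr rfl fun i _ => ?_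
      rw [map_smul, Pi.smul_apply, smul_eq_mul, hT, hF]
  let S : (Module.End (ZMod p) (red p W)) →ₗ[ZMod p] (red p W →ₗ[ZMod p] (X → ZMod p)) :=
    { toFun := fun φ => (red p W).subtype.comp φ
      map_add' := fun φ ψ => by ext; simp
      map_smul' := fun a φ => by ext; simp }
  have hS : Function.Injective S := by
    intro φ ψ h
    ext1 f
    apply Subtype.ext
    exact LinearMap.congr_fun h f
  have hle : (red p E).map T.toLinearMap ≤ (Subalgebra.toSubmodule (EndP 𝒢 p W)).map S := by
    rintro _ ⟨F, hF, rfl⟩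
    obtain ⟨w, ⟨φ, hφE, hφw⟩, hFw⟩ := hF
    have hF1 : ∀ q, F q = (w q : ZMod p) := fun q => congrFun hFw q
    have hφ1 : ∀ i x, (φ (bW i) : X → ℚ) x = (w (i, x) : ℚ) := fun i x => congrFun hφw (i, x)
    have K := key F w φ hF1 hφ1
    have hmem : ∀ f : red p W, T F f ∈ red p W := by
      rintro ⟨f, v, hv, rfl⟩
      obtain ⟨u, hu1, hu2⟩ := K v hv
      refine ⟨u, ?_, ?_⟩
      · have : (fun x => (u x : ℚ)) = (φ ⟨fun x => (v x : ℚ), hv⟩ : X → ℚ) := by
          funext x; exact (hu1 x).symm
        rw [this]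
        exact (φ ⟨fun x => (v x : ℚ), hv⟩).2
      · funext x
        exact hu2 x
    refine ⟨(T F).codRestrict (red p W) hmem, ?_, ?_⟩
    · show (T F).codRestrict (red p W) hmem ∈ EndP 𝒢 p W
      rw [mem_EndP]
      rintro π hπ ⟨f, v, hv, rfl⟩ ⟨f', v', hv', rfl⟩ h x
      have hvπ : (fun x => v (π x)) ∈ redB_L W := hst π hπ _ hv
      have hff : (⟨fun x => (v' x : ZMod p), ⟨v', hv', rfl⟩⟩ : red p W) =
          ⟨fun x => ((v (π x) : ℤ) : ZMod p), ⟨fun x => v (π x), hvπ, rfl⟩⟩ := by
        apply Subtype.ext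
        funext x
        exact h x
      obtain ⟨u, hu1, hu2⟩ := K v hv
      obtain ⟨u', hu1', hu2'⟩ := K (fun x => v (π x)) hvπ
      show T F ⟨fun x => (v' x : ZMod p), ⟨v', hv', rfl⟩⟩ x =
        T F ⟨fun x => (v x : ZMod p), ⟨v, hv, rfl⟩⟩ (π x)
      rw [hff, hu2, hu2']
      have h3 := (mem_Endo 𝒢 W φ).1 hφE π hπ ⟨fun x => (v x : ℚ), hv⟩
        ⟨fun x => ((v (π x) : ℤ) : ℚ), hvπ⟩ (fun x => rfl) x
      rw [hu1, hu1'] at h3
      have h4 : u' x = u (π x) := by exact_mod_cast h3
      rw [h4]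
    · ext f x
      rfl
  calc finrank ℚ (Endo 𝒢 W) = finrank (ZMod p) (red p E) := by rw [hEred, hEdim]
    _ = finrank (ZMod p) ((red p E).map T.toLinearMap) :=
        (Submodule.equivMapOfInjective T.toLinearMap T.injective (red p E)).finrank_eq
    _ ≤ finrank (ZMod p) ((Subalgebra.toSubmodule (EndP 𝒢 p W)).map S) :=
        Submodule.finrank_mono hle
    _ = finrank (ZMod p) (Subalgebra.toSubmodule (EndP 𝒢 p W)) :=
        (Submodule.equivMapOfInjective S hS _).finrank_eq.symm
    _ = finrank (ZMod p) (EndP 𝒢 p W) := rfl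

end Pool.Agent.H52.CS
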