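import Mathlib

/-!
# The number of units of a finite algebra (module H52 CS UnitsCard)

`A` a finite algebra over `ZMod p` of dimension `e`: it has at least `(p - 1)^e` units.

PROOF.  Let `J` be the Jacobson radical of `A` (`Ring.jacobson A`; `A` is finite, so Artinian, and `J` is
nilpotent).  An element of `A` is a unit if and only if its image in `A / J` is a unit (`1 + J` consists of
units), so `|Aˣ| = |J| |(A/J)ˣ|`, and `|J| = p^(dim J)`.  `A / J` is semisimple (`IsArtinianRing`,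
`IsSemisimpleRing`), so by Wedderburn-Artin it is isomorphic to a product of matrix rings over division
rings, finite over `ZMod p` (`IsSemisimpleRing.exists_algEquiv_pi_matrix_divisionRing_finite` or
`IsSemisimpleRing.exists_algEquiv_pi_matrix_divisionRing`); a finite division ring `D` is a field
(`littleWedderburn`), with `q = p^f` elements, and
`|GL_n(D)| = ∏_{i < n} (q^n - q^i)` (`Matrix.card_GL_field`), where
`q^n - q^i ≥ q^n - q^(n-1) = q^(n-1) (q - 1) ≥ (q-1)^n ≥ (p-1)^(f n)` (since `q - 1 = p^f - 1 ≥ (p-1)^f`).  So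
`|GL_n(D)| ≥ (p-1)^(f n²)`, and the exponent is the dimension of the matrix ring over `ZMod p`.

Another way, without Wedderburn-Artin: induction on the dimension.  (a) If `A` has a nonzero two sided ideal `J`
with `J² = 0`, use `|Aˣ| = |J| |(A/J)ˣ|`.  (b) Otherwise `A` is semisimple; if it is not simple it is a product.
-/

namespace Pool.Agent.H52.CS

open Module

private theorem unitsCard_pow (p f : ℕ) (hp : 1 ≤ p) (hf : 1 ≤ f) :
    (p - 1) ^ f ≤ p ^ f - 1 := by
  have h1 : (p - 1) ^ f < p ^ f := Nat.pow_lt_pow_left (by omega) (by omega)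
  omega

private theorem unitsCard_fac (q n i : ℕ) (hq : 1 ≤ q) (hi : i < n) :
    (q - 1) ^ n ≤ q ^ n - q ^ i := by
  obtain ⟨m, rfl⟩ : ∃ m, q = m + 1 := ⟨q - 1, by omega⟩
  obtain ⟨k, rfl⟩ : ∃ k, n = k + 1 := ⟨n - 1, by omega⟩
  rw [Nat.add_sub_cancel]
  have h1 : (m + 1) ^ i ≤ (m + 1) ^ k := Nat.pow_le_pow_right (by omega) (by omega)
  have h2 : (m + 1) ^ (k + 1) = (m + 1) ^ k * m + (m + 1) ^ k := by ring
  have h3 : m ^ (k + 1) ≤ (m + 1) ^ k * m := by
    rw [pow_succ]
    exact Nat.mul_le_mul_right _ (Nat.pow_le_pow_left (by omega) k)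
  omega

private theorem unitsCard_mat (p : ℕ) (hp : p.Prime) (F : Type) [Field F] [Finite F] (n e : ℕ)
    (hn : n ≠ 0) (he : Nat.card (Matrix (Fin n) (Fin n) F) = p ^ e) :
    (p - 1) ^ e ≤ Nat.card (Matrix (Fin n) (Fin n) F)ˣ := by
  have : Fintype F := Fintype.ofFinite F
  have h1 : Nat.card (Matrix (Fin n) (Fin n) F) = Fintype.card F ^ (n * n) := by
    change Nat.card (Fin n → Fin n → F) = _
    rw [Nat.card_fun, Nat.card_fun, Nat.card_eq_fintype_card, Nat.card_eq_fintype_card,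
      Fintype.card_fin, ← pow_mul]
  have hq : 1 < Fintype.card F := Fintype.one_lt_card
  rw [h1] at he
  have hdvd : Fintype.card F ∣ p ^ e := by
    rw [← he]
    exact dvd_pow_self _ (Nat.mul_ne_zero hn hn)
  obtain ⟨f, -, hf⟩ := (Nat.dvd_prime_pow hp).1 hdvd
  have hf1 : 1 ≤ f := by
    rcases Nat.eq_zero_or_pos f with h0 | h0
    · rw [h0, pow_zero] at hf
      omega
    · exact h0
  have he2 : e = f * (n * n) := by
    rw [hf, ← pow_mul] at he
    exact (Nat.pow_right_injective hp.two_le he).symm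
  have h2 : Nat.card (Matrix (Fin n) (Fin n) F)ˣ =
      ∏ i : Fin n, (Fintype.card F ^ n - Fintype.card F ^ (i : ℕ)) :=
    Matrix.card_GL_field n
  rw [h2]
  have h3 : (Fintype.card F - 1) ^ (n * n) ≤
      ∏ i : Fin n, (Fintype.card F ^ n - Fintype.card F ^ (i : ℕ)) := by
    have h4 : ∏ _i : Fin n, (Fintype.card F - 1) ^ n = (Fintype.card F - 1) ^ (n * n) := by
      rw [Finset.prod_const, Finset.card_univ, Fintype.card_fin, ← pow_mul]
    rw [← h4]
    exact Finset.prod_le_prod' fun i _ => unitsCard_fac _ n i hq.le i.2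
  refine le_trans ?_ h3
  rw [he2, pow_mul, hf]
  exact Nat.pow_le_pow_left (unitsCard_pow p f hp.one_lt.le hf1) _

private theorem unitsCard_pi (p : ℕ) (hp : p.Prime) {n : ℕ} (R : Fin n → Type)
    [∀ i, Ring (R i)]
    (h : ∀ i e, Nat.card (R i) = p ^ e → (p - 1) ^ e ≤ Nat.card (R i)ˣ) (e : ℕ)
    (he : Nat.card (Π i, R i) = p ^ e) : (p - 1) ^ e ≤ Nat.card (Π i, R i)ˣ := by
  rw [Nat.card_pi] at he
  have h1 : ∀ i, ∃ f, Nat.card (R i) = p ^ f := by
    intro i
    have h2 : Nat.card (R i) ∣ p ^ e := by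
      rw [← he]
      exact Finset.dvd_prod_of_mem _ (Finset.mem_univ i)
    obtain ⟨f, -, hf⟩ := (Nat.dvd_prime_pow hp).1 h2
    exact ⟨f, hf⟩
  choose f hf using h1
  have h2 : e = ∑ i, f i := by
    rw [Finset.prod_congr rfl fun i _ => hf i, Finset.prod_pow_eq_pow_sum] at he
    exact (Nat.pow_right_injective hp.two_le he).symm
  rw [Nat.card_congr (MulEquiv.piUnits (M := R)).toEquiv, Nat.card_pi, h2,
    ← Finset.prod_pow_eq_pow_sum]
  exact Finset.prod_le_prod' fun i _ => h i (f i) (hf i)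

private theorem unitsCard_ss (p : ℕ) (hp : p.Prime) (R : Type) [Ring R] [Finite R]
    [IsSemisimpleRing R] (e : ℕ) (he : Nat.card R = p ^ e) : (p - 1) ^ e ≤ Nat.card Rˣ := by
  obtain ⟨n, D, d, hD, hd, ⟨φ⟩⟩ := IsSemisimpleRing.exists_ringEquiv_pi_matrix_divisionRing R
  have hfin : ∀ i, Finite (D i) := by
    intro i
    have h1 : Finite (Π i, Matrix (Fin (d i)) (Fin (d i)) (D i)) := Finite.of_equiv R φ.toEquiv
    have h2 := hd i
    exact Finite.of_surjective
      (fun x : (Π i, Matrix (Fin (d i)) (Fin (d i)) (D i)) => x i 0 0)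
      (fun y => ⟨Function.update (fun _ => 0) i (fun _ _ => y), by simp⟩)
  have h1 : Nat.card (Π i, Matrix (Fin (d i)) (Fin (d i)) (D i)) = p ^ e := by
    rw [← he]
    exact (Nat.card_congr φ.toEquiv).symm
  have h2 := unitsCard_pi p hp (fun i => Matrix (Fin (d i)) (Fin (d i)) (D i))
    (fun i f hf => by
      haveI := hfin i
      exact @unitsCard_mat p hp (D i) (littleWedderburn (D i)) (hfin i) (d i) f (hd i).ne hf)
    e h1
  rwa [Nat.card_congr (Units.mapEquiv φ.toMulEquiv).toEquiv]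

private theorem unitsCard_loc (R : Type) [Ring R] [IsArtinianRing R] (x : R)
    (hx : IsUnit (Ideal.Quotient.mk (Ring.jacobson R) x)) : IsUnit x := by
  obtain ⟨m, hm⟩ := IsSemiprimaryRing.isNilpotent (R := R)
  have key : ∀ z : R, Ideal.Quotient.mk (Ring.jacobson R) z = 1 → IsUnit z := by
    intro z hz
    have h1 : z - 1 ∈ Ring.jacobson R := by
      rw [← Ideal.Quotient.eq_zero_iff_mem, map_sub, hz, map_one, sub_self]
    have h2 : IsNilpotent (z - 1) := by
      refine ⟨m, ?_⟩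
      have h3 := Ideal.pow_mem_pow h1 m
      rw [hm] at h3
      exact h3
    have h3 := h2.isUnit_add_one
    rwa [sub_add_cancel] at h3
  obtain ⟨⟨a, b, hab, hba⟩, ha⟩ := hx
  change a = Ideal.Quotient.mk (Ring.jacobson R) x at ha
  obtain ⟨y, rfl⟩ := Ideal.Quotient.mk_surjective b
  subst ha
  rw [← map_mul] at hab hba
  obtain ⟨u, hu⟩ := key _ hab
  obtain ⟨v, hv⟩ := key _ hba
  refine isUnit_iff_exists_and_exists.2 ⟨⟨y * ↑u⁻¹, ?_⟩, ⟨↑v⁻¹ * y, ?_⟩⟩
  · rw [← mul_assoc, ← hu, Units.mul_inv]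
  · rw [mul_assoc, ← hv, Units.inv_mul]

private theorem unitsCard_ring (p : ℕ) (hp : p.Prime) (R : Type) [Ring R] [Finite R] (e : ℕ)
    (he : Nat.card R = p ^ e) : (p - 1) ^ e ≤ Nat.card Rˣ := by
  have hfq : Finite (R ⧸ Ring.jacobson R) :=
    Finite.of_surjective _ (Ideal.Quotient.mk_surjective (I := Ring.jacobson R))
  have h1 : Nat.card R = Nat.card (R ⧸ Ring.jacobson R) * Nat.card (Ring.jacobson R) :=
    AddSubgroup.card_eq_card_quotient_mul_card_addSubgroup (Ring.jacobson R).toAddSubgroup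
  have hd1 : Nat.card (R ⧸ Ring.jacobson R) ∣ p ^ e := by
    rw [← he, h1]
    exact dvd_mul_right _ _
  have hd2 : Nat.card (Ring.jacobson R) ∣ p ^ e := by
    rw [← he, h1]
    exact dvd_mul_left _ _
  obtain ⟨a, -, ha⟩ := (Nat.dvd_prime_pow hp).1 hd1
  obtain ⟨b, -, hb⟩ := (Nat.dvd_prime_pow hp).1 hd2
  have hab : e = a + b := by
    rw [he, ha, hb, ← pow_add] at h1
    exact Nat.pow_right_injective hp.two_le h1
  have h2 : Nat.card (R ⧸ Ring.jacobson R)ˣ * Nat.card (Ring.jacobson R) ≤ Nat.card Rˣ := by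
    rw [← Nat.card_prod]
    have hs : ∀ u : (R ⧸ Ring.jacobson R)ˣ, ∃ x : R,
        Ideal.Quotient.mk (Ring.jacobson R) x = u := fun u =>
      Ideal.Quotient.mk_surjective _
    choose s hs using hs
    have hu : ∀ z : (R ⧸ Ring.jacobson R)ˣ × Ring.jacobson R, IsUnit (s z.1 + (z.2 : R)) := by
      intro z
      apply unitsCard_loc
      rw [map_add, hs, Ideal.Quotient.eq_zero_iff_mem.2 z.2.2, add_zero]
      exact z.1.isUnit
    refine Nat.card_le_card_of_injective (fun z => (hu z).unit) ?_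
    rintro ⟨u, j⟩ ⟨u', j'⟩ hzz
    have h3 : s u + (j : R) = s u' + (j' : R) := by
      have := congrArg (fun t : Rˣ => (t : R)) hzz
      simpa using this
    have h4 : u = u' := by
      apply Units.ext
      have h5 := congrArg (Ideal.Quotient.mk (Ring.jacobson R)) h3
      rw [map_add, map_add, Ideal.Quotient.eq_zero_iff_mem.2 j.2,
        Ideal.Quotient.eq_zero_iff_mem.2 j'.2, add_zero, add_zero, hs, hs] at h5
      exact h5
    subst h4
    have h5 : (j : R) = (j' : R) := add_left_cancel h3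
    rw [Subtype.ext h5]
  have h3 := unitsCard_ss p hp (R ⧸ Ring.jacobson R) a ha
  refine le_trans ?_ h2
  rw [hab, pow_add, hb]
  exact Nat.mul_le_mul h3 (Nat.pow_le_pow_left (by omega) b)

theorem units_card (p : ℕ) [Fact p.Prime] (A : Type) [Ring A] [Algebra (ZMod p) A] [Finite A] :
    (p - 1) ^ finrank (ZMod p) A ≤ Nat.card Aˣ := by
  have hp : p.Prime := Fact.out
  refine unitsCard_ring p hp A _ ?_
  rw [Module.natCard_eq_pow_finrank (K := ZMod p) (V := A), Nat.card_zmod]

end Pool.Agent.H52.CS
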