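import Mathlib
import Pool.Agent.H52.AD.BMain
import Pool.Agent.H52.CS.Defs
import Pool.Agent.H52.CS.UnitsCard
import Pool.Agent.H52.CS.EndRed

/-!
# The number of the reductions (module H52 CS YsCnt)

`W` simple, `p` a prime that does not divide the order of the group: `|Ys| (p - 1)^e ≤ p^ν`,
`e = dim Endo 𝒢 W`, `ν = dim (Fix 𝒢 x₀ W)`.  The elements of `Ys` are odd, stable, of dimension `dim W`, and every
`Φ ∈ Fail c 𝒢 W` is orthogonal to some `Y ∈ Ys`.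

PROOF.  As `bmain_count` and `b_main` in `AD/BMain.lean`, with the units of the algebra `EndP 𝒢 p W` instead of
the nonzero scalars.  For `Y ∈ Ys` choose by `red_iso` an injective equivariant `ψ_Y : red p W → (X → ZMod p)`
with range `Y`.  The map `(Y, u) ↦ ψ_Y ∘ u` from `Ys × (EndP 𝒢 p W)ˣ` to the equivariant maps is injective: the
range of `ψ_Y ∘ u` is `Y` (`u` is bijective), and then `ψ_Y ∘ u = ψ_Y ∘ u'` gives `u = u'`.  The number of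
the equivariant maps is at most `p^ν` (`hom_card`), and there are at least `(p-1)^(dim EndP) ≥ (p-1)^e` units
(`units_card`, `end_red`, `1 ≤ p - 1`).
-/

namespace Pool.Agent.H52.CS

open Module Pool.Agent.H52.AD

variable {X : Type} [Fintype X] {c : Equiv.Perm X} {𝒢 : Subgroup (Equiv.Perm X)} {g : ℕ}
  {W : Submodule ℚ (X → ℚ)}

theorem ys_card (hS : Sys c 𝒢 g) (hW : Smp c 𝒢 W) (x₀ : X) (p : ℕ) [Fact p.Prime]
    (hp : ¬ p ∣ Nat.card (Gm 𝒢 W)) :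
    Nat.card (Ys 𝒢 W p) * (p - 1) ^ finrank ℚ (Endo 𝒢 W) ≤ p ^ finrank ℚ (Fix 𝒢 x₀ W) := by
  classical
  have hpr : p.Prime := Fact.out
  have hpos : 0 < p := hpr.pos
  have : NeZero p := ⟨hpos.ne'⟩
  refine le_trans ?_ (hom_card hS hW x₀ p hp)
  have hex : ∀ Y : Ys 𝒢 W p, ∃ ψ : red p W →ₗ[ZMod p] (X → ZMod p), Function.Injective ψ ∧
      Eqv 𝒢 ψ ∧ LinearMap.range ψ = Y.1 := by
    rintro ⟨Y, φ, h0, hφ, rfl⟩
    exact red_iso hS hW p hp φ hφ h0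
  choose ψ hinj heq hran using hex
  have : Finite (red p W →ₗ[ZMod p] (X → ZMod p)) :=
    Finite.of_injective (fun ψ => (ψ : red p W → (X → ZMod p))) DFunLike.coe_injective
  have hfE : Finite (Module.End (ZMod p) (red p W)) :=
    Finite.of_injective (fun ψ : Module.End (ZMod p) (red p W) => (ψ : red p W → red p W))
      DFunLike.coe_injective
  have hfA : Finite (EndP 𝒢 p W) := inferInstance
  have hu := units_card p (EndP 𝒢 p W)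
  have hle : (p - 1) ^ finrank ℚ (Endo 𝒢 W) ≤ Nat.card (EndP 𝒢 p W)ˣ := by
    refine le_trans ?_ hu
    exact Nat.pow_le_pow_right (by have := hpr.two_le; omega) (end_red hW.2.2.1 p)
  refine le_trans (Nat.mul_le_mul_left _ hle) ?_
  rw [← Nat.card_prod]
  have hEqv : ∀ (Y : Ys 𝒢 W p) (u : (EndP 𝒢 p W)ˣ),
      Eqv 𝒢 ((ψ Y).comp ((u : EndP 𝒢 p W) : Module.End (ZMod p) (red p W))) := by
    intro Y u π hπ f f' hff x
    have h1 := (mem_EndP p _).1 (u : EndP 𝒢 p W).2 π hπ f f' hff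
    exact heq Y π hπ _ _ h1 x
  have hsurj : ∀ u : (EndP 𝒢 p W)ˣ, Function.Surjective
      ((u : EndP 𝒢 p W) : Module.End (ZMod p) (red p W)) := by
    intro u w
    refine ⟨((u⁻¹ : (EndP 𝒢 p W)ˣ) : EndP 𝒢 p W).1 w, ?_⟩
    have h1 : (u : EndP 𝒢 p W) * ((u⁻¹ : (EndP 𝒢 p W)ˣ) : EndP 𝒢 p W) = 1 := u.mul_inv
    have h2 := congrArg (fun a : EndP 𝒢 p W => (a : Module.End (ZMod p) (red p W)) w) h1
    exact h2
  have hrange : ∀ (Y : Ys 𝒢 W p) (u : (EndP 𝒢 p W)ˣ),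
      LinearMap.range ((ψ Y).comp ((u : EndP 𝒢 p W) : Module.End (ZMod p) (red p W))) = Y.1 := by
    intro Y u
    rw [LinearMap.range_comp_of_range_eq_top _ (LinearMap.range_eq_top.2 (hsurj u)), hran]
  refine Nat.card_le_card_of_injective
    (fun q : Ys 𝒢 W p × (EndP 𝒢 p W)ˣ =>
      (⟨(ψ q.1).comp ((q.2 : EndP 𝒢 p W) : Module.End (ZMod p) (red p W)), hEqv q.1 q.2⟩ :
        {ψ : red p W →ₗ[ZMod p] (X → ZMod p) // Eqv 𝒢 ψ})) ?_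
  rintro ⟨Y, u⟩ ⟨Y', u'⟩ h
  have h1 : (ψ Y).comp ((u : EndP 𝒢 p W) : Module.End (ZMod p) (red p W)) =
      (ψ Y').comp ((u' : EndP 𝒢 p W) : Module.End (ZMod p) (red p W)) := congrArg Subtype.val h
  have hY : Y = Y' := by
    apply Subtype.ext
    rw [← hrange Y u, ← hrange Y' u', h1]
  subst hY
  have h2 : u = u' := by
    apply Units.ext
    apply Subtype.ext
    ext1 w
    apply hinj Y
    exact LinearMap.congr_fun h1 w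
  rw [h2]

theorem ys_prop (hS : Sys c 𝒢 g) (hW : Smp c 𝒢 W) (p : ℕ) [Fact p.Prime]
    (Y : Submodule (ZMod p) (X → ZMod p)) (hY : Y ∈ Ys 𝒢 W p) :
    Odd1 c Y ∧ Stb 𝒢 Y ∧ finrank (ZMod p) Y = finrank ℚ W := by
  obtain ⟨φ, h0, hφ, rfl⟩ := hY
  have hsm := range_smp hS hW φ hφ h0
  refine ⟨red_odd p hsm.2.1, red_stb p hsm.2.2.1, ?_⟩
  rw [red_finrank, LinearMap.finrank_range_of_inj (schur hW φ hφ h0)]

theorem ys_cover (hS : Sys c 𝒢 g) (hW : Smp c 𝒢 W) (p : ℕ) [Fact p.Prime] (Φ : Set X)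
    (hΦ : Φ ∈ Fail c 𝒢 W) : ∃ Y ∈ Ys 𝒢 W p, Φ ∈ Pr c Y := by
  obtain ⟨h1, φ, h0, hφ, hperp⟩ := hΦ
  refine ⟨red p (LinearMap.range φ), ⟨φ, h0, hφ, rfl⟩, h1, red_perp p Φ ?_⟩
  rintro f ⟨w, rfl⟩
  exact hperp w

/-- `b_main` with the factor `(p - 1)^e`. -/
theorem b_main_e (hS : Sys c 𝒢 g) (hW : Smp c 𝒢 W) (x₀ : X) (p : ℕ) [Fact p.Prime] [NeZero p]
    (hodd : Odd p) (hp : ¬ p ∣ Nat.card (Gm 𝒢 W)) (r : ℕ) (hr : r * finrank ℚ W ≤ g) :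
    ((p : ℝ) - 1) ^ finrank ℚ (Endo 𝒢 W) * Nat.card (Fail c 𝒢 W) ≤
      2 ^ g * (p : ℝ) ^ finrank ℚ (Fix 𝒢 x₀ W) * Sf p r ^ finrank ℚ W := by
  classical
  have hcount := ys_card hS hW x₀ p hp
  have : Finite (Submodule (ZMod p) (X → ZMod p)) :=
    Finite.of_injective (fun Y => (Y : Set (X → ZMod p))) SetLike.coe_injective
  let _ : Fintype (Ys 𝒢 W p) := Fintype.ofFinite _
  let T : Ys 𝒢 W p → Type := fun Y => {Φ : Set X // (∀ x, c x ∈ Φ ↔ x ∉ Φ) ∧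
    ∀ f ∈ Y.1, ∑ x, (if x ∈ Φ then f x else 0) = 0}
  have hT : ∀ Y : Ys 𝒢 W p, (Nat.card (T Y) : ℝ) ≤ 2 ^ g * Sf p r ^ finrank ℚ W := by
    rintro ⟨Y, hY⟩
    obtain ⟨h1, h2, h3⟩ := ys_prop hS hW p Y hY
    exact count_r c hS.cc hS.ne 𝒢 hS.trans g hS.pos hS.card p hodd Y h1 h2 (finrank ℚ W) h3 r hr
  have hex : ∀ Φ : Fail c 𝒢 W, ∃ Y : Ys 𝒢 W p, (∀ x, c x ∈ Φ.1 ↔ x ∉ Φ.1) ∧
      ∀ f ∈ Y.1, ∑ x, (if x ∈ Φ.1 then f x else 0) = 0 := by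
    rintro ⟨Φ, hΦ⟩
    obtain ⟨Y, hY, h1, h2⟩ := ys_cover hS hW p Φ hΦ
    exact ⟨⟨Y, hY⟩, h1, h2⟩
  choose Yf hYf using hex
  have hle : Nat.card (Fail c 𝒢 W) ≤ Nat.card (Σ Y : Ys 𝒢 W p, T Y) := by
    refine Nat.card_le_card_of_injective
      (fun Φ : Fail c 𝒢 W => (⟨Yf Φ, ⟨Φ.1, hYf Φ⟩⟩ : Σ Y : Ys 𝒢 W p, T Y)) ?_
    intro Φ Φ' h
    have h2 := congrArg (fun q : (Σ Y : Ys 𝒢 W p, T Y) => (q.2.1 : Set X)) h
    exact Subtype.ext h2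
  rw [Nat.card_sigma] at hle
  have hle' : (Nat.card (Fail c 𝒢 W) : ℝ) ≤
      Nat.card (Ys 𝒢 W p) * (2 ^ g * Sf p r ^ finrank ℚ W) := by
    calc (Nat.card (Fail c 𝒢 W) : ℝ) ≤ ((∑ Y : Ys 𝒢 W p, Nat.card (T Y) : ℕ) : ℝ) := by
          exact_mod_cast hle
      _ = ∑ Y : Ys 𝒢 W p, (Nat.card (T Y) : ℝ) := by push_cast; rfl
      _ ≤ ∑ _Y : Ys 𝒢 W p, (2 ^ g * Sf p r ^ finrank ℚ W) := Finset.sum_le_sum (fun Y _ => hT Y)
      _ = _ := by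
          rw [Finset.sum_const, Finset.card_univ, nsmul_eq_mul, Nat.card_eq_fintype_card]
  have hp1 : 1 ≤ p := (Fact.out : p.Prime).one_le
  have hsub : ((p - 1 : ℕ) : ℝ) = (p : ℝ) - 1 := by
    rw [Nat.cast_sub hp1, Nat.cast_one]
  have hnn : 0 ≤ (2 : ℝ) ^ g * Sf p r ^ finrank ℚ W :=
    mul_nonneg (by positivity) (pow_nonneg (sf_nonneg p r) _)
  have hc2 : (Nat.card (Ys 𝒢 W p) : ℝ) * ((p : ℝ) - 1) ^ finrank ℚ (Endo 𝒢 W) ≤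
      (p : ℝ) ^ finrank ℚ (Fix 𝒢 x₀ W) := by
    rw [← hsub]
    exact_mod_cast hcount
  have hp0 : 0 ≤ ((p : ℝ) - 1) ^ finrank ℚ (Endo 𝒢 W) := by
    rw [← hsub]
    positivity
  calc ((p : ℝ) - 1) ^ finrank ℚ (Endo 𝒢 W) * Nat.card (Fail c 𝒢 W)
      ≤ ((p : ℝ) - 1) ^ finrank ℚ (Endo 𝒢 W) *
          (Nat.card (Ys 𝒢 W p) * (2 ^ g * Sf p r ^ finrank ℚ W)) :=
        mul_le_mul_of_nonneg_left hle' hp0
    _ = (Nat.card (Ys 𝒢 W p) * ((p : ℝ) - 1) ^ finrank ℚ (Endo 𝒢 W)) *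
          (2 ^ g * Sf p r ^ finrank ℚ W) := by ring
    _ ≤ (p : ℝ) ^ finrank ℚ (Fix 𝒢 x₀ W) * (2 ^ g * Sf p r ^ finrank ℚ W) :=
        mul_le_mul_of_nonneg_right hc2 hnn
    _ = _ := by ring

end Pool.Agent.H52.CS
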