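import Mathlib
import Pool.Agent.H52.CS.Defs
import Pool.Agent.H52.CS.YsCnt
import Pool.Agent.H52.CS.GoodY
import Pool.Agent.H52.CS.Block

/-!
# The bound for a reduction without small vectors (module H52 CS GoodCnt)

PROOF.  Apply `good_y` to `Y` (odd of dimension `dim W`: `ys_prop`).  Let `f ∈ Y`, `f ≠ 0`.  Then `2 f ∈ Y`
(`2 • f`), and `2 f ≠ 0` since `q` is odd; by hypothesis there is `x` with `B < |(2 f x).valMinAbs|`.  Let `S` be
the block of `x` (`block`): `2 g ≤ |Gm| |S|`, and `k |Gm| ≤ g` gives `2 k |Gm| ≤ |Gm| |S|`, so `2 k ≤ |S|`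
(`|Gm| > 0`: `gm_pos`).  For `y = π x ∈ S`, `f y = f x` (`ys_inv`).
-/

namespace Pool.Agent.H52.CS

open Module Pool.Agent.H52.AD

variable {X : Type} [Fintype X] {c : Equiv.Perm X} {𝒢 : Subgroup (Equiv.Perm X)} {g : ℕ}
  {W : Submodule ℚ (X → ℚ)}

theorem good_cnt (hS : Sys c 𝒢 g) (hW : Smp c 𝒢 W) (q : ℕ) [Fact q.Prime] (hodd : Odd q)
    (Y : Submodule (ZMod q) (X → ZMod q)) (hY : Y ∈ Ys 𝒢 W q) (k B : ℕ)
    (hk : k * Nat.card (Gm 𝒢 W) ≤ g)
    (hbig : ∀ f ∈ Y, f ≠ 0 → ∃ x, (B : ℤ) < |(f x).valMinAbs|) :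
    (Nat.card (Pr c Y) : ℝ) * (q : ℝ) ^ finrank ℚ W ≤
      2 ^ g * (1 + (q : ℝ) ^ finrank ℚ W * Real.exp (-(2 * k * B ^ 2 / (q : ℝ) ^ 2))) := by
  obtain ⟨h1, h2, h3⟩ := ys_prop hS hW q Y hY
  have hst := hW.2.2.1
  have hpos := gm_pos hst
  have key := good_y hS q hodd Y h1 k B (by
    intro f hf hf0
    have h2ne : (2 : ZMod q) ≠ 0 := by
      intro h
      have h4 : ((2 : ℕ) : ZMod q) = 0 := by exact_mod_cast h
      rw [ZMod.natCast_eq_zero_iff] at h4
      have h5 := (Nat.Prime.eq_one_or_self_of_dvd Nat.prime_two q h4)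
      rcases h5 with h5 | h5
      · exact (Fact.out : q.Prime).one_lt.ne' h5
      · rw [h5] at hodd
        exact absurd hodd (by decide)
    have hf2 : (fun x => 2 * f x) ∈ Y := by
      have := Y.smul_mem (2 : ZMod q) hf
      exact this
    have hf20 : (fun x => 2 * f x) ≠ 0 := by
      intro h
      apply hf0
      funext x
      have h6 := congrFun h x
      simp only [Pi.zero_apply] at h6
      exact (mul_eq_zero.1 h6).resolve_left h2ne
    obtain ⟨x, hx⟩ := hbig _ hf2 hf20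
    obtain ⟨S, hS1, hS2⟩ := block hS hst x
    refine ⟨S, ?_, ?_⟩
    · have h7 : 2 * k * Nat.card (Gm 𝒢 W) ≤ S.card * Nat.card (Gm 𝒢 W) := by
        nlinarith
      exact Nat.le_of_mul_le_mul_right h7 hpos
    · intro y hy
      obtain ⟨π, hπ, rfl⟩ := hS2 y hy
      rw [ys_inv q Y hY f hf π hπ x]
      exact hx.le)
  rw [h3] at key
  exact key

end Pool.Agent.H52.CS
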