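import Mathlib
import Pool.Agent.H52.AD.CountR
import Pool.Agent.H52.AD.SEst
import Pool.Agent.H52.AD.CosEst

/-!
# The averages of powers of cosines for a large prime (module H52 CS SfBig)

`q` an odd prime, `1 ≤ r ≤ q²`: `Sf q r = (1/q) ∑_{t mod q} |cos (2 π t / q)|^r ≤ 6 / √r`.

PROOF.  By `cosEst_sum` the sum is `∑_{j < q} |cos (π j / q)|^r`, by `cosEst_refl` it is at most
`1 + 2 ∑_{1 ≤ j ≤ q/2} |cos (π j / q)|^r`, and for `1 ≤ j ≤ q/2`,
`|cos (π j/q)| = cos (π j / q) ≤ 1 - 2 j²/q² ≤ exp (-2 j²/q²)` (see `cosEst_term`;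
`Real.cos_quadratic_upper_bound`), so `|cos (π j / q)|^r ≤ exp (- a j²)`, `a = 2 r/q²`, `0 < a ≤ 2`.
Let `J = ⌈1/√a⌉ ≥ 1`.  The terms with `j ≤ J` are at most `1`; for `j > J`, `exp (-a j²) ≤ 1/(a j²)` and
`∑_{j > J} 1/j² ≤ 1/J` (telescoping), so they contribute at most `1/(a J) ≤ 1/√a`.  So the sum is at most
`1 + 2 (1/√a + 1 + 1/√a) = 3 + 4/√a = 3 + 4 q/√(2 r)`, and `Sf q r ≤ 3/q + (4/√2)/√r ≤ (3 + 2.83)/√r ≤ 6/√r`,
using `√r ≤ q`.
-/

namespace Pool.Agent.H52.CS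

open Pool.Agent.H52.AD Pool.Agent.H52.MF

theorem sfBig_term (p r j : ℕ) (hp : 2 ≤ p) (hj1 : 1 ≤ j) (hj2 : 2 * j ≤ p) :
    |Real.cos (Real.pi * (j : ℕ) / p)| ^ r ≤ Real.exp (-(2 * r / (p : ℝ) ^ 2 * (j : ℝ) ^ 2)) := by
  have hp0 : (0 : ℝ) < p := by exact_mod_cast (by omega : 0 < p)
  have hpi := Real.pi_pos
  have hj : (1 : ℝ) ≤ j := by exact_mod_cast hj1
  have hj3 : 2 * (j : ℝ) ≤ p := by exact_mod_cast hj2
  have h0 : 0 ≤ Real.pi * (j : ℕ) / p := by positivity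
  have h1 : Real.pi * (j : ℕ) / p ≤ Real.pi / 2 := by
    rw [div_le_div_iff₀ hp0 (by norm_num)]
    nlinarith
  have hc : 0 ≤ Real.cos (Real.pi * (j : ℕ) / p) :=
    Real.cos_nonneg_of_mem_Icc ⟨by linarith, h1⟩
  rw [abs_of_nonneg hc]
  have h2 : |Real.pi * (j : ℕ) / p| ≤ Real.pi := by
    rw [abs_of_nonneg h0]
    linarith
  have h3 := Real.cos_le_one_sub_mul_cos_sq h2
  have h4 : 2 / Real.pi ^ 2 * (Real.pi * (j : ℕ) / p) ^ 2 = 2 * (j : ℝ) ^ 2 / (p : ℝ) ^ 2 := by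
    field_simp
  rw [h4] at h3
  have h6 := Real.add_one_le_exp (-(2 * (j : ℝ) ^ 2 / (p : ℝ) ^ 2))
  have h7 : Real.cos (Real.pi * (j : ℕ) / p) ≤ Real.exp (-(2 * (j : ℝ) ^ 2 / (p : ℝ) ^ 2)) := by
    linarith
  have h8 := pow_le_pow_left₀ hc h7 r
  rw [← Real.exp_nat_mul] at h8
  refine h8.trans (le_of_eq ?_)
  congr 1
  ring

theorem sfBig_sum (u : ℕ → ℝ) (s : ℝ) (hs : 0 < s) (h1 : ∀ j, u j ≤ 1)
    (h2 : ∀ j, 1 ≤ j → u j ≤ s ^ 2 / (j : ℝ) ^ 2) (m : ℕ) :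
    ∑ j ∈ Finset.range m, u (j + 1) ≤ 2 * s + 1 := by
  set J : ℕ := ⌈s⌉₊ with hJ
  have hJ1 : s ≤ J := Nat.le_ceil s
  have hJ2 : (J : ℝ) < s + 1 := Nat.ceil_lt_add_one hs.le
  have hJ0 : 0 < J := Nat.ceil_pos.2 hs
  have hJ0' : (0 : ℝ) < J := by exact_mod_cast hJ0
  have hA : ∀ n, n ≤ J → ∑ j ∈ Finset.range n, u (j + 1) ≤ n := by
    intro n _
    calc ∑ j ∈ Finset.range n, u (j + 1) ≤ ∑ j ∈ Finset.range n, (1 : ℝ) :=
          Finset.sum_le_sum fun j _ => h1 _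
      _ = n := by simp
  have hB : ∀ n, J ≤ n → ∑ j ∈ Finset.range n, u (j + 1) ≤ J + s ^ 2 * (1 / J - 1 / n) := by
    intro n hn
    induction n, hn using Nat.le_induction with
    | base =>
      have := hA J le_rfl
      simpa using this
    | succ n hn ih =>
      rw [Finset.sum_range_succ]
      have hn0 : (0 : ℝ) < n := by exact_mod_cast (by omega : 0 < n)
      have h3 := h2 (n + 1) (by omega)
      have h4 : s ^ 2 / ((n + 1 : ℕ) : ℝ) ^ 2 ≤ s ^ 2 * (1 / n - 1 / ((n + 1 : ℕ) : ℝ)) := by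
        rw [div_eq_mul_one_div]
        refine mul_le_mul_of_nonneg_left ?_ (sq_nonneg s)
        push_cast
        rw [div_sub_div _ _ hn0.ne' (by positivity), div_le_div_iff₀ (by positivity) (by positivity)]
        nlinarith
      have h5 : s ^ 2 * (1 / (J : ℝ) - 1 / ((n + 1 : ℕ) : ℝ)) =
          s ^ 2 * (1 / (J : ℝ) - 1 / n) + s ^ 2 * (1 / n - 1 / ((n + 1 : ℕ) : ℝ)) := by ring
      rw [h5]
      linarith
  have hC : s ^ 2 * (1 / (J : ℝ)) ≤ s := by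
    rw [mul_one_div, div_le_iff₀ hJ0', sq]
    exact mul_le_mul_of_nonneg_left hJ1 hs.le
  rcases le_total m J with h | h
  · have h3 := hA m h
    have h4 : (m : ℝ) ≤ J := by exact_mod_cast h
    linarith
  · have h3 := hB m h
    have h4 : (0 : ℝ) ≤ s ^ 2 * (1 / (m : ℝ)) := by positivity
    have h5 : s ^ 2 * (1 / (J : ℝ) - 1 / m) = s ^ 2 * (1 / (J : ℝ)) - s ^ 2 * (1 / (m : ℝ)) := by ring
    linarith

theorem sf_big (q : ℕ) [Fact q.Prime] [NeZero q] (hq : Odd q) (r : ℕ) (h1 : 1 ≤ r) (h2 : r ≤ q ^ 2) :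
    Sf q r ≤ 6 / Real.sqrt r := by
  have hp2 : 2 ≤ q := (Fact.out : q.Prime).two_le
  have hp0 : (0 : ℝ) < q := by exact_mod_cast (by omega : 0 < q)
  have hr0 : (0 : ℝ) < r := by exact_mod_cast (by omega : 0 < r)
  have hr2 : (r : ℝ) ≤ (q : ℝ) ^ 2 := by exact_mod_cast h2
  have hsr : 0 < Real.sqrt r := Real.sqrt_pos.2 hr0
  have hsq : Real.sqrt r ≤ q := Real.sqrt_le_iff.2 ⟨hp0.le, hr2⟩
  have hs2 : 0 < Real.sqrt 2 := Real.sqrt_pos.2 (by norm_num)
  set s : ℝ := q / (Real.sqrt 2 * Real.sqrt r) with hs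
  have hs0 : 0 < s := by positivity
  have hss : s ^ 2 = (q : ℝ) ^ 2 / (2 * r) := by
    rw [hs, div_pow, mul_pow, Real.sq_sqrt (by norm_num), Real.sq_sqrt hr0.le]
  have key : ∑ t : ZMod q, fN q t ^ r ≤ 3 + 4 * s := by
    rw [cosEst_sum q hq r]
    obtain ⟨m, hm⟩ := hq
    set F : ℕ → ℝ := fun j => |Real.cos (Real.pi * (j : ℕ) / q)| ^ r with hF
    have hsum : ∑ j ∈ Finset.range q, F j =
        2 * ∑ j ∈ Finset.range m, F (j + 1) + F 0 := by
      have h1 : Finset.range q = Finset.range (m + m + 1) := by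
        congr 1
        omega
      rw [h1, Finset.sum_range_succ', Finset.sum_range_add, two_mul,
        ← Finset.sum_range_reflect (fun j => F (m + j + 1)) m]
      congr 2
      refine Finset.sum_congr rfl fun j hj => ?_
      have hjm := Finset.mem_range.1 hj
      have h2 := cosEst_refl q r (j + 1) (by omega) (by omega)
      have h3 : m + (m - 1 - j) + 1 = q - (j + 1) := by omega
      simp only [h3]
      exact h2
    have hF1 : ∀ j, F j ≤ 1 := by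
      intro j
      simp only [hF]
      exact pow_le_one₀ (abs_nonneg _) (Real.abs_cos_le_one _)
    set u : ℕ → ℝ := fun j => if j ≤ m then F j else 0 with hu
    have hu1 : ∀ j, u j ≤ 1 := by
      intro j
      simp only [hu]
      split_ifs
      · exact hF1 j
      · norm_num
    have hu2 : ∀ j, 1 ≤ j → u j ≤ s ^ 2 / (j : ℝ) ^ 2 := by
      intro j hj
      simp only [hu]
      have hj0 : (0 : ℝ) < j := by exact_mod_cast (by omega : 0 < j)
      split_ifs with hjm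
      · refine (sfBig_term q r j hp2 hj (by omega)).trans ?_
        have hx : 0 < 2 * r / (q : ℝ) ^ 2 * (j : ℝ) ^ 2 := by positivity
        rw [Real.exp_neg]
        have h3 : s ^ 2 / (j : ℝ) ^ 2 = (2 * r / (q : ℝ) ^ 2 * (j : ℝ) ^ 2)⁻¹ := by
          rw [hss]
          field_simp
        rw [h3]
        refine inv_anti₀ hx ?_
        have := Real.add_one_le_exp (2 * r / (q : ℝ) ^ 2 * (j : ℝ) ^ 2)
        linarith
      · positivity
    have h3 := sfBig_sum u s hs0 hu1 hu2 m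
    have h4 : ∑ j ∈ Finset.range m, u (j + 1) = ∑ j ∈ Finset.range m, F (j + 1) := by
      refine Finset.sum_congr rfl fun j hj => ?_
      have hjm := Finset.mem_range.1 hj
      simp only [hu]
      rw [if_pos (by omega)]
    rw [h4] at h3
    rw [hsum]
    have h5 := hF1 0
    linarith
  unfold Sf
  rw [div_le_div_iff₀ hp0 hsr]
  have h3 : (3 + 4 * s) * Real.sqrt r = 3 * Real.sqrt r + 4 * (q / Real.sqrt 2) := by
    rw [hs]
    field_simp
  have h4 : 4 * ((q : ℝ) / Real.sqrt 2) ≤ 3 * q := by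
    have h5 : (4 / 3 : ℝ) ≤ Real.sqrt 2 := by
      apply Real.le_sqrt_of_sq_le
      norm_num
    rw [← mul_div_assoc, div_le_iff₀ hs2]
    nlinarith
  have h6 := mul_le_mul_of_nonneg_right key hsr.le
  linarith

end Pool.Agent.H52.CS
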