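import Mathlib

/-!
# The rank modulo a large prime (module H52 CS RankMod)

Integer vectors `F i : X → ℤ`, `i ∈ ι` (finite), with entries of absolute value at most `B`, whose rational span
has dimension at least `d`, and a prime `q > d! B^d`: the span modulo `q` has dimension at least `d`.

PROOF.  There are `d` of the vectors that are linearly independent over `ℚ` (`exists_linearIndependent`,
or `Submodule` spans: `Set.exists...`), and for these (a `d × X` matrix of rank `d`) there are `d` coordinates such
that the `d × d` submatrix `A` has a nonzero determinant (the columns span `ℚ^d`; see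
`Matrix.exists_...` or use `exists_points_mod` as in `AD/CountR.lean`, `Pool.Agent.H52.MF`).  `det A` is an
integer, `|det A| ≤ d! B^d < q` (`Matrix.det_apply`, or `Matrix.det_le`), and not zero, so it is not zero modulo
`q`, and the `d` reductions are linearly independent over `ZMod q`.
-/

namespace Pool.Agent.H52.CS

open Module

theorem rankMod_choose {K : Type} [Field K] {V : Type} [AddCommGroup V] [Module K V]
    {I : Type} [Finite I] (v : I → V) (d : ℕ)
    (hd : d ≤ finrank K (Submodule.span K (Set.range v))) :
    ∃ c : Fin d → I, LinearIndependent K (fun i => v (c i)) := by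
  classical
  obtain ⟨κ, a, hainj, hspan, hli⟩ := exists_linearIndependent' K v
  have hfin : Finite κ := Finite.of_injective a hainj
  have hft : Fintype κ := Fintype.ofFinite κ
  have hcard : finrank K (Submodule.span K (Set.range (v ∘ a))) = Fintype.card κ :=
    finrank_span_eq_card hli
  rw [← hspan, hcard] at hd
  obtain ⟨f⟩ : Nonempty (Fin d ↪ κ) := Function.Embedding.nonempty_of_card_le (by simpa using hd)
  exact ⟨fun i => a (f i), hli.comp f f.injective⟩

theorem rank_mod {ι X : Type} [Finite ι] [Fintype X] (F : ι → X → ℤ) (B d q : ℕ) [Fact q.Prime]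
    (hB : ∀ i x, |F i x| ≤ B)
    (hd : d ≤ finrank ℚ (Submodule.span ℚ (Set.range (fun i => fun x => ((F i x : ℤ) : ℚ)))))
    (hq : d.factorial * B ^ d < q) :
    d ≤ finrank (ZMod q)
      (Submodule.span (ZMod q) (Set.range (fun i => fun x => ((F i x : ℤ) : ZMod q)))) := by
  classical
  obtain ⟨c, hc⟩ := rankMod_choose (K := ℚ) (fun i => fun x => ((F i x : ℤ) : ℚ)) d hd
  set A : Matrix (Fin d) X ℚ := Matrix.of (fun i x => ((F (c i) x : ℤ) : ℚ)) with hA
  have hrank : A.rank = d := by
    have h := LinearIndependent.rank_matrix (M := A) hc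
    rw [h, Fintype.card_fin]
  rw [Matrix.rank_eq_finrank_span_cols] at hrank
  obtain ⟨y, hy⟩ := rankMod_choose (K := ℚ) A.col d (le_of_eq hrank.symm)
  set A' : Matrix (Fin d) (Fin d) ℤ := Matrix.of (fun i j => F (c i) (y j)) with hA'
  have hdetQ : (A'.map (Int.castRingHom ℚ)).det ≠ 0 := by
    have h1 : LinearIndependent ℚ (A'.map (Int.castRingHom ℚ)).col := hy
    rw [Matrix.linearIndependent_cols_iff_isUnit, Matrix.isUnit_iff_isUnit_det] at h1
    exact h1.ne_zero
  have hdet : A'.det ≠ 0 := by
    intro h
    apply hdetQ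
    have h2 := (Int.castRingHom ℚ).map_det A'
    rw [h, map_zero] at h2
    exact h2.symm
  have hle : |A'.det| ≤ (d.factorial : ℤ) * (B : ℤ) ^ d := by
    have h := Matrix.det_le (A := A') (abv := (AbsoluteValue.abs : AbsoluteValue ℤ ℤ)) (x := (B : ℤ))
      (fun i j => hB (c i) (y j))
    rw [Fintype.card_fin, nsmul_eq_mul] at h
    exact h
  have hlt : |A'.det| < (q : ℤ) := by
    refine hle.trans_lt ?_
    exact_mod_cast hq
  have hdetq : (A'.map (Int.castRingHom (ZMod q))).det ≠ 0 := by
    intro h
    have h2 := (Int.castRingHom (ZMod q)).map_det A'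
    have h3 : ((A'.det : ℤ) : ZMod q) = 0 := h2.trans h
    rw [ZMod.intCast_zmod_eq_zero_iff_dvd] at h3
    exact hdet (Int.eq_zero_of_abs_lt_dvd h3 hlt)
  have hliq : LinearIndependent (ZMod q) (A'.map (Int.castRingHom (ZMod q))).row := by
    rw [Matrix.linearIndependent_rows_iff_isUnit, Matrix.isUnit_iff_isUnit_det]
    exact isUnit_iff_ne_zero.mpr hdetq
  have hli : LinearIndependent (ZMod q) (fun i : Fin d => fun x => ((F (c i) x : ℤ) : ZMod q)) := by
    refine LinearIndependent.of_comp (LinearMap.funLeft (ZMod q) (ZMod q) y) ?_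
    exact hliq
  have hcard := finrank_span_eq_card hli
  rw [Fintype.card_fin] at hcard
  rw [← hcard]
  refine Submodule.finrank_mono (Submodule.span_mono ?_)
  rintro _ ⟨i, rfl⟩
  exact ⟨c i, rfl⟩

end Pool.Agent.H52.CS
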