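import Mathlib
import Pool.Agent.H52.AD.Schur
import Pool.Agent.H52.AD.Free
import Pool.Agent.H52.AD.Dims
import Pool.Agent.H52.CS.Defs

/-!
# The operator `∑ tr(γ⁻¹) γ` (module H52 CS TrOp)

`W` simple, `Γ = Gr` the finite group of the operators on `W`, `d = dim W`, `e = dim Endo`.  Then
`z = ∑_{γ ∈ Γ} tr(γ⁻¹) γ` is the scalar `|Γ| e / d` on `W`.

PROOF.  `z` commutes with every `δ ∈ Γ`, since `tr` is invariant under conjugation (substitute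
`γ → δ γ δ⁻¹`), so `z ∈ Endo 𝒢 W`.  Let `β ∈ Endo 𝒢 W` and let `T` be the linear map
`ψ ↦ ∑_γ β ∘ γ ∘ ψ ∘ γ⁻¹` on `End ℚ W` (`W →ₗ[ℚ] W`).
(1) `trace T = ∑_γ tr(β γ) tr(γ⁻¹) = tr(β z)`: the trace of `ψ ↦ A ∘ ψ ∘ B` is `tr A * tr B` (for instance by
`dualTensorHom` and `LinearMap.trace_tensorProduct'`, or in matrices by `Matrix.kronecker`/`Matrix.trace`,
or on the basis of matrix units of `Matrix.stdBasis`).
(2) `T` has its image in `Endo 𝒢 W` (the sum `∑_γ γ ψ γ⁻¹` commutes with `Γ`, and `β` does, `endo_comp`), and on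
`Endo 𝒢 W` it is `|Γ|` times `L : ψ ↦ β ∘ ψ`.  The trace of an operator with image in a subspace is the trace of
its restriction to the subspace (`LinearMap.trace_eq_sum_trace_restrict` or
`LinearMap.trace_comp_comm'` applied to the factorisation through the inclusion).  So
`trace T = |Γ| trace L`, and `d trace L = e tr β` by `free_left`.
So `d tr(β z) = |Γ| e tr β` for all `β ∈ Endo 𝒢 W`, that is, `y = d z - |Γ| e ∈ Endo 𝒢 W` satisfies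
`tr (β y) = 0` for all `β ∈ Endo 𝒢 W`.  If `y ≠ 0`, take the inverse `β` of `y` (`schur_endo`): `tr id = d > 0`,
a contradiction.  So `y = 0`.
-/

namespace Pool.Agent.H52.CS

open Module Pool.Agent.H52.AD

section general

variable {V : Type} [AddCommGroup V] [Module ℚ V] [FiniteDimensional ℚ V]

/-- the trace of `ψ ↦ A ψ B` -/
theorem TrOp_two (A B : V →ₗ[ℚ] V) (T : (V →ₗ[ℚ] V) →ₗ[ℚ] (V →ₗ[ℚ] V))
    (hT : ∀ ψ, T ψ = A ∘ₗ ψ ∘ₗ B) :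
    LinearMap.trace ℚ (V →ₗ[ℚ] V) T = LinearMap.trace ℚ V A * LinearMap.trace ℚ V B := by
  have h1 : T = (dualTensorHomEquiv ℚ V V).conj
      (TensorProduct.map (Module.Dual.transpose (R := ℚ) B) A) := by
    have h2 : T ∘ₗ (dualTensorHomEquiv ℚ V V).toLinearMap =
        (dualTensorHomEquiv ℚ V V).toLinearMap ∘ₗ
          (TensorProduct.map (Module.Dual.transpose (R := ℚ) B) A) := by
      apply TensorProduct.ext'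
      intro f v
      change T (dualTensorHom ℚ V V (f ⊗ₜ[ℚ] v)) = dualTensorHom ℚ V V ((f ∘ₗ B) ⊗ₜ[ℚ] (A v))
      rw [hT]
      ext w
      simp [dualTensorHom_apply]
    ext1 ψ
    rw [LinearEquiv.conj_apply_apply]
    have h3 := LinearMap.congr_fun h2 ((dualTensorHomEquiv ℚ V V).symm ψ)
    change T ((dualTensorHomEquiv ℚ V V) ((dualTensorHomEquiv ℚ V V).symm ψ)) = _ at h3
    rw [LinearEquiv.apply_symm_apply] at h3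
    exact h3
  rw [h1, LinearMap.trace_conj', LinearMap.trace_tensorProduct', LinearMap.trace_transpose',
    mul_comm]

omit [FiniteDimensional ℚ V] in
theorem TrOp_sum_comp {ι : Type} (s : Finset ι) (f : ι → V →ₗ[ℚ] V) (h : V →ₗ[ℚ] V) :
    (∑ i ∈ s, f i) ∘ₗ h = ∑ i ∈ s, f i ∘ₗ h := by
  ext v
  simp only [LinearMap.comp_apply, LinearMap.sum_apply]

omit [FiniteDimensional ℚ V] in
theorem TrOp_comp_sum {ι : Type} (s : Finset ι) (f : ι → V →ₗ[ℚ] V) (h : V →ₗ[ℚ] V) :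
    h ∘ₗ (∑ i ∈ s, f i) = ∑ i ∈ s, h ∘ₗ f i := by
  ext v
  simp only [LinearMap.comp_apply, LinearMap.sum_apply, map_sum]

/-- the trace of an operator with image in a subspace -/
theorem TrOp_restr (E : Submodule ℚ (V →ₗ[ℚ] V)) (T : (V →ₗ[ℚ] V) →ₗ[ℚ] (V →ₗ[ℚ] V))
    (hT : ∀ ψ, T ψ ∈ E) (L : E →ₗ[ℚ] E) (hL : ∀ ψ : E, T ψ = L ψ) :
    LinearMap.trace ℚ E L = LinearMap.trace ℚ (V →ₗ[ℚ] V) T := by
  rw [← LinearMap.trace_restrict_eq_of_forall_mem E T hT]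
  congr 1
  ext1 ψ
  apply Subtype.ext
  exact (hL ψ).symm

theorem TrOp_trsub (β Z : V →ₗ[ℚ] V) (x y : ℚ) : LinearMap.trace ℚ V
    (β ∘ₗ (x • Z - y • LinearMap.id)) =
      x * LinearMap.trace ℚ V (β ∘ₗ Z) - y * LinearMap.trace ℚ V β := by
  rw [LinearMap.comp_sub, LinearMap.comp_smul, LinearMap.comp_smul, LinearMap.comp_id,
    map_sub, map_smul, map_smul, smul_eq_mul, smul_eq_mul]

theorem TrOp_trsum {ι : Type} (s : Finset ι) (f : ι → V →ₗ[ℚ] V) (h : V →ₗ[ℚ] V) (x : ι → ℚ) :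
    LinearMap.trace ℚ V (h ∘ₗ (∑ i ∈ s, x i • f i)) =
      ∑ i ∈ s, x i * LinearMap.trace ℚ V (h ∘ₗ f i) := by
  rw [TrOp_comp_sum, map_sum]
  refine Finset.sum_congr rfl fun i _ => ?_
  rw [LinearMap.comp_smul, map_smul, smul_eq_mul]

theorem TrOp_submem (E : Submodule ℚ (V →ₗ[ℚ] V)) (a b : V →ₗ[ℚ] V) (x y : ℚ) (ha : a ∈ E)
    (hb : b ∈ E) : x • a - y • b ∈ E := E.sub_mem (E.smul_mem _ ha) (E.smul_mem _ hb)

end general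

variable {X : Type} [Fintype X] {c : Equiv.Perm X} {𝒢 : Subgroup (Equiv.Perm X)} {g : ℕ}
  {W : Submodule ℚ (X → ℚ)}

/-- the operator of an element of `Gr` -/
noncomputable def TrOp_c {hst : Stb 𝒢 W} (γ : Gr hst) : W →ₗ[ℚ] W :=
  ((γ : W ≃ₗ[ℚ] W) : W →ₗ[ℚ] W)

omit [Fintype X] in
theorem TrOp_mul {hst : Stb 𝒢 W} (γ δ : Gr hst) :
    TrOp_c (γ * δ) = TrOp_c γ ∘ₗ TrOp_c δ := rfl

omit [Fintype X] in
theorem TrOp_one {hst : Stb 𝒢 W} : TrOp_c (1 : Gr hst) = LinearMap.id := rfl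

omit [Fintype X] in
/-- operators that commute with `Gr` -/
theorem TrOp_mem {hst : Stb 𝒢 W} (φ : W →ₗ[ℚ] W)
    (h : ∀ γ : Gr hst, φ ∘ₗ TrOp_c γ = TrOp_c γ ∘ₗ φ) : φ ∈ Endo 𝒢 W := by
  rw [mem_Endo]
  intro π hπ f f' hf x
  set γ : Gr hst := ⟨rediso_op hst ⟨π⁻¹, 𝒢.inv_mem hπ⟩, ⟨_, rfl⟩⟩ with hγ
  have h1 : f' = TrOp_c γ f := by
    apply Subtype.ext
    funext y
    rw [hf y]
    change _ = (f : X → ℚ) ((π⁻¹)⁻¹ y)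
    rw [inv_inv]
  have h2 := LinearMap.congr_fun (h γ) f
  rw [h1]
  change (((φ ∘ₗ TrOp_c γ) f : W) : X → ℚ) x = _
  rw [h2]
  change (φ f : X → ℚ) ((π⁻¹)⁻¹ x) = _
  rw [inv_inv]

omit [Fintype X] in
theorem TrOp_comm {hst : Stb 𝒢 W} (φ : W →ₗ[ℚ] W) (hφ : φ ∈ Endo 𝒢 W) (γ : Gr hst) :
    φ ∘ₗ TrOp_c γ = TrOp_c γ ∘ₗ φ := by
  rw [mem_Endo] at hφ
  obtain ⟨π, hπ, h⟩ := (mem_Gr hst (γ : W ≃ₗ[ℚ] W)).1 γ.2
  ext f x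
  change (φ (TrOp_c γ f) : X → ℚ) x = (TrOp_c γ (φ f) : X → ℚ) x
  rw [hφ π⁻¹ (𝒢.inv_mem hπ) f (TrOp_c γ f) (fun y => h f y) x]
  exact (h (φ f) x).symm

/-- the sum `∑ γ ψ γ⁻¹` -/
noncomputable def TrOp_S {hst : Stb 𝒢 W} [Fintype (Gr hst)] (ψ : W →ₗ[ℚ] W) : W →ₗ[ℚ] W :=
  ∑ γ : Gr hst, TrOp_c γ ∘ₗ ψ ∘ₗ TrOp_c γ⁻¹

omit [Fintype X] in
theorem TrOp_S_mem {hst : Stb 𝒢 W} [Fintype (Gr hst)] (ψ : W →ₗ[ℚ] W) :
    TrOp_S (hst := hst) ψ ∈ Endo 𝒢 W := by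
  refine TrOp_mem (hst := hst) _ fun δ => ?_
  unfold TrOp_S
  rw [TrOp_sum_comp, TrOp_comp_sum]
  refine Fintype.sum_equiv (Equiv.mulLeft δ⁻¹) _ _ fun γ => ?_
  change TrOp_c γ ∘ₗ ψ ∘ₗ (TrOp_c γ⁻¹ ∘ₗ TrOp_c δ) =
    (TrOp_c δ ∘ₗ TrOp_c (δ⁻¹ * γ)) ∘ₗ ψ ∘ₗ TrOp_c (δ⁻¹ * γ)⁻¹
  rw [← TrOp_mul, ← TrOp_mul, mul_inv_cancel_left, mul_inv_rev, inv_inv]

omit [Fintype X] in
theorem TrOp_S_endo {hst : Stb 𝒢 W} [Fintype (Gr hst)] (ψ : W →ₗ[ℚ] W) (hψ : ψ ∈ Endo 𝒢 W) :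
    TrOp_S (hst := hst) ψ = (Fintype.card (Gr hst) : ℚ) • ψ := by
  unfold TrOp_S
  have h1 : ∀ γ : Gr hst, TrOp_c γ ∘ₗ ψ ∘ₗ TrOp_c γ⁻¹ = ψ := by
    intro γ
    rw [TrOp_comm (hst := hst) ψ hψ, ← LinearMap.comp_assoc, ← TrOp_mul, mul_inv_cancel, TrOp_one,
      LinearMap.id_comp]
  rw [Finset.sum_congr rfl fun γ _ => h1 γ, Finset.sum_const, Finset.card_univ]
  rw [Nat.cast_smul_eq_nsmul]

/-- the key identity -/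
theorem TrOp_key (hW : Smp c 𝒢 W) [Fintype (Gr hW.2.2.1)] (β : W →ₗ[ℚ] W)
    (hβ : β ∈ Endo 𝒢 W) :
    (finrank ℚ W : ℚ) * ∑ γ : Gr hW.2.2.1,
      LinearMap.trace ℚ W (TrOp_c γ⁻¹) * LinearMap.trace ℚ W (β ∘ₗ TrOp_c γ) =
    (Fintype.card (Gr hW.2.2.1) : ℚ) * finrank ℚ (Endo 𝒢 W) * LinearMap.trace ℚ W β := by
  set T : (W →ₗ[ℚ] W) →ₗ[ℚ] (W →ₗ[ℚ] W) :=
    ∑ γ : Gr hW.2.2.1, LinearMap.llcomp ℚ W W W (β ∘ₗ TrOp_c γ) ∘ₗ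
      LinearMap.lcomp ℚ W (TrOp_c γ⁻¹) with hTdef
  have hT1 : ∀ ψ, T ψ = β ∘ₗ TrOp_S (hst := hW.2.2.1) ψ := by
    intro ψ
    rw [hTdef]
    simp only [LinearMap.sum_apply, LinearMap.comp_apply]
    unfold TrOp_S
    rw [TrOp_comp_sum]
    refine Finset.sum_congr rfl fun γ _ => ?_
    rfl
  have h1 : LinearMap.trace ℚ (W →ₗ[ℚ] W) T = ∑ γ : Gr hW.2.2.1,
      LinearMap.trace ℚ W (TrOp_c γ⁻¹) * LinearMap.trace ℚ W (β ∘ₗ TrOp_c γ) := by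
    rw [hTdef, map_sum]
    refine Finset.sum_congr rfl fun γ _ => ?_
    rw [TrOp_two (β ∘ₗ TrOp_c γ) (TrOp_c γ⁻¹) _ (fun ψ => rfl), mul_comm]
  have hmem : ∀ ψ, T ψ ∈ Endo 𝒢 W := by
    intro ψ
    rw [hT1]
    exact endo_comp _ _ hβ (TrOp_S_mem _)
  set L : Endo 𝒢 W →ₗ[ℚ] Endo 𝒢 W :=
    (LinearMap.llcomp ℚ W W W β).restrict (p := Endo 𝒢 W) (q := Endo 𝒢 W)
      (fun ψ hψ => endo_comp _ _ hβ hψ) with hL
  have h3 := TrOp_restr (Endo 𝒢 W) T hmem ((Fintype.card (Gr hW.2.2.1) : ℚ) • L) (fun ψ => by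
    change T ψ = (Fintype.card (Gr hW.2.2.1) : ℚ) • (β ∘ₗ (ψ : W →ₗ[ℚ] W))
    rw [hT1, TrOp_S_endo _ ψ.2, LinearMap.comp_smul])
  rw [map_smul, smul_eq_mul] at h3
  have h4 := free_left hW β hβ L (fun ψ => rfl)
  rw [← h1, ← h3]
  linear_combination (Fintype.card (Gr hW.2.2.1) : ℚ) * h4

theorem tr_op (hW : Smp c 𝒢 W) [Fintype (Gr hW.2.2.1)] (w : W) :
    (finrank ℚ W : ℚ) • ∑ γ : Gr hW.2.2.1,
      LinearMap.trace ℚ W (((γ : W ≃ₗ[ℚ] W)⁻¹ : W ≃ₗ[ℚ] W) : W →ₗ[ℚ] W) • (γ : W ≃ₗ[ℚ] W) w =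
    ((Nat.card (Gm 𝒢 W) : ℚ) * finrank ℚ (Endo 𝒢 W)) • w := by
  set Z : W →ₗ[ℚ] W := ∑ γ : Gr hW.2.2.1, LinearMap.trace ℚ W (TrOp_c γ⁻¹) • TrOp_c γ with hZ
  have hcard : (Fintype.card (Gr hW.2.2.1) : ℚ) = (Nat.card (Gm 𝒢 W) : ℚ) := by
    rw [← card_Gr hW.2.2.1, Nat.card_eq_fintype_card]
  have hZmem : Z ∈ Endo 𝒢 W := by
    refine TrOp_mem (hst := hW.2.2.1) _ fun δ => ?_
    rw [hZ, TrOp_sum_comp, TrOp_comp_sum]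
    refine Fintype.sum_equiv (MulAut.conj δ⁻¹).toEquiv _ _ fun γ => ?_
    change (LinearMap.trace ℚ W (TrOp_c γ⁻¹) • TrOp_c γ) ∘ₗ TrOp_c δ =
      TrOp_c δ ∘ₗ (LinearMap.trace ℚ W (TrOp_c (δ⁻¹ * γ * δ⁻¹⁻¹)⁻¹) •
        TrOp_c (δ⁻¹ * γ * δ⁻¹⁻¹))
    rw [inv_inv, LinearMap.smul_comp, LinearMap.comp_smul, ← TrOp_mul, ← TrOp_mul]
    have e1 : (δ⁻¹ * γ * δ)⁻¹ = δ⁻¹ * (γ⁻¹ * δ) := by group
    have e2 : δ * (δ⁻¹ * γ * δ) = γ * δ := by group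
    rw [e1, e2, TrOp_mul δ⁻¹, LinearMap.trace_comp_comm', ← TrOp_mul]
    have e3 : γ⁻¹ * δ * δ⁻¹ = γ⁻¹ := by group
    rw [e3]
  set Y : W →ₗ[ℚ] W := (finrank ℚ W : ℚ) • Z -
    ((Nat.card (Gm 𝒢 W) : ℚ) * finrank ℚ (Endo 𝒢 W)) • LinearMap.id with hY
  have hYmem : Y ∈ Endo 𝒢 W := TrOp_submem (Endo 𝒢 W) _ _ _ _ hZmem endo_id
  have htr : ∀ β ∈ Endo 𝒢 W, LinearMap.trace ℚ W (β ∘ₗ Y) = 0 := by
    intro β hβ
    have h1 := TrOp_key hW β hβ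
    rw [hcard] at h1
    refine (TrOp_trsub β Z _ _).trans ?_
    rw [hZ, TrOp_trsum, h1, sub_self]
  have hY0 : Y = 0 := by
    by_contra hne
    obtain ⟨_, ψ, hψ, _, h2⟩ := schur_endo hW Y hYmem hne
    have h3 := htr ψ hψ
    rw [h2, LinearMap.trace_id] at h3
    have h4 : 0 < finrank ℚ W := by
      haveI := Free_nontrivial hW
      exact finrank_pos
    have h5 : (finrank ℚ W : ℚ) ≠ 0 := by
      exact_mod_cast h4.ne'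
    exact h5 h3
  have h6 := LinearMap.congr_fun hY0 w
  rw [hY, LinearMap.sub_apply, LinearMap.smul_apply, LinearMap.smul_apply, LinearMap.id_apply,
    LinearMap.zero_apply, sub_eq_zero] at h6
  rw [← h6, hZ, LinearMap.sum_apply]
  rfl

end Pool.Agent.H52.CS
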