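import Mathlib
import Pool.Agent.H52.AD.Base
import Pool.Agent.H52.AD.Dims
import Pool.Agent.H52.AD.Schur
import Pool.Agent.H52.CS.Defs
import Pool.Agent.H52.CS.TrBd
import Pool.Agent.H52.CS.TrOp
import Pool.Agent.H52.CS.Block

/-!
# Small vectors in a reduction (module H52 CS SmallVec)

`W` simple, `d = dim W`, `Y ∈ Ys 𝒢 W q`, `f : X → ℤ` a nonzero function with `|f x| ≤ B` whose reduction is in
`Y`, and `2 |Gm| d² B < q`.  Then `f` is invariant under the elements that act trivially on `W`, and the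
translates `f ∘ π`, `π ∈ 𝒢`, span a space over `ℚ` of dimension at least `d`.

PROOF.  (Invariance) `ys_inv` gives `f (π x) = f x` modulo `q`, and both have absolute value at most `B < q/2`.
(Notation) `Γ = Gr hW.2.2.1`, finite, `|Γ| = |Gm 𝒢 W|`; for `γ ∈ Γ` choose `π_γ ∈ 𝒢` with `γ w = w ∘ π_γ⁻¹`
(`mem_Gr`), and let `m_γ = tr(γ⁻¹) ∈ ℤ`, `|m_γ| ≤ d` (`tr_int_bd`).  If `h : X → ℤ` (or `→ ℚ`) is
invariant under the elements that act trivially, then `h ∘ π⁻¹ = h ∘ π_γ⁻¹` whenever `π ∈ 𝒢` acts as `γ` (since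
`π_γ⁻¹ π` and `π⁻¹ π_γ` act trivially); in particular `(h ∘ π_γ⁻¹) ∘ π_δ⁻¹ = h ∘ π_(δ γ)⁻¹`.
(a) Let `F x = ∑_γ m_γ f (π_γ⁻¹ x)`.  Then `d F = |Γ| e f` (`e = dim Endo 𝒢 W`).  Indeed, `Y = red q (range φ)` and
`f` is congruent modulo `q` to an integer valued function `φ w`, `w ∈ W`; `φ (γ w) = (φ w) ∘ π_γ⁻¹` (`Eqv`), so
`d ∑_γ m_γ (φ w) ∘ π_γ⁻¹ = φ (d z w) = |Γ| e φ w` by `tr_op`; so `d F ≡ |Γ| e f` modulo `q`, and
the difference has absolute value at most `d² |Γ| B + |Γ| e B ≤ 2 |Γ| d² B < q` (`e ≤ d`), so it is zero.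
(b) Let `V` be the rational span of the translates `f ∘ π`, `π ∈ 𝒢`.  Suppose `dim V < d`.  Then every
equivariant linear map `φ' : W → (X → ℚ)` with range in `V` is zero (`schur`: a nonzero one is injective).
For a linear functional `λ` on `W` let `Ψ w = ∑_γ λ (γ⁻¹ w) • (f ∘ π_γ⁻¹) ∈ V`.  It is equivariant:
`Ψ (δ w) = ∑_γ λ (γ⁻¹ δ w) f ∘ π_γ⁻¹ = ∑_γ' λ (γ'⁻¹ w) f ∘ π_(δ γ')⁻¹ = (Ψ w) ∘ π_δ⁻¹`
(`γ = δ γ'`).  So `Ψ = 0`: `∑_γ λ (γ⁻¹ w) f (π_γ⁻¹ x) = 0` for all `λ, w, x`.  Take a basis `b_i` of `W` with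
coordinate functionals `λ_i`, put `w = b_i`, `λ = λ_i` and sum over `i`: `∑_γ tr(γ⁻¹) f (π_γ⁻¹ x) = 0`
(`LinearMap.trace_eq_matrix_trace`), that is `F = 0`, so `|Γ| e f = 0` by (a), and `f = 0`: contradiction
(`|Γ| > 0`: `gm_pos`, `e > 0`: `endo_pos`).
-/

namespace Pool.Agent.H52.CS

open Module Pool.Agent.H52.AD

variable {X : Type} [Fintype X] {c : Equiv.Perm X} {𝒢 : Subgroup (Equiv.Perm X)} {g : ℕ}
  {W : Submodule ℚ (X → ℚ)}

omit [Fintype X] in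
theorem SmallVec_inv (hst : Stb 𝒢 W) (f : X → ℤ) (hinv : ∀ π, Triv 𝒢 W π → ∀ x, f (π x) = f x)
    (γ : W ≃ₗ[ℚ] W) (π σ : Equiv.Perm X) (hπ : π ∈ 𝒢) (hσ : σ ∈ 𝒢)
    (h1 : ∀ (w : W) (x : X), (γ w : X → ℚ) x = (w : X → ℚ) (π⁻¹ x))
    (h2 : ∀ (w : W) (x : X), (γ w : X → ℚ) x = (w : X → ℚ) (σ⁻¹ x)) (x : X) :
    f (π⁻¹ x) = f (σ⁻¹ x) := by
  have h3 : Triv 𝒢 W (σ⁻¹ * π) := by
    refine ⟨𝒢.mul_mem (𝒢.inv_mem hσ) hπ, fun u hu y => ?_⟩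
    have e1 := h1 ⟨u, hu⟩ (π y)
    have e2 := h2 ⟨u, hu⟩ (π y)
    rw [e1] at e2
    change u (π⁻¹ (π y)) = u (σ⁻¹ (π y)) at e2
    rw [show π⁻¹ (π y) = y from π.symm_apply_apply y] at e2
    rw [Equiv.Perm.mul_apply]
    exact e2.symm
  have h4 := hinv _ h3 (π⁻¹ x)
  rw [Equiv.Perm.mul_apply, show π (π⁻¹ x) = x from π.apply_symm_apply x] at h4
  exact h4.symm

theorem SmallVec_int (q : ℕ) (a b : ℤ) (h : ((a : ℤ) : ZMod q) = ((b : ℤ) : ZMod q))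
    (hab : |a - b| < q) : a = b := by
  have h1 : (q : ℤ) ∣ a - b := (ZMod.intCast_eq_intCast_iff_dvd_sub b a q).1 h.symm
  have h2 := Int.eq_zero_of_abs_lt_dvd h1 hab
  omega

/-- the trace as a sum over a basis -/
theorem SmallVec_tr {V : Type} [AddCommGroup V] [Module ℚ V] {ι : Type} [Fintype ι]
    (b : Basis ι ℚ V) (f : V →ₗ[ℚ] V) :
    LinearMap.trace ℚ V f = ∑ i, b.coord i (f (b i)) := by
  classical
  rw [LinearMap.trace_eq_matrix_trace ℚ b, Matrix.trace]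
  refine Finset.sum_congr rfl fun i _ => ?_
  rw [Matrix.diag_apply, LinearMap.toMatrix_apply]
  rfl

/-- part (b): if the span of the translates is small then the sum with the traces is zero -/
theorem SmallVec_b (hW : Smp c 𝒢 W) [Fintype (Gr hW.2.2.1)] (f : X → ℤ)
    (hinv : ∀ π, Triv 𝒢 W π → ∀ x, f (π x) = f x)
    (P : Gr hW.2.2.1 → Equiv.Perm X) (hP : ∀ γ, P γ ∈ 𝒢)
    (hPw : ∀ (γ : Gr hW.2.2.1) (w : W) (x : X), ((γ : W ≃ₗ[ℚ] W) w : X → ℚ) x = (w : X → ℚ) ((P γ)⁻¹ x))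
    (hlt : finrank ℚ (Submodule.span ℚ
      (Set.range (fun π : 𝒢 => fun x => ((f ((π : Equiv.Perm X) x) : ℤ) : ℚ)))) < finrank ℚ W)
    (x : X) :
    ∑ γ : Gr hW.2.2.1, LinearMap.trace ℚ W (TrOp_c γ⁻¹) * ((f ((P γ)⁻¹ x) : ℤ) : ℚ) = 0 := by
  classical
  set V : Submodule ℚ (X → ℚ) := Submodule.span ℚ
      (Set.range (fun π : 𝒢 => fun x => ((f ((π : Equiv.Perm X) x) : ℤ) : ℚ))) with hV
  -- the equivariant maps
  set Ψ : (W →ₗ[ℚ] ℚ) → (W →ₗ[ℚ] (X → ℚ)) := fun l =>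
    ∑ γ : Gr hW.2.2.1, (l ∘ₗ TrOp_c γ⁻¹).smulRight (fun y => ((f ((P γ)⁻¹ y) : ℤ) : ℚ)) with hΨ
  have hΨa : ∀ l (w : W) (y : X), Ψ l w y =
      ∑ γ : Gr hW.2.2.1, l (TrOp_c γ⁻¹ w) * ((f ((P γ)⁻¹ y) : ℤ) : ℚ) := by
    intro l w y
    rw [hΨ]
    change (∑ γ : Gr hW.2.2.1, (l ∘ₗ TrOp_c γ⁻¹).smulRight
      (fun y => ((f ((P γ)⁻¹ y) : ℤ) : ℚ))) w y = _
    rw [LinearMap.sum_apply, Finset.sum_apply]
    rfl
  have hmem : ∀ l (w : W), Ψ l w ∈ V := by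
    intro l w
    have h1 : Ψ l w = ∑ γ : Gr hW.2.2.1, l (TrOp_c γ⁻¹ w) •
        (fun y => ((f ((P γ)⁻¹ y) : ℤ) : ℚ)) := by
      funext y
      rw [hΨa, Finset.sum_apply]
      rfl
    rw [h1]
    refine V.sum_mem fun γ _ => V.smul_mem _ (Submodule.subset_span ?_)
    exact ⟨⟨(P γ)⁻¹, 𝒢.inv_mem (hP γ)⟩, rfl⟩
  have heqv : ∀ l, Eqv 𝒢 (Ψ l) := by
    intro l π hπ w w' hw y
    rw [hΨa, hΨa]
    set δ : Gr hW.2.2.1 := ⟨rediso_op hW.2.2.1 ⟨π⁻¹, 𝒢.inv_mem hπ⟩, ⟨_, rfl⟩⟩ with hδ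
    have hδw : ∀ (u : W) (z : X), ((δ : W ≃ₗ[ℚ] W) u : X → ℚ) z = (u : X → ℚ) (π z) := by
      intro u z
      change (u : X → ℚ) ((π⁻¹)⁻¹ z) = _
      rw [inv_inv]
    have h1 : w' = TrOp_c δ w := by
      apply Subtype.ext
      funext z
      rw [hw z]
      exact (hδw w z).symm
    rw [h1]
    refine Fintype.sum_equiv (Equiv.mulLeft δ⁻¹) _ _ fun γ => ?_
    change l (TrOp_c γ⁻¹ (TrOp_c δ w)) * _ =
      l (TrOp_c (δ⁻¹ * γ)⁻¹ w) * ((f ((P (δ⁻¹ * γ))⁻¹ (π y)) : ℤ) : ℚ)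
    have h2 : TrOp_c γ⁻¹ (TrOp_c δ w) = TrOp_c (δ⁻¹ * γ)⁻¹ w := by
      rw [mul_inv_rev, inv_inv]
      rfl
    have h3 : f ((P γ)⁻¹ y) = f ((P (δ⁻¹ * γ))⁻¹ (π y)) := by
      have h4 := SmallVec_inv hW.2.2.1 f hinv (γ : W ≃ₗ[ℚ] W) (P γ) (π⁻¹ * P (δ⁻¹ * γ)) (hP γ)
        (𝒢.mul_mem (𝒢.inv_mem hπ) (hP _)) (hPw γ) (fun u z => by
          rw [mul_inv_rev, inv_inv, Equiv.Perm.mul_apply, ← hPw (δ⁻¹ * γ) u (π z), ← hδw]
          have h5 : (γ : W ≃ₗ[ℚ] W) = (δ : W ≃ₗ[ℚ] W) * ((δ⁻¹ * γ : Gr hW.2.2.1) : W ≃ₗ[ℚ] W) := by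
            rw [← Subgroup.coe_mul, mul_inv_cancel_left]
          rw [h5]
          rfl) y
      rw [h4, mul_inv_rev, inv_inv, Equiv.Perm.mul_apply]
    rw [h2, h3]
  have hzero : ∀ l, Ψ l = 0 := by
    intro l
    by_contra hne
    have h1 := schur hW (Ψ l) (heqv l) hne
    have h2 : finrank ℚ W ≤ finrank ℚ V := by
      have h3 : Function.Injective ((Ψ l).codRestrict V (hmem l)) := by
        intro a b hab
        exact h1 (congrArg Subtype.val hab)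
      exact LinearMap.finrank_le_finrank_of_injective h3
    omega
  set b := Module.finBasis ℚ W with hb
  have h1 : ∀ γ : Gr hW.2.2.1, LinearMap.trace ℚ W (TrOp_c γ⁻¹) * ((f ((P γ)⁻¹ x) : ℤ) : ℚ) =
      ∑ i, b.coord i (TrOp_c γ⁻¹ (b i)) * ((f ((P γ)⁻¹ x) : ℤ) : ℚ) := by
    intro γ
    rw [SmallVec_tr b, Finset.sum_mul]
  rw [Finset.sum_congr rfl fun γ _ => h1 γ, Finset.sum_comm]
  refine Finset.sum_eq_zero fun i _ => ?_
  rw [← hΨa, hzero]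
  rfl

theorem small_vec (hS : Sys c 𝒢 g) (hW : Smp c 𝒢 W) (q : ℕ) [Fact q.Prime] (B : ℕ)
    (hB : 2 * (Nat.card (Gm 𝒢 W) * finrank ℚ W ^ 2 * B) < q)
    (Y : Submodule (ZMod q) (X → ZMod q)) (hY : Y ∈ Ys 𝒢 W q) (f : X → ℤ) (hf : ∀ x, |f x| ≤ B)
    (h0 : f ≠ 0) (hfY : (fun x => (f x : ZMod q)) ∈ Y) :
    (∀ π, Triv 𝒢 W π → ∀ x, f (π x) = f x) ∧
    finrank ℚ W ≤ finrank ℚ (Submodule.span ℚ
      (Set.range (fun π : 𝒢 => fun x => ((f ((π : Equiv.Perm X) x) : ℤ) : ℚ)))) := by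
  classical
  have hst := hW.2.2.1
  have hG := gm_pos hst
  have he := endo_pos hW
  have hd : 0 < finrank ℚ W := by
    obtain ⟨k, hk⟩ := endo_dvd_dim hW
    haveI := Free_nontrivial hW
    exact finrank_pos
  have hed : finrank ℚ (Endo 𝒢 W) ≤ finrank ℚ W := Nat.le_of_dvd hd (endo_dvd_dim hW)
  set G := Nat.card (Gm 𝒢 W) with hGdef
  set d := finrank ℚ W with hddef
  set e := finrank ℚ (Endo 𝒢 W) with hedef
  have hinv : ∀ π, Triv 𝒢 W π → ∀ x, f (π x) = f x := by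
    intro π hπ x
    apply SmallVec_int q _ _ (ys_inv q Y hY _ hfY π hπ x)
    have h1 : |f (π x) - f x| ≤ 2 * (B : ℤ) := by
      have h2 := abs_sub (f (π x)) (f x)
      have h3 := hf (π x)
      have h4 := hf x
      linarith
    have h5 : 2 * B < q := by
      refine lt_of_le_of_lt ?_ hB
      refine Nat.mul_le_mul_left _ ?_
      calc B = 1 * 1 * B := by ring
        _ ≤ G * d ^ 2 * B := by
          refine Nat.mul_le_mul_right _ (Nat.mul_le_mul hG (Nat.one_le_pow _ _ hd))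
    have h6 : 2 * (B : ℤ) < q := by exact_mod_cast h5
    linarith
  refine ⟨hinv, ?_⟩
  by_contra hlt
  rw [not_le] at hlt
  haveI hfin : Finite (Gr hst) := by
    apply Nat.finite_of_card_ne_zero
    rw [card_Gr hst]
    exact hG.ne'
  letI : Fintype (Gr hst) := Fintype.ofFinite _
  have hch : ∀ γ : Gr hst, ∃ π : Equiv.Perm X, π ∈ 𝒢 ∧ ∀ (w : W) (x : X),
      ((γ : W ≃ₗ[ℚ] W) w : X → ℚ) x = (w : X → ℚ) (π⁻¹ x) := fun γ => (mem_Gr hst _).1 γ.2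
  choose P hP hPw using hch
  have hm : ∀ γ : Gr hst, ∃ m : ℤ, LinearMap.trace ℚ W (TrOp_c γ⁻¹) = m ∧
      |m| ≤ finrank ℚ W := fun γ => tr_int_bd hst _ (γ⁻¹).2
  choose m hm1 hm2 using hm
  have hb := SmallVec_b hW f hinv P hP hPw hlt
  obtain ⟨φ, hφ0, hφ, hYφ⟩ := hY
  rw [hYφ] at hfY
  obtain ⟨w', ⟨u, hu⟩, hw'⟩ := hfY
  have hcardG : Fintype.card (Gr hst) = G := by
    rw [← Nat.card_eq_fintype_card, card_Gr hst]
  have key : ∀ x, (d : ℤ) * ∑ γ : Gr hst, m γ * f ((P γ)⁻¹ x) = (G : ℤ) * e * f x := by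
    intro x
    -- the identity for `w'`
    have h1 : (d : ℤ) * ∑ γ : Gr hst, m γ * w' ((P γ)⁻¹ x) = (G : ℤ) * e * w' x := by
      have h2 := congrArg (fun v => φ v x) (tr_op hW u)
      simp only [map_smul, map_sum, Pi.smul_apply, Finset.sum_apply, smul_eq_mul] at h2
      have h3 : ∀ γ : Gr hst, LinearMap.trace ℚ W
          (((γ : W ≃ₗ[ℚ] W)⁻¹ : W ≃ₗ[ℚ] W) : W →ₗ[ℚ] W) * φ ((γ : W ≃ₗ[ℚ] W) u) x =
          ((m γ * w' ((P γ)⁻¹ x) : ℤ) : ℚ) := by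
        intro γ
        have h4 : LinearMap.trace ℚ W (((γ : W ≃ₗ[ℚ] W)⁻¹ : W ≃ₗ[ℚ] W) : W →ₗ[ℚ] W) = m γ :=
          hm1 γ
        have h5 := hφ (P γ)⁻¹ (𝒢.inv_mem (hP γ)) u ((γ : W ≃ₗ[ℚ] W) u) (fun y => hPw γ u y) x
        have h6 : φ u ((P γ)⁻¹ x) = (w' ((P γ)⁻¹ x) : ℚ) := congrFun hu _
        rw [h4, h5, h6]
        push_cast
        ring
      rw [Finset.sum_congr rfl fun γ _ => h3 γ] at h2
      have h7 : φ u x = (w' x : ℚ) := congrFun hu _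
      rw [h7] at h2
      exact_mod_cast h2
    apply SmallVec_int q
    · have h2 : ∀ y, ((f y : ℤ) : ZMod q) = ((w' y : ℤ) : ZMod q) := fun y => congrFun hw' y
      have h3 := congrArg (fun z : ℤ => (z : ZMod q)) h1
      push_cast at h3 ⊢
      simp only [h2]
      exact h3
    · have hBn : (0 : ℤ) ≤ B := Int.natCast_nonneg B
      have h2 : |(d : ℤ) * ∑ γ : Gr hst, m γ * f ((P γ)⁻¹ x)| ≤ d * (G * (d * B)) := by
        rw [abs_mul, Nat.abs_cast]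
        refine mul_le_mul_of_nonneg_left ?_ (Int.natCast_nonneg d)
        refine (Finset.abs_sum_le_sum_abs _ _).trans ?_
        refine (Finset.sum_le_card_nsmul _ _ ((d : ℤ) * B) fun γ _ => ?_).trans ?_
        · rw [abs_mul]
          exact mul_le_mul (hm2 γ) (hf _) (abs_nonneg _) (Int.natCast_nonneg d)
        · rw [Finset.card_univ, hcardG, nsmul_eq_mul]
      have h3 : |(G : ℤ) * e * f x| ≤ G * d * B := by
        rw [abs_mul, abs_mul, Nat.abs_cast, Nat.abs_cast]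
        refine mul_le_mul ?_ (hf x) (abs_nonneg _) (by positivity)
        refine mul_le_mul_of_nonneg_left ?_ (Int.natCast_nonneg G)
        exact_mod_cast hed
      have h4 : 2 * ((G : ℤ) * d ^ 2 * B) < q := by exact_mod_cast hB
      have h5 : (G : ℤ) * d * B ≤ G * d ^ 2 * B := by
        have h6 : G * d * B ≤ G * d ^ 2 * B := by
          refine Nat.mul_le_mul_right _ (Nat.mul_le_mul_left _ ?_)
          calc d = d * 1 := (mul_one d).symm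
            _ ≤ d * d := Nat.mul_le_mul_left _ hd
            _ = d ^ 2 := (sq d).symm
        exact_mod_cast h6
      have h7 := abs_sub ((d : ℤ) * ∑ γ : Gr hst, m γ * f ((P γ)⁻¹ x)) ((G : ℤ) * e * f x)
      have h8 : (d : ℤ) * (G * (d * B)) = G * d ^ 2 * B := by ring
      linarith
  apply h0
  funext x
  have h1 := key x
  have h2 := hb x
  have h3 : ∑ γ : Gr hst, m γ * f ((P γ)⁻¹ x) = 0 := by
    have h4 : ((∑ γ : Gr hst, m γ * f ((P γ)⁻¹ x) : ℤ) : ℚ) = 0 := by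
      rw [← h2]
      push_cast
      refine Finset.sum_congr rfl fun γ _ => ?_
      rw [hm1]
    exact_mod_cast h4
  rw [h3, mul_zero] at h1
  have h5 : (G : ℤ) * e ≠ 0 := by
    have : 0 < G * e := Nat.mul_pos hG he
    exact_mod_cast this.ne'
  exact (mul_eq_zero.1 h1.symm).resolve_left h5

end Pool.Agent.H52.CS
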