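import Mathlib
import Pool.Agent.H52.AD.Base
import Pool.Agent.H52.CS.Defs
import Pool.Agent.H52.CS.YsCnt
import Pool.Agent.H52.CS.RankMod
import Pool.Agent.H52.CS.SmallVec

/-!
# The number of the reductions with a small vector (module H52 CS SmallCnt)

`W` simple, `d = dim W`, `2 |Gm| d² B < q`, `d! B^d < q`: at most `(2 B + 1)^|Gm|` of the `Y ∈ Ys 𝒢 W q` contain
a nonzero vector `f` with `|(f x).valMinAbs| ≤ B` for all `x`.

PROOF.  For such a `Y` choose a vector `f_Y` and let `h_Y x = (f_Y x).valMinAbs : ℤ`, so that `|h_Y x| ≤ B`,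
`h_Y ≠ 0` and the reduction of `h_Y` is `f_Y ∈ Y` (`ZMod.coe_valMinAbs`).  By `small_vec`, `h_Y` is invariant
under the elements acting trivially on `W`, and the translates of `h_Y` span a rational space of dimension at
least `d`; by `rank_mod` (with `ι = 𝒢`) the translates of `f_Y` span a space over `ZMod q` of dimension at least
`d`; it is contained in `Y` (`Y` is stable: `ys_prop`), and `dim Y = d`, so it is `Y`.  So `Y ↦ h_Y` is injective.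
Fix a point `x₀` and for every `T ∈ Gm 𝒢 W` an element `π_T ∈ 𝒢` with `T w = w ∘ π_T`.
An invariant function `h` is determined by the numbers `h (π_T⁻¹ x₀)`: for `x ∈ X` there is `π ∈ 𝒢` with
`π x = x₀`; let `T` be the operator of `π`; then `σ = π_T⁻¹ π` acts trivially on `W`, and
`h x = h (σ x) = h (π_T⁻¹ x₀)`.  So `Y ↦ (T ↦ h_Y (π_T⁻¹ x₀))` is an injective map to the functions from
`Gm 𝒢 W` to the integers in `[-B, B]`, which are `(2 B + 1)^|Gm|` in number (`gm_finite`).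
-/

namespace Pool.Agent.H52.CS

open Module Pool.Agent.H52.AD

variable {X : Type} [Fintype X] {c : Equiv.Perm X} {𝒢 : Subgroup (Equiv.Perm X)} {g : ℕ}
  {W : Submodule ℚ (X → ℚ)}

theorem SmallCnt_span (hS : Sys c 𝒢 g) (hW : Smp c 𝒢 W) (q : ℕ) [Fact q.Prime] (B : ℕ)
    (hB : 2 * (Nat.card (Gm 𝒢 W) * finrank ℚ W ^ 2 * B) < q)
    (hB2 : (finrank ℚ W).factorial * B ^ finrank ℚ W < q)
    (Y : Submodule (ZMod q) (X → ZMod q)) (hY : Y ∈ Ys 𝒢 W q) (f : X → ℤ) (hf : ∀ x, |f x| ≤ (B : ℤ))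
    (h0 : f ≠ 0) (hfY : (fun x => (f x : ZMod q)) ∈ Y) :
    Submodule.span (ZMod q)
      (Set.range (fun π : 𝒢 => fun x => ((f ((π : Equiv.Perm X) x) : ℤ) : ZMod q))) = Y := by
  have hsv := (small_vec hS hW q B hB Y hY f hf h0 hfY).2
  have hr := rank_mod (fun (π : 𝒢) x => f ((π : Equiv.Perm X) x)) B (finrank ℚ W) q
    (fun i x => hf _) hsv hB2
  obtain ⟨_, hYs, hYd⟩ := ys_prop hS hW q Y hY
  apply Submodule.eq_of_le_of_finrank_le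
  · rw [Submodule.span_le]
    rintro _ ⟨π, rfl⟩
    exact hYs π π.2 _ hfY
  · rw [hYd]
    exact hr

/-- An invariant function is determined by the values at the points `π_T⁻¹ x₀`. -/
theorem SmallCnt_det (hS : Sys c 𝒢 g) (hW : Smp c 𝒢 W) (x₀ : X) (F : Gm 𝒢 W → Equiv.Perm X)
    (hF : ∀ T : Gm 𝒢 W, F T ∈ 𝒢 ∧ ∀ f : W, ∀ x, ((T : W →ₗ[ℚ] W) f : X → ℚ) x = (f : X → ℚ) (F T x))
    (h h' : X → ℤ) (hh : ∀ π, Triv 𝒢 W π → ∀ x, h (π x) = h x)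
    (hh' : ∀ π, Triv 𝒢 W π → ∀ x, h' (π x) = h' x)
    (he : ∀ T : Gm 𝒢 W, h ((F T)⁻¹ x₀) = h' ((F T)⁻¹ x₀)) : h = h' := by
  funext x
  obtain ⟨π, hπ, hx⟩ := hS.trans x x₀
  obtain ⟨φ, hφ⟩ := Base_op hW.2.2.1 π hπ
  have hT := hF ⟨φ, π, hπ, hφ⟩
  have htr : Triv 𝒢 W ((F ⟨φ, π, hπ, hφ⟩)⁻¹ * π) := by
    refine ⟨𝒢.mul_mem (𝒢.inv_mem hT.1) hπ, ?_⟩
    intro f hf x
    have h3 : ∀ w : W, ∀ y, (w : X → ℚ) (F ⟨φ, π, hπ, hφ⟩ y) = (w : X → ℚ) (π y) := by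
      intro w y
      rw [← hT.2 w y, ← hφ w y]
    -- use the function `f ∘ F⁻¹ ∈ W`
    have hst : (fun y => f ((F ⟨φ, π, hπ, hφ⟩)⁻¹ y)) ∈ W :=
      hW.2.2.1 _ (𝒢.inv_mem hT.1) f hf
    have h4 := h3 ⟨_, hst⟩ x
    simp only [Equiv.Perm.mul_apply]
    have hcan : (F ⟨φ, π, hπ, hφ⟩)⁻¹ (F ⟨φ, π, hπ, hφ⟩ x) = x := by simp
    simp only [hcan] at h4
    exact h4.symm
  have e1 := hh _ htr x
  have e2 := hh' _ htr x
  rw [Equiv.Perm.mul_apply, hx] at e1 e2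
  rw [← e1, ← e2]
  exact he _

theorem small_cnt (hS : Sys c 𝒢 g) (hW : Smp c 𝒢 W) (q : ℕ) [Fact q.Prime] (B : ℕ)
    (hB : 2 * (Nat.card (Gm 𝒢 W) * finrank ℚ W ^ 2 * B) < q)
    (hB2 : (finrank ℚ W).factorial * B ^ finrank ℚ W < q) :
    Nat.card {Y : Submodule (ZMod q) (X → ZMod q) // Y ∈ Ys 𝒢 W q ∧
      ∃ f ∈ Y, f ≠ 0 ∧ ∀ x, |(f x).valMinAbs| ≤ (B : ℤ)} ≤ (2 * B + 1) ^ Nat.card (Gm 𝒢 W) := by
  classical
  have hq0 : NeZero q := ⟨(Fact.out : q.Prime).ne_zero⟩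
  have hfin : Finite (Gm 𝒢 W) := (gm_finite hW.2.2.1).to_subtype
  have hX : Nonempty X := by
    rw [← Fintype.card_pos_iff, hS.card]
    have := hS.pos
    omega
  obtain ⟨x₀⟩ := hX
  have hch : ∀ φ : Gm 𝒢 W, ∃ π : Equiv.Perm X, π ∈ 𝒢 ∧
      ∀ f : W, ∀ x, ((φ : W →ₗ[ℚ] W) f : X → ℚ) x = (f : X → ℚ) (π x) := fun φ => φ.2
  choose F hF using hch
  have hch2 : ∀ Y : {Y : Submodule (ZMod q) (X → ZMod q) // Y ∈ Ys 𝒢 W q ∧
      ∃ f ∈ Y, f ≠ 0 ∧ ∀ x, |(f x).valMinAbs| ≤ (B : ℤ)}, ∃ h : X → ℤ, (∀ x, |h x| ≤ (B : ℤ)) ∧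
      h ≠ 0 ∧ (fun x => (h x : ZMod q)) ∈ Y.1 := by
    rintro ⟨Y, hY, f, hfY, hf0, hfB⟩
    refine ⟨fun x => (f x).valMinAbs, hfB, ?_, ?_⟩
    · intro hz
      apply hf0
      funext x
      have := congrFun hz x
      exact (ZMod.valMinAbs_eq_zero _).mp this
    · simpa only [ZMod.coe_valMinAbs] using hfY
  choose H hHB hH0 hHY using hch2
  have hinj : Function.Injective (fun Y : {Y : Submodule (ZMod q) (X → ZMod q) // Y ∈ Ys 𝒢 W q ∧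
      ∃ f ∈ Y, f ≠ 0 ∧ ∀ x, |(f x).valMinAbs| ≤ (B : ℤ)} => fun T : Gm 𝒢 W =>
      (⟨H Y ((F T)⁻¹ x₀), by
        rw [Finset.mem_Icc]
        exact abs_le.mp (hHB Y _)⟩ : Finset.Icc (-(B : ℤ)) (B : ℤ))) := by
    intro Y Y' hYY
    have hH : H Y = H Y' := by
      apply SmallCnt_det hS hW x₀ F hF
      · exact (small_vec hS hW q B hB Y.1 Y.2.1 (H Y) (hHB Y) (hH0 Y) (hHY Y)).1
      · exact (small_vec hS hW q B hB Y'.1 Y'.2.1 (H Y') (hHB Y') (hH0 Y') (hHY Y')).1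
      · intro T
        have := congrArg Subtype.val (congrFun hYY T)
        exact this
    apply Subtype.ext
    rw [← SmallCnt_span hS hW q B hB hB2 Y.1 Y.2.1 (H Y) (hHB Y) (hH0 Y) (hHY Y),
      ← SmallCnt_span hS hW q B hB hB2 Y'.1 Y'.2.1 (H Y') (hHB Y') (hH0 Y') (hHY Y'), hH]
  refine (Nat.card_le_card_of_injective _ hinj).trans (le_of_eq ?_)
  rw [Nat.card_fun, Nat.card_eq_fintype_card, Fintype.card_coe, Int.card_Icc]
  congr 1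
  omega

end Pool.Agent.H52.CS
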