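import Mathlib
import Pool.Agent.H52.AD.Mink
import Pool.Agent.H52.AD.Dims
import Pool.Agent.H52.AD.CountR
import Pool.Agent.H52.CS.Defs
import Pool.Agent.H52.CS.YsCnt
import Pool.Agent.H52.CS.GoodCnt
import Pool.Agent.H52.CS.SmallCnt
import Pool.Agent.H52.CS.SfBig
import Pool.Agent.H52.CS.BndMNum

/-!
# Simple spaces of bounded dimension (module H52 CS BndM)

`W` simple, `3 ≤ d = dim W ≤ Y`, `ν + 2 ≤ e + d`: the number of the failing types is at most `2^g ε / g`, for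
large `g`.

PROOF.  If `Y < 3` there is nothing to prove.  Take `g₀`, `q`, `B` from `bndm_num Y ε`; `h = |Gm 𝒢 W| ≤ 3^(d²) ≤
3^(Y²)` (`minkowski`, `d ≤ Y`), so `h < q` and `q` does not divide `h` (`gm_pos`); `q` is odd (`q > 3`).  By `ys_cover`,
`|Fail|` is at most the sum of `|Pr c Z|` over `Z ∈ Ys 𝒢 W q` (finite).
Good `Z` (no nonzero vector `f` with `|(f x).valMinAbs| ≤ B` for all `x`): by `good_cnt` with `k = g / 3^(Y²)`
(`k h ≤ g`), `|Pr c Z| q^d ≤ 2^g (1 + q^d exp(..)) ≤ 2^g 2` (`q^d ≤ q^Y`).  Their number is at most `|Ys|`, and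
`|Ys| (q-1)^e ≤ q^ν` (`ys_card`, take any point `x₀`), and `q^e ≤ 2 (q-1)^e` since `e ≤ d ≤ Y ≤ q/2` (Bernoulli:
`(1 - 1/q)^e ≥ 1 - e/q ≥ 1/2`; `e ≤ d`: `endo_dvd_dim`).  So the contribution is at most
`2^g 4 q^ν/(q^e q^d) ≤ 2^g 4/q² ≤ 2^g ε/(2 g)`.
The other `Z`: at most `(2B+1)^h ≤ (2B+1)^(3^(Y²))` in number (`small_cnt`; `B^d ≤ (B+1)^Y`, `d! ≤ Y!`), and for
each of them `|Pr c Z| ≤ 2^g Sf(q, r)^d`, `r = g / d` (`count_r`, `ys_prop`), `1 ≤ r ≤ g ≤ q²`,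
`r ≥ g/(2 d) ≥ g/(2 Y)` (as `2 d ≤ g`), so `Sf(q, r) ≤ 6/√r ≤ 6 √(2Y)/√g ≤ 1` (`sf_big`), and
`Sf(q, r)^d ≤ (6 √(2Y)/√g)^3` as `d ≥ 3`.  The contribution is at most `2^g ε/(2 g)` by the last inequality of
`bndm_num`.
-/

namespace Pool.Agent.H52.CS

open Module Pool.Agent.H52.AD

open Classical in
private theorem bndm_cover {X : Type} [Fintype X] {c : Equiv.Perm X}
    {𝒢 : Subgroup (Equiv.Perm X)} {g : ℕ} {W : Submodule ℚ (X → ℚ)}
    (hS : Sys c 𝒢 g) (hW : Smp c 𝒢 W) (q : ℕ) [Fact q.Prime]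
    (p : Submodule (ZMod q) (X → ZMod q) → Prop) (a b : ℝ)
    (ha : ∀ Z ∈ Ys 𝒢 W q, ¬ p Z → (Nat.card (Pr c Z) : ℝ) ≤ a)
    (hb : ∀ Z ∈ Ys 𝒢 W q, p Z → (Nat.card (Pr c Z) : ℝ) ≤ b) (_ha0 : 0 ≤ a) (_hb0 : 0 ≤ b) :
    (Nat.card (Fail c 𝒢 W) : ℝ) ≤ Nat.card (Ys 𝒢 W q) * a +
      Nat.card {Z : Submodule (ZMod q) (X → ZMod q) // Z ∈ Ys 𝒢 W q ∧ p Z} * b := by
  have hfin : Finite (Submodule (ZMod q) (X → ZMod q)) := inferInstance
  let _i : Fintype (Submodule (ZMod q) (X → ZMod q)) := Fintype.ofFinite _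
  obtain ⟨T, hT⟩ : ∃ T : Finset (Submodule (ZMod q) (X → ZMod q)),
      T = Finset.univ.filter (fun Z => Z ∈ Ys 𝒢 W q) := ⟨_, rfl⟩
  have hTm : ∀ Z, Z ∈ T ↔ Z ∈ Ys 𝒢 W q := by
    intro Z
    rw [hT, Finset.mem_filter]
    simp
  obtain ⟨P, hP⟩ : ∃ P : Submodule (ZMod q) (X → ZMod q) → Finset (Set X),
      P = fun Z => Finset.univ.filter (fun Φ => Φ ∈ Pr c Z) := ⟨_, rfl⟩
  have hPc : ∀ Z, Nat.card (Pr c Z) = (P Z).card := by
    intro Z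
    rw [hP, ← Nat.card_eq_finsetCard]
    apply Nat.card_congr
    apply Equiv.subtypeEquivRight
    intro Φ
    rw [Finset.mem_filter]
    simp
  have hF : Nat.card (Fail c 𝒢 W) ≤ ∑ Z ∈ T, (P Z).card := by
    refine le_trans ?_ (Finset.card_biUnion_le (s := T) (t := P))
    rw [← Nat.card_eq_finsetCard]
    apply Nat.card_le_card_of_injective (fun Φ : Fail c 𝒢 W =>
      (⟨Φ.1, by
        obtain ⟨Z, hZ, hΦ⟩ := ys_cover hS hW q Φ.1 Φ.2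
        rw [Finset.mem_biUnion]
        refine ⟨Z, (hTm Z).2 hZ, ?_⟩
        rw [hP, Finset.mem_filter]
        exact ⟨Finset.mem_univ _, hΦ⟩⟩ : (T.biUnion P : Finset (Set X))))
    intro Φ Ψ h
    exact Subtype.ext (congrArg (fun z : (T.biUnion P : Finset (Set X)) => z.1) h)
  have hF' : (Nat.card (Fail c 𝒢 W) : ℝ) ≤ ∑ Z ∈ T, ((P Z).card : ℝ) := by exact_mod_cast hF
  refine hF'.trans ?_
  have h1 : ∀ Z ∈ T, ((P Z).card : ℝ) ≤ a + (if p Z then b else 0) := by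
    intro Z hZ
    rw [← hPc]
    by_cases h : p Z
    · rw [if_pos h]
      have := hb Z ((hTm Z).1 hZ) h
      linarith
    · rw [if_neg h]
      have := ha Z ((hTm Z).1 hZ) h
      linarith
  refine (Finset.sum_le_sum h1).trans ?_
  rw [Finset.sum_add_distrib, Finset.sum_const, nsmul_eq_mul, ← Finset.sum_filter,
    Finset.sum_const, nsmul_eq_mul]
  have h2 : T.card = Nat.card (Ys 𝒢 W q) := by
    rw [← Nat.card_eq_finsetCard]
    apply Nat.card_congr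
    apply Equiv.subtypeEquivRight
    intro Z
    exact hTm Z
  have h3 : (T.filter p).card =
      Nat.card {Z : Submodule (ZMod q) (X → ZMod q) // Z ∈ Ys 𝒢 W q ∧ p Z} := by
    rw [← Nat.card_eq_finsetCard]
    apply Nat.card_congr
    apply Equiv.subtypeEquivRight
    intro Z
    rw [Finset.mem_filter, hTm]
  rw [h2, h3]

private theorem bndm_bern (q e : ℕ) (hq : 1 ≤ q) (he : 2 * e ≤ q) :
    (q : ℝ) ^ e ≤ 2 * ((q : ℝ) - 1) ^ e := by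
  have hq0 : (0 : ℝ) < q := by exact_mod_cast hq
  have hq1 : (1 : ℝ) ≤ q := by exact_mod_cast hq
  have he' : 2 * (e : ℝ) ≤ q := by exact_mod_cast he
  have h1 := one_add_mul_le_pow (a := -(1 / (q : ℝ))) (by
    have : 1 / (q : ℝ) ≤ 1 := by
      rw [div_le_one hq0]
      exact hq1
    linarith) e
  have h2 : (1 : ℝ) / 2 ≤ 1 + e * (-(1 / (q : ℝ))) := by
    have : (e : ℝ) * (1 / (q : ℝ)) ≤ 1 / 2 := by
      rw [mul_one_div, div_le_div_iff₀ hq0 (by norm_num)]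
      linarith
    linarith
  have h3 : ((q : ℝ) - 1) ^ e = (q : ℝ) ^ e * (1 + -(1 / (q : ℝ))) ^ e := by
    rw [← mul_pow]
    congr 1
    field_simp
    ring
  rw [h3]
  have h4 : (0 : ℝ) < (q : ℝ) ^ e := by positivity
  nlinarith [h2.trans h1]

theorem bnd_m (Y : ℕ) (ε : ℝ) (hε : 0 < ε) : ∃ g₀ : ℕ, ∀ {X : Type} [Fintype X]
    {c : Equiv.Perm X} {𝒢 : Subgroup (Equiv.Perm X)} {g : ℕ} {W : Submodule ℚ (X → ℚ)},
    Sys c 𝒢 g → Smp c 𝒢 W → ∀ x₀ : X, g₀ ≤ g → 3 ≤ finrank ℚ W → finrank ℚ W ≤ Y →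
    finrank ℚ (Fix 𝒢 x₀ W) + 2 ≤ finrank ℚ (Endo 𝒢 W) + finrank ℚ W →
    (Nat.card (Fail c 𝒢 W) : ℝ) ≤ 2 ^ g * (ε / g) := by
  classical
  obtain ⟨g₀, hg₀, hnum⟩ := bndm_num Y ε hε
  refine ⟨g₀, ?_⟩
  intro X _ c 𝒢 g W hS hW x₀ hg hd3 hdY hνe
  obtain ⟨q, B, hq, n1, n2, n3, n4, n5, n6, n7, n8, n9, n10⟩ := hnum g hg
  have : Fact q.Prime := ⟨hq⟩
  have : NeZero q := ⟨hq.ne_zero⟩
  have hst : Stb 𝒢 W := hW.2.2.1
  have hgp : 1 ≤ g := hS.pos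
  have hg0 : (0 : ℝ) < g := by exact_mod_cast hgp
  have hh := minkowski (𝒢 := 𝒢) (W := W) hst
  have hhp := gm_pos hst
  have hed := endo_dvd_dim hW
  have hYs := fun hp => ys_card hS hW x₀ q hp
  have hsm := small_cnt hS hW q B
  have hgood := fun Z hZ k hk hbig => good_cnt hS hW q (hq.odd_of_ne_two (by
    have : 3 ^ (Y ^ 2) ≥ 1 := Nat.one_le_pow _ _ (by norm_num)
    have hY3 : 3 ≤ Y := hd3.trans hdY
    have h33 : 3 ^ 1 ≤ 3 ^ (Y ^ 2) := Nat.pow_le_pow_right (by norm_num) (by nlinarith)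
    omega)) Z hZ k B hk hbig
  have hY3 : 3 ≤ Y := hd3.trans hdY
  have hodd : Odd q := hq.odd_of_ne_two (by
    have h33 : 3 ^ 1 ≤ 3 ^ (Y ^ 2) := Nat.pow_le_pow_right (by norm_num) (by nlinarith)
    omega)
  have hprop := ys_prop hS hW q
  obtain ⟨h, hhe⟩ : ∃ h, h = Nat.card (Gm 𝒢 W) := ⟨_, rfl⟩
  obtain ⟨d, hd⟩ : ∃ d, d = finrank ℚ W := ⟨_, rfl⟩
  obtain ⟨e, he⟩ : ∃ e, e = finrank ℚ (Endo 𝒢 W) := ⟨_, rfl⟩
  obtain ⟨ν, hν⟩ : ∃ ν, ν = finrank ℚ (Fix 𝒢 x₀ W) := ⟨_, rfl⟩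
  rw [← hhe] at hh hhp hYs hsm hgood
  rw [← hd] at hd3 hdY hνe hh hed hsm hgood hprop
  rw [← he] at hνe hed hYs
  rw [← hν] at hνe hYs
  have hhY : h ≤ 3 ^ (Y ^ 2) :=
    hh.trans (Nat.pow_le_pow_right (by norm_num) (Nat.pow_le_pow_left hdY 2))
  have hp : ¬ q ∣ h := Nat.not_dvd_of_pos_of_lt hhp (lt_of_le_of_lt hhY n1)
  have hYs' := hYs hp
  have hsm' := hsm (by
    refine lt_of_le_of_lt ?_ n2
    have : h * d ^ 2 * B ≤ 3 ^ (Y ^ 2) * Y ^ 2 * B :=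
      Nat.mul_le_mul_right _ (Nat.mul_le_mul hhY (Nat.pow_le_pow_left hdY 2))
    omega) (by
    refine lt_of_le_of_lt ?_ n3
    apply Nat.mul_le_mul (Nat.factorial_le hdY)
    exact (Nat.pow_le_pow_left (Nat.le_succ B) d).trans
      (Nat.pow_le_pow_right (Nat.succ_pos B) hdY))
  have hq1 : 1 ≤ q := hq.one_le
  have hq0 : (0 : ℝ) < q := by exact_mod_cast hq1
  have hqr1 : (1 : ℝ) ≤ q := by exact_mod_cast hq1
  have h2g : (0 : ℝ) < 2 ^ g := by positivity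
  obtain ⟨s, hs⟩ : ∃ s : ℝ, s = 6 * Real.sqrt (2 * Y) / Real.sqrt g := ⟨_, rfl⟩
  rw [← hs] at n9 n10
  have hs0 : 0 ≤ s := by
    rw [hs]
    positivity
  have hcov := bndm_cover hS hW q
    (fun Z => ∃ f ∈ Z, f ≠ 0 ∧ ∀ x, |(f x).valMinAbs| ≤ (B : ℤ))
    (2 ^ g * (2 / (q : ℝ) ^ d)) (2 ^ g * s ^ 3) ?_ ?_ (by positivity) (by positivity)
  · refine hcov.trans ?_
    have hA : (Nat.card (Ys 𝒢 W q) : ℝ) * (2 ^ g * (2 / (q : ℝ) ^ d)) ≤
        2 ^ g * (ε / (2 * g)) := by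
      have h1 : (Nat.card (Ys 𝒢 W q) : ℝ) * ((q : ℝ) - 1) ^ e ≤ (q : ℝ) ^ ν := by
        have h2 : ((Nat.card (Ys 𝒢 W q) * (q - 1) ^ e : ℕ) : ℝ) ≤ ((q ^ ν : ℕ) : ℝ) := by
          exact_mod_cast hYs'
        rw [Nat.cast_mul, Nat.cast_pow, Nat.cast_pow, Nat.cast_sub hq1, Nat.cast_one] at h2
        exact h2
      have hedle : e ≤ d := Nat.le_of_dvd (by omega) hed
      have h2 := bndm_bern q e hq1 (by omega)
      have h3 : (Nat.card (Ys 𝒢 W q) : ℝ) * (q : ℝ) ^ e ≤ 2 * (q : ℝ) ^ ν := by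
        have hc0 : (0 : ℝ) ≤ Nat.card (Ys 𝒢 W q) := Nat.cast_nonneg _
        calc (Nat.card (Ys 𝒢 W q) : ℝ) * (q : ℝ) ^ e
            ≤ Nat.card (Ys 𝒢 W q) * (2 * ((q : ℝ) - 1) ^ e) :=
              mul_le_mul_of_nonneg_left h2 hc0
          _ = 2 * (Nat.card (Ys 𝒢 W q) * ((q : ℝ) - 1) ^ e) := by ring
          _ ≤ 2 * (q : ℝ) ^ ν := by linarith
      have h4 : (q : ℝ) ^ (ν + 2) ≤ (q : ℝ) ^ (e + d) :=
        pow_le_pow_right₀ hqr1 hνe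
      have h5 : (Nat.card (Ys 𝒢 W q) : ℝ) * (q : ℝ) ^ 2 ≤ 2 * (q : ℝ) ^ d := by
        have hqe : (0 : ℝ) < (q : ℝ) ^ e := by positivity
        have h6 : ((Nat.card (Ys 𝒢 W q) : ℝ) * (q : ℝ) ^ 2) * (q : ℝ) ^ e ≤
            (2 * (q : ℝ) ^ d) * (q : ℝ) ^ e := by
          calc ((Nat.card (Ys 𝒢 W q) : ℝ) * (q : ℝ) ^ 2) * (q : ℝ) ^ e
              = ((Nat.card (Ys 𝒢 W q) : ℝ) * (q : ℝ) ^ e) * (q : ℝ) ^ 2 := by ring
            _ ≤ (2 * (q : ℝ) ^ ν) * (q : ℝ) ^ 2 :=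
                mul_le_mul_of_nonneg_right h3 (by positivity)
            _ = 2 * (q : ℝ) ^ (ν + 2) := by ring
            _ ≤ 2 * (q : ℝ) ^ (e + d) := by linarith
            _ = (2 * (q : ℝ) ^ d) * (q : ℝ) ^ e := by ring
        exact le_of_mul_le_mul_right h6 hqe
      have h7 : (Nat.card (Ys 𝒢 W q) : ℝ) * (2 / (q : ℝ) ^ d) ≤ 4 / (q : ℝ) ^ 2 := by
        rw [mul_div_assoc', div_le_div_iff₀ (by positivity) (by positivity)]
        calc (Nat.card (Ys 𝒢 W q) : ℝ) * 2 * (q : ℝ) ^ 2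
            = 2 * ((Nat.card (Ys 𝒢 W q) : ℝ) * (q : ℝ) ^ 2) := by ring
          _ ≤ 2 * (2 * (q : ℝ) ^ d) := by linarith
          _ = 4 * (q : ℝ) ^ d := by ring
      have h8 : 4 / (q : ℝ) ^ 2 ≤ ε / (2 * g) := by
        rw [div_le_div_iff₀ (by positivity) (by positivity)]
        linarith
      calc (Nat.card (Ys 𝒢 W q) : ℝ) * (2 ^ g * (2 / (q : ℝ) ^ d))
          = 2 ^ g * ((Nat.card (Ys 𝒢 W q) : ℝ) * (2 / (q : ℝ) ^ d)) := by ring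
        _ ≤ 2 ^ g * (ε / (2 * g)) := mul_le_mul_of_nonneg_left (h7.trans h8) h2g.le
    have hB : (Nat.card {Z : Submodule (ZMod q) (X → ZMod q) // Z ∈ Ys 𝒢 W q ∧
        ∃ f ∈ Z, f ≠ 0 ∧ ∀ x, |(f x).valMinAbs| ≤ (B : ℤ)} : ℝ) * (2 ^ g * s ^ 3) ≤
        2 ^ g * (ε / (2 * g)) := by
      have h1 : (Nat.card {Z : Submodule (ZMod q) (X → ZMod q) // Z ∈ Ys 𝒢 W q ∧
          ∃ f ∈ Z, f ≠ 0 ∧ ∀ x, |(f x).valMinAbs| ≤ (B : ℤ)} : ℝ) ≤
          (2 * (B : ℝ) + 1) ^ (3 ^ (Y ^ 2)) := by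
        have h2 : (2 * B + 1) ^ h ≤ (2 * B + 1) ^ (3 ^ (Y ^ 2)) :=
          Nat.pow_le_pow_right (by omega) hhY
        have h3 := hsm'.trans h2
        exact_mod_cast h3
      calc _ ≤ (2 * (B : ℝ) + 1) ^ (3 ^ (Y ^ 2)) * (2 ^ g * s ^ 3) :=
            mul_le_mul_of_nonneg_right h1 (by positivity)
        _ = 2 ^ g * ((2 * (B : ℝ) + 1) ^ (3 ^ (Y ^ 2)) * s ^ 3) := by ring
        _ ≤ 2 ^ g * (ε / (2 * g)) := mul_le_mul_of_nonneg_left n10 h2g.le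
    have hsum : 2 ^ g * (ε / (2 * g)) + 2 ^ g * (ε / (2 * g)) = 2 ^ g * (ε / (g : ℝ)) := by
      field_simp
      ring
    rw [← hsum]
    exact add_le_add hA hB
  · -- the good ones
    intro Z hZ hns
    have h1 := hgood Z hZ (g / 3 ^ (Y ^ 2)) (by
      exact (Nat.mul_le_mul_left _ hhY).trans (Nat.div_mul_le_self _ _)) (by
      intro f hf hf0
      by_contra hcon
      apply hns
      refine ⟨f, hf, hf0, fun x => ?_⟩
      by_contra hx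
      exact hcon ⟨x, not_le.1 hx⟩)
    have h2 : (q : ℝ) ^ d * Real.exp (-(2 * (g / 3 ^ (Y ^ 2) : ℕ) * B ^ 2 / (q : ℝ) ^ 2)) ≤ 1 := by
      refine le_trans ?_ n7
      apply mul_le_mul_of_nonneg_right _ (Real.exp_pos _).le
      exact pow_le_pow_right₀ hqr1 hdY
    have hqd : (0 : ℝ) < (q : ℝ) ^ d := by positivity
    have h3 : (Nat.card (Pr c Z) : ℝ) * (q : ℝ) ^ d ≤ 2 ^ g * 2 := by
      refine h1.trans ?_
      apply mul_le_mul_of_nonneg_left _ h2g.le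
      linarith
    rw [mul_div_assoc', le_div_iff₀ hqd]
    exact h3
  · -- the others
    intro Z hZ _
    obtain ⟨ho, hZst, hZd⟩ := hprop Z hZ
    have hd0 : 0 < d := by omega
    have hr := Nat.div_mul_le_self g d
    have h1 := count_r (fun x => c x) hS.cc hS.ne 𝒢 hS.trans g hS.pos hS.card q hodd Z ho hZst d hZd
      (g / d) hr
    have hdg : 2 * d ≤ g := by omega
    have hr1 : 1 ≤ g / d := by
      rw [Nat.le_div_iff_mul_le hd0]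
      omega
    have hr2 : g / d ≤ q ^ 2 := (Nat.div_le_self g d).trans n5
    have h2 := sf_big q hodd (g / d) hr1 hr2
    have h3 := sf_nonneg q (g / d)
    have hrr : (g : ℝ) / (2 * Y) ≤ ((g / d : ℕ) : ℝ) := by
      have h4 : g < d * (g / d + 1) := by
        have := Nat.lt_div_mul_add (a := g) hd0
        have h5 : g / d * d + d = d * (g / d + 1) := by ring
        omega
      have h4r : (g : ℝ) ≤ d * (((g / d : ℕ) : ℝ) + 1) := by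
        exact_mod_cast h4.le
      have hr1r : (1 : ℝ) ≤ ((g / d : ℕ) : ℝ) := by exact_mod_cast hr1
      have hdr : (0 : ℝ) < d := by exact_mod_cast hd0
      have hdYr : (d : ℝ) ≤ Y := by exact_mod_cast hdY
      have hY0 : (0 : ℝ) < 2 * Y := by linarith
      rw [div_le_iff₀ hY0]
      calc (g : ℝ) ≤ d * (((g / d : ℕ) : ℝ) + 1) := h4r
        _ ≤ d * (2 * ((g / d : ℕ) : ℝ)) := by
            apply mul_le_mul_of_nonneg_left _ hdr.le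
            linarith
        _ ≤ Y * (2 * ((g / d : ℕ) : ℝ)) := by
            apply mul_le_mul_of_nonneg_right hdYr
            linarith
        _ = ((g / d : ℕ) : ℝ) * (2 * Y) := by ring
    have h5 : 6 / Real.sqrt ((g / d : ℕ) : ℝ) ≤ s := by
      have hY0 : (0 : ℝ) < 2 * Y := by
        have : (3 : ℝ) ≤ Y := by exact_mod_cast hY3
        linarith
      have h6 : Real.sqrt g / Real.sqrt (2 * Y) ≤ Real.sqrt ((g / d : ℕ) : ℝ) := by
        rw [← Real.sqrt_div hg0.le]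
        exact Real.sqrt_le_sqrt hrr
      have h7 : 0 < Real.sqrt g := Real.sqrt_pos.2 hg0
      have h8 : 0 < Real.sqrt (2 * Y) := Real.sqrt_pos.2 hY0
      calc 6 / Real.sqrt ((g / d : ℕ) : ℝ) ≤ 6 / (Real.sqrt g / Real.sqrt (2 * Y)) := by
            apply div_le_div_of_nonneg_left (by norm_num) (by positivity) h6
        _ = s := by
            rw [hs]
            field_simp
    have h9 : Sf q (g / d) ≤ s := h2.trans h5
    have h10 : Sf q (g / d) ^ d ≤ s ^ 3 :=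
      (pow_le_pow_left₀ h3 h9 d).trans (pow_le_pow_of_le_one hs0 n9 hd3)
    have h11 : (Nat.card (Pr c Z) : ℝ) ≤ 2 ^ g * Sf q (g / d) ^ d := h1
    exact h11.trans (mul_le_mul_of_nonneg_left h10 h2g.le)

end Pool.Agent.H52.CS
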