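import Mathlib
import Pool.Agent.H52.AD.Schur
import Pool.Agent.H52.AD.Dims
import Pool.Agent.H52.CS.Defs

/-!
# Multiplicity one (module H52 CS HomOne)

`W` simple with `dim (Fix 𝒢 x₀ W) = dim (Endo 𝒢 W)`: the range of every nonzero equivariant map
`W → (X → ℚ)` is `W`.

PROOF.  Let `Hom` be the space of the equivariant maps `φ : W → (X → ℚ)`.  (1) `dim Hom ≤ ν = dim (Fix 𝒢 x₀ W)`:
`φ` is determined by the functional `μ w = φ w x₀` (`φ w (π x₀) = φ (w ∘ π) x₀`, transitivity), and `μ` is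
`w ↦ ∑ x, u x * w x` for a unique `u ∈ W` (the form is positive definite on `W`, so nondegenerate), and
`μ (w ∘ π) = μ w` for `π x₀ = x₀` gives `u ∈ Fix 𝒢 x₀ W`; `φ ↦ u` is linear and injective.
(2) `Endo 𝒢 W` embeds in `Hom` (compose with the inclusion `W → (X → ℚ)`); as `e = ν` the embedding is
surjective.  So `φ w = β w` for some `β ∈ Endo 𝒢 W`, `β ≠ 0`, which is bijective (`schur_endo`), and the range of
`φ` is `W`.
-/

namespace Pool.Agent.H52.CS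

open Module Pool.Agent.H52.AD

variable {X : Type} [Fintype X] {c : Equiv.Perm X} {𝒢 : Subgroup (Equiv.Perm X)} {g : ℕ}
  {W : Submodule ℚ (X → ℚ)}

omit [Fintype X] in
/-- the space of the equivariant maps -/
private theorem homOne_Hom (𝒢 : Subgroup (Equiv.Perm X)) (W : Submodule ℚ (X → ℚ)) :
    ∃ H : Submodule ℚ (W →ₗ[ℚ] (X → ℚ)), ∀ φ, φ ∈ H ↔ Eqv 𝒢 φ := by
  refine ⟨{ carrier := {φ | Eqv 𝒢 φ}
            add_mem' := ?_
            zero_mem' := ?_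
            smul_mem' := ?_ }, fun φ => Iff.rfl⟩
  · intro φ ψ hφ hψ π hπ f f' h x
    rw [LinearMap.add_apply, LinearMap.add_apply, Pi.add_apply, Pi.add_apply,
      hφ π hπ f f' h x, hψ π hπ f f' h x]
  · intro π _ f f' _ x
    rfl
  · intro a φ hφ π hπ f f' h x
    rw [LinearMap.smul_apply, LinearMap.smul_apply, Pi.smul_apply, Pi.smul_apply,
      hφ π hπ f f' h x]

/-- The functional `w ↦ φ w x₀` as a function in `W`. -/
private theorem homOne_T (hst : Stb 𝒢 W) (x₀ : X) :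
    ∃ T : (W →ₗ[ℚ] (X → ℚ)) →ₗ[ℚ] (X → ℚ), (∀ φ, Eqv 𝒢 φ → T φ ∈ Fix 𝒢 x₀ W) ∧
      ∀ φ (w : W), φ w x₀ = ∑ x, (w : X → ℚ) x * T φ x := by
  classical
  obtain ⟨P, hP⟩ := exists_pr W
  obtain ⟨δ, hδ⟩ : ∃ δ : X → W, ∀ x, (δ x : X → ℚ) = P.mulVec (Pi.single x 1) :=
    ⟨fun x => ⟨P.mulVec (Pi.single x 1), hP.2.1 _⟩, fun _ => rfl⟩
  have hδe : ∀ x y, (δ x : X → ℚ) y = P y x := by
    intro x y
    rw [hδ, Matrix.mulVec_single_one]
    rfl
  have hsum : ∀ w : W, w = ∑ x, (w : X → ℚ) x • δ x := by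
    intro w
    apply Subtype.ext
    rw [Submodule.coe_sum]
    funext y
    rw [Finset.sum_apply]
    have h1 : (w : X → ℚ) y = P.mulVec (w : X → ℚ) y := by rw [hP.2.2 _ w.2]
    rw [h1]
    change ∑ x, P y x * (w : X → ℚ) x = _
    refine Finset.sum_congr rfl fun x _ => ?_
    rw [Submodule.coe_smul, Pi.smul_apply, hδe, smul_eq_mul, mul_comm]
  obtain ⟨T, hT⟩ : ∃ T : (W →ₗ[ℚ] (X → ℚ)) →ₗ[ℚ] (X → ℚ), ∀ φ x, T φ x = φ (δ x) x₀ :=
    ⟨{ toFun := fun φ x => φ (δ x) x₀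
       map_add' := fun _ _ => rfl
       map_smul' := fun _ _ => rfl }, fun _ _ => rfl⟩
  have hrep : ∀ φ (w : W), φ w x₀ = ∑ x, (w : X → ℚ) x * T φ x := by
    intro φ w
    conv_lhs => rw [hsum w]
    rw [map_sum, Finset.sum_apply]
    refine Finset.sum_congr rfl fun x _ => ?_
    rw [map_smul, Pi.smul_apply, hT, smul_eq_mul]
  refine ⟨T, fun φ hφ => ?_, hrep⟩
  rw [mem_Fix]
  constructor
  · have h1 : P.mulVec (T φ) = T φ := by
      funext y
      rw [hT φ y, hrep φ (δ y)]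
      change ∑ x, P y x * T φ x = _
      refine Finset.sum_congr rfl fun x _ => ?_
      have h2 : P y x = P x y := by
        conv_lhs => rw [← hP.1]
        rfl
      rw [hδe, h2]
    rw [← h1]
    exact hP.2.1 _
  · intro π hπ hx x
    rw [hT, hT]
    have h1 : ∀ z, (δ x : X → ℚ) z = (δ (π x) : X → ℚ) (π z) := by
      intro z
      have h2 : (fun z => (P.mulVec (Pi.single (π x) (1 : ℚ))) (π z)) =
          P.mulVec (Pi.single x (1 : ℚ)) := by
        rw [← pm_mulVec, Matrix.mulVec_mulVec, ← hP.comm hst π hπ, ← Matrix.mulVec_mulVec,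
          pm_mulVec]
        congr 1
        funext z
        by_cases hz : z = x
        · subst hz
          rw [Pi.single_eq_same, Pi.single_eq_same]
        · have hz' : π z ≠ π x := fun h => hz (π.injective h)
          rw [Pi.single_eq_of_ne hz', Pi.single_eq_of_ne hz]
      rw [hδ, hδ, ← h2]
    have h3 := hφ π hπ (δ (π x)) (δ x) h1 x₀
    rw [hx] at h3
    exact h3.symm

theorem hom_one (hS : Sys c 𝒢 g) (hW : Smp c 𝒢 W) (x₀ : X)
    (h : finrank ℚ (Fix 𝒢 x₀ W) = finrank ℚ (Endo 𝒢 W)) (φ : W →ₗ[ℚ] (X → ℚ)) (hφ : Eqv 𝒢 φ)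
    (h0 : φ ≠ 0) : LinearMap.range φ = W := by
  have hst := hW.2.2.1
  obtain ⟨H, hH⟩ := homOne_Hom 𝒢 W
  obtain ⟨T, hTF, hrep⟩ := homOne_T hst x₀
  have hle : finrank ℚ H ≤ finrank ℚ (Fix 𝒢 x₀ W) := by
    have hmem : ∀ ψ : H, T.domRestrict H ψ ∈ Fix 𝒢 x₀ W := fun ψ => hTF ψ ((hH ψ).1 ψ.2)
    refine LinearMap.finrank_le_finrank_of_injective
      (f := LinearMap.codRestrict (Fix 𝒢 x₀ W) (T.domRestrict H) hmem) ?_
    intro ψ ψ' hψ
    have h1 : T ψ = T ψ' := congrArg Subtype.val hψ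
    have h2 : ∀ w : W, (ψ : W →ₗ[ℚ] (X → ℚ)) w x₀ = (ψ' : W →ₗ[ℚ] (X → ℚ)) w x₀ := by
      intro w
      rw [hrep, hrep, h1]
    apply Subtype.ext
    apply LinearMap.ext
    intro w
    funext x
    obtain ⟨π, hπ, hπx⟩ := hS.trans x₀ x
    obtain ⟨w', hw'⟩ := schur_tr hst hπ w
    have h3 := (hH ψ).1 ψ.2 π hπ w w' hw' x₀
    have h4 := (hH ψ').1 ψ'.2 π hπ w w' hw' x₀
    rw [hπx] at h3 h4
    rw [← h3, ← h4, h2]
  obtain ⟨L, hL⟩ : ∃ L : (W →ₗ[ℚ] W) →ₗ[ℚ] (W →ₗ[ℚ] (X → ℚ)), ∀ β, L β = W.subtype ∘ₗ β :=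
    ⟨{ toFun := fun β => W.subtype ∘ₗ β
       map_add' := fun _ _ => rfl
       map_smul' := fun _ _ => rfl }, fun _ => rfl⟩
  have hLinj : Function.Injective L := by
    intro a b hab
    rw [hL, hL] at hab
    apply LinearMap.ext
    intro w
    exact Subtype.ext (LinearMap.congr_fun hab w)
  have hmap : (Endo 𝒢 W).map L ≤ H := by
    intro ψ hψ
    obtain ⟨β, hβ, rfl⟩ := Submodule.mem_map.1 hψ
    rw [hH, hL]
    exact fun π hπ f f' h x => hβ π hπ f f' h x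
  have hfr : finrank ℚ ((Endo 𝒢 W).map L) = finrank ℚ (Endo 𝒢 W) :=
    (Submodule.equivMapOfInjective L hLinj (Endo 𝒢 W)).finrank_eq.symm
  have heq : (Endo 𝒢 W).map L = H :=
    Submodule.eq_of_le_of_finrank_le hmap (by rw [hfr, ← h]; exact hle)
  have hφH : φ ∈ (Endo 𝒢 W).map L := by
    rw [heq]
    exact (hH φ).2 hφ
  obtain ⟨β, hβ, rfl⟩ := Submodule.mem_map.1 hφH
  have hβ0 : β ≠ 0 := by
    intro h1
    apply h0
    rw [h1, map_zero]
  obtain ⟨⟨-, hsurj⟩, -⟩ := schur_endo hW β hβ hβ0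
  rw [hL, LinearMap.range_comp, LinearMap.range_eq_top.2 hsurj, Submodule.map_top,
    Submodule.range_subtype]

end Pool.Agent.H52.CS
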