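import Mathlib
import Pool.Agent.H52.AD.BndA
import Pool.Agent.H52.AD.Dims
import Pool.Agent.H52.AD.SEst
import Pool.Agent.H52.CS.Defs
import Pool.Agent.H52.CS.HomOne

/-!
# The Galois case, large dimension, multiplicity one (module H52 CS GalBigA)

`W` simple of Galois type with `dim Endo = dim W` and `g^19 < (dim W)^20`: at most `2^g / g²` types fail.

PROOF.  This is the first case of `GalBig` (which needs no condition on the order of the group); see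
`CS/GalBig.lean`.  Let `d = dim W = e`; `ν = d` (`fix_eq_dim`), so `ν = e` and by `hom_one` the range of every
nonzero equivariant map is `W`, so every `Φ ∈ Fail` is orthogonal to `W`, and to `red 3 W` (`red_perp`).  By
`count_r` with `l = 3`, `r = 1` (`d ≤ g`: `dim_le_g`; `red_finrank`, `red_odd`, `red_stb`),
`|Fail| ≤ 2^g Sf(3,1)^d ≤ 2^g (1/√2)^d` (`sf_one`), and `(1/√2)^d ≤ 1/g²` for large `g` as `d ≥ g^(19/20)`.
-/

namespace Pool.Agent.H52.CS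

open Module Pool.Agent.H52.AD

theorem galBigA_num : ∃ g₀ : ℕ, ∀ g d : ℕ, g₀ ≤ g → g ^ 19 < d ^ 20 →
    (1 / Real.sqrt 2) ^ d ≤ 1 / (g : ℝ) ^ 2 := by
  have h := (isLittleO_log_rpow_atTop (by norm_num : (0 : ℝ) < 1 / 2)).bound
    (by norm_num : (0 : ℝ) < 1 / 10)
  obtain ⟨x₀, hx₀⟩ := Filter.eventually_atTop.1 h
  refine ⟨max 1 ⌈x₀⌉₊, fun g d hg hd => ?_⟩
  have hg1 : 1 ≤ g := (le_max_left _ _).trans hg
  have hgx : x₀ ≤ (g : ℝ) := by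
    have h1 : ⌈x₀⌉₊ ≤ g := (le_max_right _ _).trans hg
    exact (Nat.le_ceil x₀).trans (by exact_mod_cast h1)
  have hgr : (1 : ℝ) ≤ (g : ℝ) := by exact_mod_cast hg1
  have h2 := hx₀ g hgx
  have hlog : 0 ≤ Real.log (g : ℝ) := Real.log_nonneg hgr
  rw [Real.norm_of_nonneg hlog, Real.norm_of_nonneg (Real.rpow_nonneg (by linarith) _),
    ← Real.sqrt_eq_rpow] at h2
  have hdg : g ≤ d ^ 2 := by
    by_contra hc
    push Not at hc
    have h3 : d ^ 20 ≤ g ^ 10 := by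
      calc d ^ 20 = (d ^ 2) ^ 10 := by ring
        _ ≤ g ^ 10 := Nat.pow_le_pow_left hc.le 10
    have h4 : g ^ 10 ≤ g ^ 19 := Nat.pow_le_pow_right hg1 (by norm_num)
    omega
  have hsd : Real.sqrt (g : ℝ) ≤ d := by
    rw [← Real.sqrt_sq (Nat.cast_nonneg d : (0 : ℝ) ≤ (d : ℝ))]
    exact Real.sqrt_le_sqrt (by exact_mod_cast hdg)
  have h3 : (1 / Real.sqrt 2) ^ d = Real.exp (-(d * (Real.log 2 / 2))) := by
    have h5 : (1 / Real.sqrt 2) = Real.exp (-(Real.log 2 / 2)) := by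
      rw [Real.exp_neg, ← Real.log_sqrt (by norm_num), Real.exp_log (by positivity), one_div]
    rw [h5, ← Real.exp_nat_mul]
    congr 1
    ring
  have h4 : 1 / (g : ℝ) ^ 2 = Real.exp (-(2 * Real.log g)) := by
    rw [Real.exp_neg, show (2 : ℝ) * Real.log g = ((2 : ℕ) : ℝ) * Real.log g by
      norm_num, Real.exp_nat_mul, Real.exp_log (by linarith), one_div]
  rw [h3, h4]
  apply Real.exp_le_exp.2
  have hl2 := Real.log_two_gt_d9
  have hdR : (0 : ℝ) ≤ d := Nat.cast_nonneg _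
  nlinarith

theorem gal_big_a : ∃ g₀ : ℕ, ∀ {X : Type} [Fintype X] {c : Equiv.Perm X}
    {𝒢 : Subgroup (Equiv.Perm X)} {g : ℕ} {W : Submodule ℚ (X → ℚ)}, Sys c 𝒢 g → Smp c 𝒢 W →
    Gal 𝒢 W → ∀ _x₀ : X, g₀ ≤ g → finrank ℚ (Endo 𝒢 W) = finrank ℚ W →
    g ^ 19 < finrank ℚ W ^ 20 →
    (Nat.card (Fail c 𝒢 W) : ℝ) ≤ 2 ^ g * (1 / (g : ℝ) ^ 2) := by
  obtain ⟨g₀, hnum⟩ := galBigA_num
  refine ⟨g₀, ?_⟩
  intro X _ c 𝒢 g W hS hW hG x₀ hg he hd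
  classical
  have : Fact (Nat.Prime 3) := ⟨by norm_num⟩
  have h3 : Odd 3 := by decide
  have hν : finrank ℚ (Fix 𝒢 x₀ W) = finrank ℚ (Endo 𝒢 W) := by
    rw [he]
    exact (fix_eq_dim hS hW x₀).2 hG
  have hc := count_r c hS.cc hS.ne 𝒢 hS.trans g hS.pos hS.card 3 h3 (red 3 W)
    (red_odd 3 hW.2.1) (red_stb 3 hW.2.2.1) (finrank ℚ W) (red_finrank 3 W) 1
    (by rw [one_mul]; exact dim_le_g hS hW.2.1)
  have hperp : ∀ Φ : Fail c 𝒢 W, (∀ x, c x ∈ Φ.1 ↔ x ∉ Φ.1) ∧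
      ∀ f ∈ red 3 W, ∑ x, (if x ∈ Φ.1 then f x else 0) = 0 := by
    rintro ⟨Φ, hΦ, φ, h0, hφ, hp⟩
    refine ⟨hΦ, red_perp 3 Φ ?_⟩
    intro f hf
    rw [← hom_one hS hW x₀ hν φ hφ h0] at hf
    obtain ⟨w, rfl⟩ := hf
    exact hp w
  have hle : Nat.card (Fail c 𝒢 W) ≤ Nat.card {Φ : Set X // (∀ x, c x ∈ Φ ↔ x ∉ Φ) ∧
      ∀ f ∈ red 3 W, ∑ x, (if x ∈ Φ then f x else 0) = 0} := by
    refine Nat.card_le_card_of_injective (fun Φ : Fail c 𝒢 W =>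
      (⟨Φ.1, hperp Φ⟩ : {Φ : Set X // (∀ x, c x ∈ Φ ↔ x ∉ Φ) ∧
      ∀ f ∈ red 3 W, ∑ x, (if x ∈ Φ then f x else 0) = 0})) ?_
    intro Φ Φ' h
    have h2 := Subtype.ext_iff.1 h
    exact Subtype.ext h2
  calc (Nat.card (Fail c 𝒢 W) : ℝ) ≤ 2 ^ g * Sf 3 1 ^ finrank ℚ W :=
        le_trans (by exact_mod_cast hle) hc
    _ ≤ 2 ^ g * (1 / Real.sqrt 2) ^ finrank ℚ W := by
        refine mul_le_mul_of_nonneg_left ?_ (by positivity)
        exact pow_le_pow_left₀ (sf_nonneg 3 1) (sf_one 3 h3) _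
    _ ≤ 2 ^ g * (1 / (g : ℝ) ^ 2) :=
        mul_le_mul_of_nonneg_left (hnum g _ hg hd) (by positivity)

end Pool.Agent.H52.CS
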