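import Mathlib
import Pool.Agent.H52.AD.BndG
import Pool.Agent.H52.AD.BndB2
import Pool.Agent.H52.AD.Dims
import Pool.Agent.H52.CS.Defs
import Pool.Agent.H52.CS.YsCnt

/-!
# The Galois case, dimension at most `g^(19/20)`, `e ≥ 2` (module H52 CS GalMid)

PROOF.  As `bnd_g` in `AD/BndG.lean` and `bnd_b2` in `AD/BndB2.lean`, with `b_main_e` instead of `b_main`.  Let
`d = dim W`, `E = d log(3d)/g`, `y = √(g/(2 d log(3d)))`, so `y² = 1/(2E)`.  `ν = d` (`fix_eq_dim`),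
`|Gm| ≤ 2 g` (`bndg_card`).  By `bndb2_large M` with `M` large, `y ≥ M log(4g)³ ≥ M log (4g)`, so `prime_ex`
gives a prime `p`, `y/4 ≤ p ≤ y`, that does not divide `|Gm|` (`log |Gm| ≤ log(2g) ≤ y/8`), `p ≥ 3` odd.  With
`r = g / d` as in `bnd_g`: `p² ≤ r` and `2 r/p² ≥ 2 log(3d)`, so `Sf(p,r)^d ≤ 3/p^d` (`sf_le2`,
`bndb2_pow`/`bndg_pow`).  `b_main_e`: `(p-1)^e F ≤ 2^g p^d 3/p^d = 3 2^g`, `F = |Fail|`.  As `e ≥ 2` and
`p - 1 ≥ 1`, `p - 1 ≥ p/2`: `F ≤ 12 2^g/p² ≤ 192 2^g/y² = 2^g 384 E`; and if `e ≥ 3`: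
`F ≤ 24 2^g/p³ ≤ 1536 2^g/y³ = 2^g 1536 (2E)^(3/2) ≤ 2^g 4400 E √E`.
-/

namespace Pool.Agent.H52.CS

open Module Pool.Agent.H52.AD

/-- the numerical end (module H52 CS GalMid) -/
theorem galMid_fin (g p e : ℕ) (y F E : ℝ) (hF : 0 ≤ F) (hE : 0 < E) (hy : 0 < y)
    (hyE : y ^ 2 * (2 * E) = 1) (hp : 2 ≤ p) (hyp : y / 4 ≤ p) (he : 2 ≤ e)
    (hmain : ((p : ℝ) - 1) ^ e * F ≤ 2 ^ g * 3) :
    F ≤ 2 ^ g * (384 * E) ∧ (3 ≤ e → F ≤ 2 ^ g * (4400 * (E * Real.sqrt E))) := by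
  have hp2 : (2 : ℝ) ≤ p := by exact_mod_cast hp
  have hp0 : (0 : ℝ) < p := by linarith
  obtain ⟨q, hq⟩ : ∃ q : ℝ, q = 1 / p := ⟨_, rfl⟩
  have hq0 : 0 < q := by rw [hq]; positivity
  have hqp : q * p = 1 := by rw [hq]; field_simp
  have h2g : (0 : ℝ) < 2 ^ g := by positivity
  have hp1 : (1 : ℝ) ≤ (p : ℝ) - 1 := by linarith
  have hph : (p : ℝ) / 2 ≤ (p : ℝ) - 1 := by linarith
  have h1 : ∀ k : ℕ, k ≤ e → F ≤ 2 ^ g * (3 * 2 ^ k * q ^ k) := by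
    intro k hk
    have e1 : ((p : ℝ) / 2) ^ k * F ≤ 2 ^ g * 3 := by
      refine le_trans ?_ hmain
      apply mul_le_mul_of_nonneg_right _ hF
      calc ((p : ℝ) / 2) ^ k ≤ ((p : ℝ) - 1) ^ k := pow_le_pow_left₀ (by positivity) hph k
        _ ≤ ((p : ℝ) - 1) ^ e := pow_le_pow_right₀ hp1 hk
    have e2 : F = (2 * q) ^ k * (((p : ℝ) / 2) ^ k * F) := by
      rw [← mul_assoc, ← mul_pow]
      have : 2 * q * ((p : ℝ) / 2) = 1 := by
        calc 2 * q * ((p : ℝ) / 2) = q * p := by ring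
          _ = 1 := hqp
      rw [this, one_pow, one_mul]
    rw [e2]
    calc (2 * q) ^ k * (((p : ℝ) / 2) ^ k * F) ≤ (2 * q) ^ k * (2 ^ g * 3) := by gcongr
      _ = 2 ^ g * (3 * 2 ^ k * q ^ k) := by rw [mul_pow]; ring
  obtain ⟨z, hz⟩ : ∃ z : ℝ, z = Real.sqrt 2 * Real.sqrt E := ⟨_, rfl⟩
  have hs2 : Real.sqrt 2 * Real.sqrt 2 = 2 := Real.mul_self_sqrt (by norm_num)
  have hsE : Real.sqrt E * Real.sqrt E = E := Real.mul_self_sqrt hE.le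
  have hsE0 : 0 < Real.sqrt E := Real.sqrt_pos.mpr hE
  have hz0 : 0 < z := by rw [hz]; positivity
  have hz2 : z ^ 2 = 2 * E := by
    rw [hz]
    calc (Real.sqrt 2 * Real.sqrt E) ^ 2 =
        (Real.sqrt 2 * Real.sqrt 2) * (Real.sqrt E * Real.sqrt E) := by ring
      _ = 2 * E := by rw [hs2, hsE]
  have hyz : y * z = 1 := by
    have h3 : (y * z) ^ 2 = 1 := by rw [mul_pow, hz2, hyE]
    have h4 : 0 < y * z := by positivity
    nlinarith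
  have hqz : q ≤ 4 * z := by
    have h3 : 1 ≤ 4 * z * p := by
      calc (1 : ℝ) = 4 * z * (y / 4) := by rw [← hyz]; ring
        _ ≤ 4 * z * p := by gcongr
    calc q = q * 1 := by ring
      _ ≤ q * (4 * z * p) := by gcongr
      _ = 4 * z * (q * p) := by ring
      _ = 4 * z := by rw [hqp]; ring
  constructor
  · have h3 : q ^ 2 ≤ (4 * z) ^ 2 := by gcongr
    calc F ≤ 2 ^ g * (3 * 2 ^ 2 * q ^ 2) := h1 2 he
      _ ≤ 2 ^ g * (3 * 2 ^ 2 * (4 * z) ^ 2) := by gcongr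
      _ = 2 ^ g * (192 * z ^ 2) := by ring
      _ = 2 ^ g * (384 * E) := by rw [hz2]; ring
  · intro he3
    have h4 : q ^ 3 ≤ (4 * z) ^ 3 := by gcongr
    have hs : Real.sqrt 2 ≤ 1.4143 := by
      rw [Real.sqrt_le_left (by norm_num)]
      norm_num
    calc F ≤ 2 ^ g * (3 * 2 ^ 3 * q ^ 3) := h1 3 he3
      _ ≤ 2 ^ g * (3 * 2 ^ 3 * (4 * z) ^ 3) := by gcongr
      _ = 2 ^ g * (1536 * z ^ 2 * z) := by ring
      _ = 2 ^ g * (3072 * Real.sqrt 2 * (E * Real.sqrt E)) := by rw [hz2, hz]; ring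
      _ ≤ 2 ^ g * (3072 * 1.4143 * (E * Real.sqrt E)) := by gcongr
      _ ≤ 2 ^ g * (4400 * (E * Real.sqrt E)) := by gcongr; norm_num

theorem gal_mid : ∃ g₀ : ℕ, ∀ {X : Type} [Fintype X] {c : Equiv.Perm X}
    {𝒢 : Subgroup (Equiv.Perm X)} {g : ℕ} {W : Submodule ℚ (X → ℚ)}, Sys c 𝒢 g → Smp c 𝒢 W →
    Gal 𝒢 W → ∀ _x₀ : X, g₀ ≤ g → 2 ≤ finrank ℚ W → 2 ≤ finrank ℚ (Endo 𝒢 W) →
    finrank ℚ W ^ 20 ≤ g ^ 19 →
    (Nat.card (Fail c 𝒢 W) : ℝ) ≤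
      2 ^ g * (384 * (finrank ℚ W * Real.log (3 * finrank ℚ W) / g)) ∧
    (3 ≤ finrank ℚ (Endo 𝒢 W) → (Nat.card (Fail c 𝒢 W) : ℝ) ≤
      2 ^ g * (4400 * (finrank ℚ W * Real.log (3 * finrank ℚ W) / g *
        Real.sqrt (finrank ℚ W * Real.log (3 * finrank ℚ W) / g)))) := by
  obtain ⟨y₀, hy₀, hprime⟩ := prime_ex
  obtain ⟨g₀, hg₀⟩ := bndb2_large (max 100 y₀) (lt_of_lt_of_le (by norm_num) (le_max_left _ _))
  refine ⟨g₀, ?_⟩
  intro X _ c 𝒢 g W hS hW hG x₀ hg hdim he hpow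
  have hνd := (fix_eq_dim hS hW x₀).2 hG
  have hdg := dim_le_g hS hW.2.1
  have hN0 := gm_pos hW.2.2.1
  have hN2 := bndg_card hS hW hG x₀
  have hbm := b_main_e hS hW x₀
  obtain ⟨d, hd⟩ : ∃ d, d = finrank ℚ W := ⟨_, rfl⟩
  obtain ⟨e, hee⟩ : ∃ e, e = finrank ℚ (Endo 𝒢 W) := ⟨_, rfl⟩
  obtain ⟨N, hN⟩ : ∃ N, N = Nat.card (Gm 𝒢 W) := ⟨_, rfl⟩
  obtain ⟨F, hF⟩ : ∃ F : ℝ, F = Nat.card (Fail c 𝒢 W) := ⟨_, rfl⟩
  rw [hνd] at hbm
  rw [← hd] at hpow hdg hdim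
  rw [← hee] at he
  rw [← hN] at hN0 hN2
  rw [← hd, ← hN, ← hF, ← hee] at hbm
  rw [← hd, ← hF, ← hee]
  have hF0 : 0 ≤ F := by rw [hF]; exact Nat.cast_nonneg _
  have hd2' : (2 : ℝ) ≤ d := by exact_mod_cast hdim
  have hd0 : (0 : ℝ) < d := by linarith
  have hdgR : (d : ℝ) ≤ g := by exact_mod_cast hdg
  have hg0 : (0 : ℝ) < g := by linarith
  obtain ⟨ht1, hy⟩ := hg₀ g d hg hdim hdg hpow
  have hL6 : 1 ≤ Real.log (3 * d) := by
    rw [Real.le_log_iff_exp_le (by positivity)]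
    have := Real.exp_one_lt_d9
    linarith
  have hL0 : 0 < Real.log (3 * d) := by linarith
  obtain ⟨y, hydef⟩ : ∃ y : ℝ, y = Real.sqrt (g / (2 * d * Real.log (3 * d))) := ⟨_, rfl⟩
  rw [← hydef] at hy
  obtain ⟨t, htdef⟩ : ∃ t : ℝ, t = Real.log (4 * g) := ⟨_, rfl⟩
  rw [← htdef] at hy ht1
  have ht3 : t ≤ t ^ 3 := by
    calc t = t ^ 1 := (pow_one t).symm
      _ ≤ t ^ 3 := pow_le_pow_right₀ ht1 (by norm_num)
  have hy100 : 100 * t ^ 3 ≤ y := by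
    refine le_trans ?_ hy
    gcongr
    exact le_max_left _ _
  have hyy₀ : y₀ ≤ y := by
    calc y₀ ≤ max 100 y₀ := le_max_right _ _
      _ = max 100 y₀ * 1 := by ring
      _ ≤ max 100 y₀ * t ^ 3 := by
        gcongr
        linarith
      _ ≤ y := hy
  have hy0 : 100 ≤ y := by linarith
  have hlogN : Real.log N ≤ y / 8 := by
    have h1 : (N : ℝ) ≤ 4 * g := by
      have : (N : ℝ) ≤ 2 * g := by exact_mod_cast hN2
      linarith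
    calc Real.log N ≤ Real.log (4 * g) :=
          Real.log_le_log (by exact_mod_cast hN0) h1
      _ = t := htdef.symm
      _ ≤ y / 8 := by linarith
  obtain ⟨p, hp, hp1, hp2, hpN⟩ := hprime y hyy₀ N hN0 hlogN
  have : Fact p.Prime := ⟨hp⟩
  have : NeZero p := ⟨hp.ne_zero⟩
  have hpR : (2 : ℝ) < p := by linarith
  have hodd : Odd p := by
    apply hp.odd_of_ne_two
    rintro rfl
    norm_num at hpR
  have hy2 : y ^ 2 = g / (2 * d * Real.log (3 * d)) := by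
    rw [hydef, Real.sq_sqrt (by positivity)]
  -- the multiplicity `r = g / d`
  have hrd : g / d * d ≤ g := Nat.div_mul_le_self g d
  have hr : (g : ℝ) / (2 * d) ≤ ((g / d : ℕ) : ℝ) := by
    rw [div_le_iff₀ (by positivity)]
    have h1 : g < (g / d + 1) * d := by
      have := Nat.lt_div_mul_add (a := g) (b := d) (by omega)
      rw [add_mul, one_mul]; exact this
    have h2 : 1 ≤ g / d := (Nat.one_le_div_iff (by omega)).mpr hdg
    have h3 : g ≤ g / d * (2 * d) := by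
      have : (g / d + 1) * d ≤ (g / d + g / d) * d := Nat.mul_le_mul_right _ (by omega)
      calc g ≤ (g / d + g / d) * d := by omega
        _ = g / d * (2 * d) := by ring
    exact_mod_cast h3
  have hpy : (p : ℝ) ^ 2 ≤ y ^ 2 := by gcongr
  have hpr : p ^ 2 ≤ g / d := by
    have h1 : (p : ℝ) ^ 2 ≤ ((g / d : ℕ) : ℝ) := by
      calc (p : ℝ) ^ 2 ≤ y ^ 2 := hpy
        _ = g / (2 * d * Real.log (3 * d)) := hy2
        _ ≤ g / (2 * d) := by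
          apply div_le_div_of_nonneg_left hg0.le (by positivity)
          nlinarith
        _ ≤ ((g / d : ℕ) : ℝ) := hr
    exact_mod_cast h1
  have hsf := sf_le2 p hodd (g / d) hpr
  have hsf0 := sf_nonneg p (g / d)
  have hexp : -2 * ((g / d : ℕ) : ℝ) / (p : ℝ) ^ 2 = -(2 * ((g / d : ℕ) : ℝ) / (p : ℝ) ^ 2) := by
    ring
  rw [hexp] at hsf
  have hu : 2 * Real.log (3 * d) ≤ 2 * ((g / d : ℕ) : ℝ) / (p : ℝ) ^ 2 := by
    rw [le_div_iff₀ (by positivity)]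
    calc 2 * Real.log (3 * d) * (p : ℝ) ^ 2 ≤ 2 * Real.log (3 * d) * y ^ 2 := by gcongr
      _ = 2 * ((g : ℝ) / (2 * d)) := by rw [hy2]; field_simp
      _ ≤ 2 * ((g / d : ℕ) : ℝ) := by gcongr
  have hpw := bndb2_pow d p hdim hp.pos _ _ hsf0 hsf hu
  have hmain : ((p : ℝ) - 1) ^ e * F ≤ 2 ^ g * 3 := by
    have hpd : (0 : ℝ) < (p : ℝ) ^ d := by
      have := hp.pos
      positivity
    calc ((p : ℝ) - 1) ^ e * F ≤ 2 ^ g * (p : ℝ) ^ d * Sf p (g / d) ^ d :=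
          hbm p hodd hpN (g / d) hrd
      _ ≤ 2 ^ g * (p : ℝ) ^ d * (3 / (p : ℝ) ^ d) := by gcongr
      _ = 2 ^ g * 3 := by field_simp
  have hfin := galMid_fin g p e y F (d * Real.log (3 * d) / g) hF0 (by positivity) (by linarith)
    (by
      rw [hy2]
      obtain ⟨L, hL⟩ : ∃ L : ℝ, L = Real.log (3 * d) := ⟨_, rfl⟩
      rw [← hL] at hL0 ⊢
      field_simp) hp.two_le hp1 he hmain
  exact hfin

end Pool.Agent.H52.CS
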