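import Mathlib
import Pool.Agent.H52.AD.NonGal2
import Pool.Agent.H52.AD.Dims
import Pool.Agent.H52.CS.Defs
import Pool.Agent.H52.CS.GalMid

/-!
# The sum over the Galois classes of dimension between `Y` and `g^(19/20)` (module H52 CS GalSum)

PROOF.  As `non_gal2` in `AD/NonGal2.lean`.  Let `d = dim W`, `e = dim Endo`, `ν = d` (`fix_eq_dim`), `n = d / e`
(exact, `endo_dvd_dim`), so that `∑ d n ≤ g`; `n ≥ 1`.
If `e = 2` then `n = d/2` and `gal_mid` gives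
`|Fail| ≤ 2^g 384 d log(3d)/g = 2^g (d n/g) 768 log(3d)/d ≤ 2^g (d n/g) 768 log(3Y)/Y`, because `log(3x)/x`
is decreasing for `x ≥ 1` (`Real.log_div_self_antitoneOn`), `d ≥ Y ≥ 2`.
If `e ≥ 3` then `|Fail| ≤ 2^g 4400 (d log(3d)/g) √(d log(3d)/g) ≤ 2^g (d n/g) 4400 log(3g) √(g^(-1/20) log(3g)) ≤
2^g (d n/g) g^(-1/50)` for large `g` (`d ≤ g^(19/20)`, `d ≤ g`: `dim_le_g`).
Sum over `W ∈ 𝒲` with `∑ d n ≤ g`.
-/

namespace Pool.Agent.H52.CS

open Module Pool.Agent.H52.AD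

private theorem galsum_asymp : ∃ g₀ : ℕ, ∀ g : ℕ, g₀ ≤ g →
    4400 * (Real.log (3 * g) * Real.sqrt (Real.log (3 * g))) * (g : ℝ) ^ (-(1 / 40) : ℝ) ≤
      (g : ℝ) ^ (-(1 / 50) : ℝ) := by
  have h1 : ∀ᶠ x : ℝ in Filter.atTop, Real.log x ≤ x ^ (1 / 1000 : ℝ) := by
    have := (isLittleO_log_rpow_atTop (r := 1 / 1000) (by norm_num)).bound (zero_lt_one)
    filter_upwards [this, Filter.eventually_ge_atTop 1] with x hx hx1
    rw [Real.norm_eq_abs, Real.norm_eq_abs, one_mul, abs_of_nonneg (Real.log_nonneg hx1),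
      abs_of_nonneg (Real.rpow_nonneg (by linarith) _)] at hx
    exact hx
  have h2 : ∀ᶠ x : ℝ in Filter.atTop, (26400 : ℝ) ≤ x ^ (7 / 2000 : ℝ) :=
    (tendsto_rpow_atTop (by norm_num)).eventually_ge_atTop _
  have h3 := (h1.and (h2.and (Filter.eventually_ge_atTop (1 : ℝ))))
  obtain ⟨x₀, hx₀⟩ := Filter.eventually_atTop.1 h3
  refine ⟨⌈x₀⌉₊, fun g hg => ?_⟩
  have hgx : x₀ ≤ (g : ℝ) := (Nat.le_ceil x₀).trans (by exact_mod_cast hg)
  obtain ⟨hlog, hbig, hg1⟩ := hx₀ (g : ℝ) hgx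
  obtain ⟨x, hx⟩ : ∃ x : ℝ, x = (g : ℝ) := ⟨_, rfl⟩
  rw [← hx] at hlog hbig hg1 ⊢
  have hx0 : 0 < x := by linarith
  have hu1 : 1 ≤ x ^ (1 / 1000 : ℝ) := Real.one_le_rpow hg1 (by norm_num)
  have hl4 : Real.log 4 ≤ 2 := by
    have h5 := Real.log_two_lt_d9
    have h6 : Real.log 4 = 2 * Real.log 2 := by
      rw [show (4 : ℝ) = 2 ^ 2 by norm_num, Real.log_pow]
      norm_num
    rw [h6]
    linarith
  have hL4 : Real.log (4 * x) ≤ 3 * x ^ (1 / 1000 : ℝ) := by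
    rw [Real.log_mul (by norm_num) hx0.ne']
    linarith
  have hL3 : Real.log (3 * x) ≤ 3 * x ^ (1 / 1000 : ℝ) :=
    (Real.log_le_log (by linarith) (by linarith)).trans hL4
  have hL3p : 0 ≤ Real.log (3 * x) := Real.log_nonneg (by linarith)
  have hsu : Real.sqrt (x ^ (1 / 1000 : ℝ)) = x ^ (1 / 2000 : ℝ) := by
    rw [Real.sqrt_eq_rpow, ← Real.rpow_mul hx0.le]
    norm_num
  have h5 : Real.sqrt (Real.log (3 * x)) ≤ 2 * x ^ (1 / 2000 : ℝ) := by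
    calc Real.sqrt (Real.log (3 * x)) ≤ Real.sqrt (2 ^ 2 * x ^ (1 / 1000 : ℝ)) := by
          apply Real.sqrt_le_sqrt
          nlinarith
      _ = 2 * x ^ (1 / 2000 : ℝ) := by
          rw [Real.sqrt_mul (by norm_num), Real.sqrt_sq (by norm_num), hsu]
  have h6 : Real.log (3 * x) * Real.sqrt (Real.log (3 * x)) ≤
      (3 * x ^ (1 / 1000 : ℝ)) * (2 * x ^ (1 / 2000 : ℝ)) :=
    mul_le_mul hL3 h5 (Real.sqrt_nonneg _) (by positivity)
  have h7 : 4400 * (Real.log (3 * x) * Real.sqrt (Real.log (3 * x))) ≤ x ^ (1 / 200 : ℝ) := by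
    calc 4400 * (Real.log (3 * x) * Real.sqrt (Real.log (3 * x)))
        ≤ 4400 * ((3 * x ^ (1 / 1000 : ℝ)) * (2 * x ^ (1 / 2000 : ℝ))) := by linarith
      _ = 26400 * (x ^ (1 / 1000 : ℝ) * x ^ (1 / 2000 : ℝ)) := by ring
      _ ≤ x ^ (7 / 2000 : ℝ) * (x ^ (1 / 1000 : ℝ) * x ^ (1 / 2000 : ℝ)) := by
          apply mul_le_mul_of_nonneg_right hbig (by positivity)
      _ = x ^ (1 / 200 : ℝ) := by
          rw [← Real.rpow_add hx0, ← Real.rpow_add hx0]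
          norm_num
  calc 4400 * (Real.log (3 * x) * Real.sqrt (Real.log (3 * x))) * x ^ (-(1 / 40) : ℝ)
      ≤ x ^ (1 / 200 : ℝ) * x ^ (-(1 / 40) : ℝ) :=
        mul_le_mul_of_nonneg_right h7 (by positivity)
    _ = x ^ (-(1 / 50) : ℝ) := by
        rw [← Real.rpow_add hx0]
        norm_num

private theorem galsum_log (d Y : ℕ) (hY : 2 ≤ Y) (hd : Y ≤ d) :
    Real.log (3 * d) ≤ (d : ℝ) / Y * Real.log (3 * Y) := by
  have hY' : (2 : ℝ) ≤ Y := by exact_mod_cast hY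
  have hd' : (Y : ℝ) ≤ d := by exact_mod_cast hd
  have hY0 : (0 : ℝ) < Y := by linarith
  have hd0 : (0 : ℝ) < d := by linarith
  have h1 : Real.log (3 * d) = Real.log (3 * Y) + Real.log (d / Y) := by
    rw [← Real.log_mul (by positivity) (by positivity)]
    congr 1
    field_simp
  have h2 : Real.log ((d : ℝ) / Y) ≤ d / Y - 1 := Real.log_le_sub_one_of_pos (by positivity)
  have h3 : 1 ≤ Real.log (3 * Y) := by
    have h4 : Real.exp 1 ≤ 3 * Y := by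
      have := Real.exp_one_lt_d9
      linarith
    have h5 := Real.log_le_log (Real.exp_pos 1) h4
    rwa [Real.log_exp] at h5
  have h4 : 0 ≤ (d : ℝ) / Y - 1 := by
    rw [sub_nonneg, le_div_iff₀ hY0]
    linarith
  rw [h1]
  nlinarith

theorem gal_sum : ∃ g₀ : ℕ, ∀ {X : Type} [Fintype X] {c : Equiv.Perm X}
    {𝒢 : Subgroup (Equiv.Perm X)} {g : ℕ}, Sys c 𝒢 g → ∀ x₀ : X, g₀ ≤ g → ∀ Y : ℕ, 2 ≤ Y →
    ∀ 𝒲 : Finset (Submodule ℚ (X → ℚ)), (∀ W ∈ 𝒲, Smp c 𝒢 W ∧ Gal 𝒢 W ∧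
      2 ≤ finrank ℚ (Endo 𝒢 W) ∧ Y ≤ finrank ℚ W ∧ finrank ℚ W ^ 20 ≤ g ^ 19) →
    ∑ W ∈ 𝒲, finrank ℚ W * (finrank ℚ (Fix 𝒢 x₀ W) / finrank ℚ (Endo 𝒢 W)) ≤ g →
    ∑ W ∈ 𝒲, (Nat.card (Fail c 𝒢 W) : ℝ) ≤
      2 ^ g * ((g : ℝ) ^ (-(1 / 50) : ℝ) + 768 * Real.log (3 * Y) / Y) := by
  classical
  obtain ⟨g₁, hB⟩ := gal_mid
  obtain ⟨g₂, hA⟩ := galsum_asymp
  refine ⟨max g₁ g₂, ?_⟩
  intro X _ c 𝒢 g hS x₀ hg Y hY 𝒲 h𝒲 hsum
  have hg1 : g₁ ≤ g := (le_max_left _ _).trans hg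
  have hg2 : g₂ ≤ g := (le_max_right _ _).trans hg
  have hA2 := hA g hg2
  have hgp : 1 ≤ g := hS.pos
  have hgr : (1 : ℝ) ≤ g := by exact_mod_cast hgp
  have hg0 : (0 : ℝ) < g := by linarith
  have hYr : (2 : ℝ) ≤ Y := by exact_mod_cast hY
  have hY0 : (0 : ℝ) < Y := by linarith
  have hQ0 : 0 ≤ (g : ℝ) ^ (-(1 / 50) : ℝ) := Real.rpow_nonneg hg0.le _
  have hR0 : 0 ≤ 768 * Real.log (3 * Y) / Y := by
    have := Real.log_nonneg (show (1 : ℝ) ≤ 3 * Y by linarith)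
    positivity
  have h2g : (0 : ℝ) < 2 ^ g := by positivity
  have key : ∀ W ∈ 𝒲, (Nat.card (Fail c 𝒢 W) : ℝ) ≤
      2 ^ g * ((((finrank ℚ W * (finrank ℚ (Fix 𝒢 x₀ W) / finrank ℚ (Endo 𝒢 W)) : ℕ) : ℝ) / g) *
        ((g : ℝ) ^ (-(1 / 50) : ℝ) + 768 * Real.log (3 * Y) / Y)) := by
    intro W hWm
    obtain ⟨hW, hGal, he2, hYd, hb⟩ := h𝒲 W hWm
    have hfd : finrank ℚ (Fix 𝒢 x₀ W) = finrank ℚ W := (fix_eq_dim hS hW x₀).2 hGal
    have hdg : finrank ℚ W ≤ g := dim_le_g hS hW.2.1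
    have hed := endo_dvd_dim hW
    obtain ⟨hb1, hb2⟩ := hB hS hW hGal x₀ hg1 (hY.trans hYd) he2 hb
    rw [hfd]
    obtain ⟨d, hd⟩ : ∃ d, d = finrank ℚ W := ⟨_, rfl⟩
    obtain ⟨e, hee⟩ : ∃ e, e = finrank ℚ (Endo 𝒢 W) := ⟨_, rfl⟩
    obtain ⟨F, hF⟩ : ∃ F : ℝ, F = (Nat.card (Fail c 𝒢 W) : ℝ) := ⟨_, rfl⟩
    rw [← hd, ← hF] at hb1 hb2
    rw [← hee] at hb2 he2
    rw [← hd] at hdg hYd hed hb
    rw [← hee] at hed
    rw [← hd, ← hee, ← hF]
    have he : 0 < e := by omega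
    have hd2 : 2 ≤ d := hY.trans hYd
    have hn1 : 1 ≤ d / e := Nat.div_pos (Nat.le_of_dvd (by omega) hed) he
    obtain ⟨m, hm⟩ : ∃ m, m = d * (d / e) := ⟨_, rfl⟩
    have hmd : d ≤ m := by
      rw [hm]
      exact Nat.le_mul_of_pos_right d hn1
    rw [← hm]
    have hdr : (2 : ℝ) ≤ d := by exact_mod_cast hd2
    have hdgr : (d : ℝ) ≤ g := by exact_mod_cast hdg
    have hmdr : (d : ℝ) ≤ m := by exact_mod_cast hmd
    have hmg : (d : ℝ) / g ≤ m / g := by gcongr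
    have hdgp : 0 ≤ (d : ℝ) / g := by positivity
    have hmgp : 0 ≤ (m : ℝ) / g := by positivity
    by_cases he3 : 3 ≤ e
    · refine (hb2 he3).trans ?_
      apply mul_le_mul_of_nonneg_left _ h2g.le
      have hL : Real.log (3 * d) ≤ Real.log (3 * g) :=
        Real.log_le_log (by linarith) (by linarith)
      have hL0 : 0 ≤ Real.log (3 * d) := Real.log_nonneg (by linarith)
      have hL30 : 0 ≤ Real.log (3 * g) := Real.log_nonneg (by linarith)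
      have hd19 : (d : ℝ) ≤ (g : ℝ) ^ (19 / 20 : ℝ) := by
        have h4 : (d : ℝ) ^ (20 : ℕ) ≤ (g : ℝ) ^ (19 : ℕ) := by exact_mod_cast hb
        have h5 : (d : ℝ) = (((d : ℝ)) ^ (20 : ℕ)) ^ (1 / 20 : ℝ) := by
          rw [← Real.rpow_natCast, ← Real.rpow_mul (by linarith)]
          norm_num
        have h6 : (g : ℝ) ^ (19 / 20 : ℝ) = (((g : ℝ)) ^ (19 : ℕ)) ^ (1 / 20 : ℝ) := by
          rw [← Real.rpow_natCast, ← Real.rpow_mul hg0.le]
          norm_num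
        rw [h5, h6]
        exact Real.rpow_le_rpow (by positivity) h4 (by norm_num)
      have hdg20 : (d : ℝ) / g ≤ (g : ℝ) ^ (-(1 / 20) : ℝ) := by
        rw [div_le_iff₀ hg0]
        calc (d : ℝ) ≤ (g : ℝ) ^ (19 / 20 : ℝ) := hd19
          _ = (g : ℝ) ^ (-(1 / 20) : ℝ) * g := by
              nth_rewrite 3 [← Real.rpow_one (g : ℝ)]
              rw [← Real.rpow_add hg0]
              norm_num
      have hs : Real.sqrt (d * Real.log (3 * d) / g) ≤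
          Real.sqrt (Real.log (3 * g)) * (g : ℝ) ^ (-(1 / 40) : ℝ) := by
        have h7 : (d : ℝ) * Real.log (3 * d) / g ≤
            Real.log (3 * g) * (g : ℝ) ^ (-(1 / 20) : ℝ) := by
          calc (d : ℝ) * Real.log (3 * d) / g = Real.log (3 * d) * (d / g) := by ring
            _ ≤ Real.log (3 * g) * (g : ℝ) ^ (-(1 / 20) : ℝ) :=
                mul_le_mul hL hdg20 hdgp hL30
        refine (Real.sqrt_le_sqrt h7).trans (le_of_eq ?_)
        rw [Real.sqrt_mul hL30, Real.sqrt_eq_rpow ((g : ℝ) ^ (-(1 / 20) : ℝ)),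
          ← Real.rpow_mul hg0.le]
        norm_num
      calc 4400 * ((d : ℝ) * Real.log (3 * d) / g * Real.sqrt (d * Real.log (3 * d) / g))
          ≤ 4400 * ((d / g * Real.log (3 * g)) *
            (Real.sqrt (Real.log (3 * g)) * (g : ℝ) ^ (-(1 / 40) : ℝ))) := by
            apply mul_le_mul_of_nonneg_left _ (by norm_num)
            apply mul_le_mul _ hs (Real.sqrt_nonneg _) (by positivity)
            calc (d : ℝ) * Real.log (3 * d) / g = d / g * Real.log (3 * d) := by ring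
              _ ≤ d / g * Real.log (3 * g) := mul_le_mul_of_nonneg_left hL hdgp
        _ = d / g * (4400 * (Real.log (3 * g) * Real.sqrt (Real.log (3 * g))) *
            (g : ℝ) ^ (-(1 / 40) : ℝ)) := by ring
        _ ≤ m / g * ((g : ℝ) ^ (-(1 / 50) : ℝ) + 768 * Real.log (3 * Y) / Y) := by
            apply mul_le_mul hmg (by linarith) (by positivity) hmgp
    · have he' : e = 2 := by omega
      refine hb1.trans ?_
      apply mul_le_mul_of_nonneg_left _ h2g.le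
      have hmr : (m : ℝ) = d * (d / 2) := by
        obtain ⟨k, hk⟩ := hed
        rw [he'] at hk
        rw [hm, he', hk, Nat.mul_div_cancel_left k (by norm_num : 0 < 2)]
        push_cast
        ring
      have h3 := galsum_log d Y hY hYd
      calc 384 * ((d : ℝ) * Real.log (3 * d) / g)
          ≤ 384 * ((d * ((d : ℝ) / Y * Real.log (3 * Y))) / g) := by gcongr
        _ = m / g * (768 * Real.log (3 * Y) / Y) := by rw [hmr]; ring
        _ ≤ m / g * ((g : ℝ) ^ (-(1 / 50) : ℝ) + 768 * Real.log (3 * Y) / Y) := by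
            apply mul_le_mul_of_nonneg_left _ hmgp
            linarith
  refine (Finset.sum_le_sum key).trans ?_
  rw [← Finset.mul_sum, ← Finset.sum_mul, ← Finset.sum_div, ← Nat.cast_sum]
  apply mul_le_mul_of_nonneg_left _ h2g.le
  have h1 : ((∑ W ∈ 𝒲, finrank ℚ W * (finrank ℚ (Fix 𝒢 x₀ W) / finrank ℚ (Endo 𝒢 W)) : ℕ) : ℝ) / g
      ≤ 1 := by
    rw [div_le_one hg0]
    exact_mod_cast hsum
  calc _ ≤ 1 * ((g : ℝ) ^ (-(1 / 50) : ℝ) + 768 * Real.log (3 * Y) / Y) :=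
        mul_le_mul_of_nonneg_right h1 (by linarith)
    _ = _ := one_mul _

end Pool.Agent.H52.CS
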