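import Mathlib
import Pool.Agent.H52.AD.Schur
import Pool.Agent.H52.AD.Dims
import Pool.Agent.H52.CS.Defs
import Pool.Agent.H52.CS.TrBd
import Pool.Agent.H52.CS.TrOp

/-!
# Twice the degree divides the order of the group (module H52 CS DimDvd)

`W` simple, `d = e n` (`endo_dvd_dim`): `2 n` divides the order of `Γ = Gr`.

PROOF.  `Γ` is finite (`gm_finite`, `card_Gr`, `gm_pos`).  By `tr_op`, `z w = (|Γ| / n) w` for `w ∈ W`, where
`z = ∑_γ m_γ γ`, `m_γ = tr(γ⁻¹) ∈ ℤ` (`tr_int_bd`).  Let `L = redB_L W` be the lattice of the integer valued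
functions in `W`; it is not zero (`rediso_mult`).  For `w ∈ L` and `x ∈ X` the rational number `(z w)(x)` is an
even integer: it is `∑_γ m_γ (γ w)(x)`, a sum of integers, and the terms of `γ` and `-γ` are equal
(`-1 ∈ Γ` since `c ∈ 𝒢` acts as `-1` on the odd functions; `m_{-γ} = - m_γ`, `(-γ) w = - γ w`), and
`γ ≠ -γ`; use `Finset.sum_involution` in `ZMod 2`.  So `κ = |Γ| / (2 n)` (a rational number) satisfies
`κ w ∈ L` for all `w ∈ L`.  Write `κ = a / b` in lowest terms.  If `u a + v b = 1` then `w / b = u κ w + v w ∈ L`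
for all `w ∈ L`, so `w / b^k ∈ L` for all `k`; if `b > 1` then all values of `w` are divisible by all powers of
`b`, so `w = 0`: a contradiction to `L ≠ 0`.  So `b = 1` and `2 n` divides `|Γ|`.
-/

namespace Pool.Agent.H52.CS

open Module Pool.Agent.H52.AD

variable {X : Type} [Fintype X] {c : Equiv.Perm X} {𝒢 : Subgroup (Equiv.Perm X)} {g : ℕ}
  {W : Submodule ℚ (X → ℚ)}

omit [Fintype X] in
theorem dimdvd_lat (W : Submodule ℚ (X → ℚ)) (M N : ℕ) (hM : 0 < M)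
    (w₀ : X → ℤ) (x₀ : X) (h0 : w₀ x₀ ≠ 0) (hw0 : (fun x => (w₀ x : ℚ)) ∈ W)
    (h : ∀ w : X → ℤ, (fun x => (w x : ℚ)) ∈ W → ∀ x, (M : ℤ) ∣ N * w x) : M ∣ N := by
  obtain ⟨b, a, hco, hb, ha⟩ := Nat.exists_coprime M N
  have hg : 0 < Nat.gcd M N := Nat.gcd_pos_of_pos_left _ hM
  by_contra hc
  have hb0 : b ≠ 0 := by
    rintro rfl
    rw [zero_mul] at hb
    omega
  have hb1 : b ≠ 1 := by
    rintro rfl
    apply hc
    rw [one_mul] at hb
    rw [hb]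
    exact Nat.gcd_dvd_right M N
  have hdiv : ∀ w : X → ℤ, (fun x => (w x : ℚ)) ∈ W → ∀ x, (b : ℤ) ∣ w x := by
    intro w hw x
    have h1 := h w hw x
    have h2 : (M : ℤ) = b * (Nat.gcd M N : ℕ) := by exact_mod_cast hb
    have h3 : (N : ℤ) = a * (Nat.gcd M N : ℕ) := by exact_mod_cast ha
    rw [h2] at h1
    have h4 : (N : ℤ) * w x = (a * w x) * (Nat.gcd M N : ℕ) := by
      conv_lhs => rw [h3]
      ring
    rw [h4] at h1
    have h5 : (b : ℤ) ∣ a * w x :=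
      Int.dvd_of_mul_dvd_mul_right (by exact_mod_cast hg.ne') h1
    have h6 : IsCoprime (b : ℤ) (a : ℤ) := Nat.isCoprime_iff_coprime.2 hco
    exact h6.dvd_of_dvd_mul_left h5
  have key : ∀ k : ℕ, ∀ w : X → ℤ, (fun x => (w x : ℚ)) ∈ W → (w x₀).natAbs = k → w x₀ = 0 := by
    intro k
    induction k using Nat.strong_induction_on with
    | _ k ih =>
      intro w hw hk
      by_contra hne
      choose w' hw' using hdiv w hw
      have hbQ : (b : ℚ) ≠ 0 := by exact_mod_cast hb0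
      have h1 : (fun x => (w' x : ℚ)) ∈ W := by
        have h2 : (fun x => (w' x : ℚ)) = (b : ℚ)⁻¹ • fun x => (w x : ℚ) := by
          funext x
          rw [Pi.smul_apply, smul_eq_mul, hw' x]
          push_cast
          rw [inv_mul_cancel_left₀ hbQ]
        rw [h2]
        exact W.smul_mem _ hw
      have h3 : (w x₀).natAbs = b * (w' x₀).natAbs := by
        rw [hw' x₀, Int.natAbs_mul, Int.natAbs_natCast]
      have h4 : w' x₀ ≠ 0 := by
        intro h5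
        apply hne
        rw [hw' x₀, h5, mul_zero]
      have h6 : 0 < (w' x₀).natAbs := Int.natAbs_pos.2 h4
      have h7 : (w' x₀).natAbs < k := by
        rw [← hk, h3]
        have h8 : 2 ≤ b := by omega
        nlinarith
      exact h4 (ih _ h7 w' h1 rfl)
  exact h0 (key _ w₀ hw0 rfl)

theorem dimdvd_even {G : Type} [Fintype G] (F : G → ℤ) (σ : G → G) (h1 : ∀ a, F (σ a) = F a)
    (h2 : ∀ a, σ a ≠ a) (h3 : ∀ a, σ (σ a) = a) : (2 : ℤ) ∣ ∑ a, F a := by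
  have h : ((∑ a, F a : ℤ) : ZMod 2) = 0 := by
    push_cast
    refine Finset.sum_involution (fun a _ => σ a) ?_ ?_ ?_ ?_
    · intro a _
      rw [h1]
      exact CharTwo.add_self_eq_zero _
    · intro a _ _
      exact h2 a
    · intro a _
      exact Finset.mem_univ _
    · intro a _
      exact h3 a
  exact (ZMod.intCast_zmod_eq_zero_iff_dvd _ 2).1 h

theorem dim_dvd (hS : Sys c 𝒢 g) (hW : Smp c 𝒢 W) :
    ∃ n : ℕ, finrank ℚ W = finrank ℚ (Endo 𝒢 W) * n ∧ 2 * n ∣ Nat.card (Gm 𝒢 W) := by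
  classical
  obtain ⟨n, hn⟩ := endo_dvd_dim hW
  refine ⟨n, hn, ?_⟩
  have he := endo_pos hW
  have hst : Stb 𝒢 W := hW.2.2.1
  obtain ⟨f₀, hf₀, hf₀0⟩ := W.ne_bot_iff.1 hW.1
  obtain ⟨x₀, hx₀⟩ : ∃ x, f₀ x ≠ 0 := by
    by_contra h
    push Not at h
    exact hf₀0 (funext h)
  have hd : 0 < finrank ℚ W := by
    have : Nontrivial W := ⟨⟨⟨f₀, hf₀⟩, 0, fun h => hf₀0 (congrArg Subtype.val h)⟩⟩
    exact Module.finrank_pos
  have hn0 : 0 < n := by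
    rcases Nat.eq_zero_or_pos n with h | h
    · rw [h, mul_zero] at hn
      omega
    · exact h
  obtain ⟨D, hD, w₀, hw₀⟩ := rediso_mult f₀
  have hw₀W : (fun x => (w₀ x : ℚ)) ∈ W := by
    have h1 : (fun x => (w₀ x : ℚ)) = (D : ℚ) • f₀ := by
      funext x
      rw [Pi.smul_apply, smul_eq_mul, hw₀]
    rw [h1]
    exact W.smul_mem _ hf₀
  have hw₀x : w₀ x₀ ≠ 0 := by
    intro h
    have h1 := hw₀ x₀
    rw [h, Int.cast_zero] at h1
    rcases mul_eq_zero.1 h1 with h2 | h2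
    · exact hD (by exact_mod_cast h2)
    · exact hx₀ h2
  refine dimdvd_lat W (2 * n) _ (by omega) w₀ x₀ hw₀x hw₀W ?_
  intro w hw x
  have hfin : Finite (Gr hst) :=
    Finite.of_surjective (rediso_op hst).rangeRestrict (rediso_op hst).rangeRestrict_surjective
  letI : Fintype (Gr hW.2.2.1) := Fintype.ofFinite _
  -- the traces
  have htr : ∀ γ : Gr hst, ∃ m : ℤ,
      LinearMap.trace ℚ W (((γ : W ≃ₗ[ℚ] W)⁻¹ : W ≃ₗ[ℚ] W) : W →ₗ[ℚ] W) = m := by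
    intro γ
    obtain ⟨m, hm, -⟩ := tr_int_bd hst ((γ : W ≃ₗ[ℚ] W)⁻¹) ((Gr hst).inv_mem γ.2)
    exact ⟨m, hm⟩
  choose m hm using htr
  -- the values
  have hv : ∀ γ : Gr hst, ∃ v : ℤ,
      (((γ : W ≃ₗ[ℚ] W) ⟨_, hw⟩ : W) : X → ℚ) x = v := by
    intro γ
    obtain ⟨π, -, h⟩ := (mem_Gr hst γ).1 γ.2
    exact ⟨w (π⁻¹ x), h _ x⟩
  choose v hv using hv
  -- minus one
  obtain ⟨ε, hε⟩ : ∃ ε : Gr hst, ∀ f : W, (ε : W ≃ₗ[ℚ] W) f = - f := by
    refine ⟨⟨rediso_op hst ⟨c, hS.mem⟩, ⟨_, rfl⟩⟩, fun f => ?_⟩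
    apply Subtype.ext
    funext y
    change (f : X → ℚ) (c⁻¹ y) = - (f : X → ℚ) y
    have h1 := hW.2.1 f f.2 (c⁻¹ y)
    have h2 : c (c⁻¹ y) = y := c.apply_symm_apply y
    rw [h2] at h1
    rw [h1, neg_neg]
  have hε2 : ε * ε = 1 := by
    apply Subtype.ext
    ext1 f
    change (ε : W ≃ₗ[ℚ] W) ((ε : W ≃ₗ[ℚ] W) f) = f
    rw [hε, hε, neg_neg]
  have hεv : ∀ γ : Gr hst, v (ε * γ) = - v γ := by
    intro γ
    have h1 : ((v (ε * γ) : ℤ) : ℚ) = ((- v γ : ℤ) : ℚ) := by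
      rw [← hv, Int.cast_neg, ← hv]
      change (((ε : W ≃ₗ[ℚ] W) ((γ : W ≃ₗ[ℚ] W) ⟨_, hw⟩) : W) : X → ℚ) x = _
      rw [hε]
      rfl
    exact_mod_cast h1
  have hεm : ∀ γ : Gr hst, m (ε * γ) = - m γ := by
    intro γ
    have h1 : ((m (ε * γ) : ℤ) : ℚ) = ((- m γ : ℤ) : ℚ) := by
      rw [← hm, Int.cast_neg, ← hm, ← map_neg]
      congr 1
      ext1 f
      have h2 : (ε * γ)⁻¹ = γ⁻¹ * ε := by
        rw [mul_inv_rev, eq_comm]
        congr 1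
        exact eq_inv_of_mul_eq_one_left hε2
      have h3 : ((((ε * γ : Gr hst) : W ≃ₗ[ℚ] W))⁻¹ : W ≃ₗ[ℚ] W) =
          (γ : W ≃ₗ[ℚ] W)⁻¹ * (ε : W ≃ₗ[ℚ] W) := congrArg Subtype.val h2
      rw [h3]
      change ((γ : W ≃ₗ[ℚ] W)⁻¹ : W ≃ₗ[ℚ] W) ((ε : W ≃ₗ[ℚ] W) f) =
        - ((γ : W ≃ₗ[ℚ] W)⁻¹ : W ≃ₗ[ℚ] W) f
      rw [hε, map_neg]
    exact_mod_cast h1
  have heven : (2 : ℤ) ∣ ∑ γ : Gr hst, m γ * v γ := by
    refine dimdvd_even _ (fun γ => ε * γ) ?_ ?_ ?_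
    · intro γ
      rw [hεv, hεm, neg_mul_neg]
    · intro γ h
      have h1 : ε = 1 := mul_eq_right.1 h
      have h2 := hε ⟨f₀, hf₀⟩
      rw [h1] at h2
      have h3 := congrFun (congrArg Subtype.val h2) x₀
      change f₀ x₀ = - f₀ x₀ at h3
      apply hx₀
      linarith
    · intro γ
      rw [← mul_assoc, hε2, one_mul]
  obtain ⟨T, hT⟩ := heven
  refine ⟨T, ?_⟩
  have hop := congrFun (congrArg Subtype.val (tr_op hW ⟨_, hw⟩)) x
  have hsum : (((∑ γ : Gr hst,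
      LinearMap.trace ℚ W (((γ : W ≃ₗ[ℚ] W)⁻¹ : W ≃ₗ[ℚ] W) : W →ₗ[ℚ] W) •
        (γ : W ≃ₗ[ℚ] W) ⟨_, hw⟩ : W) : W) : X → ℚ) x = ((∑ γ : Gr hst, m γ * v γ : ℤ) : ℚ) := by
    rw [Submodule.coe_sum, Finset.sum_apply, Int.cast_sum]
    refine Finset.sum_congr rfl fun γ _ => ?_
    rw [Submodule.coe_smul, Pi.smul_apply, hv, hm, smul_eq_mul, Int.cast_mul]
  rw [Submodule.coe_smul, Pi.smul_apply, hsum, Submodule.coe_smul, Pi.smul_apply, hT, hn,
    smul_eq_mul, smul_eq_mul] at hop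
  have heQ : ((finrank ℚ (Endo 𝒢 W) : ℕ) : ℚ) ≠ 0 := by exact_mod_cast he.ne'
  have h9 : ((Nat.card (Gm 𝒢 W) : ℕ) : ℚ) * (w x : ℚ) = ((2 * n : ℕ) : ℚ) * (T : ℚ) := by
    push_cast at hop ⊢
    apply mul_left_cancel₀ heQ
    linear_combination -hop
  exact_mod_cast h9

end Pool.Agent.H52.CS
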