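import Mathlib
import Pool.Agent.H52.AD.Defs

/-!
# At most one line if `g` is odd (module H52 CS DimOne)

PROOF.  Let `W = ℚ f`, `W' = ℚ f'` be simple of dimension one (`finrank_eq_one_iff'`).  For `π ∈ 𝒢`, `f ∘ π` is a
multiple `t f`; comparing `∑ x, f x ^ 2` we get `t = ± 1` (`f ≠ 0`).  As `𝒢` is transitive, `|f|` is constant and
not zero.  The same for `f'`.  Let `h = f f'`: `h (c x) = h x` (both are odd), and `h ∘ π = ± h` for `π ∈ 𝒢`.
So `|h|` is a constant `a > 0`.  Let `S = {x | h x = a}`; its complement is `{x | h x = -a}`.  `S` is stable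
under the fixed point free involution `c`, so `|S|` is even.  If both `S` and its complement are not empty, take
`x ∈ S`, `y ∉ S` and `π ∈ 𝒢` with `π x = y`: then `h ∘ π = - h`, so `π` exchanges `S` and its complement, and
`2 |S| = |X| = 2 g`, so `g = |S|` is even: contradiction.  So `h` is constant, `f' = h / f`, and since
`f ^ 2` is a constant, `f'` is a multiple of `f`, and `W = W'`.
-/

namespace Pool.Agent.H52.CS

open Module Pool.Agent.H52.AD

variable {X : Type} [Fintype X] {c : Equiv.Perm X} {𝒢 : Subgroup (Equiv.Perm X)} {g : ℕ}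
  {W W' : Submodule ℚ (X → ℚ)}

private theorem dim_one_gen (hS : Sys c 𝒢 g) (hW : Smp c 𝒢 W) (h : finrank ℚ W = 1) :
    ∃ f ∈ W, (∀ w ∈ W, ∃ t : ℚ, w = t • f) ∧ (∀ x, f (c x) = - f x) ∧ (∀ x, f x ≠ 0) ∧
      (∀ x y, f x ^ 2 = f y ^ 2) ∧ ∀ π ∈ 𝒢, ∃ t : ℚ, (t = 1 ∨ t = -1) ∧ ∀ x, f (π x) = t * f x := by
  obtain ⟨hne, hodd, hstb, -⟩ := hW
  obtain ⟨v, hv0, hv⟩ := finrank_eq_one_iff'.1 h
  obtain ⟨f, hf⟩ : ∃ f : X → ℚ, f = v := ⟨_, rfl⟩
  have hfW : f ∈ W := by rw [hf]; exact v.2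
  have hf0 : f ≠ 0 := by
    rw [hf]
    intro h0
    exact hv0 (Subtype.ext h0)
  have hspan : ∀ w ∈ W, ∃ t : ℚ, w = t • f := by
    intro w hw
    obtain ⟨t, ht⟩ := hv ⟨w, hw⟩
    refine ⟨t, ?_⟩
    have h1 := congrArg Subtype.val ht
    rw [hf]
    exact h1.symm
  have hsum : ∑ x, f x ^ 2 ≠ 0 := by
    intro h0
    apply hf0
    funext x
    have h1 := (Finset.sum_eq_zero_iff_of_nonneg (fun x _ => sq_nonneg (f x))).1 h0 x (Finset.mem_univ x)
    exact pow_eq_zero_iff (two_ne_zero) |>.1 h1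
  have hpi : ∀ π ∈ 𝒢, ∃ t : ℚ, (t = 1 ∨ t = -1) ∧ ∀ x, f (π x) = t * f x := by
    intro π hπ
    obtain ⟨t, ht⟩ := hspan _ (hstb π hπ f hfW)
    have ht' : ∀ x, f (π x) = t * f x := fun x => congrFun ht x
    refine ⟨t, ?_, ht'⟩
    have h1 : ∑ x, f (π x) ^ 2 = ∑ x, f x ^ 2 := Equiv.sum_comp π (fun x => f x ^ 2)
    have h2 : ∑ x, f (π x) ^ 2 = t ^ 2 * ∑ x, f x ^ 2 := by
      rw [Finset.mul_sum]
      refine Finset.sum_congr rfl fun x _ => ?_
      rw [ht' x]
      ring
    have h3 : t ^ 2 = 1 := by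
      have h4 : t ^ 2 * ∑ x, f x ^ 2 = 1 * ∑ x, f x ^ 2 := by rw [← h2, h1, one_mul]
      exact mul_right_cancel₀ hsum h4
    have h5 : (t - 1) * (t + 1) = 0 := by linear_combination h3
    rcases mul_eq_zero.1 h5 with h6 | h6
    · exact Or.inl (by linarith)
    · exact Or.inr (by linarith)
  have hsq : ∀ x y, f x ^ 2 = f y ^ 2 := by
    intro x y
    obtain ⟨π, hπ, hxy⟩ := hS.trans x y
    obtain ⟨t, ht, hft⟩ := hpi π hπ
    rw [← hxy, hft x]
    rcases ht with rfl | rfl
    · ring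
    · ring
  refine ⟨f, hfW, hspan, hodd f hfW, ?_, hsq, hpi⟩
  intro x hx
  apply hf0
  funext y
  have h1 := hsq y x
  rw [hx, zero_pow two_ne_zero] at h1
  exact pow_eq_zero_iff (two_ne_zero) |>.1 h1

theorem dim_one_unique (hS : Sys c 𝒢 g) (hg : Odd g) (hW : Smp c 𝒢 W) (hW' : Smp c 𝒢 W')
    (h : finrank ℚ W = 1) (h' : finrank ℚ W' = 1) : W = W' := by
  classical
  obtain ⟨f, hfW, hspan, hfc, hf0, hfsq, hfpi⟩ := dim_one_gen hS hW h
  obtain ⟨f', hfW', hspan', hfc', hf0', hfsq', hfpi'⟩ := dim_one_gen hS hW' h'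
  obtain ⟨k, hk⟩ : ∃ k : X → ℚ, k = fun x => f x * f' x := ⟨_, rfl⟩
  have hkc : ∀ x, k (c x) = k x := by
    intro x
    rw [hk]
    change f (c x) * f' (c x) = f x * f' x
    rw [hfc, hfc']
    ring
  have hk0 : ∀ x, k x ≠ 0 := by
    intro x
    rw [hk]
    exact mul_ne_zero (hf0 x) (hf0' x)
  have hksq : ∀ x y, k x ^ 2 = k y ^ 2 := by
    intro x y
    rw [hk]
    change (f x * f' x) ^ 2 = (f y * f' y) ^ 2
    rw [mul_pow, mul_pow, hfsq x y, hfsq' x y]
  have hkpi : ∀ π ∈ 𝒢, ∃ t : ℚ, ∀ x, k (π x) = t * k x := by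
    intro π hπ
    obtain ⟨t, -, ht⟩ := hfpi π hπ
    obtain ⟨t', -, ht'⟩ := hfpi' π hπ
    refine ⟨t * t', fun x => ?_⟩
    rw [hk]
    change f (π x) * f' (π x) = t * t' * (f x * f' x)
    rw [ht x, ht' x]
    ring
  have hconst : ∀ x y, k y = k x := by
    intro x y
    by_contra hxy
    have hyx : k y = - k x := by
      rcases sq_eq_sq_iff_eq_or_eq_neg.1 (hksq y x) with h1 | h1
      · exact absurd h1 hxy
      · exact h1
    obtain ⟨π, hπ, hπx⟩ := hS.trans x y
    obtain ⟨t, ht⟩ := hkpi π hπ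
    have ht1 : t = -1 := by
      have h1 := ht x
      rw [hπx, hyx] at h1
      have h2 : (-1 : ℚ) * k x = t * k x := by rw [← h1]; ring
      exact (mul_right_cancel₀ (hk0 x) h2).symm
    obtain ⟨S, hSdef⟩ : ∃ S : Finset X, S = Finset.univ.filter (fun z => k z = k x) := ⟨_, rfl⟩
    have hSm : ∀ z, z ∈ S ↔ k z = k x := by
      intro z
      rw [hSdef, Finset.mem_filter]
      exact ⟨fun h => h.2, fun h => ⟨Finset.mem_univ _, h⟩⟩
    have hScard : S.card = Sᶜ.card := by
      refine Finset.card_bij (fun z _ => π z) ?_ ?_ ?_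
      · intro z hz
        rw [Finset.mem_compl, hSm, ht z, ht1, (hSm z).1 hz]
        intro h1
        apply hk0 x
        linarith
      · intro z _ w _ hzw
        exact π.injective hzw
      · intro w hw
        refine ⟨π.symm w, ?_, π.apply_symm_apply w⟩
        rw [hSm]
        rw [Finset.mem_compl, hSm] at hw
        have h1 := ht (π.symm w)
        rw [π.apply_symm_apply, ht1] at h1
        rcases sq_eq_sq_iff_eq_or_eq_neg.1 (hksq w x) with h2 | h2
        · exact absurd h2 hw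
        · rw [h2] at h1
          linarith
    have hSg : S.card = g := by
      have h1 := Finset.card_add_card_compl S
      rw [hS.card, ← hScard] at h1
      omega
    have hSe : Even S.card := by
      have h1 : ∑ z ∈ S, (1 : ZMod 2) = 0 := by
        refine Finset.sum_involution (fun z _ => c z) ?_ ?_ ?_ ?_
        · intro z _
          decide
        · intro z _ _
          exact hS.ne z
        · intro z hz
          rw [hSm, hkc]
          exact (hSm z).1 hz
        · intro z _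
          exact hS.cc z
      rw [Finset.sum_const, nsmul_eq_mul, mul_one] at h1
      exact (ZMod.natCast_eq_zero_iff_even).1 h1
    rw [hSg] at hSe
    exact (Nat.not_even_iff_odd.2 hg) hSe
  have hX : Nonempty X := by
    rw [← Fintype.card_pos_iff, hS.card]
    have := hS.pos
    omega
  obtain ⟨x₀⟩ := hX
  have hff : f' = (k x₀ / f x₀ ^ 2) • f := by
    funext x
    have h1 : f x * f' x = k x₀ := by
      have h2 := hconst x₀ x
      rw [hk] at h2 ⊢
      exact h2
    rw [Pi.smul_apply, smul_eq_mul, ← h1, ← hfsq x x₀]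
    have h3 := hf0 x
    field_simp
  have hle : W' ≤ W := by
    intro w hw
    obtain ⟨t, rfl⟩ := hspan' w hw
    refine W.smul_mem t ?_
    rw [hff]
    exact W.smul_mem _ hfW
  exact (Submodule.eq_of_le_of_finrank_eq hle (by rw [h, h'])).symm

end Pool.Agent.H52.CS
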