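import Mathlib
import Pool.Agent.H52.AD.Base
import Pool.Agent.H52.AD.Dims
import Pool.Agent.H52.CS.Defs

/-!
# The order of the group in the Galois case (module H52 CS GalCard)

If all stabilisers of points act trivially on `W` (`Gal 𝒢 W`) then `|Γ|`, `Γ = Gr`, divides `2 g`.

PROOF.  `Γ` is the range of the homomorphism `ρ = rediso_op hst : 𝒢 →* (W ≃ₗ[ℚ] W)`, so `|Γ|` is the index of
`ker ρ` in `𝒢` (`Subgroup.index_ker`, `card_Gr`).  `𝒢` acts transitively on `X`, `|X| = 2 g`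
(take the action of `𝒢` as a subgroup of `Equiv.Perm X`), so the stabiliser of `x₀` has index `2 g` in `𝒢`
(`MulAction.index_stabilizer`, or orbit-stabiliser); it is contained in `ker ρ` by `Gal 𝒢 W`.  Use
`Subgroup.index_dvd_of_le`.
-/

namespace Pool.Agent.H52.CS

open Module Pool.Agent.H52.AD

variable {X : Type} [Fintype X] {c : Equiv.Perm X} {𝒢 : Subgroup (Equiv.Perm X)} {g : ℕ}
  {W : Submodule ℚ (X → ℚ)}

theorem gal_card_dvd (hS : Sys c 𝒢 g) (hW : Smp c 𝒢 W) (hG : Gal 𝒢 W) :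
    Nat.card (Gm 𝒢 W) ∣ 2 * g := by
  classical
  have hst : Stb 𝒢 W := hW.2.2.1
  have hne : Nonempty X := by
    rw [← Fintype.card_pos_iff, hS.card]
    have := hS.pos
    omega
  obtain ⟨x₀⟩ := hne
  have h1 : Nat.card (Gm 𝒢 W) = (rediso_op hst).ker.index := by
    rw [← rediso_card hst, Subgroup.index_ker]
  have h2 : MulAction.stabilizer 𝒢 x₀ ≤ (rediso_op hst).ker := by
    intro π hπ
    rw [MulAction.mem_stabilizer_iff] at hπ
    have hπ0 : (π : Equiv.Perm X) x₀ = x₀ := hπ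
    rw [MonoidHom.mem_ker]
    apply LinearEquiv.ext
    intro f
    apply Subtype.ext
    funext x
    rw [rediso_op_apply]
    have h3 := hG f f.2 ((π : Equiv.Perm X)⁻¹) (𝒢.inv_mem π.2) ⟨x₀, by
      rw [Equiv.Perm.inv_eq_iff_eq]
      exact hπ0.symm⟩ x
    rw [h3]
    rfl
  have h4 : (MulAction.stabilizer 𝒢 x₀).index = 2 * g := by
    haveI : MulAction.IsPretransitive 𝒢 X := ⟨fun x y => by
      obtain ⟨π, hπ, h⟩ := hS.trans x y
      exact ⟨⟨π, hπ⟩, h⟩⟩
    rw [MulAction.index_stabilizer_of_transitive, Nat.card_eq_fintype_card, hS.card]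
  rw [h1, ← h4]
  exact Subgroup.index_dvd_of_le h2

end Pool.Agent.H52.CS
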