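import Mathlib
import Pool.Agent.H52.AD.Base
import Pool.Agent.H52.AD.Dims
import Pool.Agent.H52.CS.Defs

/-!
# The order of the group in the reflection case (module H52 CS RefCard)

If `dim (Fix 𝒢 x₀ W) + 1 = dim W` then `|Γ|`, `Γ = Gr`, divides `4 g`.

PROOF.  `Γ` is the range of `ρ = rediso_op hst : 𝒢 →* (W ≃ₗ[ℚ] W)`.  Let `H ≤ 𝒢` be the stabiliser of `x₀`
(index `2 g`, since `𝒢` is transitive and `|X| = 2 g`), and `H' = ρ(H)`.  (1) `|H'|` divides `2`: let
`U = Fix 𝒢 x₀ W` (as a subspace of `W`), of codimension one.  There is `a ∈ W`, `a ≠ 0`, orthogonal to `U` for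
the form `∑ x, u x * v x` (positive definite and invariant under `𝒢`), and `W = U + ℚ a`.  Every `h ∈ H'` is the
identity on `U` and preserves the form, so `h a` is orthogonal to `U`, so `h a = t a` with `t² = 1`; and `h` is
determined by `t = ± 1`.  So `H'` has one or two elements.  (2) `|Γ| = [Γ : H'] |H'|`, and `[Γ : H']` divides
`[𝒢 : H] = 2 g`: the index of the image of `H` under the surjection `𝒢 → Γ` is the index of
`H ⊔ ker ρ` (`Subgroup.index_map`), which divides the index of `H` (`Subgroup.index_dvd_of_le`).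
-/

namespace Pool.Agent.H52.CS

open Module Pool.Agent.H52.AD

variable {X : Type} [Fintype X] {c : Equiv.Perm X} {𝒢 : Subgroup (Equiv.Perm X)} {g : ℕ}
  {W : Submodule ℚ (X → ℚ)}

/-- the form `∑ u v` as a pairing of `W` and `U` -/
noncomputable def refcard_L (W U : Submodule ℚ (X → ℚ)) : W →ₗ[ℚ] (U →ₗ[ℚ] ℚ) :=
  LinearMap.mk₂ ℚ (fun w u => ∑ x, (w : X → ℚ) x * (u : X → ℚ) x)
    (by
      intro a b u
      simp only [Submodule.coe_add, Pi.add_apply, add_mul]
      rw [Finset.sum_add_distrib])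
    (by
      intro s a u
      simp only [Submodule.coe_smul, Pi.smul_apply, smul_eq_mul, mul_assoc]
      rw [Finset.mul_sum])
    (by
      intro a u v
      simp only [Submodule.coe_add, Pi.add_apply, mul_add]
      rw [Finset.sum_add_distrib])
    (by
      intro s a u
      simp only [Submodule.coe_smul, Pi.smul_apply, smul_eq_mul, mul_left_comm]
      rw [Finset.mul_sum])

theorem refcard_inv (u v : X → ℚ) (π : Equiv.Perm X) :
    ∑ x, u (π x) * v (π x) = ∑ x, u x * v x :=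
  Equiv.sum_comp π (fun x => u x * v x)

theorem refcard_self {u : X → ℚ} (h : ∑ x, u x * u x = 0) : u = 0 := by
  funext x
  have h1 := (Finset.sum_eq_zero_iff_of_nonneg (fun y _ => mul_self_nonneg (u y))).1 h x
    (Finset.mem_univ x)
  exact mul_self_eq_zero.1 h1

/-- the functions in `W` orthogonal to the functions in `U` -/
def refcard_K (W U : Submodule ℚ (X → ℚ)) : Submodule ℚ (X → ℚ) where
  carrier := {b | b ∈ W ∧ ∀ u ∈ U, ∑ x, b x * u x = 0}
  add_mem' := by
    rintro a b ⟨ha, ha2⟩ ⟨hb, hb2⟩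
    refine ⟨W.add_mem ha hb, fun u hu => ?_⟩
    simp only [Pi.add_apply, add_mul]
    rw [Finset.sum_add_distrib, ha2 u hu, hb2 u hu, add_zero]
  zero_mem' := ⟨W.zero_mem, fun u _ => by simp⟩
  smul_mem' := by
    rintro s a ⟨ha, ha2⟩
    refine ⟨W.smul_mem s ha, fun u hu => ?_⟩
    simp only [Pi.smul_apply, smul_eq_mul, mul_assoc]
    rw [← Finset.mul_sum, ha2 u hu, mul_zero]

/-- the functions in `W` orthogonal to the fixed functions are the multiples of one function -/
theorem refcard_a (x₀ : X) (h : finrank ℚ (Fix 𝒢 x₀ W) + 1 = finrank ℚ W) :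
    ∃ a : X → ℚ, a ∈ W ∧ a ≠ 0 ∧ (∀ u ∈ Fix 𝒢 x₀ W, ∑ x, a x * u x = 0) ∧
      ∀ b ∈ W, (∀ u ∈ Fix 𝒢 x₀ W, ∑ x, b x * u x = 0) → ∃ s : ℚ, b = s • a := by
  set U := Fix 𝒢 x₀ W with hU
  set L := refcard_L W U with hL
  have hdual : finrank ℚ (U →ₗ[ℚ] ℚ) = finrank ℚ U := Subspace.dual_finrank_eq
  have hker : LinearMap.ker L ≠ ⊥ := LinearMap.ker_ne_bot_of_finrank_lt (by rw [hdual]; omega)
  obtain ⟨a, ha, ha0⟩ := Submodule.exists_mem_ne_zero_of_ne_bot hker
  have hau : ∀ u ∈ U, ∑ x, (a : X → ℚ) x * u x = 0 := by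
    rw [LinearMap.mem_ker] at ha
    intro u hu
    exact LinearMap.congr_fun ha ⟨u, hu⟩
  have haK : (a : X → ℚ) ∈ refcard_K W U := ⟨a.2, hau⟩
  have hKW : refcard_K W U ≤ W := fun b hb => hb.1
  have hdisj : refcard_K W U ⊓ U = ⊥ := by
    rw [Submodule.eq_bot_iff]
    rintro w ⟨hw, hwu⟩
    exact refcard_self (hw.2 w hwu)
  have hsum := Submodule.finrank_sup_add_finrank_inf_eq (refcard_K W U) U
  rw [hdisj, finrank_bot] at hsum
  have hle : finrank ℚ (refcard_K W U ⊔ U : Submodule ℚ (X → ℚ)) ≤ finrank ℚ W :=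
    Submodule.finrank_mono (sup_le hKW (Fix_le 𝒢 x₀ W))
  have h1 : finrank ℚ (refcard_K W U) ≤ 1 := by omega
  refine ⟨a, a.2, fun h0 => ha0 (Subtype.ext h0), hau, ?_⟩
  intro b hb hbu
  have hbK : b ∈ refcard_K W U := ⟨hb, hbu⟩
  obtain ⟨v, hv⟩ := (finrank_le_one_iff (K := ℚ) (V := refcard_K W U)).1 h1
  obtain ⟨s, hs⟩ := hv ⟨a, haK⟩
  obtain ⟨t, ht⟩ := hv ⟨b, hbK⟩
  have h4 : s • (v : X → ℚ) = (a : X → ℚ) := congrArg Subtype.val hs
  have h5 : t • (v : X → ℚ) = b := congrArg Subtype.val ht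
  have hs0 : s ≠ 0 := by
    rintro rfl
    rw [zero_smul] at h4
    exact ha0 (Subtype.ext h4.symm)
  refine ⟨t / s, ?_⟩
  rw [← h5, ← h4, smul_smul, div_mul_cancel₀ _ hs0]

/-- the operators of the stabiliser: determined by the image of `a` -/
theorem refcard_op (hst : Stb 𝒢 W) (x₀ : X) {a : X → ℚ} (haW : a ∈ W) (ha0 : a ≠ 0)
    (hau : ∀ u ∈ Fix 𝒢 x₀ W, ∑ x, a x * u x = 0)
    (hb : ∀ b ∈ W, (∀ u ∈ Fix 𝒢 x₀ W, ∑ x, b x * u x = 0) → ∃ s : ℚ, b = s • a)
    (π : Equiv.Perm X) (hπ : π ∈ 𝒢) (hx : π x₀ = x₀) :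
    (∀ w ∈ W, ∀ x, w (π x) = w x) ∨
    (∀ w ∈ W, ∀ x, w (π x) = w x - 2 * (∑ y, w y * a y) / (∑ y, a y * a y) * a x) := by
  have hA : ∑ y, a y * a y ≠ 0 := fun h => ha0 (refcard_self h)
  -- the difference is a multiple of `a`
  have hdiff : ∀ w ∈ W, ∃ s : ℚ, ∀ x, w (π x) = w x - s * a x := by
    intro w hw
    have hw2 : (fun x => w (π x)) ∈ W := hst π hπ w hw
    obtain ⟨s, hs⟩ := hb (w - fun x => w (π x)) (W.sub_mem hw hw2) (by
      intro u hu
      simp only [Pi.sub_apply, sub_mul]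
      rw [Finset.sum_sub_distrib, sub_eq_zero]
      rw [← refcard_inv w u π]
      refine Finset.sum_congr rfl fun x _ => ?_
      rw [hu.2 π hπ hx x])
    refine ⟨s, fun x => ?_⟩
    have := congrFun hs x
    simp only [Pi.sub_apply, Pi.smul_apply, smul_eq_mul] at this
    linarith
  obtain ⟨t, ht⟩ := hdiff a haW
  have e1 : (1 - t) ^ 2 * ∑ y, a y * a y = ∑ y, a y * a y := by
    conv_rhs => rw [← refcard_inv a a π]
    rw [Finset.mul_sum]
    refine Finset.sum_congr rfl fun y _ => ?_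
    rw [ht y]
    ring
  have e2 : (1 - t) ^ 2 = 1 := by
    have : ((1 - t) ^ 2 - 1) * ∑ y, a y * a y = 0 := by linarith
    rcases mul_eq_zero.1 this with h | h
    · linarith
    · exact absurd h hA
  have e3 : ∀ w ∈ W, ∀ s : ℚ, (∀ x, w (π x) = w x - s * a x) →
      (1 - t) * (∑ y, w y * a y - s * ∑ y, a y * a y) = ∑ y, w y * a y := by
    intro w hw s hs
    conv_rhs => rw [← refcard_inv w a π]
    rw [Finset.mul_sum, ← Finset.sum_sub_distrib, Finset.mul_sum]
    refine Finset.sum_congr rfl fun y _ => ?_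
    rw [ht y, hs y]
    ring
  have e4 : t = 0 ∨ t = 2 := by
    have : t * (t - 2) = 0 := by nlinarith
    rcases mul_eq_zero.1 this with h | h
    · left; exact h
    · right; linarith
  rcases e4 with h | h
  · left
    intro w hw x
    obtain ⟨s, hs⟩ := hdiff w hw
    have h5 := e3 w hw s hs
    rw [h] at h5
    have h6 : s * ∑ y, a y * a y = 0 := by linarith
    have h7 : s = 0 := (mul_eq_zero.1 h6).resolve_right hA
    rw [hs x, h7]
    ring
  · right
    intro w hw x
    obtain ⟨s, hs⟩ := hdiff w hw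
    have h5 := e3 w hw s hs
    rw [h] at h5
    have h6 : s * ∑ y, a y * a y = 2 * ∑ y, w y * a y := by linarith
    have h7 : s = 2 * (∑ y, w y * a y) / ∑ y, a y * a y := by
      rw [eq_div_iff hA]
      exact h6
    rw [hs x, h7]

theorem refl_card_dvd (hS : Sys c 𝒢 g) (hW : Smp c 𝒢 W) (x₀ : X)
    (h : finrank ℚ (Fix 𝒢 x₀ W) + 1 = finrank ℚ W) :
    Nat.card (Gm 𝒢 W) ∣ 4 * g := by
  classical
  have hst := hW.2.2.1
  obtain ⟨a, haW, ha0, hau, hb⟩ := refcard_a x₀ h
  set ρ := rediso_op hst with hρ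
  set H : Subgroup 𝒢 := MulAction.stabilizer 𝒢 x₀ with hH
  have htr : MulAction.IsPretransitive 𝒢 X := ⟨fun x y => by
    obtain ⟨π, hπ, hxy⟩ := hS.trans x y
    exact ⟨⟨π, hπ⟩, hxy⟩⟩
  have hidx : H.index = 2 * g := by
    rw [hH, MulAction.index_stabilizer_of_transitive, Nat.card_eq_fintype_card, hS.card]
  rw [← rediso_card hst]
  set H'' : Subgroup ρ.range := H.map ρ.rangeRestrict with hH''
  have hi : H''.index ∣ 2 * g := by
    rw [← hidx]
    exact Subgroup.index_map_dvd H ρ.rangeRestrict_surjective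
  have hfin : Finite ρ.range := by
    have : Finite 𝒢 := inferInstance
    exact Finite.of_surjective _ ρ.rangeRestrict_surjective
  -- at most two elements
  have hcard : Nat.card H'' ≤ 2 := by
    -- the map to `Prop`-valued test: does the operator fix `a`
    have hinj : Function.Injective (fun γ : H'' =>
        decide ((((γ : ρ.range) : W ≃ₗ[ℚ] W) ⟨a, haW⟩ : W) = ⟨a, haW⟩)) := by
      rintro ⟨γ, hγ⟩ ⟨γ', hγ'⟩ he
      obtain ⟨π, hπ, rfl⟩ := hγ
      obtain ⟨π', hπ', rfl⟩ := hγ'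
      simp only [decide_eq_decide] at he
      have hA : ∑ y, a y * a y ≠ 0 := fun h => ha0 (refcard_self h)
      -- inverse permutations
      have hs : ((π : Equiv.Perm X)⁻¹) x₀ = x₀ := by
        have h1 : (π : Equiv.Perm X) x₀ = x₀ := hπ
        conv_lhs => rw [← h1]
        simp
      have hs' : ((π' : Equiv.Perm X)⁻¹) x₀ = x₀ := by
        have h1 : (π' : Equiv.Perm X) x₀ = x₀ := hπ'
        conv_lhs => rw [← h1]
        simp
      have hop := refcard_op hst x₀ haW ha0 hau hb _ (𝒢.inv_mem π.2) hs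
      have hop' := refcard_op hst x₀ haW ha0 hau hb _ (𝒢.inv_mem π'.2) hs'
      have key : ∀ τ : 𝒢, (((ρ.rangeRestrict τ : ρ.range) : W ≃ₗ[ℚ] W) ⟨a, haW⟩ : W) = ⟨a, haW⟩ ↔
          ∀ x, a ((τ : Equiv.Perm X)⁻¹ x) = a x := by
        intro τ
        constructor
        · intro h1 x
          have h2 := congrArg (fun z : W => (z : X → ℚ) x) h1
          exact h2
        · intro h1
          apply Subtype.ext
          funext x
          exact h1 x
      rw [key, key] at he
      have ane : ∃ x, a x ≠ 0 := by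
        by_contra hcon
        push Not at hcon
        exact ha0 (funext hcon)
      obtain ⟨z, hz⟩ := ane
      have neg_case : ∀ τ : Equiv.Perm X,
          (∀ w ∈ W, ∀ x, w (τ x) = w x - 2 * (∑ y, w y * a y) / (∑ y, a y * a y) * a x) →
          ¬ ∀ x, a (τ x) = a x := by
        intro τ h1 h2
        have h3 := h1 a haW z
        rw [h2 z, mul_div_assoc, div_self hA] at h3
        apply hz
        linarith
      have heq : ∀ w ∈ W, ∀ x, w ((π : Equiv.Perm X)⁻¹ x) = w ((π' : Equiv.Perm X)⁻¹ x) := by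
        rcases hop with h1 | h1 <;> rcases hop' with h2 | h2
        · intro w hw x; rw [h1 w hw x, h2 w hw x]
        · exact absurd (he.1 (fun x => h1 a haW x)) (neg_case _ h2)
        · exact absurd (he.2 (fun x => h2 a haW x)) (neg_case _ h1)
        · intro w hw x; rw [h1 w hw x, h2 w hw x]
      apply Subtype.ext
      apply Subtype.ext
      ext w x
      exact heq w w.2 x
    have := Nat.card_le_card_of_injective _ hinj
    simpa using this
  have hpos : 0 < Nat.card H'' := Nat.card_pos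
  have h2 : Nat.card H'' ∣ 2 := by
    have : Nat.card H'' = 1 ∨ Nat.card H'' = 2 := by omega
    rcases this with h | h <;> rw [h]
    · exact one_dvd 2
  rw [← Subgroup.index_mul_card H'']
  have : 4 * g = 2 * g * 2 := by ring
  rw [this]
  exact mul_dvd_mul hi h2

end Pool.Agent.H52.CS
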