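import Mathlib
import Pool.Agent.H52.AD.Base
import Pool.Agent.H52.AD.Dims
import Pool.Agent.H52.AD.Ldim
import Pool.Agent.H52.CS.Defs
import Pool.Agent.H52.CS.GalCard
import Pool.Agent.H52.CS.RefCard

/-!
# No simple space of dimension two if `g` is prime to six (module H52 CS DimTwo)

PROOF.  Let `W` be simple of dimension two, `Γ = Gr` (finite, order `Nat.card (Gm 𝒢 W)`, `card_Gr`).
`ν = dim (Fix 𝒢 x₀ W)` is `1` or `2` (`fix_pos`, `fix_le_dim`).  If `ν = 2` then `Gal 𝒢 W` (`fix_eq_dim`) and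
`|Γ|` divides `2 g` (`gal_card_dvd`); if `ν = 1` then `|Γ|` divides `4 g` (`refl_card_dvd`).
Let `p` be a prime divisor of `|Γ|`.  By Cauchy's theorem (`exists_prime_orderOf_dvd_card`) there is
`γ ∈ Γ` of order `p`; by `fin_order` (with `k = 1`) `γ = 1` if `2 < p - 1`, so `p ≤ 3`; and `p ≠ 3`, since `3`
does not divide `4 g`.  So `p = 2`, `|Γ|` is a power of two, it divides `4 g`, `g` odd: `|Γ|` divides `4`
(and divides `2` if `ν = 2`).
Case `ν = 2`: `|Γ| ≤ 2`, and `Γ` contains `1` and `-1` (the operator of `c`), so `Γ = {1, -1}` and every line of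
`W` is stable: contradiction to `Smp` (a line of a space of dimension two is neither `⊥` nor `W`).
Case `ν = 1`: let `s ∈ Γ` be the operator of an element of the stabiliser of `x₀` that does not act trivially on
`W` (it exists, otherwise `Fix 𝒢 x₀ W = W`); `s ≠ 1`, and `s ≠ -1` since `s` fixes the line `Fix 𝒢 x₀ W`.
So `1, -1, s, -s` are different and are all elements of `Γ`.  As `s` is the identity on the line `Fix 𝒢 x₀ W`,
all elements of `Γ` preserve this line, which is neither `⊥` nor `W`: contradiction to `Smp`.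
-/

namespace Pool.Agent.H52.CS

open Module Pool.Agent.H52.AD

variable {X : Type} [Fintype X] {c : Equiv.Perm X} {𝒢 : Subgroup (Equiv.Perm X)} {g : ℕ}
  {W : Submodule ℚ (X → ℚ)}

omit [Fintype X] in
theorem dimtwo_neg (v : W) (h : v = - v) : v = 0 := by
  have h1 : v + v = 0 := by
    nth_rewrite 2 [h]
    exact add_neg_cancel v
  have h2 : (2 : ℚ) • v = 0 := by rw [two_smul]; exact h1
  exact (smul_eq_zero.1 h2).resolve_left (by norm_num)

theorem dimtwo_prime (hst : Stb 𝒢 W) (h2 : finrank ℚ W = 2) (hg : Nat.Coprime g 6)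
    (hdvd : Nat.card (Gr hst) ∣ 4 * g) [Finite (Gr hst)] (p : ℕ) (hp : p.Prime)
    (hpd : p ∣ Nat.card (Gr hst)) : p = 2 := by
  have hp3 : p ≠ 3 := by
    rintro rfl
    have h3 : 3 ∣ 4 * g := hpd.trans hdvd
    have h3' : 3 ∣ g := (Nat.Coprime.dvd_mul_left (by norm_num : Nat.Coprime 3 4)).1 h3
    have h4 : 3 ∣ Nat.gcd g 6 := Nat.dvd_gcd h3' (by norm_num)
    rw [hg] at h4
    omega
  by_contra hp2
  have hp4 : p ≠ 4 := by
    rintro rfl
    exact absurd hp (by norm_num)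
  have hp5 : 5 ≤ p := by
    have := hp.two_le
    omega
  haveI : Fact p.Prime := ⟨hp⟩
  obtain ⟨γ, hγ⟩ := exists_prime_orderOf_dvd_card' p hpd
  have hpow : (γ : W ≃ₗ[ℚ] W) ^ p = 1 := by
    have h5 : γ ^ p = 1 := by
      rw [← hγ]
      exact pow_orderOf_eq_one γ
    have h6 := congrArg Subtype.val h5
    simpa using h6
  have hT : (((γ : W ≃ₗ[ℚ] W) : W →ₗ[ℚ] W)) ^ (p ^ 1) = 1 := by
    rw [pow_one]
    have h7 : ∀ (n : ℕ), (((γ : W ≃ₗ[ℚ] W) : W →ₗ[ℚ] W)) ^ n =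
        ((((γ : W ≃ₗ[ℚ] W) ^ n : W ≃ₗ[ℚ] W)) : W →ₗ[ℚ] W) := by
      intro n
      induction n with
      | zero => rfl
      | succ n ih =>
        rw [pow_succ, ih, pow_succ]
        rfl
    rw [h7, hpow]
    rfl
  have h8 := fin_order _ p 1 hp hT (by omega)
  have h9 : γ = 1 := by
    apply Subtype.ext
    apply LinearEquiv.toLinearMap_injective
    exact h8
  rw [h9, orderOf_one] at hγ
  omega

theorem dimtwo_pow (hst : Stb 𝒢 W) (h2 : finrank ℚ W = 2) (hg : Nat.Coprime g 6)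
    (hdvd : Nat.card (Gr hst) ∣ 4 * g) [Finite (Gr hst)] : Nat.Coprime (Nat.card (Gr hst)) g := by
  have h0 : Nat.card (Gr hst) ≠ 0 := Nat.card_pos.ne'
  have hg2 : Nat.Coprime 2 g := by
    have : Nat.Coprime g 2 := Nat.Coprime.coprime_dvd_right (by norm_num : 2 ∣ 6) hg
    exact this.symm
  rw [Nat.eq_prime_pow_of_unique_prime_dvd h0
    (fun {d} hd hdd => dimtwo_prime hst h2 hg hdvd d hd hdd)]
  exact Nat.Coprime.pow_left _ hg2

theorem dimtwo_mem (hst : Stb 𝒢 W) (π : 𝒢) : rediso_op hst π ∈ Gr hst := ⟨π, rfl⟩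

/-- the operator of `c` is `-1` -/
theorem dimtwo_c (hS : Sys c 𝒢 g) (ho : Odd1 c W) (hst : Stb 𝒢 W) (f : W) :
    rediso_op hst ⟨c, hS.mem⟩ f = - f := by
  apply Subtype.ext
  funext x
  rw [rediso_op_apply]
  have hc : (c⁻¹ : Equiv.Perm X) x = c x := by
    rw [Equiv.Perm.inv_eq_iff_eq]
    exact (hS.cc x).symm
  change (f : X → ℚ) ((c⁻¹ : Equiv.Perm X) x) = _
  rw [hc, ho f f.2]
  rfl

theorem dimtwo_line (hW : Smp c 𝒢 W) (h2 : finrank ℚ W = 2) (U : Submodule ℚ (X → ℚ))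
    (hU : U ≤ W) (hd : finrank ℚ U = 1) (hstU : Stb 𝒢 U) : False := by
  rcases hW.2.2.2 U hU hstU with h | h
  · rw [h, finrank_bot] at hd
    omega
  · rw [h, h2] at hd
    omega

theorem dimtwo_gal (hS : Sys c 𝒢 g) (hW : Smp c 𝒢 W) (hg : Nat.Coprime g 6)
    (h2 : finrank ℚ W = 2) (hG : Gal 𝒢 W) : False := by
  classical
  have hst := hW.2.2.1
  have hcard := card_Gr hst
  have hpos : 0 < Nat.card (Gr hst) := by
    rw [hcard]
    exact gm_pos hst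
  haveI : Finite (Gr hst) := Nat.finite_of_card_ne_zero hpos.ne'
  have hd2 : Nat.card (Gr hst) ∣ 2 * g := by
    rw [hcard]
    exact gal_card_dvd hS hW hG
  have hd4 : Nat.card (Gr hst) ∣ 4 * g := hd2.trans ⟨2, by ring⟩
  have hcop := dimtwo_pow hst h2 hg hd4
  have hle : Nat.card (Gr hst) ≤ 2 := Nat.le_of_dvd (by norm_num) (hcop.dvd_of_dvd_mul_right hd2)
  obtain ⟨f, hf, hf0⟩ := W.ne_bot_iff.1 hW.1
  let m : Gr hst := ⟨rediso_op hst ⟨c, hS.mem⟩, dimtwo_mem hst _⟩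
  have hm : ∀ w : W, (m : W ≃ₗ[ℚ] W) w = - w := dimtwo_c hS hW.2.1 hst
  have hm1 : (1 : Gr hst) ≠ m := by
    intro h
    have h3 := hm ⟨f, hf⟩
    rw [← h] at h3
    have h4 : (⟨f, hf⟩ : W) = - ⟨f, hf⟩ := h3
    have h5 : (⟨f, hf⟩ : W) = 0 := dimtwo_neg _ h4
    exact hf0 (congrArg Subtype.val h5)
  have hall : ∀ γ : Gr hst, γ = 1 ∨ γ = m := by
    intro γ
    by_contra hne
    push Not at hne
    have hc3 : ({γ, 1, m} : Finset (Gr hst)).card = 3 := by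
      rw [Finset.card_eq_three]
      exact ⟨γ, 1, m, hne.1, hne.2, hm1, rfl⟩
    letI := Fintype.ofFinite (Gr hst)
    have hc4 := Finset.card_le_univ ({γ, 1, m} : Finset (Gr hst))
    rw [hc3, ← Nat.card_eq_fintype_card] at hc4
    omega
  apply dimtwo_line hW h2 (Submodule.span ℚ {f}) ((Submodule.span_singleton_le_iff_mem f W).2 hf)
    (finrank_span_singleton hf0)
  intro π hπ u hu
  obtain ⟨a, rfl⟩ := Submodule.mem_span_singleton.1 hu
  have hfu : ∀ x, f (π x) = (rediso_op hst ⟨π⁻¹, 𝒢.inv_mem hπ⟩ ⟨f, hf⟩ : X → ℚ) x := by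
    intro x
    rw [rediso_op_apply]
    change f (π x) = f ((π⁻¹)⁻¹ x)
    rw [inv_inv]
  rcases hall ⟨rediso_op hst ⟨π⁻¹, 𝒢.inv_mem hπ⟩, dimtwo_mem hst _⟩ with h | h
  · have h3 : rediso_op hst ⟨π⁻¹, 𝒢.inv_mem hπ⟩ = 1 := congrArg Subtype.val h
    have h4 : (fun x => (a • f) (π x)) = a • f := by
      funext x
      rw [Pi.smul_apply, hfu, h3]
      rfl
    rw [h4]
    exact hu
  · have h3 : rediso_op hst ⟨π⁻¹, 𝒢.inv_mem hπ⟩ = rediso_op hst ⟨c, hS.mem⟩ :=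
      congrArg Subtype.val h
    have h4 : (fun x => (a • f) (π x)) = - (a • f) := by
      funext x
      rw [Pi.smul_apply, hfu, h3, dimtwo_c hS hW.2.1 hst]
      change a • (- f x) = - (a • f x)
      rw [smul_neg]
    rw [h4]
    exact Submodule.neg_mem _ hu

theorem dimtwo_refl (hS : Sys c 𝒢 g) (hW : Smp c 𝒢 W) (hg : Nat.Coprime g 6)
    (h2 : finrank ℚ W = 2) (x₀ : X) (hν : finrank ℚ (Fix 𝒢 x₀ W) = 1) : False := by
  classical
  have hst := hW.2.2.1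
  have hcard := card_Gr hst
  have hpos : 0 < Nat.card (Gr hst) := by
    rw [hcard]
    exact gm_pos hst
  haveI : Finite (Gr hst) := Nat.finite_of_card_ne_zero hpos.ne'
  have hd4 : Nat.card (Gr hst) ∣ 4 * g := by
    rw [hcard]
    exact refl_card_dvd hS hW x₀ (by omega)
  have hcop := dimtwo_pow hst h2 hg hd4
  have hle : Nat.card (Gr hst) ≤ 4 := Nat.le_of_dvd (by norm_num) (hcop.dvd_of_dvd_mul_right hd4)
  -- an element of the stabiliser that acts nontrivially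
  obtain ⟨σ, hσ, hσx, hσn⟩ : ∃ σ ∈ 𝒢, σ x₀ = x₀ ∧ ∃ f ∈ W, ∃ x, f (σ x) ≠ f x := by
    by_contra hc
    push Not at hc
    have hE : Fix 𝒢 x₀ W = W := by
      apply le_antisymm (Fix_le 𝒢 x₀ W)
      intro f hf
      rw [mem_Fix]
      exact ⟨hf, fun π hπ hx x => hc π hπ hx f hf x⟩
    rw [hE] at hν
    omega
  have hUne : Fix 𝒢 x₀ W ≠ ⊥ := by
    intro h
    rw [h, finrank_bot] at hν
    omega
  obtain ⟨u, huU, hu0⟩ := (Fix 𝒢 x₀ W).ne_bot_iff.1 hUne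
  have huW : u ∈ W := Fix_le 𝒢 x₀ W huU
  obtain ⟨f, hf, y, hfy⟩ := hσn
  let m : Gr hst := ⟨rediso_op hst ⟨c, hS.mem⟩, dimtwo_mem hst _⟩
  let s : Gr hst := ⟨rediso_op hst ⟨σ⁻¹, 𝒢.inv_mem hσ⟩, dimtwo_mem hst _⟩
  have hm : ∀ w : W, (m : W ≃ₗ[ℚ] W) w = - w := dimtwo_c hS hW.2.1 hst
  have hs : ∀ (w : W) (x : X), ((s : W ≃ₗ[ℚ] W) w : X → ℚ) x = (w : X → ℚ) (σ x) := by
    intro w x
    change (w : X → ℚ) ((σ⁻¹)⁻¹ x) = _
    rw [inv_inv]
  have hsu : ∀ w : W, (w : X → ℚ) ∈ Fix 𝒢 x₀ W → (s : W ≃ₗ[ℚ] W) w = w := by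
    intro w hw
    apply Subtype.ext
    funext x
    rw [hs]
    exact hw.2 σ hσ hσx x
  have huu : (⟨u, huW⟩ : W) ≠ - ⟨u, huW⟩ := by
    intro h
    have h5 : (⟨u, huW⟩ : W) = 0 := dimtwo_neg _ h
    exact hu0 (congrArg Subtype.val h5)
  have h1m : (1 : Gr hst) ≠ m := by
    intro h
    have h3 := hm ⟨u, huW⟩
    rw [← h] at h3
    exact huu h3
  have h1s : (1 : Gr hst) ≠ s := by
    intro h
    have h3 := hs ⟨f, hf⟩ y
    rw [← h] at h3
    exact hfy h3.symm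
  have hms : m ≠ s := by
    intro h
    have h3 := hm ⟨u, huW⟩
    rw [h, hsu ⟨u, huW⟩ huU] at h3
    exact huu h3
  have hsm : ∀ w : W, ((s * m : Gr hst) : W ≃ₗ[ℚ] W) w = - (s : W ≃ₗ[ℚ] W) w := by
    intro w
    change (s : W ≃ₗ[ℚ] W) ((m : W ≃ₗ[ℚ] W) w) = _
    rw [hm, map_neg]
  have h1sm : (1 : Gr hst) ≠ s * m := by
    intro h
    have h3 := hsm ⟨u, huW⟩
    rw [← h, hsu ⟨u, huW⟩ huU] at h3
    exact huu h3
  have hmsm : m ≠ s * m := by
    intro h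
    apply h1s
    have h3 : (1 : Gr hst) * m = s * m := by rw [one_mul]; exact h
    exact mul_right_cancel h3
  have hssm : s ≠ s * m := by
    intro h
    apply h1m
    have h3 : s * (1 : Gr hst) = s * m := by rw [mul_one]; exact h
    exact mul_left_cancel h3
  have hall : ∀ γ : Gr hst, γ = 1 ∨ γ = m ∨ γ = s ∨ γ = s * m := by
    intro γ
    by_contra hne
    push Not at hne
    obtain ⟨hn1, hn2, hn3, hn4⟩ := hne
    have hc5 : ({γ, 1, m, s, s * m} : Finset (Gr hst)).card = 5 := by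
      rw [Finset.card_insert_of_notMem, Finset.card_insert_of_notMem,
        Finset.card_insert_of_notMem, Finset.card_insert_of_notMem, Finset.card_singleton]
      · rw [Finset.mem_singleton]
        exact hssm
      · rw [Finset.mem_insert, Finset.mem_singleton]
        exact not_or.2 ⟨hms, hmsm⟩
      · rw [Finset.mem_insert, Finset.mem_insert, Finset.mem_singleton]
        exact not_or.2 ⟨h1m, not_or.2 ⟨h1s, h1sm⟩⟩
      · rw [Finset.mem_insert, Finset.mem_insert, Finset.mem_insert, Finset.mem_singleton]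
        exact not_or.2 ⟨hn1, not_or.2 ⟨hn2, not_or.2 ⟨hn3, hn4⟩⟩⟩
    letI := Fintype.ofFinite (Gr hst)
    have hc4 := Finset.card_le_univ ({γ, 1, m, s, s * m} : Finset (Gr hst))
    rw [hc5, ← Nat.card_eq_fintype_card] at hc4
    omega
  apply dimtwo_line hW h2 (Fix 𝒢 x₀ W) (Fix_le 𝒢 x₀ W) hν
  intro π hπ v hv
  have hvW : v ∈ W := Fix_le 𝒢 x₀ W hv
  have hfu : (fun x => v (π x)) =
      (rediso_op hst ⟨π⁻¹, 𝒢.inv_mem hπ⟩ ⟨v, hvW⟩ : X → ℚ) := by
    funext x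
    rw [rediso_op_apply]
    change v (π x) = v ((π⁻¹)⁻¹ x)
    rw [inv_inv]
  rw [hfu]
  rcases hall ⟨rediso_op hst ⟨π⁻¹, 𝒢.inv_mem hπ⟩, dimtwo_mem hst _⟩ with h | h | h | h
  · have h3 : rediso_op hst ⟨π⁻¹, 𝒢.inv_mem hπ⟩ = 1 := congrArg Subtype.val h
    rw [h3]
    exact hv
  · have h3 : rediso_op hst ⟨π⁻¹, 𝒢.inv_mem hπ⟩ = (m : W ≃ₗ[ℚ] W) := congrArg Subtype.val h
    rw [h3, hm]
    exact Submodule.neg_mem _ hv
  · have h3 : rediso_op hst ⟨π⁻¹, 𝒢.inv_mem hπ⟩ = (s : W ≃ₗ[ℚ] W) := congrArg Subtype.val h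
    rw [h3, hsu ⟨v, hvW⟩ hv]
    exact hv
  · have h3 : rediso_op hst ⟨π⁻¹, 𝒢.inv_mem hπ⟩ = ((s * m : Gr hst) : W ≃ₗ[ℚ] W) :=
      congrArg Subtype.val h
    rw [h3, hsm, hsu ⟨v, hvW⟩ hv]
    exact Submodule.neg_mem _ hv

theorem dim_ne_two (hS : Sys c 𝒢 g) (hW : Smp c 𝒢 W) (hg : Nat.Coprime g 6) :
    finrank ℚ W ≠ 2 := by
  intro h2
  have hX : 0 < Fintype.card X := by
    rw [hS.card]
    have := hS.pos
    omega
  obtain ⟨x₀⟩ := Fintype.card_pos_iff.1 hX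
  have h3 := fix_pos hS hW x₀
  have h4 := fix_le_dim (𝒢 := 𝒢) (W := W) x₀
  rcases (by omega : finrank ℚ (Fix 𝒢 x₀ W) = 1 ∨ finrank ℚ (Fix 𝒢 x₀ W) = 2) with h | h
  · exact dimtwo_refl hS hW hg h2 x₀ h
  · exact dimtwo_gal hS hW hg h2 ((fix_eq_dim hS hW x₀).1 (by rw [h, h2]))

end Pool.Agent.H52.CS
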