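import Mathlib
import Pool.Agent.H52.AD.Schur
import Pool.Agent.H52.AD.Dims
import Pool.Agent.H52.CS.Defs
import Pool.Agent.H52.CS.TrOp

/-!
# The indicator of a simple space with only scalar endomorphisms (module H52 CS RealSum)

`W` simple with `dim Endo = 1`, `Γ = Gr`: `∑_{γ ∈ Γ} tr(γ²) = |Γ|`.

PROOF.  Let `⟨u, v⟩ = ∑ x, u x * v x` on `W`: symmetric, positive definite, `⟨γ u, γ v⟩ = ⟨u, v⟩` for `γ ∈ Γ`
(`γ` is `f ↦ f ∘ π⁻¹`).  For a linear map `ψ : W → W` the map `∑_γ γ ψ γ⁻¹` commutes with `Γ`, so it is in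
`Endo 𝒢 W`, which consists of the scalars (`finrank = 1`, contains `id`); its trace is `|Γ| tr ψ`, so it is
`(|Γ| tr ψ / d) id`, `d = dim W > 0`.  For `ψ w = ⟨u, w⟩ v` (trace `⟨u, v⟩`), and pairing with `b`:
`∑_γ ⟨u, γ⁻¹ w⟩ ⟨b, γ v⟩ = (|Γ| / d) ⟨u, v⟩ ⟨b, w⟩`    (*).
Let `b_1, ..., b_d` be a basis of `W` and `b*_i ∈ W` the dual basis for the form (`⟨b*_i, b_j⟩ = δ_ij`,
`LinearMap.BilinForm.dualBasis`, or use an orthogonal basis `b_i` and `b*_i = b_i / ⟨b_i, b_i⟩`,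
`LinearMap.BilinForm.exists_orthogonal_basis`).  Then
`tr(γ²) = ∑_i ⟨b*_i, γ γ b_i⟩ = ∑_i ⟨γ⁻¹ b*_i, γ b_i⟩ = ∑_{i,j} ⟨γ⁻¹ b*_i, b_j⟩ ⟨b*_j, γ b_i⟩`, and summing over `γ`,
by (*) with `w = b*_i`, `u = b_j`, `b = b*_j`, `v = b_i`:
`∑_γ tr(γ²) = (|Γ| / d) ∑_{i,j} ⟨b_j, b_i⟩ ⟨b*_j, b*_i⟩ = (|Γ| / d) ∑_i 1 = |Γ|`
(for an orthogonal basis only `i = j` contributes, and `⟨b_i, b_i⟩ ⟨b*_i, b*_i⟩ = 1`).
-/

namespace Pool.Agent.H52.CS

open Module Pool.Agent.H52.AD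

variable {X : Type} [Fintype X] {c : Equiv.Perm X} {𝒢 : Subgroup (Equiv.Perm X)} {g : ℕ}
  {W : Submodule ℚ (X → ℚ)}

/-- the form on `W` -/
noncomputable def RealSum_B (W : Submodule ℚ (X → ℚ)) : LinearMap.BilinForm ℚ W :=
  LinearMap.mk₂ ℚ (fun u v => ∑ x, (u : X → ℚ) x * (v : X → ℚ) x)
    (fun u u' v => by
      rw [← Finset.sum_add_distrib]
      exact Finset.sum_congr rfl fun x _ => add_mul _ _ _)
    (fun a u v => by
      rw [smul_eq_mul, Finset.mul_sum]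
      exact Finset.sum_congr rfl fun x _ => mul_assoc _ _ _)
    (fun u v v' => by
      rw [← Finset.sum_add_distrib]
      exact Finset.sum_congr rfl fun x _ => mul_add _ _ _)
    (fun a u v => by
      rw [smul_eq_mul, Finset.mul_sum]
      exact Finset.sum_congr rfl fun x _ => mul_left_comm _ _ _)

theorem RealSum_B_apply (u v : W) :
    RealSum_B W u v = ∑ x, (u : X → ℚ) x * (v : X → ℚ) x := rfl

theorem RealSum_B_symm (u v : W) : RealSum_B W u v = RealSum_B W v u := by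
  rw [RealSum_B_apply, RealSum_B_apply]
  exact Finset.sum_congr rfl fun x _ => mul_comm _ _

theorem RealSum_B_def (u : W) (h : RealSum_B W u u = 0) : u = 0 := by
  rw [RealSum_B_apply, Finset.sum_eq_zero_iff_of_nonneg fun x _ => mul_self_nonneg _] at h
  apply Subtype.ext
  funext x
  exact mul_self_eq_zero.1 (h x (Finset.mem_univ _))

theorem RealSum_inv {hst : Stb 𝒢 W} (γ : Gr hst) (u v : W) :
    RealSum_B W (TrOp_c γ u) (TrOp_c γ v) = RealSum_B W u v := by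
  obtain ⟨π, hπ, h⟩ := (mem_Gr hst (γ : W ≃ₗ[ℚ] W)).1 γ.2
  rw [RealSum_B_apply, RealSum_B_apply]
  refine Fintype.sum_equiv π⁻¹ _ _ fun x => ?_
  have h1 : (TrOp_c γ u : X → ℚ) x = (u : X → ℚ) (π⁻¹ x) := h u x
  have h2 : (TrOp_c γ v : X → ℚ) x = (v : X → ℚ) (π⁻¹ x) := h v x
  rw [h1, h2]

theorem RealSum_adj {hst : Stb 𝒢 W} (γ : Gr hst) (u v : W) :
    RealSum_B W u (TrOp_c γ v) = RealSum_B W (TrOp_c γ⁻¹ u) v := by
  rw [← RealSum_inv γ (TrOp_c γ⁻¹ u) v]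
  have h1 : TrOp_c γ (TrOp_c γ⁻¹ u) = u := by
    have h2 := TrOp_mul γ γ⁻¹
    rw [mul_inv_cancel, TrOp_one] at h2
    exact (LinearMap.congr_fun h2 u).symm
  rw [h1]

theorem RealSum_gen {V : Type} [AddCommGroup V] [Module ℚ V] [Nontrivial V]
    (E : Submodule ℚ (V →ₗ[ℚ] V)) (h : finrank ℚ E = 1) (hid : LinearMap.id ∈ E) (φ : V →ₗ[ℚ] V)
    (hφ : φ ∈ E) : ∃ a : ℚ, ∀ w, φ w = a • w := by
  have hne : (⟨LinearMap.id, hid⟩ : E) ≠ 0 := by
    intro h0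
    obtain ⟨w, hw⟩ := exists_ne (0 : V)
    have h1 : (LinearMap.id : V →ₗ[ℚ] V) = 0 := congrArg Subtype.val h0
    exact hw (LinearMap.congr_fun h1 w)
  obtain ⟨a, ha⟩ := exists_smul_eq_of_finrank_eq_one h hne ⟨φ, hφ⟩
  refine ⟨a, fun w => ?_⟩
  have h1 : a • (LinearMap.id : V →ₗ[ℚ] V) = φ := congrArg Subtype.val ha
  rw [← h1]
  rfl

/-- the endomorphisms are scalars -/
theorem RealSum_scal (hW : Smp c 𝒢 W) (h : finrank ℚ (Endo 𝒢 W) = 1) (φ : W →ₗ[ℚ] W)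
    (hφ : φ ∈ Endo 𝒢 W) : ∃ a : ℚ, ∀ w, φ w = a • w := by
  haveI := Free_nontrivial hW
  exact RealSum_gen (Endo 𝒢 W) h endo_id φ hφ

theorem RealSum_tr {V : Type} [AddCommGroup V] [Module ℚ V] [FiniteDimensional ℚ V] (f : V →ₗ[ℚ] V)
    (a : ℚ) (h : ∀ w, f w = a • w) : LinearMap.trace ℚ V f = a * finrank ℚ V := by
  have h1 : f = a • LinearMap.id := LinearMap.ext h
  rw [h1, map_smul, LinearMap.trace_id, smul_eq_mul]

theorem RealSum_trsum {V : Type} [AddCommGroup V] [Module ℚ V] {ι : Type} (s : Finset ι)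
    (f : ι → V →ₗ[ℚ] V) :
    LinearMap.trace ℚ V (∑ i ∈ s, f i) = ∑ i ∈ s, LinearMap.trace ℚ V (f i) := map_sum _ _ _

/-- the orthogonality relation -/
theorem RealSum_orth (hW : Smp c 𝒢 W) (h : finrank ℚ (Endo 𝒢 W) = 1) [Fintype (Gr hW.2.2.1)]
    (b u v w : W) : (finrank ℚ W : ℚ) * ∑ γ : Gr hW.2.2.1,
      RealSum_B W u (TrOp_c γ⁻¹ w) * RealSum_B W b (TrOp_c γ v) =
    (Fintype.card (Gr hW.2.2.1) : ℚ) * RealSum_B W u v * RealSum_B W b w := by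
  set ψ : W →ₗ[ℚ] W := (RealSum_B W u).smulRight v with hψ
  obtain ⟨a, ha⟩ := RealSum_scal hW h _ (TrOp_S_mem (hst := hW.2.2.1) ψ)
  have h1 : LinearMap.trace ℚ W (TrOp_S (hst := hW.2.2.1) ψ) =
      (Fintype.card (Gr hW.2.2.1) : ℚ) * RealSum_B W u v := by
    unfold TrOp_S
    rw [RealSum_trsum]
    have h2 : ∀ γ : Gr hW.2.2.1, LinearMap.trace ℚ W (TrOp_c γ ∘ₗ ψ ∘ₗ TrOp_c γ⁻¹) =
        RealSum_B W u v := by
      intro γ
      rw [LinearMap.trace_comp_comm']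
      have h3 : (ψ ∘ₗ TrOp_c γ⁻¹) ∘ₗ TrOp_c γ = ψ := by
        change ψ ∘ₗ (TrOp_c γ⁻¹ ∘ₗ TrOp_c γ) = ψ
        rw [← TrOp_mul, inv_mul_cancel, TrOp_one, LinearMap.comp_id]
      rw [h3, hψ, LinearMap.trace_smulRight]
    rw [Finset.sum_congr rfl fun γ _ => h2 γ, Finset.sum_const, Finset.card_univ, nsmul_eq_mul]
  rw [RealSum_tr _ a ha] at h1
  have h4 : RealSum_B W b (TrOp_S (hst := hW.2.2.1) ψ w) = ∑ γ : Gr hW.2.2.1,
      RealSum_B W u (TrOp_c γ⁻¹ w) * RealSum_B W b (TrOp_c γ v) := by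
    unfold TrOp_S
    rw [LinearMap.sum_apply, map_sum]
    refine Finset.sum_congr rfl fun γ _ => ?_
    change RealSum_B W b (TrOp_c γ (RealSum_B W u (TrOp_c γ⁻¹ w) • v)) = _
    rw [map_smul, map_smul, smul_eq_mul]
  rw [← h4, ha, map_smul, smul_eq_mul, ← h1]
  ring

theorem real_sum (hW : Smp c 𝒢 W) (h : finrank ℚ (Endo 𝒢 W) = 1) [Fintype (Gr hW.2.2.1)] :
    ∑ γ : Gr hW.2.2.1, LinearMap.trace ℚ W
      (((γ : W ≃ₗ[ℚ] W) * (γ : W ≃ₗ[ℚ] W) : W ≃ₗ[ℚ] W) : W →ₗ[ℚ] W) =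
    (Nat.card (Gm 𝒢 W) : ℚ) := by
  classical
  haveI := Free_nontrivial hW
  have hcard : (Fintype.card (Gr hW.2.2.1) : ℚ) = (Nat.card (Gm 𝒢 W) : ℚ) := by
    rw [← card_Gr hW.2.2.1, Nat.card_eq_fintype_card]
  have hd : (finrank ℚ W : ℚ) ≠ 0 := by
    have : 0 < finrank ℚ W := finrank_pos
    exact_mod_cast this.ne'
  haveI : Invertible (2 : ℚ) := invertibleOfNonzero (by norm_num)
  obtain ⟨b, hb⟩ := LinearMap.BilinForm.exists_orthogonal_basis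
    (B := RealSum_B W) ⟨fun u v => RealSum_B_symm u v⟩
  have hq : ∀ i, RealSum_B W (b i) (b i) ≠ 0 := fun i h0 => b.ne_zero i (RealSum_B_def _ h0)
  have horth : ∀ i j, i ≠ j → RealSum_B W (b i) (b j) = 0 := fun i j hij => hb hij
  have hrepr : ∀ w i, b.repr w i = RealSum_B W (b i) w / RealSum_B W (b i) (b i) := by
    intro w i
    rw [eq_div_iff (hq i)]
    conv_rhs => rw [← b.sum_repr w]
    rw [map_sum, Finset.sum_eq_single i]
    · rw [map_smul, smul_eq_mul]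
    · intro j _ hji
      rw [map_smul, horth i j hji.symm, smul_zero]
    · intro h0
      exact absurd (Finset.mem_univ i) h0
  have h1 : ∀ γ : Gr hW.2.2.1, LinearMap.trace ℚ W
      (((γ : W ≃ₗ[ℚ] W) * (γ : W ≃ₗ[ℚ] W) : W ≃ₗ[ℚ] W) : W →ₗ[ℚ] W) = ∑ i, ∑ j,
      RealSum_B W (b i) (TrOp_c γ⁻¹ (b j)) * RealSum_B W (b i) (TrOp_c γ (b j)) /
        (RealSum_B W (b i) (b i) * RealSum_B W (b j) (b j)) := by
    intro γ
    rw [LinearMap.trace_eq_matrix_trace ℚ b, Matrix.trace]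
    refine Finset.sum_congr rfl fun i _ => ?_
    rw [Matrix.diag_apply, LinearMap.toMatrix_apply]
    change b.repr (TrOp_c γ (TrOp_c γ (b i))) i = _
    rw [hrepr, RealSum_adj]
    conv_lhs => rw [← b.sum_repr (TrOp_c γ (b i))]
    rw [map_sum, Finset.sum_div]
    refine Finset.sum_congr rfl fun j _ => ?_
    rw [map_smul, smul_eq_mul, hrepr, ← RealSum_adj, RealSum_adj γ (b j) (b i),
      RealSum_B_symm (TrOp_c γ⁻¹ (b j)) (b i)]
    have := hq i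
    have := hq j
    field_simp
  rw [Finset.sum_congr rfl fun γ _ => h1 γ, Finset.sum_comm]
  have h2 : ∀ i ∈ Finset.univ, ∑ γ : Gr hW.2.2.1, ∑ j,
      RealSum_B W (b i) (TrOp_c γ⁻¹ (b j)) * RealSum_B W (b i) (TrOp_c γ (b j)) /
        (RealSum_B W (b i) (b i) * RealSum_B W (b j) (b j)) =
      (Fintype.card (Gr hW.2.2.1) : ℚ) / finrank ℚ W := by
    intro i _
    rw [Finset.sum_comm, Finset.sum_eq_single i]
    · rw [← Finset.sum_div, div_eq_div_iff (mul_ne_zero (hq i) (hq i)) hd]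
      have h3 := RealSum_orth hW h (b i) (b i) (b i) (b i)
      linear_combination h3
    · intro j _ hji
      rw [← Finset.sum_div]
      have h3 := RealSum_orth hW h (b i) (b i) (b j) (b j)
      rw [horth i j hji.symm, mul_zero, mul_eq_zero] at h3
      rw [h3.resolve_left hd, zero_div]
    · intro h0
      exact absurd (Finset.mem_univ i) h0
  rw [Finset.sum_congr rfl h2, Finset.sum_const, Finset.card_univ, Fintype.card_fin, nsmul_eq_mul,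
    mul_div_cancel₀ _ hd, hcard]

end Pool.Agent.H52.CS
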