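import Mathlib
import Pool.Agent.H52.AD.RepsB
import Pool.Agent.H52.AD.NonGal2
import Pool.Agent.H52.AD.BndG
import Pool.Agent.H52.AD.GenF2
import Pool.Agent.H52.AD.Final
import Pool.Agent.H52.CS.Defs
import Pool.Agent.H52.CS.DimDvd
import Pool.Agent.H52.CS.GalCard
import Pool.Agent.H52.CS.DimTwo
import Pool.Agent.H52.CS.DimOne
import Pool.Agent.H52.CS.EndoTwo
import Pool.Agent.H52.CS.BndM
import Pool.Agent.H52.CS.GalSum
import Pool.Agent.H52.CS.GalBig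

/-!
# Dimensions prime to six: the assembly (H52 CS Six)
-/

namespace Pool.Agent.H52.CS

open Module Pool.Agent.H52.AD Pool.Agent.H52.MF Pool.Agent.H38.CM NumberField

section pieces

variable {X : Type} [Fintype X] {c : Equiv.Perm X} {𝒢 : Subgroup (Equiv.Perm X)} {g : ℕ}
  {W : Submodule ℚ (X → ℚ)}

theorem six_odd (hg : Nat.Coprime g 6) : Odd g := by
  rw [← Nat.not_even_iff_odd]
  intro h
  have h2 : 2 ∣ Nat.gcd g 6 := Nat.dvd_gcd h.two_dvd (by norm_num)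
  rw [hg] at h2
  omega

theorem six_three (hg : Nat.Coprime g 6) : ¬ 3 ∣ g := by
  intro h
  have h2 : 3 ∣ Nat.gcd g 6 := Nat.dvd_gcd h (by norm_num)
  rw [hg] at h2
  omega

theorem six_pos (hW : Smp c 𝒢 W) : 0 < finrank ℚ W := by
  rw [Nat.pos_iff_ne_zero]
  intro h
  exact hW.1 (Submodule.finrank_eq_zero.1 h)

theorem six_mult_pos (hS : Sys c 𝒢 g) (hW : Smp c 𝒢 W) (x₀ : X) :
    1 ≤ finrank ℚ W * (finrank ℚ (Fix 𝒢 x₀ W) / finrank ℚ (Endo 𝒢 W)) := by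
  have h1 := six_pos hW
  have h2 := fix_pos hS hW x₀
  have h3 := endo_pos hW
  have h4 := Nat.div_pos (Nat.le_of_dvd h2 (endo_dvd_fix hW x₀)) h3
  exact Nat.mul_pos h1 h4

/-- the codimension in the small case -/
theorem six_small (hS : Sys c 𝒢 g) (hW : Smp c 𝒢 W) (x₀ : X) (hg : Nat.Coprime g 6)
    (h1 : finrank ℚ W ≠ 1) : 3 ≤ finrank ℚ W ∧
    finrank ℚ (Fix 𝒢 x₀ W) + 2 ≤ finrank ℚ (Endo 𝒢 W) + finrank ℚ W := by
  have h0 := six_pos hW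
  have h2 := dim_ne_two hS hW hg
  have hd : 3 ≤ finrank ℚ W := by omega
  refine ⟨hd, ?_⟩
  have hle := fix_le_dim (𝒢 := 𝒢) (W := W) x₀
  have he := endo_pos hW
  by_cases hG : Gal 𝒢 W
  · have h3 := endo_ge_two hS hW hG (six_odd hg) (by omega)
    omega
  · have h3 : finrank ℚ (Fix 𝒢 x₀ W) ≠ finrank ℚ W := fun h => hG ((fix_eq_dim hS hW x₀).1 h)
    omega

theorem six_gal_one (hS : Sys c 𝒢 g) (hW : Smp c 𝒢 W) (x₀ : X) (h1 : finrank ℚ W = 1) :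
    Gal 𝒢 W := by
  have hle := fix_le_dim (𝒢 := 𝒢) (W := W) x₀
  have hp := fix_pos hS hW x₀
  exact (fix_eq_dim hS hW x₀).1 (by omega)

theorem six_three_gm (hS : Sys c 𝒢 g) (hW : Smp c 𝒢 W) (hG : Gal 𝒢 W) (hg : Nat.Coprime g 6) :
    ¬ 3 ∣ Nat.card (Gm 𝒢 W) := by
  intro h
  have h1 := h.trans (gal_card_dvd hS hW hG)
  rcases (Nat.Prime.dvd_mul Nat.prime_three).1 h1 with h2 | h2
  · omega
  · exact six_three hg h2

theorem six_mult (hS : Sys c 𝒢 g) (hW : Smp c 𝒢 W) (hG : Gal 𝒢 W) (hg : Nat.Coprime g 6) :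
    finrank ℚ W = finrank ℚ (Endo 𝒢 W) ∨ 5 * finrank ℚ (Endo 𝒢 W) ≤ finrank ℚ W := by
  obtain ⟨n, hn, hn2⟩ := dim_dvd hS hW
  have h0 := six_pos hW
  have h1 : n ∣ g := by
    have h2 := hn2.trans (gal_card_dvd hS hW hG)
    exact Nat.dvd_of_mul_dvd_mul_left (by norm_num) h2
  have hodd := six_odd hg
  have h3 := six_three hg
  have hn0 : n ≠ 0 := by
    rintro rfl
    omega
  have hn2 : n ≠ 2 := by
    rintro rfl
    rw [← Nat.not_even_iff_odd] at hodd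
    exact hodd (even_iff_two_dvd.2 h1)
  have hn3 : n ≠ 3 := by
    rintro rfl
    exact h3 h1
  have hn4 : n ≠ 4 := by
    rintro rfl
    rw [← Nat.not_even_iff_odd] at hodd
    exact hodd (even_iff_two_dvd.2 ((by norm_num : 2 ∣ 4).trans h1))
  rcases Nat.lt_or_ge n 5 with h | h
  · left
    have : n = 1 := by omega
    rw [hn, this, mul_one]
  · right
    rw [hn, mul_comm]
    exact Nat.mul_le_mul_left _ h

end pieces

theorem six_cover {α : Type} (s : Finset α) (F : α → ℝ) (hF : ∀ a ∈ s, 0 ≤ F a)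
    (p₁ p₂ p₃ p₄ p₅ : α → Prop) [DecidablePred p₁] [DecidablePred p₂] [DecidablePred p₃]
    [DecidablePred p₄] [DecidablePred p₅]
    (h : ∀ a ∈ s, p₁ a ∨ p₂ a ∨ p₃ a ∨ p₄ a ∨ p₅ a) :
    ∑ a ∈ s, F a ≤ ∑ a ∈ s.filter p₁, F a + ∑ a ∈ s.filter p₂, F a + ∑ a ∈ s.filter p₃, F a +
      ∑ a ∈ s.filter p₄, F a + ∑ a ∈ s.filter p₅, F a := by
  simp only [Finset.sum_filter]
  rw [← Finset.sum_add_distrib, ← Finset.sum_add_distrib, ← Finset.sum_add_distrib,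
    ← Finset.sum_add_distrib]
  refine Finset.sum_le_sum fun a ha => ?_
  have h0 := hF a ha
  have h1 : 0 ≤ (if p₁ a then F a else 0) := by split_ifs <;> simp [h0]
  have h2 : 0 ≤ (if p₂ a then F a else 0) := by split_ifs <;> simp [h0]
  have h3 : 0 ≤ (if p₃ a then F a else 0) := by split_ifs <;> simp [h0]
  have h4 : 0 ≤ (if p₄ a then F a else 0) := by split_ifs <;> simp [h0]
  have h5 : 0 ≤ (if p₅ a then F a else 0) := by split_ifs <;> simp [h0]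
  rcases h a ha with h | h | h | h | h
  · rw [if_pos h]; linarith
  · rw [if_pos h]; linarith
  · rw [if_pos h]; linarith
  · rw [if_pos h]; linarith
  · rw [if_pos h]; linarith

/-- Types orthogonal to a simple space, `g` prime to six. -/
theorem six (ε : ℝ) (hε : 0 < ε) : ∃ g₀ : ℕ, ∀ g : ℕ, g₀ ≤ g → Nat.Coprime g 6 →
    ∀ {X : Type} [Fintype X] {c : Equiv.Perm X} {𝒢 : Subgroup (Equiv.Perm X)}, Sys c 𝒢 g →
    (Nat.card (FailP c 𝒢 (fun _ => True)) : ℝ) ≤ ε * 2 ^ g := by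
  classical
  obtain ⟨Y, hY2, hY⟩ := exists_Y (ε / 10) (by positivity)
  obtain ⟨g₁, hg₁⟩ := non_gal2
  obtain ⟨g₂, hg₂⟩ := bnd_g
  obtain ⟨g₃, hg₃⟩ := bnd_m Y (ε / 10) (by positivity)
  obtain ⟨g₄, hg₄⟩ := exists_g4 (ε / 10) (by positivity)
  obtain ⟨g₅, hg₅⟩ := gal_sum
  obtain ⟨g₆, hg₆⟩ := gal_big
  obtain ⟨D₁, hD₁⟩ := exists_nat_ge ((400 / ε) ^ 2)
  obtain ⟨D₂, hD₂⟩ := exists_nat_ge (10 / ε)
  refine ⟨g₁ + g₂ + g₃ + g₄ + g₅ + g₆ + D₁ + D₂, ?_⟩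
  intro g hg hcop X _ c 𝒢 hS
  have hcard : 0 < Fintype.card X := by
    rw [hS.card]
    have := hS.pos
    omega
  obtain ⟨x₀⟩ := Fintype.card_pos_iff.1 hcard
  obtain ⟨𝒲, h𝒲, hrep, hsum, -⟩ := exists_reps_b hS x₀
  have hgR : (0 : ℝ) < g := by exact_mod_cast hS.pos
  have h2g : (0 : ℝ) < 2 ^ g := by positivity
  have hcard𝒲 : 𝒲.card ≤ g := by
    refine le_trans ?_ hsum
    rw [Finset.card_eq_sum_ones]
    exact Finset.sum_le_sum fun W hW => six_mult_pos hS (h𝒲 W hW) x₀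
  have hcov := fail_cover2 (c := c) 𝒲 hrep
  have hsplit := six_cover 𝒲 (fun W => (Nat.card (Fail c 𝒢 W) : ℝ)) (fun W _ => Nat.cast_nonneg _)
    (fun W => ¬ Gal 𝒢 W ∧ Y ≤ finrank ℚ W) (fun W : Submodule ℚ (X → ℚ) => finrank ℚ W < Y ∧ finrank ℚ W ≠ 1)
    (fun W : Submodule ℚ (X → ℚ) => finrank ℚ W = 1)
    (fun W => Gal 𝒢 W ∧ Y ≤ finrank ℚ W ∧ finrank ℚ W ^ 20 ≤ g ^ 19)
    (fun W => Gal 𝒢 W ∧ Y ≤ finrank ℚ W ∧ ¬ finrank ℚ W ^ 20 ≤ g ^ 19) (by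
      intro W _
      by_cases h1 : finrank ℚ W = 1
      · exact Or.inr (Or.inr (Or.inl h1))
      · by_cases h2 : finrank ℚ W < Y
        · exact Or.inr (Or.inl ⟨h2, h1⟩)
        · by_cases h3 : Gal 𝒢 W
          · by_cases h4 : finrank ℚ W ^ 20 ≤ g ^ 19
            · exact Or.inr (Or.inr (Or.inr (Or.inl ⟨h3, by omega, h4⟩)))
            · exact Or.inr (Or.inr (Or.inr (Or.inr ⟨h3, by omega, h4⟩)))
          · exact Or.inl ⟨h3, by omega⟩)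
  -- not Galois, large
  have hA : ∑ W ∈ 𝒲.filter (fun W => ¬ Gal 𝒢 W ∧ Y ≤ finrank ℚ W), (Nat.card (Fail c 𝒢 W) : ℝ) ≤
      2 ^ g * (ε / 10 + ε / 10) := by
    refine (hg₁ hS x₀ (by omega) Y hY2 _ ?_ ?_).trans ?_
    · intro W hW
      rw [Finset.mem_filter] at hW
      exact ⟨h𝒲 W hW.1, hW.2.1, hW.2.2⟩
    · exact (Finset.sum_le_sum_of_subset (Finset.filter_subset _ _)).trans hsum
    · have h1 := hg₄ g (by omega)
      gcongr
  -- small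
  have hB : ∑ W ∈ 𝒲.filter (fun W : Submodule ℚ (X → ℚ) => finrank ℚ W < Y ∧ finrank ℚ W ≠ 1),
      (Nat.card (Fail c 𝒢 W) : ℝ) ≤ 2 ^ g * (ε / 10) := by
    have h1 : ∀ W ∈ 𝒲.filter (fun W : Submodule ℚ (X → ℚ) => finrank ℚ W < Y ∧ finrank ℚ W ≠ 1),
        (Nat.card (Fail c 𝒢 W) : ℝ) ≤ 2 ^ g * (ε / 10 / g) := by
      intro W hW
      rw [Finset.mem_filter] at hW
      obtain ⟨h3, h4⟩ := six_small hS (h𝒲 W hW.1) x₀ hcop hW.2.2
      exact hg₃ hS (h𝒲 W hW.1) x₀ (by omega) h3 hW.2.1.le h4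
    refine (Finset.sum_le_sum h1).trans ?_
    rw [Finset.sum_const, nsmul_eq_mul]
    have h2 : ((𝒲.filter (fun W : Submodule ℚ (X → ℚ) => finrank ℚ W < Y ∧ finrank ℚ W ≠ 1)).card : ℝ) ≤ g := by
      exact_mod_cast (Finset.card_filter_le _ _).trans hcard𝒲
    calc ((𝒲.filter (fun W : Submodule ℚ (X → ℚ) => finrank ℚ W < Y ∧ finrank ℚ W ≠ 1)).card : ℝ) *
          (2 ^ g * (ε / 10 / g)) ≤ g * (2 ^ g * (ε / 10 / g)) := by gcongr
      _ = 2 ^ g * (ε / 10) := by field_simp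
  -- dimension one
  have hC : ∑ W ∈ 𝒲.filter (fun W : Submodule ℚ (X → ℚ) => finrank ℚ W = 1), (Nat.card (Fail c 𝒢 W) : ℝ) ≤
      2 ^ g * (ε / 10) := by
    by_cases hne : (𝒲.filter (fun W : Submodule ℚ (X → ℚ) => finrank ℚ W = 1)).Nonempty
    · obtain ⟨W₀, hW₀⟩ := hne
      have hW₀' := hW₀
      rw [Finset.mem_filter] at hW₀'
      have h1 : 𝒲.filter (fun W : Submodule ℚ (X → ℚ) => finrank ℚ W = 1) = {W₀} := by
        ext W
        rw [Finset.mem_singleton]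
        constructor
        · intro hW
          rw [Finset.mem_filter] at hW
          exact dim_one_unique hS (six_odd hcop) (h𝒲 W hW.1) (h𝒲 W₀ hW₀'.1) hW.2 hW₀'.2
        · rintro rfl
          exact hW₀
      rw [h1, Finset.sum_singleton]
      have h2 := hg₂ hS (h𝒲 W₀ hW₀'.1) (six_gal_one hS (h𝒲 W₀ hW₀'.1) x₀ hW₀'.2) x₀ (by omega)
        (by rw [hW₀'.2]; have := hS.pos; omega)
      refine h2.trans (mul_le_mul_of_nonneg_left ?_ h2g.le)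
      rw [hW₀'.2]
      have hsq : 0 < Real.sqrt g := Real.sqrt_pos.2 hgR
      have h3 : 400 / ε ≤ Real.sqrt g := by
        apply Real.le_sqrt_of_sq_le
        refine hD₁.trans ?_
        have : D₁ ≤ g := by omega
        exact_mod_cast this
      rw [div_le_iff₀ hsq]
      rw [div_le_iff₀ hε] at h3
      push_cast
      linarith
    · rw [Finset.not_nonempty_iff_eq_empty] at hne
      rw [hne, Finset.sum_empty]
      positivity
  -- Galois, middle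
  have hD : ∑ W ∈ 𝒲.filter (fun W => Gal 𝒢 W ∧ Y ≤ finrank ℚ W ∧ finrank ℚ W ^ 20 ≤ g ^ 19),
      (Nat.card (Fail c 𝒢 W) : ℝ) ≤ 2 ^ g * (ε / 10 + 2 * (ε / 10)) := by
    refine (hg₅ hS x₀ (by omega) Y hY2 _ ?_ ?_).trans ?_
    · intro W hW
      rw [Finset.mem_filter] at hW
      exact ⟨h𝒲 W hW.1, hW.2.1, endo_ge_two hS (h𝒲 W hW.1) hW.2.1 (six_odd hcop)
        (hY2.trans hW.2.2.1), hW.2.2.1, hW.2.2.2⟩
    · exact (Finset.sum_le_sum_of_subset (Finset.filter_subset _ _)).trans hsum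
    · have h1 := hg₄ g (by omega)
      have hY0 : (2 : ℝ) ≤ Y := by exact_mod_cast hY2
      have hlog : 0 ≤ Real.log (3 * Y) := Real.log_nonneg (by linarith)
      have h3 : 0 ≤ Real.log (3 * Y) / Y := div_nonneg hlog (by linarith)
      have h4 : 768 * Real.log (3 * Y) / Y ≤ 2 * (ε / 10) := by
        have h5 : 400 * (Real.log (3 * Y) / Y) ≤ ε / 10 := by
          rw [← mul_div_assoc]
          exact hY
        rw [mul_div_assoc]
        linarith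
      gcongr
  -- Galois, large
  have hE : ∑ W ∈ 𝒲.filter (fun W => Gal 𝒢 W ∧ Y ≤ finrank ℚ W ∧ ¬ finrank ℚ W ^ 20 ≤ g ^ 19),
      (Nat.card (Fail c 𝒢 W) : ℝ) ≤ 2 ^ g * (ε / 10) := by
    have h1 : ∀ W ∈ 𝒲.filter (fun W => Gal 𝒢 W ∧ Y ≤ finrank ℚ W ∧ ¬ finrank ℚ W ^ 20 ≤ g ^ 19),
        (Nat.card (Fail c 𝒢 W) : ℝ) ≤ 2 ^ g * (1 / (g : ℝ) ^ 2) := by
      intro W hW
      rw [Finset.mem_filter] at hW
      have h3 : finrank ℚ W * (finrank ℚ (Fix 𝒢 x₀ W) / finrank ℚ (Endo 𝒢 W)) ≤ g :=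
        (Finset.single_le_sum (f := fun W : Submodule ℚ (X → ℚ) => finrank ℚ W *
          (finrank ℚ (Fix 𝒢 x₀ W) / finrank ℚ (Endo 𝒢 W))) (fun _ _ => Nat.zero_le _) hW.1).trans
          hsum
      exact hg₆ hS (h𝒲 W hW.1) hW.2.1 x₀ (by omega) (six_three_gm hS (h𝒲 W hW.1) hW.2.1 hcop)
        (six_mult hS (h𝒲 W hW.1) hW.2.1 hcop) (by omega) h3
    refine (Finset.sum_le_sum h1).trans ?_
    rw [Finset.sum_const, nsmul_eq_mul]
    have h2 : ((𝒲.filter (fun W => Gal 𝒢 W ∧ Y ≤ finrank ℚ W ∧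
        ¬ finrank ℚ W ^ 20 ≤ g ^ 19)).card : ℝ) ≤ g := by
      exact_mod_cast (Finset.card_filter_le _ _).trans hcard𝒲
    have h3 : 10 / ε ≤ (g : ℝ) := by
      refine hD₂.trans ?_
      have : D₂ ≤ g := by omega
      exact_mod_cast this
    have h4 : 1 / (g : ℝ) ≤ ε / 10 := by
      rw [div_le_div_iff₀ hgR (by norm_num)]
      rw [div_le_iff₀ hε] at h3
      linarith
    calc ((𝒲.filter (fun W => Gal 𝒢 W ∧ Y ≤ finrank ℚ W ∧
          ¬ finrank ℚ W ^ 20 ≤ g ^ 19)).card : ℝ) * (2 ^ g * (1 / (g : ℝ) ^ 2)) ≤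
          g * (2 ^ g * (1 / (g : ℝ) ^ 2)) := by gcongr
      _ = 2 ^ g * (1 / (g : ℝ)) := by field_simp
      _ ≤ 2 ^ g * (ε / 10) := by gcongr
  have hfin : 2 ^ g * (ε / 10 + ε / 10) + 2 ^ g * (ε / 10) + 2 ^ g * (ε / 10) +
      2 ^ g * (ε / 10 + 2 * (ε / 10)) + 2 ^ g * (ε / 10) ≤ ε * 2 ^ g := by
    have h8 : 0 ≤ ε * 2 ^ g := by positivity
    nlinarith
  linarith

/-- CM types that fail, `g` prime to six. -/
theorem six_cm (ε : ℝ) (hε : 0 < ε) : ∃ g₀ : ℕ, ∀ g : ℕ, g₀ ≤ g → Nat.Coprime g 6 →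
    ∀ (K : Type) [Field K] [NumberField K] [IsCMField K], finrank ℚ K = 2 * g →
    (Nat.card {Φ : Set (K →+* ℂ) // IsCMType Φ ∧ ∃ p, ¬ DivGen Φ p} : ℝ) ≤ ε * 2 ^ g := by
  obtain ⟨g₀, hg₀⟩ := six ε hε
  refine ⟨g₀, fun g hg hcop K _ _ _ hK => ?_⟩
  have hS := sys_cm g hK
  refine le_trans ?_ (hg₀ g hg hcop hS)
  rw [Nat.cast_le]
  exact Nat.card_le_card_of_injective (fun Φ => ⟨Φ.1, fail_cm Φ.1 Φ.2.1 Φ.2.2⟩) (by
    intro Φ Φ' h
    have h' := congrArg Subtype.val h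
    exact Subtype.ext h')

end Pool.Agent.H52.CS
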