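import Mathlib
import Pool.Agent.H52.AD.NonGal2
import Pool.Agent.H52.AD.NonSm
import Pool.Agent.H52.AD.BndG
import Pool.Agent.H52.AD.GenF2
import Pool.Agent.H52.CS.Defs
import Pool.Agent.H52.CS.BndM
import Pool.Agent.H52.CS.GalMid
import Pool.Agent.H52.CS.GalSum
import Pool.Agent.H52.CS.GalBigA
import Pool.Agent.H52.CS.Six

/-!
# Classes with `e = d` in the Galois case: the sum (H52 CS SmallAb)
-/

namespace Pool.Agent.H52.CS

open Module Pool.Agent.H52.AD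

theorem smallAb_cover {α : Type} (s : Finset α) (F : α → ℝ) (hF : ∀ a ∈ s, 0 ≤ F a)
    (p₁ p₂ p₃ p₄ p₅ p₆ : α → Prop) [DecidablePred p₁] [DecidablePred p₂] [DecidablePred p₃]
    [DecidablePred p₄] [DecidablePred p₅] [DecidablePred p₆]
    (h : ∀ a ∈ s, p₁ a ∨ p₂ a ∨ p₃ a ∨ p₄ a ∨ p₅ a ∨ p₆ a) :
    ∑ a ∈ s, F a ≤ ∑ a ∈ s.filter p₁, F a + ∑ a ∈ s.filter p₂, F a + ∑ a ∈ s.filter p₃, F a +
      ∑ a ∈ s.filter p₄, F a + ∑ a ∈ s.filter p₅, F a + ∑ a ∈ s.filter p₆, F a := by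
  simp only [Finset.sum_filter]
  rw [← Finset.sum_add_distrib, ← Finset.sum_add_distrib, ← Finset.sum_add_distrib,
    ← Finset.sum_add_distrib, ← Finset.sum_add_distrib]
  refine Finset.sum_le_sum fun a ha => ?_
  have h0 := hF a ha
  have h1 : 0 ≤ (if p₁ a then F a else 0) := by split_ifs <;> simp [h0]
  have h2 : 0 ≤ (if p₂ a then F a else 0) := by split_ifs <;> simp [h0]
  have h3 : 0 ≤ (if p₃ a then F a else 0) := by split_ifs <;> simp [h0]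
  have h4 : 0 ≤ (if p₄ a then F a else 0) := by split_ifs <;> simp [h0]
  have h5 : 0 ≤ (if p₅ a then F a else 0) := by split_ifs <;> simp [h0]
  have h6 : 0 ≤ (if p₆ a then F a else 0) := by split_ifs <;> simp [h0]
  rcases h a ha with h | h | h | h | h | h
  · rw [if_pos h]; linarith
  · rw [if_pos h]; linarith
  · rw [if_pos h]; linarith
  · rw [if_pos h]; linarith
  · rw [if_pos h]; linarith
  · rw [if_pos h]; linarith

theorem smallAb_log : Real.log (3 * 2) ≤ 2 := by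
  have h1 : (3 * 2 : ℝ) ≤ Real.exp 2 := by
    have h2 := Real.exp_one_gt_d9
    have h3 : Real.exp 2 = Real.exp 1 * Real.exp 1 := by rw [← Real.exp_add]; norm_num
    rw [h3]
    nlinarith
  calc Real.log (3 * 2) ≤ Real.log (Real.exp 2) := Real.log_le_log (by norm_num) h1
    _ = 2 := Real.log_exp 2

/-- The sum over a family in which the spaces of Galois type have multiplicity one. -/
theorem small_ab (ε : ℝ) (hε : 0 < ε) : ∃ g₀ : ℕ, ∀ {X : Type} [Fintype X] {c : Equiv.Perm X}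
    {𝒢 : Subgroup (Equiv.Perm X)} {g : ℕ}, Sys c 𝒢 g → ∀ x₀ : X, g₀ ≤ g →
    ∀ 𝒲 : Finset (Submodule ℚ (X → ℚ)), (∀ W ∈ 𝒲, Smp c 𝒢 W) →
    (∀ W ∈ 𝒲, Gal 𝒢 W → finrank ℚ (Endo 𝒢 W) = finrank ℚ W) →
    ∑ W ∈ 𝒲, finrank ℚ W * (finrank ℚ (Fix 𝒢 x₀ W) / finrank ℚ (Endo 𝒢 W)) ≤ g →
    ∀ n₁ n₂ : ℕ, (∀ 𝒱 ⊆ 𝒲, (∀ W ∈ 𝒱, finrank ℚ W = 1) → 𝒱.card ≤ n₁) →
    (∀ 𝒱 ⊆ 𝒲, (∀ W ∈ 𝒱, finrank ℚ W = 2) → 𝒱.card ≤ n₂) →
    ∑ W ∈ 𝒲, (Nat.card (Fail c 𝒢 W) : ℝ) ≤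
      2 ^ g * (ε + 40 * n₁ / Real.sqrt g + 4400 * n₂ / g) := by
  classical
  obtain ⟨Y, hY2, hY⟩ := exists_Y (ε / 10) (by positivity)
  obtain ⟨g₁, hg₁⟩ := non_gal2
  obtain ⟨g₂, hg₂⟩ := bnd_g
  obtain ⟨g₃, hg₃⟩ := bnd_m Y (ε / 10) (by positivity)
  obtain ⟨g₄, hg₄⟩ := exists_g4 (ε / 10) (by positivity)
  obtain ⟨g₅, hg₅⟩ := gal_sum
  obtain ⟨g₆, hg₆⟩ := gal_big_a
  obtain ⟨g₇, hg₇⟩ := gal_mid
  obtain ⟨g₈, hg₈⟩ := bnd_small 2 (by norm_num)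
  obtain ⟨D₂, hD₂⟩ := exists_nat_ge (10 / ε)
  refine ⟨g₁ + g₂ + g₃ + g₄ + g₅ + g₆ + g₇ + g₈ + D₂ + 4, ?_⟩
  intro X _ c 𝒢 g hS x₀ hg 𝒲 h𝒲 hGe hsum n₁ n₂ hn₁ hn₂
  have hgR : (0 : ℝ) < g := by exact_mod_cast hS.pos
  have h2g : (0 : ℝ) < 2 ^ g := by positivity
  have hcard𝒲 : 𝒲.card ≤ g := by
    refine le_trans ?_ hsum
    rw [Finset.card_eq_sum_ones]
    exact Finset.sum_le_sum fun W hW => six_mult_pos hS (h𝒲 W hW) x₀
  have hsplit := smallAb_cover 𝒲 (fun W => (Nat.card (Fail c 𝒢 W) : ℝ))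
    (fun W _ => Nat.cast_nonneg _)
    (fun W => ¬ Gal 𝒢 W ∧ Y ≤ finrank ℚ W)
    (fun W : Submodule ℚ (X → ℚ) => 3 ≤ finrank ℚ W ∧ finrank ℚ W < Y)
    (fun W : Submodule ℚ (X → ℚ) => finrank ℚ W = 1)
    (fun W : Submodule ℚ (X → ℚ) => finrank ℚ W = 2)
    (fun W => Gal 𝒢 W ∧ 3 ≤ finrank ℚ W ∧ Y ≤ finrank ℚ W ∧ finrank ℚ W ^ 20 ≤ g ^ 19)
    (fun W => Gal 𝒢 W ∧ 3 ≤ finrank ℚ W ∧ Y ≤ finrank ℚ W ∧ ¬ finrank ℚ W ^ 20 ≤ g ^ 19) (by
      intro W hW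
      have h0 := six_pos (h𝒲 W hW)
      by_cases h1 : finrank ℚ W = 1
      · exact Or.inr (Or.inr (Or.inl h1))
      · by_cases h1' : finrank ℚ W = 2
        · exact Or.inr (Or.inr (Or.inr (Or.inl h1')))
        · by_cases h2 : finrank ℚ W < Y
          · exact Or.inr (Or.inl ⟨by omega, h2⟩)
          · by_cases h3 : Gal 𝒢 W
            · by_cases h4 : finrank ℚ W ^ 20 ≤ g ^ 19
              · exact Or.inr (Or.inr (Or.inr (Or.inr (Or.inl ⟨h3, by omega, by omega, h4⟩))))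
              · exact Or.inr (Or.inr (Or.inr (Or.inr (Or.inr ⟨h3, by omega, by omega, h4⟩))))
            · exact Or.inl ⟨h3, by omega⟩)
  -- not Galois, large
  have hA : ∑ W ∈ 𝒲.filter (fun W => ¬ Gal 𝒢 W ∧ Y ≤ finrank ℚ W), (Nat.card (Fail c 𝒢 W) : ℝ) ≤
      2 ^ g * (ε / 10 + ε / 10) := by
    refine (hg₁ hS x₀ (by omega) Y hY2 _ ?_ ?_).trans ?_
    · intro W hW
      rw [Finset.mem_filter] at hW
      exact ⟨h𝒲 W hW.1, hW.2.1, hW.2.2⟩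
    · exact (Finset.sum_le_sum_of_subset (Finset.filter_subset _ _)).trans hsum
    · have h1 := hg₄ g (by omega)
      gcongr
  -- small
  have hB : ∑ W ∈ 𝒲.filter (fun W : Submodule ℚ (X → ℚ) => 3 ≤ finrank ℚ W ∧ finrank ℚ W < Y),
      (Nat.card (Fail c 𝒢 W) : ℝ) ≤ 2 ^ g * (ε / 10) := by
    have h1 : ∀ W ∈ 𝒲.filter (fun W : Submodule ℚ (X → ℚ) => 3 ≤ finrank ℚ W ∧ finrank ℚ W < Y),
        (Nat.card (Fail c 𝒢 W) : ℝ) ≤ 2 ^ g * (ε / 10 / g) := by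
      intro W hW
      rw [Finset.mem_filter] at hW
      refine hg₃ hS (h𝒲 W hW.1) x₀ (by omega) hW.2.1 hW.2.2.le ?_
      have hle := fix_le_dim (𝒢 := 𝒢) (W := W) x₀
      have he := endo_pos (h𝒲 W hW.1)
      have h3 := hW.2.1
      by_cases hG : Gal 𝒢 W
      · have h5 := hGe W hW.1 hG
        omega
      · have h5 : finrank ℚ (Fix 𝒢 x₀ W) ≠ finrank ℚ W :=
          fun h => hG ((fix_eq_dim hS (h𝒲 W hW.1) x₀).1 h)
        omega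
    refine (Finset.sum_le_sum h1).trans ?_
    rw [Finset.sum_const, nsmul_eq_mul]
    have h2 : ((𝒲.filter (fun W : Submodule ℚ (X → ℚ) => 3 ≤ finrank ℚ W ∧
        finrank ℚ W < Y)).card : ℝ) ≤ g := by
      exact_mod_cast (Finset.card_filter_le _ _).trans hcard𝒲
    calc ((𝒲.filter (fun W : Submodule ℚ (X → ℚ) => 3 ≤ finrank ℚ W ∧ finrank ℚ W < Y)).card : ℝ) *
          (2 ^ g * (ε / 10 / g)) ≤ g * (2 ^ g * (ε / 10 / g)) := by gcongr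
      _ = 2 ^ g * (ε / 10) := by field_simp
  -- dimension one
  have hC : ∑ W ∈ 𝒲.filter (fun W : Submodule ℚ (X → ℚ) => finrank ℚ W = 1),
      (Nat.card (Fail c 𝒢 W) : ℝ) ≤ 2 ^ g * (40 * n₁ / Real.sqrt g) := by
    have h1 : ∀ W ∈ 𝒲.filter (fun W : Submodule ℚ (X → ℚ) => finrank ℚ W = 1),
        (Nat.card (Fail c 𝒢 W) : ℝ) ≤ 2 ^ g * (40 / Real.sqrt g) := by
      intro W hW
      rw [Finset.mem_filter] at hW
      have h2 := hg₂ hS (h𝒲 W hW.1) (six_gal_one hS (h𝒲 W hW.1) x₀ hW.2) x₀ (by omega)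
        (by rw [hW.2]; have := hS.pos; omega)
      rw [hW.2] at h2
      simpa using h2
    refine (Finset.sum_le_sum h1).trans ?_
    rw [Finset.sum_const, nsmul_eq_mul]
    have h2 : ((𝒲.filter (fun W : Submodule ℚ (X → ℚ) => finrank ℚ W = 1)).card : ℝ) ≤ n₁ := by
      exact_mod_cast hn₁ _ (Finset.filter_subset _ _) (fun W hW => (Finset.mem_filter.1 hW).2)
    calc ((𝒲.filter (fun W : Submodule ℚ (X → ℚ) => finrank ℚ W = 1)).card : ℝ) *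
          (2 ^ g * (40 / Real.sqrt g)) ≤ n₁ * (2 ^ g * (40 / Real.sqrt g)) := by gcongr
      _ = 2 ^ g * (40 * n₁ / Real.sqrt g) := by ring
  -- dimension two
  have hC2 : ∑ W ∈ 𝒲.filter (fun W : Submodule ℚ (X → ℚ) => finrank ℚ W = 2),
      (Nat.card (Fail c 𝒢 W) : ℝ) ≤ 2 ^ g * (4400 * n₂ / g) := by
    have hlog := smallAb_log
    have hlog0 : 0 ≤ Real.log (3 * 2) := Real.log_nonneg (by norm_num)
    have h1 : ∀ W ∈ 𝒲.filter (fun W : Submodule ℚ (X → ℚ) => finrank ℚ W = 2),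
        (Nat.card (Fail c 𝒢 W) : ℝ) ≤ 2 ^ g * (4400 / g) := by
      intro W hW
      rw [Finset.mem_filter] at hW
      by_cases hG : Gal 𝒢 W
      · have he := hGe W hW.1 hG
        have h2 := (hg₇ hS (h𝒲 W hW.1) hG x₀ (by omega) (by omega) (by omega) (by
          rw [hW.2]
          calc 2 ^ 20 ≤ 4 ^ 19 := by norm_num
            _ ≤ g ^ 19 := Nat.pow_le_pow_left (by omega) _)).1
        refine h2.trans (mul_le_mul_of_nonneg_left ?_ h2g.le)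
        rw [hW.2, ← mul_div_assoc]
        push_cast
        gcongr
        nlinarith
      · have h2 := hg₈ hS (h𝒲 W hW.1) hG x₀ (by omega) hW.2.le
        refine h2.trans (mul_le_mul_of_nonneg_left ?_ h2g.le)
        push_cast
        gcongr
        nlinarith
    refine (Finset.sum_le_sum h1).trans ?_
    rw [Finset.sum_const, nsmul_eq_mul]
    have h2 : ((𝒲.filter (fun W : Submodule ℚ (X → ℚ) => finrank ℚ W = 2)).card : ℝ) ≤ n₂ := by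
      exact_mod_cast hn₂ _ (Finset.filter_subset _ _) (fun W hW => (Finset.mem_filter.1 hW).2)
    calc ((𝒲.filter (fun W : Submodule ℚ (X → ℚ) => finrank ℚ W = 2)).card : ℝ) *
          (2 ^ g * (4400 / g)) ≤ n₂ * (2 ^ g * (4400 / g)) := by gcongr
      _ = 2 ^ g * (4400 * n₂ / g) := by ring
  -- Galois, middle
  have hD : ∑ W ∈ 𝒲.filter (fun W => Gal 𝒢 W ∧ 3 ≤ finrank ℚ W ∧ Y ≤ finrank ℚ W ∧
      finrank ℚ W ^ 20 ≤ g ^ 19), (Nat.card (Fail c 𝒢 W) : ℝ) ≤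
      2 ^ g * (ε / 10 + 2 * (ε / 10)) := by
    refine (hg₅ hS x₀ (by omega) Y hY2 _ ?_ ?_).trans ?_
    · intro W hW
      rw [Finset.mem_filter] at hW
      refine ⟨h𝒲 W hW.1, hW.2.1, ?_, hW.2.2.2.1, hW.2.2.2.2⟩
      have := hGe W hW.1 hW.2.1
      omega
    · exact (Finset.sum_le_sum_of_subset (Finset.filter_subset _ _)).trans hsum
    · have h1 := hg₄ g (by omega)
      have hY0 : (2 : ℝ) ≤ Y := by exact_mod_cast hY2
      have hlog : 0 ≤ Real.log (3 * Y) := Real.log_nonneg (by linarith)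
      have h3 : 0 ≤ Real.log (3 * Y) / Y := div_nonneg hlog (by linarith)
      have h4 : 768 * Real.log (3 * Y) / Y ≤ 2 * (ε / 10) := by
        have h5 : 400 * (Real.log (3 * Y) / Y) ≤ ε / 10 := by
          rw [← mul_div_assoc]
          exact hY
        rw [mul_div_assoc]
        linarith
      gcongr
  -- Galois, large
  have hE : ∑ W ∈ 𝒲.filter (fun W => Gal 𝒢 W ∧ 3 ≤ finrank ℚ W ∧ Y ≤ finrank ℚ W ∧
      ¬ finrank ℚ W ^ 20 ≤ g ^ 19), (Nat.card (Fail c 𝒢 W) : ℝ) ≤ 2 ^ g * (ε / 10) := by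
    have h1 : ∀ W ∈ 𝒲.filter (fun W => Gal 𝒢 W ∧ 3 ≤ finrank ℚ W ∧ Y ≤ finrank ℚ W ∧
        ¬ finrank ℚ W ^ 20 ≤ g ^ 19),
        (Nat.card (Fail c 𝒢 W) : ℝ) ≤ 2 ^ g * (1 / (g : ℝ) ^ 2) := by
      intro W hW
      rw [Finset.mem_filter] at hW
      exact hg₆ hS (h𝒲 W hW.1) hW.2.1 x₀ (by omega) (hGe W hW.1 hW.2.1) (by omega)
    refine (Finset.sum_le_sum h1).trans ?_
    rw [Finset.sum_const, nsmul_eq_mul]
    have h2 : ((𝒲.filter (fun W => Gal 𝒢 W ∧ 3 ≤ finrank ℚ W ∧ Y ≤ finrank ℚ W ∧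
        ¬ finrank ℚ W ^ 20 ≤ g ^ 19)).card : ℝ) ≤ g := by
      exact_mod_cast (Finset.card_filter_le _ _).trans hcard𝒲
    have h3 : 10 / ε ≤ (g : ℝ) := by
      refine hD₂.trans ?_
      have : D₂ ≤ g := by omega
      exact_mod_cast this
    have h4 : 1 / (g : ℝ) ≤ ε / 10 := by
      rw [div_le_div_iff₀ hgR (by norm_num)]
      rw [div_le_iff₀ hε] at h3
      linarith
    calc ((𝒲.filter (fun W => Gal 𝒢 W ∧ 3 ≤ finrank ℚ W ∧ Y ≤ finrank ℚ W ∧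
          ¬ finrank ℚ W ^ 20 ≤ g ^ 19)).card : ℝ) * (2 ^ g * (1 / (g : ℝ) ^ 2)) ≤
          g * (2 ^ g * (1 / (g : ℝ) ^ 2)) := by gcongr
      _ = 2 ^ g * (1 / (g : ℝ)) := by field_simp
      _ ≤ 2 ^ g * (ε / 10) := by gcongr
  have hfin : 2 ^ g * (ε / 10 + ε / 10) + 2 ^ g * (ε / 10) +
      2 ^ g * (40 * n₁ / Real.sqrt g) + 2 ^ g * (4400 * n₂ / g) +
      2 ^ g * (ε / 10 + 2 * (ε / 10)) + 2 ^ g * (ε / 10) ≤
      2 ^ g * (ε + 40 * n₁ / Real.sqrt g + 4400 * n₂ / g) := by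
    have h8 : 0 ≤ 2 ^ g * ε := by positivity
    nlinarith
  linarith

end Pool.Agent.H52.CS
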