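import Mathlib
import Pool.Agent.H52.AD.RepsB
import Pool.Agent.H52.AD.GenX
import Pool.Agent.H52.AD.GenF2
import Pool.Agent.H52.AD.Final
import Pool.Agent.H52.CS.Defs
import Pool.Agent.H52.CS.SmallAb
import Pool.Agent.H52.CS.GalAb
import Pool.Agent.H52.CS.RootE
import Pool.Agent.H52.CS.RootTwo
import Pool.Agent.H52.CS.GenTwo

/-!
# Few small CM subfields (H52 CS FewSmall)
-/

open NumberField Module

namespace Pool.Agent.H52.CS

open Pool.Agent.H52.MF Pool.Agent.H52.AD Pool.Agent.H38.CM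

variable {K : Type} [Field K] [NumberField K] [IsCMField K]

omit [IsCMField K] in
/-- counting spaces by the subfields they come from -/
theorem fewSmall_count {c : Equiv.Perm (K →+* ℂ)}
    (𝒲 : Finset (Submodule ℚ ((K →+* ℂ) → ℚ))) (h𝒲 : ∀ W ∈ 𝒲, Smp c (autGrp K) W)
    (hdim : ∀ 𝒱 ⊆ 𝒲, ∀ V : Submodule ℚ ((K →+* ℂ) → ℚ), (∀ W ∈ 𝒱, W ≤ V) →
        ∑ W ∈ 𝒱, finrank ℚ W ≤ finrank ℚ V)
    (p : IntermediateField ℚ K → Prop) (N : ℕ) (𝒱 : Finset (Submodule ℚ ((K →+* ℂ) → ℚ)))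
    (h𝒱 : 𝒱 ⊆ 𝒲)
    (h : ∀ W ∈ 𝒱, ∃ F : IntermediateField ℚ K, p F ∧ finrank ℚ F ≤ N ∧ W ≤ VF F) :
    𝒱.card ≤ Nat.card {F : IntermediateField ℚ K // p F} * N := by
  classical
  have hfin : Finite (IntermediateField ℚ K) :=
    (Field.exists_primitive_element_iff_finite_intermediateField ℚ K).1
      ⟨inferInstance, Field.exists_primitive_element ℚ K⟩
  obtain ⟨ℱ, hℱ⟩ : ∃ ℱ : Finset (IntermediateField ℚ K), ∀ F, F ∈ ℱ ↔ p F :=
    ⟨(Set.toFinite {F : IntermediateField ℚ K | p F}).toFinset,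
      fun F => by rw [Set.Finite.mem_toFinset]; rfl⟩
  have hℱc : ℱ.card = Nat.card {F : IntermediateField ℚ K // p F} := by
    have h1 : {F : IntermediateField ℚ K | p F} = (ℱ : Set (IntermediateField ℚ K)) := by
      ext F
      rw [Finset.mem_coe, hℱ]
      rfl
    have h2 : Nat.card {F : IntermediateField ℚ K // p F} =
        Set.ncard {F : IntermediateField ℚ K | p F} := rfl
    rw [h2, h1, Set.ncard_coe_finset]
  rw [← hℱc]
  have hex : ∀ W : Submodule ℚ ((K →+* ℂ) → ℚ), ∃ F : IntermediateField ℚ K, W ∈ 𝒱 →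
      (F ∈ ℱ ∧ W ≤ VF F ∧ finrank ℚ F ≤ N) := by
    intro W
    by_cases hW : W ∈ 𝒱
    · obtain ⟨F, h1, h2, h3⟩ := h W hW
      exact ⟨F, fun _ => ⟨(hℱ F).2 h1, h3, h2⟩⟩
    · exact ⟨⊥, fun h => absurd h hW⟩
  choose Fm hFm using hex
  rw [Finset.card_eq_sum_card_fiberwise (f := Fm) (t := ℱ) (fun W hW => (hFm W hW).1)]
  rw [← smul_eq_mul, ← Finset.sum_const]
  refine Finset.sum_le_sum fun F _ => ?_
  by_cases hne : (𝒱.filter (fun W => Fm W = F)).Nonempty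
  · obtain ⟨W₁, hW₁⟩ := hne
    rw [Finset.mem_filter] at hW₁
    have hFD : finrank ℚ F ≤ N := by
      rw [← hW₁.2]
      exact (hFm W₁ hW₁.1).2.2
    have h3 := hdim (𝒱.filter (fun W => Fm W = F))
      ((Finset.filter_subset _ _).trans h𝒱) (VF F) (by
        intro W hW
        rw [Finset.mem_filter] at hW
        rw [← hW.2]
        exact (hFm W hW.1).2.1)
    refine le_trans ?_ ((h3.trans (finrank_VF F)).trans hFD)
    rw [Finset.card_eq_sum_ones]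
    refine Finset.sum_le_sum fun W hW => ?_
    rw [Nat.one_le_iff_ne_zero]
    intro h4
    exact (h𝒲 W (h𝒱 (Finset.mem_filter.1 hW).1)).1 (Submodule.finrank_eq_zero.1 h4)
  · rw [Finset.not_nonempty_iff_eq_empty] at hne
    rw [hne, Finset.card_empty]
    exact Nat.zero_le _

/-- a simple line comes from an imaginary quadratic subfield -/
theorem fewSmall_one (g : ℕ) (hg : finrank ℚ K = 2 * g) (W : Submodule ℚ ((K →+* ℂ) → ℚ))
    (hW : Smp (cjp K) (autGrp K) W) (hd : finrank ℚ W = 1) :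
    ∃ F : IntermediateField ℚ K, (IsCMField F ∧ finrank ℚ F = 2) ∧ finrank ℚ F ≤ 2 ∧ W ≤ VF F := by
  have hS := sys_cm g hg
  have he : finrank ℚ (Endo (autGrp K) W) = finrank ℚ W := by
    have h1 := endo_pos hW
    have h2 := Nat.le_of_dvd (by omega) (endo_dvd_dim hW)
    omega
  obtain ⟨F, h1, h2, h3⟩ := gen_deg g hg W hW (fun x y h => root_e_triv hS hW he x y h)
  rw [root_one_card hS hW hd] at h3
  exact ⟨F, ⟨h1, h3⟩, h3.le, h2⟩

/-- a simple plane comes from a subfield of degree 4 or 6 -/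
theorem fewSmall_two (g : ℕ) (hg : finrank ℚ K = 2 * g) (W : Submodule ℚ ((K →+* ℂ) → ℚ))
    (hW : Smp (cjp K) (autGrp K) W) (hd : finrank ℚ W = 2)
    (he : Gal (autGrp K) W → finrank ℚ (Endo (autGrp K) W) = finrank ℚ W) :
    ∃ F : IntermediateField ℚ K, (IsCMField F ∧ (finrank ℚ F = 4 ∨ finrank ℚ F = 6)) ∧
      finrank ℚ F ≤ 6 ∧ W ≤ VF F := by
  have hS := sys_cm g hg
  by_cases hG : Gal (autGrp K) W
  · have he := he hG
    obtain ⟨F, h1, h2, h3⟩ := gen_deg g hg W hW (fun x y h => root_e_triv hS hW he x y h)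
    have h4 := root_e_card hS hW hd he
    rw [← h3] at h4
    exact ⟨F, ⟨h1, h4⟩, by omega, h2⟩
  · obtain ⟨F, h1, -, h3, h4⟩ := gen_two g hg W hW hd hG
    exact ⟨F, ⟨h1, h3⟩, by omega, h4⟩

theorem few_small (ε : ℝ) (hε : 0 < ε) : ∃ D : ℕ, 1 ≤ D ∧
    ∀ (K : Type) [Field K] [NumberField K] [IsCMField K] (g : ℕ), finrank ℚ K = 2 * g → D ≤ g →
    (∀ F : IntermediateField ℚ K, IsCMField F → IsGalois ℚ F →
      (∀ σ τ : F ≃ₐ[ℚ] F, σ * τ = τ * σ) ∨ D * finrank ℚ F ^ 2 ≤ g) →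
    D * Nat.card {F : IntermediateField ℚ K // IsCMField F ∧ finrank ℚ F = 2} ^ 2 ≤ g →
    D * Nat.card {F : IntermediateField ℚ K //
      IsCMField F ∧ (finrank ℚ F = 4 ∨ finrank ℚ F = 6)} ≤ g →
    (Nat.card {Φ : Set (K →+* ℂ) // IsCMType Φ ∧ ∃ p, ¬ DivGen Φ p} : ℝ) ≤ ε * 2 ^ g := by
  classical
  obtain ⟨g₁, hg₁⟩ := small_ab (ε / 4) (by positivity)
  obtain ⟨g₂, hg₂⟩ := bnd_g
  obtain ⟨D₁, hD₁⟩ := exists_nat_ge ((320 / ε) ^ 2)
  obtain ⟨D₂, hD₂⟩ := exists_nat_ge (4 * (4400 * 6) / ε)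
  refine ⟨g₁ + g₂ + D₁ + D₂ + 1, by omega, ?_⟩
  intro K _ _ _ g hK hg hGal hc2 hc4
  obtain ⟨D, hD⟩ : ∃ D, D = g₁ + g₂ + D₁ + D₂ + 1 := ⟨_, rfl⟩
  rw [← hD] at hg hGal hc2 hc4
  have hS := sys_cm g hK
  have hc : ∀ x, cjp K x = ComplexEmbedding.conjugate x := fun x => rfl
  have hcard : 0 < Fintype.card (K →+* ℂ) := by
    rw [hS.card]
    have := hS.pos
    omega
  obtain ⟨x₀⟩ := Fintype.card_pos_iff.1 hcard
  obtain ⟨𝒲, h𝒲, hrep, hsum, hdim⟩ := exists_reps_b hS x₀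
  have hgR : (0 : ℝ) < g := by exact_mod_cast hS.pos
  have h2g : (0 : ℝ) < 2 ^ g := by positivity
  have hDpos : (0 : ℝ) < D := by
    have : 0 < D := by omega
    exact_mod_cast this
  have hsq : 0 < Real.sqrt g := Real.sqrt_pos.2 hgR
  have hD1 : (320 / ε) ^ 2 ≤ (D : ℝ) := by
    refine hD₁.trans ?_
    have : D₁ ≤ D := by omega
    exact_mod_cast this
  have hD2 : 4 * (4400 * 6) ≤ ε * D := by
    have h1 : 4 * (4400 * 6) / ε ≤ (D : ℝ) := by
      refine hD₂.trans ?_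
      have : D₂ ≤ D := by omega
      exact_mod_cast this
    rw [div_le_iff₀ hε] at h1
    linarith
  -- the key sum
  obtain ⟨a, ha⟩ : ∃ a, a = Nat.card {F : IntermediateField ℚ K // IsCMField F ∧ finrank ℚ F = 2} :=
    ⟨_, rfl⟩
  obtain ⟨b, hb⟩ : ∃ b, b = Nat.card {F : IntermediateField ℚ K //
      IsCMField F ∧ (finrank ℚ F = 4 ∨ finrank ℚ F = 6)} := ⟨_, rfl⟩
  rw [← ha] at hc2
  rw [← hb] at hc4
  have hkey : ∀ 𝒲' ⊆ 𝒲, (∀ W ∈ 𝒲', Gal (autGrp K) W →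
      finrank ℚ (Endo (autGrp K) W) = finrank ℚ W) →
      ∑ W ∈ 𝒲', (Nat.card (Fail (cjp K) (autGrp K) W) : ℝ) ≤ 3 * (ε / 4) * 2 ^ g := by
    intro 𝒲' h𝒲' hGe
    have h1 := hg₁ hS x₀ (by omega) 𝒲' (fun W hW => h𝒲 W (h𝒲' hW)) hGe
      ((Finset.sum_le_sum_of_subset h𝒲').trans hsum) (a * 2) (b * 6)
      (by
        intro 𝒱 h𝒱 h1
        rw [ha]
        exact fewSmall_count 𝒲 h𝒲 hdim _ 2 𝒱 (h𝒱.trans h𝒲')
          (fun W hW => fewSmall_one g hK W (h𝒲 W (h𝒲' (h𝒱 hW))) (h1 W hW)))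
      (by
        intro 𝒱 h𝒱 h1
        rw [hb]
        exact fewSmall_count 𝒲 h𝒲 hdim _ 6 𝒱 (h𝒱.trans h𝒲')
          (fun W hW => fewSmall_two g hK W (h𝒲 W (h𝒲' (h𝒱 hW))) (h1 W hW)
            (hGe W (h𝒱 hW))))
    refine h1.trans ?_
    have h2 : 40 * ((a * 2 : ℕ) : ℝ) / Real.sqrt g ≤ ε / 4 := by
      rw [div_le_iff₀ hsq]
      have h3 : (320 / ε * a : ℝ) ≤ Real.sqrt g := by
        apply Real.le_sqrt_of_sq_le
        have h8 : ((D * a ^ 2 : ℕ) : ℝ) ≤ g := by exact_mod_cast hc2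
        push_cast at h8
        calc (320 / ε * a : ℝ) ^ 2 = (320 / ε) ^ 2 * (a : ℝ) ^ 2 := by ring
          _ ≤ (D : ℝ) * (a : ℝ) ^ 2 := by gcongr
          _ ≤ g := h8
      calc 40 * ((a * 2 : ℕ) : ℝ) = ε / 4 * (320 / ε * a) := by push_cast; field_simp; ring
        _ ≤ ε / 4 * Real.sqrt g := by gcongr
    have h4 : 4400 * ((b * 6 : ℕ) : ℝ) / g ≤ ε / 4 := by
      rw [div_le_iff₀ hgR]
      have h5 : (D : ℝ) * b ≤ g := by exact_mod_cast hc4
      push_cast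
      calc 4400 * ((b : ℝ) * 6) = (4 * (4400 * 6)) * b / 4 := by ring
        _ ≤ (ε * D) * b / 4 := by gcongr
        _ = ε * (D * b) / 4 := by ring
        _ ≤ ε * g / 4 := by gcongr
        _ = ε / 4 * g := by ring
    calc 2 ^ g * (ε / 4 + 40 * ((a * 2 : ℕ) : ℝ) / Real.sqrt g + 4400 * ((b * 6 : ℕ) : ℝ) / g) ≤
        2 ^ g * (ε / 4 + ε / 4 + ε / 4) := by gcongr
      _ = 3 * (ε / 4) * 2 ^ g := by ring
  have hfail : (Nat.card {Φ : Set (K →+* ℂ) // IsCMType Φ ∧ ∃ p, ¬ DivGen Φ p} : ℝ) ≤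
      Nat.card (FailP (cjp K) (autGrp K) (fun _ => True)) := by
    rw [Nat.cast_le]
    exact Nat.card_le_card_of_injective (fun Φ => ⟨Φ.1, fail_cm Φ.1 Φ.2.1 Φ.2.2⟩) (by
      intro Φ Φ' h
      have h' := congrArg Subtype.val h
      exact Subtype.ext h')
  have hcov := fail_cover2 (c := cjp K) 𝒲 hrep
  have hε2 : 0 ≤ ε * 2 ^ g := by positivity
  by_cases hne : (𝒲.filter (fun W => Gal (autGrp K) W)).Nonempty
  · obtain ⟨W₀, hW₀⟩ := hne
    rw [Finset.mem_filter] at hW₀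
    obtain ⟨F, hF1, hF2, hF3⟩ := gen_gal2 (cjp K) hc W₀ (h𝒲 W₀ hW₀.1) hW₀.2
    rcases hGal F hF1 hF2 with hab | h3
    · -- abelian case
      have h1 := hkey 𝒲 (Finset.Subset.refl _)
        (fun W hW hG => gal_ab (cjp K) W (h𝒲 W hW) F hF2 hab (hF3 W hG))
      linarith
    · -- small case
      have hA : ∑ W ∈ 𝒲.filter (fun W => Gal (autGrp K) W),
          (Nat.card (Fail (cjp K) (autGrp K) W) : ℝ) ≤ ε / 4 * 2 ^ g := by
        have h1 := hdim (𝒲.filter (fun W => Gal (autGrp K) W)) (Finset.filter_subset _ _) (VF F)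
          (fun W hW => hF3 W (Finset.mem_filter.1 hW).2)
        have h2 : ∑ W ∈ 𝒲.filter (fun W => Gal (autGrp K) W), finrank ℚ W ≤ finrank ℚ F :=
          h1.trans (finrank_VF F)
        have h4 : ∀ W ∈ 𝒲.filter (fun W => Gal (autGrp K) W),
            (Nat.card (Fail (cjp K) (autGrp K) W) : ℝ) ≤
              2 ^ g * (40 * finrank ℚ W / Real.sqrt g) := by
          intro W hW
          obtain ⟨hW1, hW2⟩ := Finset.mem_filter.1 hW
          refine hg₂ hS (h𝒲 W hW1) hW2 x₀ (by omega) ?_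
          have h5 : finrank ℚ W ≤ finrank ℚ F :=
            (Submodule.finrank_mono (hF3 W hW2)).trans (finrank_VF F)
          calc finrank ℚ W ^ 2 ≤ finrank ℚ F ^ 2 := Nat.pow_le_pow_left h5 2
            _ ≤ D * finrank ℚ F ^ 2 := Nat.le_mul_of_pos_left _ (by omega)
            _ ≤ g := h3
        refine (Finset.sum_le_sum h4).trans ?_
        rw [← Finset.mul_sum, ← Finset.sum_div, ← Finset.mul_sum, mul_comm (ε / 4)]
        refine mul_le_mul_of_nonneg_left ?_ h2g.le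
        rw [div_le_iff₀ hsq]
        have h6 : (∑ W ∈ 𝒲.filter (fun W => Gal (autGrp K) W), (finrank ℚ W : ℝ)) ≤
            finrank ℚ F := by
          exact_mod_cast h2
        have h7 : (320 / ε * finrank ℚ F : ℝ) ≤ Real.sqrt g := by
          apply Real.le_sqrt_of_sq_le
          have h8 : ((D * finrank ℚ F ^ 2 : ℕ) : ℝ) ≤ g := by exact_mod_cast h3
          push_cast at h8
          calc (320 / ε * finrank ℚ F : ℝ) ^ 2 = (320 / ε) ^ 2 * (finrank ℚ F : ℝ) ^ 2 := by ring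
            _ ≤ (D : ℝ) * (finrank ℚ F : ℝ) ^ 2 := by gcongr
            _ ≤ g := h8
        calc 40 * (∑ W ∈ 𝒲.filter (fun W => Gal (autGrp K) W), (finrank ℚ W : ℝ)) ≤
            80 * (finrank ℚ F : ℝ) := by
              have h9 : (0 : ℝ) ≤ finrank ℚ F := Nat.cast_nonneg _
              linarith
          _ = ε / 4 * (320 / ε * finrank ℚ F) := by field_simp; ring
          _ ≤ ε / 4 * Real.sqrt g := by gcongr
      have hB := hkey (𝒲.filter (fun W => ¬ Gal (autGrp K) W)) (Finset.filter_subset _ _)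
        (fun W hW hG => absurd hG (Finset.mem_filter.1 hW).2)
      have hsplit := Finset.sum_filter_add_sum_filter_not 𝒲 (fun W => Gal (autGrp K) W)
        (fun W => (Nat.card (Fail (cjp K) (autGrp K) W) : ℝ))
      linarith
  · rw [Finset.not_nonempty_iff_eq_empty] at hne
    have h1 := hkey 𝒲 (Finset.Subset.refl _) (by
      intro W hW hG
      exfalso
      have h2 : W ∈ 𝒲.filter (fun W => Gal (autGrp K) W) := Finset.mem_filter.2 ⟨hW, hG⟩
      rw [hne] at h2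
      exact absurd h2 (Finset.notMem_empty W))
    linarith

end Pool.Agent.H52.CS
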