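import Mathlib

/-!
# Definitions for FewSmallCMSubfields

* `NumQuad K`: the number of the imaginary quadratic subfields of the number field `K`;
* `NumSmall K`: the number of the CM subfields of `K` of degree `4` or `6`;
* `GalAbOrSmall K D g`: every CM subfield `F` of `K` that is Galois over `ℚ` has a commutative Galois group or
  satisfies `D [F : ℚ]² ≤ g`.
-/

open NumberField Module

namespace Pool.Agent.H52.CS

variable (K : Type) [Field K] [NumberField K]

/-- The number of the imaginary quadratic subfields. -/
noncomputable def NumQuad : ℕ :=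
  Nat.card {F : IntermediateField ℚ K // IsCMField F ∧ finrank ℚ F = 2}

/-- The number of the CM subfields of degree `4` or `6`. -/
noncomputable def NumSmall : ℕ :=
  Nat.card {F : IntermediateField ℚ K // IsCMField F ∧ (finrank ℚ F = 4 ∨ finrank ℚ F = 6)}

/-- Every Galois CM subfield is abelian or small. -/
def GalAbOrSmall (D g : ℕ) : Prop :=
  ∀ F : IntermediateField ℚ K, IsCMField F → IsGalois ℚ F →
    (∀ σ τ : F ≃ₐ[ℚ] F, σ * τ = τ * σ) ∨ D * finrank ℚ F ^ 2 ≤ g

end Pool.Agent.H52.CS
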