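import Mathlib
import Pool.Agent.H52.AD.BndA
import Pool.Agent.H52.AD.Dims
import Pool.Agent.H52.AD.SEst
import Pool.Agent.H52.CS.Defs
import Pool.Agent.H52.CS.YsCnt
import Pool.Agent.H52.CS.HomOne

/-!
# The Galois case, large dimension, group order prime to three (module H52 CS GalBig)

PROOF.  Let `d = dim W`, `e = dim Endo`, `ν = d` (`fix_eq_dim`), `g^19 < d^20`, `p = 3`.
Case `d = e`: then `ν = e` and by `hom_one` the range of every nonzero equivariant map is `W`, so every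
`Φ ∈ Fail` is orthogonal to `W`, and to `red 3 W` (`red_perp`).  By `count_r` with `l = 3`, `r = 1` (`d ≤ g`:
`dim_le_g`; `red_finrank`, `red_odd`, `red_stb`), `|Fail| ≤ 2^g Sf(3,1)^d ≤ 2^g (1/√2)^d` (`sf_one`), and
`(1/√2)^d ≤ 1/g²` for large `g` as `d ≥ g^(19/20)`.
Case `5 e ≤ d`: `n = d/e ≥ 5` (exact, `endo_dvd_dim`), `n d ≤ g` by the last hypothesis.  `b_main_e` with `p = 3`,
`r = n`: `2^e |Fail| ≤ 2^g 3^d Sf(3,n)^d`, and `Sf(3,n) = (1 + 2 (1/2)^n)/3` (`fN 3 t = 1/2` for `t ≠ 0`,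
`|cos(2π/3)| = 1/2`), so `|Fail| ≤ 2^g 2^(-e) (1 + 2^(1-n))^(n e)`.  Since
`(1 + 2^(1-n))^n ≤ exp(n 2^(1-n)) ≤ exp(5/16) ≤ 1.37` for `n ≥ 5` (`n 2^(1-n)` is decreasing), the bound is
`2^g 0.69^e`.  Finally `e = d/n ≥ d²/g ≥ g^(9/10)` (as `n ≤ g/d`), and `0.69^e ≤ 1/g²` for large `g`.
-/

namespace Pool.Agent.H52.CS

open Module Pool.Agent.H52.AD

/-- Powers are small compared with `g⁻²`. -/
private lemma galBig_pow (a : ℝ) (h0 : 0 ≤ a) (h1 : a < 1) : ∃ g₀ : ℕ, ∀ g : ℕ, g₀ ≤ g →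
    ∀ m : ℕ, g ^ 9 ≤ m ^ 10 → a ^ m ≤ 1 / (g : ℝ) ^ 2 := by
  have ht : Filter.Tendsto (fun n : ℕ => (n : ℝ) ^ 4 * a ^ n) Filter.atTop (nhds 0) :=
    tendsto_pow_const_mul_const_pow_of_lt_one 4 h0 h1
  have hev : ∀ᶠ n : ℕ in Filter.atTop, (n : ℝ) ^ 4 * a ^ n < 1 :=
    ht.eventually (gt_mem_nhds one_pos)
  obtain ⟨m₀, hm₀⟩ := Filter.eventually_atTop.1 hev
  refine ⟨m₀ ^ 2 + 1, fun g hg m hm => ?_⟩
  have hg1 : 1 ≤ g := by omega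
  have hg0 : (0 : ℝ) < g := by exact_mod_cast hg1
  have hmm : m₀ ≤ m := by
    by_contra hlt
    push Not at hlt
    have e1 : m ^ 10 < m₀ ^ 10 := Nat.pow_lt_pow_left hlt (by norm_num)
    have e2 : 1 ≤ m₀ := by omega
    have e3 : m₀ ^ 10 ≤ g ^ 9 := by
      calc m₀ ^ 10 ≤ m₀ ^ 18 := Nat.pow_le_pow_right e2 (by norm_num)
        _ = (m₀ ^ 2) ^ 9 := by ring
        _ ≤ g ^ 9 := Nat.pow_le_pow_left (by omega) 9
    omega
  have h4 : g ^ 2 ≤ m ^ 4 := by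
    have e1 : (g ^ 2) ^ 5 ≤ (m ^ 4) ^ 5 := by
      calc (g ^ 2) ^ 5 = g ^ 10 := by ring
        _ ≤ g ^ 18 := Nat.pow_le_pow_right hg1 (by norm_num)
        _ = (g ^ 9) ^ 2 := by ring
        _ ≤ (m ^ 10) ^ 2 := Nat.pow_le_pow_left hm 2
        _ = (m ^ 4) ^ 5 := by ring
    exact (Nat.pow_le_pow_iff_left (by norm_num)).1 e1
  have h5 : (g : ℝ) ^ 2 ≤ (m : ℝ) ^ 4 := by exact_mod_cast h4
  have h6 := hm₀ m hmm
  rw [le_div_iff₀ (by positivity)]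
  calc a ^ m * (g : ℝ) ^ 2 ≤ a ^ m * (m : ℝ) ^ 4 :=
        mul_le_mul_of_nonneg_left h5 (pow_nonneg h0 m)
    _ = (m : ℝ) ^ 4 * a ^ m := mul_comm _ _
    _ ≤ 1 := h6.le

/-- The value of `Sf 3 n`. -/
private lemma galBig_sf (n : ℕ) [NeZero (3 : ℕ)] : Sf 3 n = (1 + 2 * (1 / 2 : ℝ) ^ n) / 3 := by
  have hpi := Real.pi_pos
  have h0 : MF.fN 3 0 = 1 := by
    rw [sEst_fN_eq]
    simp
  have hc : Real.cos (2 * Real.pi * 1 / 3) = - (1 / 2) := by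
    rw [show 2 * Real.pi * 1 / 3 = Real.pi - Real.pi / 3 by ring, Real.cos_pi_sub,
      Real.cos_pi_div_three]
  have h1 : MF.fN 3 1 = 1 / 2 := by
    rw [sEst_fN_eq]
    have e1 : ((1 : ZMod 3).val : ℝ) = 1 := by
      have : (1 : ZMod 3).val = 1 := rfl
      rw [this]; norm_num
    have e2 : ((3 : ℕ) : ℝ) = 3 := by norm_num
    rw [e1, e2, hc]
    norm_num
  have h2 : MF.fN 3 2 = 1 / 2 := by
    have e1 : (2 : ZMod 3) = - 1 := by decide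
    rw [e1, MF.fN_neg, h1]
  unfold Sf
  have hs : ∑ t : ZMod 3, MF.fN 3 t ^ n = MF.fN 3 0 ^ n + MF.fN 3 1 ^ n + MF.fN 3 2 ^ n :=
    Fin.sum_univ_three (fun t : ZMod 3 => MF.fN 3 t ^ n)
  rw [hs, h0, h1, h2, one_pow]
  push_cast
  ring

private lemma galBig_num (n : ℕ) (hn : 5 ≤ n) : (1 + 2 * (1 / 2 : ℝ) ^ n) ^ n ≤ 3 / 2 := by
  have h1 : (2 * n : ℝ) ≤ 5 / 16 * 2 ^ n := by
    induction n, hn using Nat.le_induction with
    | base => norm_num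
    | succ n hn ih =>
      have e1 : (5 : ℝ) ≤ n := by exact_mod_cast hn
      push_cast
      rw [pow_succ]
      nlinarith
  have h2 : (0 : ℝ) < 2 ^ n := by positivity
  have h3 : (n : ℝ) * (2 * (1 / 2 : ℝ) ^ n) ≤ 5 / 16 := by
    rw [one_div, inv_pow]
    have : (n : ℝ) * (2 * ((2 : ℝ) ^ n)⁻¹) = (2 * n) / 2 ^ n := by
      field_simp
    rw [this, div_le_iff₀ h2]
    exact h1
  have h4 : (1 + 2 * (1 / 2 : ℝ) ^ n) ^ n ≤ Real.exp (5 / 16) := by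
    have e1 : 1 + 2 * (1 / 2 : ℝ) ^ n ≤ Real.exp (2 * (1 / 2 : ℝ) ^ n) := by
      have := Real.add_one_le_exp (2 * (1 / 2 : ℝ) ^ n)
      linarith
    calc (1 + 2 * (1 / 2 : ℝ) ^ n) ^ n ≤ Real.exp (2 * (1 / 2 : ℝ) ^ n) ^ n :=
          pow_le_pow_left₀ (by positivity) e1 n
      _ = Real.exp (n * (2 * (1 / 2 : ℝ) ^ n)) := by rw [← Real.exp_nat_mul]
      _ ≤ Real.exp (5 / 16) := Real.exp_le_exp.2 h3
  have h5 : Real.exp (5 / 16) ≤ 3 / 2 := by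
    have e1 := Real.add_one_le_exp (-(5 / 16) : ℝ)
    have e2 : Real.exp (5 / 16) * Real.exp (-(5 / 16)) = 1 := by
      rw [← Real.exp_add]; norm_num
    have e3 := Real.exp_pos (5 / 16)
    nlinarith
  exact h4.trans h5

theorem gal_big : ∃ g₀ : ℕ, ∀ {X : Type} [Fintype X] {c : Equiv.Perm X}
    {𝒢 : Subgroup (Equiv.Perm X)} {g : ℕ} {W : Submodule ℚ (X → ℚ)}, Sys c 𝒢 g → Smp c 𝒢 W →
    Gal 𝒢 W → ∀ x₀ : X, g₀ ≤ g → ¬ 3 ∣ Nat.card (Gm 𝒢 W) →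
    (finrank ℚ W = finrank ℚ (Endo 𝒢 W) ∨ 5 * finrank ℚ (Endo 𝒢 W) ≤ finrank ℚ W) →
    g ^ 19 < finrank ℚ W ^ 20 →
    finrank ℚ W * (finrank ℚ (Fix 𝒢 x₀ W) / finrank ℚ (Endo 𝒢 W)) ≤ g →
    (Nat.card (Fail c 𝒢 W) : ℝ) ≤ 2 ^ g * (1 / (g : ℝ) ^ 2) := by
  classical
  obtain ⟨g₁, hg₁⟩ := galBig_pow (2 / 3) (by norm_num) (by norm_num)
  obtain ⟨g₂, hg₂⟩ := galBig_pow (3 / 4) (by norm_num) (by norm_num)
  refine ⟨max g₁ g₂, ?_⟩
  intro X _ c 𝒢 g W hS hW hGal x₀ hg h3 hcase hdg hng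
  have hg1 : 1 ≤ g := hS.pos
  have hν : finrank ℚ (Fix 𝒢 x₀ W) = finrank ℚ W := (fix_eq_dim hS hW x₀).2 hGal
  have : Fact (Nat.Prime 3) := ⟨Nat.prime_three⟩
  have : NeZero (3 : ℕ) := ⟨by norm_num⟩
  have hodd : Odd 3 := by decide
  rcases hcase with hde | hde
  · -- multiplicity one
    have hT : (Nat.card {Φ : Set X // (∀ x, c x ∈ Φ ↔ x ∉ Φ) ∧
        ∀ f ∈ red 3 W, ∑ x, (if x ∈ Φ then f x else 0) = 0} : ℝ) ≤
        2 ^ g * Sf 3 1 ^ finrank ℚ W := by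
      refine count_r c hS.cc hS.ne 𝒢 hS.trans g hS.pos hS.card 3 hodd (red 3 W)
        (red_odd 3 hW.2.1) (red_stb 3 hW.2.2.1) (finrank ℚ W) (red_finrank 3 W) 1 ?_
      rw [one_mul]
      exact dim_le_g hS hW.2.1
    have hle : Nat.card (Fail c 𝒢 W) ≤ Nat.card {Φ : Set X // (∀ x, c x ∈ Φ ↔ x ∉ Φ) ∧
        ∀ f ∈ red 3 W, ∑ x, (if x ∈ Φ then f x else 0) = 0} := by
      refine Nat.card_le_card_of_injective
        (fun Φ : Fail c 𝒢 W => (⟨Φ.1, ?_⟩ : {Φ : Set X // (∀ x, c x ∈ Φ ↔ x ∉ Φ) ∧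
        ∀ f ∈ red 3 W, ∑ x, (if x ∈ Φ then f x else 0) = 0})) ?_
      · obtain ⟨Φ, hΦ, φ, h0, hφ, hperp⟩ := Φ
        refine ⟨hΦ, red_perp 3 Φ ?_⟩
        intro f hf
        have hr := hom_one hS hW x₀ (hν.trans hde) φ hφ h0
        rw [← hr] at hf
        obtain ⟨w, rfl⟩ := hf
        exact hperp w
      · intro Φ Φ' h
        have h2 := congrArg (fun q : {Φ : Set X // (∀ x, c x ∈ Φ ↔ x ∉ Φ) ∧
          ∀ f ∈ red 3 W, ∑ x, (if x ∈ Φ then f x else 0) = 0} => (q.1 : Set X)) h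
        exact Subtype.ext h2
    have hle' : (Nat.card (Fail c 𝒢 W) : ℝ) ≤ 2 ^ g * Sf 3 1 ^ finrank ℚ W :=
      le_trans (by exact_mod_cast hle) hT
    refine hle'.trans ?_
    rw [galBig_sf]
    refine mul_le_mul_of_nonneg_left ?_ (by positivity)
    have e1 : (1 + 2 * (1 / 2 : ℝ) ^ 1) / 3 = 2 / 3 := by norm_num
    rw [e1]
    refine hg₁ g (le_trans (le_max_left _ _) hg) _ ?_
    have e2 : (g ^ 9) ^ 2 ≤ (finrank ℚ W ^ 10) ^ 2 := by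
      calc (g ^ 9) ^ 2 = g ^ 18 := by ring
        _ ≤ g ^ 19 := Nat.pow_le_pow_right hg1 (by norm_num)
        _ ≤ finrank ℚ W ^ 20 := hdg.le
        _ = (finrank ℚ W ^ 10) ^ 2 := by ring
    exact (Nat.pow_le_pow_iff_left (by norm_num)).1 e2
  · obtain ⟨n, hn⟩ := endo_dvd_dim hW
    have he := endo_pos hW
    rw [hν] at hng
    have hdiv : finrank ℚ W / finrank ℚ (Endo 𝒢 W) = n := by
      rw [hn]; exact Nat.mul_div_cancel_left n he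
    rw [hdiv] at hng
    have hn5 : 5 ≤ n := by
      rw [hn, mul_comm] at hde
      exact Nat.le_of_mul_le_mul_left hde he
    have hmain := b_main_e hS hW x₀ 3 hodd h3 n (by rw [mul_comm]; exact hng)
    rw [galBig_sf, hν] at hmain
    obtain ⟨d, hd⟩ : ∃ d, d = finrank ℚ W := ⟨_, rfl⟩
    obtain ⟨e, hee⟩ : ∃ e, e = finrank ℚ (Endo 𝒢 W) := ⟨_, rfl⟩
    rw [← hd, ← hee] at hmain
    rw [← hd] at hdg hng
    rw [← hd, ← hee] at hn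
    have hmul : (3 : ℝ) ^ d * ((1 + 2 * (1 / 2 : ℝ) ^ n) / 3) ^ d =
        ((1 + 2 * (1 / 2 : ℝ) ^ n) ^ n) ^ e := by
      rw [← mul_pow, mul_div_cancel₀ _ (by norm_num : (3 : ℝ) ≠ 0), ← pow_mul, hn, mul_comm e n]
    have h6 : (2 : ℝ) ^ e * Nat.card (Fail c 𝒢 W) ≤ 2 ^ g * (3 / 2) ^ e := by
      have e1 : (((3 : ℕ) : ℝ) - 1) = 2 := by norm_num
      have e2 : ((3 : ℕ) : ℝ) = 3 := by norm_num
      rw [e1, e2, mul_assoc ((2 : ℝ) ^ g), hmul] at hmain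
      refine hmain.trans ?_
      refine mul_le_mul_of_nonneg_left ?_ (by positivity)
      exact pow_le_pow_left₀ (by positivity) (galBig_num n hn5) e
    have h7 : (Nat.card (Fail c 𝒢 W) : ℝ) ≤ 2 ^ g * (3 / 4) ^ e := by
      have e1 : (0 : ℝ) < 2 ^ e := by positivity
      refine le_of_mul_le_mul_left ?_ e1
      calc (2 : ℝ) ^ e * Nat.card (Fail c 𝒢 W) ≤ 2 ^ g * (3 / 2) ^ e := h6
        _ = 2 ^ e * (2 ^ g * (3 / 4) ^ e) := by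
          rw [show (3 / 2 : ℝ) = 2 * (3 / 4) by norm_num, mul_pow]
          ring
    refine h7.trans ?_
    refine mul_le_mul_of_nonneg_left ?_ (by positivity)
    refine hg₂ g (le_trans (le_max_right _ _) hg) e ?_
    have e3 : (g ^ 9) ^ 2 * g ^ 20 ≤ (e ^ 10) ^ 2 * g ^ 20 := by
      calc (g ^ 9) ^ 2 * g ^ 20 = (g ^ 19) ^ 2 := by ring
        _ ≤ (d ^ 20) ^ 2 := Nat.pow_le_pow_left hdg.le 2
        _ = (d * d) ^ 20 := by ring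
        _ = (e * (d * n)) ^ 20 := by
            congr 1
            nth_rewrite 1 [hn]
            ring
        _ ≤ (e * g) ^ 20 := Nat.pow_le_pow_left (Nat.mul_le_mul_left e hng) 20
        _ = (e ^ 10) ^ 2 * g ^ 20 := by ring
    have e4 : (g ^ 9) ^ 2 ≤ (e ^ 10) ^ 2 := Nat.le_of_mul_le_mul_right e3 (by positivity)
    exact (Nat.pow_le_pow_iff_left (by norm_num)).1 e4

end Pool.Agent.H52.CS
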